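import Pool.Agent.Lib.MP_1e63be_al.Z47.Rk
import Pool.Agent.Lib.MP_1e63be_al.Defs

/-!
Statements of the blocks, and the assembly.
-/

namespace Z47

open Set Filter Topology Module Pool.Agent.Lib.MP_1e63be_al

/-- The finite type subspace for a bilinear map `τ`. -/
def TyF {C W W' : Type} [AddCommGroup C] [Module F C] [AddCommGroup W] [Module F W]
    [AddCommGroup W'] [Module F W'] (τ : C →ₗ[F] W →ₗ[F] W') (H : ℕ → Submodule F W)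
    (l : C → ℕ∞) : Submodule F W' := ⨆ c, Submodule.map (τ c) (ENat.recTopCoe ⊥ H (l c))

/-- The finite first moment lemma. -/
def St_FL : Prop := ∀ (W : Type) [AddCommGroup W] [Module F W] [Finite W] (m e : ℕ)
  (H : ℕ → Submodule F W) (S : ℕ → ℕ), Antitone H → Antitone S → S (m + 1) = 0 →
  (∀ j, S j ≤ finrank F (H j)) → ∀ (T : Type) [Finite T] (C W' : T → Type)
  [∀ t, AddCommGroup (C t)] [∀ t, Module F (C t)] [∀ t, Finite (C t)] [∀ t, AddCommGroup (W' t)]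
  [∀ t, Module F (W' t)] [∀ t, Finite (W' t)] (τ : ∀ t, C t →ₗ[F] W →ₗ[F] W' t)
  (Y : ∀ t, Submodule F (W' t)), (Nat.card T + m + 2) * (m + 2) ^ 2 ≤ e →
  (∀ t, (Nat.card T + m + 2) * (m + 2) ^ Nat.card (C t) ≤ e) →
  ∃ G : Submodule F W, G ≤ H 0 ∧ (∀ j ≤ m, S j ≤ finrank F ↥(G ⊓ H j) + e ∧
    ∃ i ≤ j, finrank F ↥(G ⊓ H j) + finrank F (H i) ≤ e + S i + finrank F (H j)) ∧
    ∀ t, ∃ l : C t → ℕ∞,
      finrank F ↥(Y t ⊓ ⨆ c, G.map (τ t c)) ≤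
        finrank F ↥(Y t ⊓ (⨆ c, G.map (τ t c)) ⊓ TyF (τ t) H l) + e ∧
      finrank F (TyF (τ t) H l) ≤
        finrank F ↥(TyF (τ t) H l ⊓ ((Y t ⊓ TyF (τ t) H l) ⊔ ⨆ c, G.map (τ t c))) + e

/-- The ambient space exists. -/
def St_AMB : Prop := Nonempty Amb

/-- Von Neumann regular rings. -/
def Reg (R : Type) [Ring R] : Prop := ∀ x : R, ∃ y, x * y * x = x

/-- The module `R / J` is uniform. -/
def Unif {R : Type} [Ring R] (J : Ideal R) : Prop :=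
  ∀ a ∉ J, ∀ b ∉ J, ∃ r s, r * a - s * b ∈ J ∧ r * a ∉ J

/-- One simple left module embeds in every uniform cyclic module. -/
def LeftOne (R : Type) [Ring R] : Prop := ∃ I : Ideal R, I.IsMaximal ∧
  ∀ J : Ideal R, J ≠ ⊤ → Unif J → ∃ v ∉ J, ∀ i ∈ I, i * v ∈ J

/-- Two simple left modules without homomorphisms. -/
def LeftTwo (R : Type) [Ring R] : Prop := ∃ I J : Ideal R, I.IsMaximal ∧ J.IsMaximal ∧
  ∀ u, (∀ i ∈ I, i * u ∈ J) → u ∈ J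

/-- From ring theory to the spectra. -/
def St_WRAP : Prop := ∀ (R : Type) [Ring R], Reg R → LeftOne R → LeftTwo Rᵐᵒᵖ →
  HasCBRank (Zg R) 0 ∧ HasCBRank (Zg Rᵐᵒᵖ) ⊤ ∧ Subsingleton (Zg R) ∧ Nontrivial (Zg Rᵐᵒᵖ) ∧
    ∀ U : Set (Zg Rᵐᵒᵖ), IsOpen U → U = ∅ ∨ U = univ

section
variable [Amb]

/-- The subspaces that are pp definable from the `G ξ`, `ξ ∈ Φ`. -/
def cdf {I : Type} (G : I → AddSubgroup (M × M)) (Φ : Set I) {X : Type} [AddCommGroup X]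
    [Module E X] (A : AddSubgroup X) : Prop :=
  ∃ (m k n : ℕ) (t : Fin k → I) (f : (Fin m → M) → X) (g : (Fin m → M) → Fin k → M × M)
    (h : (Fin m → M) → Fin n → M), Lin f ∧ Lin g ∧ Lin h ∧ (∀ i, t i ∈ Φ) ∧
    ∀ x, x ∈ A ↔ ∃ w, (∀ i, g w i ∈ G (t i)) ∧ h w = 0 ∧ f w = x

/-- The definable classes. -/
def St_CLS : Prop := ∀ (I : Type) (G : I → AddSubgroup (M × M)), (∀ ξ, P.df (G ξ)) →
  ∃ L : Set I → Cl, (∀ Φ (X : Type) [AddCommGroup X] [Module E X] (A : AddSubgroup X),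
    (L Φ).df A ↔ cdf G Φ A) ∧ (∀ Φ ξ, Ext (L Φ) (G ξ) (L (insert ξ Φ))) ∧
    ∀ Φ (X : Type) [AddCommGroup X] [Module E X] [Std X],
      Cardinal.mk {A : AddSubgroup X | cdf G Φ A} ≤ max (Cardinal.mk Φ) Cardinal.aleph0

/-- Generic subspaces for the three kinds of packages. -/
def St_PKG : Prop := ∀ L : Cl,
  (∀ k, Cardinal.mk {A : AddSubgroup (Fin k → M × M) | L.df A} ≤ Cardinal.continuum) →
  (∀ r : ℝ, 0 ≤ r → r ≤ 1 → ∃ p : Pkg, p.Pure ∧ (∀ L₀, p.Ok L₀) ∧ Gen p.H p.G L.toPP ∧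
    ρ p.Pr = r) ∧
  ∀ (L₀ : Cl) (a b : ℕ → AddSubgroup M), Chn L₀ a → Chn L₀ b → (∀ j, ¬ a j ≤ a (j + 1)) →
    ∃ G, (Pkg.mk a b G).Ok L₀ ∧ (Pkg.mk a b G).Gr ∧ Gen (Pkg.mk a b G).H G L.toPP

/-- The system exists. -/
def St_REC : Prop := Nonempty Sys

/-- Reduced presentations. -/
def St_NF : Prop := ∀ {L L' : Cl} {p : Pkg}, Step L L' p → ∀ {X : Type} [AddCommGroup X]
  [Module E X] [Std X] {A : AddSubgroup X}, L'.df A →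
  ∃ (μ : Type) (_ : Finite μ) (Z : AddSubgroup (X × (μ → M × M))), Pres L p A Z

/-- Hulls. -/
def St_HL : Prop := ∀ {L L' : Cl} {p : Pkg}, Step L L' p → ∀ {X : Type} [AddCommGroup X]
  [Module E X] [Std X] {Y : ℕ → AddSubgroup X}, Up L Y → DSame Y L L'

/-- Exchange. -/
def St_EXCH : Prop := ∀ {L L₁ L₂ : Cl} {H H' : ℕ → AddSubgroup (M × M)}
  {G G' : AddSubgroup (M × M)}, Gen H G L.toPP → Ext L G L₁ → Gen H' G' L₁.toPP → Ext L G' L₂ →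
  (∀ j, L.df (H' j)) → Gen H G L₂.toPP

/-- Killing packages. -/
def St_TH : Prop := ∀ {L L' : Cl} {p : Pkg}, Step L L' p → p.IsK → Thin L p.a → TH L p ∧ L0 L p

/-- Gluing packages. -/
def St_L0G : Prop := ∀ {L L' : Cl} {p : Pkg} {d : ℕ} {y : Fin d → E}, Step L L' p → p.Gr →
  GOk L p.a p.b d y → Orth L p.bi p.ai → L0 L p

/-- Gluing packages glue. -/
def St_GLUE : Prop := ∀ {L L' : Cl} {p : Pkg} {d : ℕ} {y : Fin d → E}, Step L L' p → p.Gr →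
  GOk L p.a p.b d y → L0 L p → Glued L L' p.bi p.ai

/-- Pure packages. -/
def St_PURE : Prop := ∀ {L L' : Cl} {p : Pkg}, Step L L' p → p.Pure → L'.df p.Pr ∧
  (∀ A, L.df A → A ⊓ p.Pr = ⊥ ∨ A ⊔ p.Pr = ⊤) ∧
  ∀ (μ : Type) [Finite μ] (A : AddSubgroup (μ → M)), L.df A →
    ∃ C, A ⊓ pw p.Pr ≤ WC C ∧ WC C ≤ (A ⊓ WC C) ⊔ pw p.Pr

/-- Traces are kept. -/
def St_S0 : Prop := ∀ {L L' : Cl} {p : Pkg}, Step L L' p → L0 L p → ∀ {X : Type} [AddCommGroup X]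
  [Module E X] [Std X] {S : AddSubgroup X}, L.td.df S → Small L S → NM L p.ai S → Same S L L'

/-- One step for atoms with infinitely many endomorphisms. -/
def St_P2S : Prop := ∀ {L₀ L L' : Cl} {p : Pkg}, Step L L' p → L0 L p → L₀.Le L →
  ∀ {κ : AddSubgroup M}, L.td.df κ → Small L κ →
  (∀ n, ∃ z : Fin n → E, (∀ i, En L₀ κ (z i)) ∧ ∀ i j, i ≠ j → ∀ v ∈ κ, z i • v = z j • v → v = 0) →
  P2 L₀ L κ → P2 L₀ L' κ

/-- The chain of a killing package stays without finite quotients. -/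
def St_KE : Prop := ∀ {L L' : Cl} {p : Pkg}, Step L L' p → p.IsK → Thin L p.a → TH L p → L0 L p →
  NFs L p.ai → NFs L' p.ai

/-- Absence of finite quotients persists. -/
def St_NFP : Prop := ∀ {L L' : Cl} {p : Pkg}, Step L L' p → L0 L p → ∀ {S : AddSubgroup M},
  L.td.df S → Small L S → NFs L S → NM L S p.Hi ∨ NFs L' p.ai → NFs L' S

/-- Transport of gluing along an isomorphism of atoms. -/
def St_TRG : Prop := ∀ {L₀ L L' : Cl} {σ β κ : AddSubgroup M}, L₀.Le L → L.Le L' → Cmp L₀ →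
  L₀.td.df κ → L.td.df β → Atom L κ → Atom L β → Same (κ.prod κ) L₀ L → ¬ Orth L β κ →
  Glued L L' σ β → Glued L₀ L' σ κ

/-- Glued atoms. -/
def St_P2G : Prop := ∀ {L₀ L : Cl} {σ κ : AddSubgroup M}, L₀.Le L → Cmp L₀ → L₀.td.df κ →
  σ ≠ ⊥ → Atom L₀ κ → Fin2 L₀ κ → Ratl L σ → Glued L₀ L σ κ → P2 L₀ L κ

section
variable [Sys]

/-- Genericity over all closed sets. -/
def St_STEP : Prop := ∀ {ξ Φ}, Closed Φ → ξ ∉ Φ → dep ξ ⊆ Φ → Step (L Φ) (L (insert ξ Φ)) (p ξ)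

/-- Interiors. -/
def St_INT : Prop := ∀ {B Φ}, Closed B → Closed Φ → B ⊆ Φ → ∀ {X : Type} [AddCommGroup X]
  [Module E X] [Std X] {A : AddSubgroup X}, (L Φ).df A → ∃ A₀, IsInt (L B) A A₀

/-- Hulls over a base. -/
def St_DS : Prop := ∀ {B}, Closed B → ∀ {X : Type} [AddCommGroup X] [Module E X] [Std X]
  {Y : ℕ → AddSubgroup X}, Up (L B) Y → DSame Y (L B) (L univ)

/-- The base point. -/
def St_SIG : Prop := Chn (L (range q)) sig ∧ (∀ j, ρ (sig j) = 2⁻¹ ^ j) ∧ ⨅ j, sig j = si ∧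
  si ≠ ⊥ ∧ Closed (range q) ∧ Ratl (L (range q)) si

/-- The base point stays rational. -/
def St_RAT : Prop := ∀ {Φ Λ}, Ctx Φ Λ → range q ⊆ Φ ∩ Λ → Ratl (L Φ) si

/-- Atoms over a nice base. -/
def St_P2 : Prop := ∀ {Φ Λ B}, Ctx Φ Λ → Nice B → B ⊆ Φ ∩ Λ → ∀ {κ : AddSubgroup M},
  (L B).td.df κ → Small (L B) κ → Atom (L B) κ → P2 (L B) (L Φ) κ ∧
  (Fin2 (L B) κ → Glued (L B) (L Φ) si κ ∨ Same (κ.prod κ) (L B) (L Φ))

/-- Sealing. -/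
def St_SEAL : Prop := ∀ {Φ Λ B}, Ctx Φ Λ → Nice B → B ⊆ Φ ∩ Λ → Seal (L B) (L Φ)

/-- The invariant of killing tasks. -/
def St_GK : Prop := ∀ {Φ Λ ξ}, Ctx Φ Λ → dep ξ ⊆ Φ ∩ Λ → K ξ →
  Thin (L Φ) (p ξ).a ∧ NFs (L Φ) (p ξ).ai

/-- The invariant of gluing tasks. -/
def St_GG : Prop := ∀ {Φ Λ ξ}, Ctx Φ Λ → dep ξ ⊆ Φ ∩ Λ → ξ ∉ Φ → Gk ξ →
  Same ((p ξ).ai.prod (p ξ).ai) (L (dep ξ)) (L Φ) ∧ Orth (L Φ) si (p ξ).ai

/-- The invariant holds. -/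
def St_GOOD : Prop := Ctx univ univ

/-- Nice bases exist. -/
def St_NICE : Prop := Cmp (L univ) ∧
  ∀ w : ∀ n, AddSubgroup (Fin n → M) → AddSubgroup (Fin n → M) → AddSubgroup M,
    (∀ n A₃ A₄, (L univ).df (w n A₃ A₄)) → ∃ B, Nice B ∧
      ∀ n A₃ A₄, (L B).df A₃ → (L B).df A₄ → (L B).df (w n A₃ A₄)

/-- Atoms exist and are small. -/
def St_ATOM : Prop := ∀ {B}, Nice B → ∀ {S : AddSubgroup M}, (L B).td.df S →
  (Atom (L B) S → Small (L B) S) ∧ (S ≠ ⊥ → ∃ κ ≤ S, (L B).td.df κ ∧ Atom (L B) κ)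

/-- Chains for killing tasks. -/
def St_TASKK : Prop := ∀ {B : Set I}, B.Countable → ∀ {S : AddSubgroup M}, (L B).td.df S →
  Small (L B) S → S ≠ ⊥ →
  ∃ a, Chn (L B) a ∧ (∀ j, ¬ a j ≤ a (j + 1)) ∧ ThinB (L B) a ∧ ⨅ j, a j = S

/-- Chains for gluing tasks. -/
def St_TASKG : Prop := ∀ {B}, Nice B → ∀ {κ : AddSubgroup M}, (L B).td.df κ → Small (L B) κ →
  Atom (L B) κ → Fin2 (L B) κ → ∃ a b d y, Chn (L B) a ∧ Chn (L B) b ∧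
    (∀ j, ¬ a j ≤ a (j + 1)) ∧ GOk (L B) a b d y ∧ ⨅ j, b j = si ∧ ⨅ j, a j = κ

/-- The ring. -/
def RR : Subring E where
  carrier := {y | (L univ).Dy y}
  mul_mem' := PP.Dy.mul
  one_mem' := PP.Dy.one
  add_mem' := PP.Dy.add
  zero_mem' := PP.Dy.zero
  neg_mem' := PP.Dy.neg

/-- Left ideals are annihilators of type-definable subspaces over nice bases. -/
def St_FILT : Prop := Reg RR ∧ ∀ J : Ideal RR, J ≠ ⊤ → ∃ B S, Nice B ∧ (L B).td.df S ∧ S ≠ ⊥ ∧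
  ∀ x : RR, x ∈ J ↔ ∀ v ∈ (S : AddSubgroup M), x.1 • v = 0

/-- Splitting. -/
def St_NU : Prop := ∀ {B}, Nice B → ∀ {S : AddSubgroup M}, (L B).td.df S → S ≠ ⊥ →
  ¬ Small (L B) S ∨ NFs (L B) S → ∃ A₁ A₂, (L univ).df A₁ ∧ (L univ).df A₂ ∧ ¬ S ≤ A₁ ∧ ¬ S ≤ A₂ ∧
    S ≤ (A₁ ⊓ S) ⊔ (A₂ ⊓ S)

/-- Maps to the base point. -/
def St_MAP : Prop := ∀ {B}, Nice B → ∀ {S : AddSubgroup M}, (L B).td.df S → ¬ NFs (L B) S →
  ∃ x : E, (L univ).Dy x ∧ (∀ v ∈ S, x • v ∈ si) ∧ ∃ v ∈ S, x • v ≠ 0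

/-- The left side. -/
def St_LEFT : Prop := LeftOne RR

/-- The right side. -/
def St_RIGHT : Prop := LeftTwo RRᵐᵒᵖ

end
end

theorem main_of (h1 : St_AMB) (h2 : ∀ [Amb], St_REC) (h3 : ∀ [Amb] [Sys], St_FILT)
    (h4 : ∀ [Amb] [Sys], St_LEFT) (h5 : ∀ [Amb] [Sys], St_RIGHT) (h6 : St_WRAP) :
    ∃ (R : Type) (_ : Ring R), HasCBRank (Zg R) 0 ∧ HasCBRank (Zg Rᵐᵒᵖ) ⊤ ∧
      Subsingleton (Zg R) ∧ Nontrivial (Zg Rᵐᵒᵖ) ∧
      ∀ U : Set (Zg Rᵐᵒᵖ), IsOpen U → U = ∅ ∨ U = univ := by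
  obtain ⟨a⟩ := h1
  obtain ⟨s⟩ := @h2 a
  exact ⟨RR, inferInstance, h6 _ h3.1 h4 h5⟩

end Z47
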