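import Pool.Agent.Lib.MP_1e63be_al.Z9.Core
import Pool.Agent.Lib.MP_1e63be_al.Z47.Blue

/-!
The ambient space exists.
-/

namespace Z47.AMB

open Set Filter Topology Pool.Agent.Lib.MP_1e63be_al

section
variable [Amb0] {X Y : Type} [AddCommGroup X] [Module E X] [AddCommGroup Y] [Module E Y]
  {ι κ : Type}

/-- Transport along a chart. -/
def tr (φ : X ≃ₗ[E] (ι → M)) : AddSubgroup X ≃o Submodule F (ι → M) :=
  φ.toAddEquiv.mapAddSubgroup.trans (AddSubgroup.toZModSubmodule 2)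

theorem mem_tr (φ : X ≃ₗ[E] (ι → M)) (S : AddSubgroup X) (x : X) : φ x ∈ tr φ S ↔ x ∈ S :=
  ⟨fun ⟨_, h, e⟩ => φ.injective e ▸ h, fun h => ⟨x, h, rfl⟩⟩

theorem tr_ext (φ : X ≃ₗ[E] (ι → M)) {S : AddSubgroup X} {T : Submodule F (ι → M)}
    (h : ∀ x, x ∈ S ↔ φ x ∈ T) : tr φ S = T := by
  ext y
  obtain ⟨x, rfl⟩ := φ.surjective y
  rw [mem_tr, h]

theorem lin_mat [Fintype ι] (φ : X ≃ₗ[E] (ι → M)) (ψ : Y ≃ₗ[E] (κ → M)) {f : X → Y}
    (hf : Lin f) : ∃ c : κ → ι → F, ∀ x, ψ (f x) = Z9.mat c M (φ x) := by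
  classical
  choose c hc using fun (b : κ) (a : ι) =>
    Z9.commutant (fun v : M => ψ (f (φ.symm (Pi.single a v))) b) fun e v => by
      have : (Pi.single a (e v) : ι → M) = e • (Pi.single a v : ι → M) := by
        rw [← Pi.single_smul]; rfl
      simp only [this, map_smul, hf.smul]
      rfl
  refine ⟨c, fun x => funext fun b => ?_⟩
  obtain ⟨y, rfl⟩ := φ.symm.surjective x
  rw [LinearEquiv.apply_symm_apply, Z9.mat_apply]
  conv_lhs => rw [← Finset.univ_sum_single y]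
  have : ∀ z, f z = hf.hom z := fun _ => rfl
  rw [map_sum, this, map_sum, map_sum, Finset.sum_apply]
  exact Finset.sum_congr rfl fun a _ => hc b a (y a)

theorem tr_map [Fintype ι] {φ : X ≃ₗ[E] (ι → M)} {ψ : Y ≃ₗ[E] (κ → M)} {f : X → Y}
    {c : κ → ι → F} (hc : ∀ x, ψ (f x) = Z9.mat c M (φ x)) {A : AddSubgroup X}
    {B : AddSubgroup Y} (h : ∀ y, y ∈ B ↔ ∃ x ∈ A, f x = y) :
    tr ψ B = (tr φ A).map (Z9.mat c M) := by
  refine tr_ext ψ fun y => (h y).trans ⟨?_, ?_⟩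
  · rintro ⟨x, hx, rfl⟩
    exact ⟨φ x, (mem_tr φ A x).2 hx, (hc x).symm⟩
  · rintro ⟨z, hz, e⟩
    obtain ⟨x, rfl⟩ := φ.surjective z
    exact ⟨x, (mem_tr φ A x).1 hz, ψ.injective ((hc x).trans e)⟩

theorem lin_id : Lin fun x : X => x := ⟨fun _ _ => rfl, fun _ _ => rfl⟩

variable (C : Z9.Core M)

/-- Definable subspaces. -/
def Df (S : AddSubgroup X) : Prop :=
  ∃ (ι : Type) (_ : Fintype ι) (φ : X ≃ₗ[E] (ι → M)), C.Q (tr φ S)

/-- The rank. -/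
noncomputable def rho (S : AddSubgroup X) : ℝ :=
  Classical.epsilon fun t =>
    ∃ (ι : Type) (_ : Fintype ι) (φ : X ≃ₗ[E] (ι → M)), C.Q (tr φ S) ∧ C.R (tr φ S) = t

variable {C} [Fintype ι] [Fintype κ]

theorem Df.q {S : AddSubgroup X} (h : Df C S) (φ : X ≃ₗ[E] (ι → M)) : C.Q (tr φ S) := by
  obtain ⟨κ, _, ψ, h⟩ := h
  obtain ⟨c, hc⟩ := lin_mat ψ φ lin_id
  rw [tr_map hc (A := S) (by simp)]
  exact C.map c h

theorem Df.rho_eq {S : AddSubgroup X} (h : Df C S) (φ : X ≃ₗ[E] (ι → M)) :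
    rho C S = C.R (tr φ S) := by
  obtain ⟨κ, _, ψ, h1, h2⟩ := Classical.epsilon_spec (p := fun t =>
    ∃ (ι : Type) (_ : Fintype ι) (φ : X ≃ₗ[E] (ι → M)), C.Q (tr φ S) ∧ C.R (tr φ S) = t)
    ⟨_, ι, inferInstance, φ, h.q φ, rfl⟩
  obtain ⟨c, hc⟩ := lin_mat ψ φ lin_id
  have h3 := C.R_map c h1
  have h4 : tr ψ S ⊓ (⊥ : Submodule F (ι → M)).comap (Z9.mat c M) = ⊥ := by
    rw [eq_bot_iff]
    rintro z ⟨_, hz⟩
    obtain ⟨x, rfl⟩ := ψ.surjective z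
    have : φ x = 0 := (hc x).trans hz
    rw [(map_eq_zero_iff φ φ.injective).1 this, map_zero]
    exact Submodule.zero_mem _
  rw [h4, C.R_bot, add_zero, ← tr_map hc (B := S) (by simp)] at h3
  exact h2.symm.trans h3.symm

variable (C) in
/-- The class of definable subspaces. -/
def cls : PP where
  df := Df C
  top := fun {_} _ _ h => let ⟨_, ⟨φ⟩⟩ := h.ex; ⟨_, inferInstance, φ, by rw [OrderIso.map_top]; exact C.top⟩
  bot := fun {_} _ _ h => let ⟨_, ⟨φ⟩⟩ := h.ex; ⟨_, inferInstance, φ, by rw [OrderIso.map_bot]; exact C.bot⟩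
  inf := fun {_} _ _ h {_ _} a b => let ⟨_, ⟨φ⟩⟩ := h.ex
    ⟨_, inferInstance, φ, by rw [OrderIso.map_inf]; exact C.inf (a.q φ) (b.q φ)⟩
  map := fun {_ _} _ _ h _ _ h' {_ _ _} hf a e => by
    obtain ⟨_, ⟨φ⟩⟩ := h.ex
    obtain ⟨_, ⟨ψ⟩⟩ := h'.ex
    obtain ⟨c, hc⟩ := lin_mat φ ψ hf
    exact ⟨_, inferInstance, ψ, by rw [tr_map hc e]; exact C.map c (a.q φ)⟩
  comap := fun {_ _} _ _ h _ _ h' {_ A B} hf b e => by
    obtain ⟨_, ⟨φ⟩⟩ := h.ex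
    obtain ⟨_, ⟨ψ⟩⟩ := h'.ex
    obtain ⟨c, hc⟩ := lin_mat φ ψ hf
    have : tr φ A = (tr ψ B).comap (Z9.mat c M) :=
      tr_ext φ fun x => by rw [e, Submodule.mem_comap, ← hc, mem_tr]
    exact ⟨_, inferInstance, φ, by rw [this]; exact C.comap c (b.q ψ)⟩

theorem Df.sup {A B : AddSubgroup X} (a : Df C A) (b : Df C B) : Df C (A ⊔ B) :=
  let ⟨_, _, φ, h⟩ := a
  ⟨_, inferInstance, φ, by rw [OrderIso.map_sup]; exact C.sup h (b.q φ)⟩

theorem Df.inf {A B : AddSubgroup X} (a : Df C A) (b : Df C B) : Df C (A ⊓ B) :=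
  let ⟨_, _, φ, h⟩ := a
  ⟨_, inferInstance, φ, by rw [OrderIso.map_inf]; exact C.inf h (b.q φ)⟩

end

section
variable [Amb0] {X : Type} [AddCommGroup X] [Module E X] {ι : Type} (μ : Type)
  (φ : X ≃ₗ[E] (ι → M))

/-- The chart of a power. -/
def pch : (μ → X) ≃ₗ[E] (μ × ι → M) :=
  (LinearEquiv.piCongrRight fun _ => φ).trans (LinearEquiv.curry E M μ ι).symm

theorem pch_apply (x : μ → X) (q : μ × ι) : pch μ φ x q = φ (x q.1) q.2 := rfl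

theorem pch_tens (c : μ → F) (x : X) : pch μ φ (tens c x) = Z9.tau μ ι M c (φ x) := by
  funext q
  rw [pch_apply, Z9.tau_apply, tens, map_smul]
  rfl

theorem tr_tn (c : μ → F) (A : AddSubgroup X) :
    tr (pch μ φ) (tn c A) = (tr φ A).map (Z9.tau μ ι M c) := by
  refine tr_ext _ fun y => ⟨?_, ?_⟩
  · rintro ⟨x, hx, rfl⟩
    exact ⟨φ x, (mem_tr φ A x).2 hx, (pch_tens μ φ c x).symm⟩
  · rintro ⟨z, hz, e⟩
    obtain ⟨x, rfl⟩ := φ.surjective z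
    exact ⟨x, (mem_tr φ A x).1 hz, (pch μ φ).injective ((pch_tens μ φ c x).trans e)⟩

theorem tr_Hx (H : ℕ → AddSubgroup X) (x : ℕ∞) :
    tr φ (Hx H x) = Z9.ext (fun j => tr φ (H j)) x := by
  induction x using ENat.recTopCoe with
  | top => exact OrderIso.map_bot _
  | coe k => rfl

theorem tr_Ty (H : ℕ → AddSubgroup X) (l : (μ → F) → ℕ∞) :
    tr (pch μ φ) (Ty H l) = Z9.Hl (Z9.tau μ ι M) (Z9.ext fun j => tr φ (H j)) l := by
  unfold Ty Z9.Hl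
  rw [OrderIso.map_iSup]
  exact iSup_congr fun c => by rw [tr_tn, tr_Hx]

theorem tr_pw [Fintype μ] (G : AddSubgroup X) :
    tr (pch μ φ) (pw G) = Z9.Gt (Z9.tau μ ι M) (tr φ G) :=
  tr_ext _ fun x => by
    rw [Z9.mem_Gt_tau, mem_pw]
    exact forall_congr' fun m => (mem_tr φ G (x m)).symm

end

/-- The ambient structure attached to a coordinate structure. -/
@[instance_reducible] noncomputable def amb [a : Amb0] (C : Z9.Core M) : Amb where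
  toAmb0 := a
  P := cls C
  ρ := rho C
  ρ_top := by
    have h : Df C (⊤ : AddSubgroup M) := (cls C).top
    rw [h.rho_eq (LinearEquiv.funUnique (Fin 1) E M).symm, OrderIso.map_top, C.R_top]
    simp
  ρ_bot := fun {X} _ _ h => by
    obtain ⟨_, ⟨φ⟩⟩ := h.ex
    have h : Df C (⊥ : AddSubgroup X) := (cls C).bot
    rw [h.rho_eq φ, OrderIso.map_bot, C.R_bot]
  ρ_mono := fun {_} _ _ h {_ _} (a : Df C _) (b : Df C _) k => by
    obtain ⟨_, ⟨φ⟩⟩ := h.ex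
    rw [a.rho_eq φ, b.rho_eq φ]
    exact C.R_mono (a.q φ) (b.q φ) ((tr φ).monotone k)
  ρ_faith := fun {_} _ _ h {_ _} (a : Df C _) (b : Df C _) k l => by
    obtain ⟨_, ⟨φ⟩⟩ := h.ex
    rw [a.rho_eq φ, b.rho_eq φ] at l
    exact (tr φ).le_iff_le.1 (C.R_faith (a.q φ) (b.q φ) ((tr φ).monotone k) l)
  ρ_mod := fun {_} _ _ h {_ _} (a : Df C _) (b : Df C _) => by
    obtain ⟨_, ⟨φ⟩⟩ := h.ex
    rw [a.rho_eq φ, b.rho_eq φ, (a.sup b).rho_eq φ, (a.inf b).rho_eq φ, OrderIso.map_sup, OrderIso.map_inf]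
    exact C.R_mod (a.q φ) (b.q φ)
  ρ_map := fun {_ _} _ _ h _ _ h' {_ A K B} hf (a : Df C _) e k => by
    obtain ⟨_, ⟨φ⟩⟩ := h.ex
    obtain ⟨_, ⟨ψ⟩⟩ := h'.ex
    obtain ⟨c, hc⟩ := lin_mat φ ψ hf
    have h1 : tr φ K = tr φ A ⊓ (⊥ : Submodule F _).comap (Z9.mat c M) :=
      tr_ext φ fun x => by
        rw [k, Submodule.mem_inf, Submodule.mem_comap, ← hc, mem_tr, Submodule.mem_bot,
          map_eq_zero_iff ψ ψ.injective]
    have b : Df C B := (cls C).map hf a e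
    have d : Df C K := ⟨_, inferInstance, φ, by
      rw [h1]; exact C.inf (a.q φ) (C.comap c C.bot)⟩
    rw [a.rho_eq φ, b.rho_eq ψ, d.rho_eq φ, tr_map hc e, h1]
    exact C.R_map c (a.q φ)
  sat1 := fun {_ _} _ _ h _ _ h' {_ K y} hf (a : ∀ n, Df C _) hK hy => by
    obtain ⟨_, ⟨φ⟩⟩ := h.ex
    obtain ⟨_, ⟨ψ⟩⟩ := h'.ex
    obtain ⟨c, hc⟩ := lin_mat φ ψ hf
    obtain ⟨z, hz, e⟩ := C.sat1 c (K := fun j => tr φ (K j)) (y := ψ y) (fun j => (a j).q φ)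
      ((tr φ).monotone.comp_antitone hK) fun j =>
        let ⟨x, hx, e⟩ := hy j
        ⟨φ x, (mem_tr φ _ x).2 hx, by rw [← hc, e]⟩
    obtain ⟨x, rfl⟩ := φ.surjective z
    exact ⟨x, fun j => (mem_tr φ _ x).1 (hz j), ψ.injective ((hc x).trans e)⟩
  sat2 := fun {_} _ _ h {K A} (a : ∀ n, Df C _) hK (b : Df C _) k => by
    obtain ⟨_, ⟨φ⟩⟩ := h.ex
    obtain ⟨j, hj⟩ := C.sat2 (K := fun j => tr φ (K j)) (fun j => (a j).q φ)
      ((tr φ).monotone.comp_antitone hK) (b.q φ) fun z hz => by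
        obtain ⟨x, rfl⟩ := φ.surjective z
        exact (mem_tr φ _ x).2 (k x fun j => (mem_tr φ _ x).1 (hz j))
    exact ⟨j, (tr φ).le_iff_le.1 hj⟩
  gen := fun H r 𝒴 (a : ∀ j, Df C _) hH h0 hr hr0 hr1 hr2 hc (b : ∀ Y ∈ 𝒴, Df C _) => by
    let φ : (M × M) ≃ₗ[E] (Fin 2 → M) := (LinearEquiv.finTwoArrow E M).symm
    rw [← Cardinal.mk_real] at hc
    obtain ⟨em⟩ := (Cardinal.le_def _ _).1 hc
    have e : ∀ j, rho C (H j) = C.R (tr φ (H j)) := fun j => (a j).rho_eq φ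
    simp only [e] at h0 hr1 hr2
    obtain ⟨G, g1, g2, g3, g4⟩ := C.gen em em.injective (fun t => Fin t.1.1)
      (fun t => tr (pch (Fin t.1.1) φ) t.1.2) (fun j => tr φ (H j)) r
      (fun t => (b t.1 t.2).q _) (fun j => (a j).q φ) ((tr φ).monotone.comp_antitone hH)
      h0 hr hr0 hr1 hr2
    obtain ⟨G, rfl⟩ := (tr φ).surjective G
    have d : Df C G := ⟨_, inferInstance, φ, g1⟩
    refine ⟨G, d, (tr φ).le_iff_le.1 g2, fun j => ?_, fun Y hY => ?_⟩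
    · rw [(d.inf (a j)).rho_eq φ, OrderIso.map_inf, g3]
    · obtain ⟨l, l1, l2⟩ := g4 ⟨Y, hY⟩
      rw [← tr_Ty, ← tr_pw, ← OrderIso.map_inf] at l1 l2
      rw [← OrderIso.map_sup] at l2
      exact ⟨l, (tr _).le_iff_le.1 l1, (tr _).le_iff_le.1 l2⟩

end Z47.AMB

/-- The ambient space exists. -/
theorem Z47.stAMB : Z47.St_AMB :=
  ⟨@Z47.AMB.amb ⟨(Pool.Agent.Lib.MP_1e63be_al.Z9.par ℝ).M⟩ Pool.Agent.Lib.MP_1e63be_al.Z9.core⟩
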