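import Pool.Agent.Lib.MP_1e63be_al.Z47.Defs

/-!
The calculus of definable predicates and functions.
-/

namespace Z47

open Set Filter Topology

/-- Induction on finite types. -/
theorem fin_ind {p : Type → Prop} (of_equiv : ∀ {α β} [Finite α] [Finite β], (α ≃ β) → p α → p β)
    (h_empty : p PEmpty) (h_option : ∀ {α} [Finite α], p α → p (Option α)) (μ : Type) [Finite μ] :
    p μ :=
  Finite.induction_empty_option (P := fun μ => Finite μ → p μ)
    (fun e h _ => have := Finite.of_equiv _ e.symm; of_equiv e (h this)) (fun _ => h_empty)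
    (fun h _ => h_option (h inferInstance)) μ inferInstance

theorem F01 (a : F) : a = 0 ∨ a = 1 := by revert a; decide

section
variable {X : Type} [AddCommGroup X] {μ : Type}

@[simp] theorem mem_pw {A : AddSubgroup X} {x : μ → X} :
    x ∈ (pw A : AddSubgroup (μ → X)) ↔ ∀ i, x i ∈ A := by simp [pw, AddSubgroup.mem_pi]
theorem pw_mono {A B : AddSubgroup X} (h : A ≤ B) : (pw A : AddSubgroup (μ → X)) ≤ pw B :=
  fun _ k => mem_pw.2 fun i => h (mem_pw.1 k i)
@[simp] theorem Hx_top (H : ℕ → AddSubgroup X) : Hx H ⊤ = ⊥ := rfl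
@[simp] theorem Hx_coe (H : ℕ → AddSubgroup X) (n : ℕ) : Hx H n = H n := rfl
theorem Hx_anti {H : ℕ → AddSubgroup X} (h : Antitone H) : Antitone (Hx H) := fun a b k => by
  cases b using ENat.recTopCoe
  · simp
  · cases a using ENat.recTopCoe
    · simp at k
    · exact h (by simpa using k)

end

section
variable [Amb0]

instance : Std M := ⟨1, ⟨(LinearEquiv.funUnique (Fin 1) E M).symm⟩⟩

section
variable {X Y W : Type} [AddCommGroup X] [Module E X] [AddCommGroup Y] [Module E Y]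
  [AddCommGroup W] [Module E W] {μ : Type}

instance [hX : Std X] [hY : Std Y] : Std (X × Y) :=
  let ⟨n, ⟨e⟩⟩ := hX
  let ⟨m, ⟨e'⟩⟩ := hY
  ⟨n + m, ⟨(e.prodCongr e').trans ((LinearEquiv.sumArrowLequivProdArrow _ _ E M).symm.trans
    (LinearEquiv.funCongrLeft E M finSumFinEquiv.symm))⟩⟩

instance [Finite μ] [hX : Std X] : Std (μ → X) :=
  let ⟨n, ⟨e⟩⟩ := hX
  ⟨_, ⟨(LinearEquiv.piCongrRight fun _ => e).trans ((LinearEquiv.curry E M μ (Fin n)).symm.trans
    (LinearEquiv.funCongrLeft E M (Finite.equivFin (μ × Fin n)).symm))⟩⟩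

@[simp] theorem sc_zero : sc 0 = 0 := map_zero _
@[simp] theorem sc_one : sc 1 = 1 := map_one _
theorem sc_add (a b : F) : sc (a + b) = sc a + sc b := map_add _ _ _
theorem sc_sub (a b : F) : sc (a - b) = sc a - sc b := map_sub _ _ _
theorem sc_mul (a b : F) : sc (a * b) = sc a * sc b := map_mul _ _ _
theorem sc_sum {ι : Type} (s : Finset ι) (a : ι → F) : sc (∑ i ∈ s, a i) = ∑ i ∈ s, sc (a i) :=
  map_sum _ _ _
theorem sc_comm (a : F) (φ : E) : sc a * φ = φ * sc a := Algebra.commutes a φ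
theorem smul_sc (φ : E) (a : F) (x : X) : φ • sc a • x = sc a • φ • x := by
  rw [smul_smul, smul_smul, sc_comm]
theorem sc_mem {A : AddSubgroup X} {x : X} (a : F) (h : x ∈ A) : sc a • x ∈ A := by
  obtain rfl | rfl := F01 a <;> simp [h]
theorem sc_eq_zero {a : F} {x : X} (h : sc a • x = 0) : a = 0 ∨ x = 0 := by
  obtain rfl | rfl := F01 a <;> simp_all

theorem add_self (x : X) : x + x = 0 := by
  have : (1 : F) + 1 = 0 := by decide
  rw [← one_smul E x, ← add_smul, ← sc_one, ← sc_add, this, sc_zero, zero_smul]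
theorem neg_eq (x : X) : -x = x := neg_eq_of_add_eq_zero_left (add_self x)

namespace Lin

theorem map_zero {f : X → Y} (h : Lin f) : f 0 = 0 := h.hom.map_zero
theorem map_sub {f : X → Y} (h : Lin f) (x y : X) : f (x - y) = f x - f y := h.hom.map_sub x y
theorem map_neg {f : X → Y} (h : Lin f) (x : X) : f (-x) = -f x := h.hom.map_neg x
@[simp] theorem hom_apply {f : X → Y} (h : Lin f) (x : X) : h.hom x = f x := rfl
theorem of_lin (f : X →ₗ[E] Y) : Lin f := ⟨f.map_add, f.map_smul⟩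
/-- The bundled map. -/
def lin {f : X → Y} (h : Lin f) : X →ₗ[E] Y := ⟨⟨f, h.add⟩, h.smul⟩
@[simp] theorem lin_apply {f : X → Y} (h : Lin f) (x : X) : h.lin x = f x := rfl

@[fun_prop] theorem id : Lin fun x : X => x := ⟨fun _ _ => rfl, fun _ _ => rfl⟩
@[fun_prop] theorem comp {f : Y → W} {g : X → Y} (hf : Lin f) (hg : Lin g) :
    Lin fun x => f (g x) := ⟨fun x y => by rw [hg.add, hf.add], fun φ x => by rw [hg.smul, hf.smul]⟩
@[fun_prop] theorem apply (i : μ) : Lin fun x : μ → X => x i := ⟨fun _ _ => rfl, fun _ _ => rfl⟩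
@[fun_prop] theorem pi {f : X → μ → Y} (h : ∀ i, Lin fun x => f x i) : Lin fun x i => f x i :=
  ⟨fun x y => funext fun i => (h i).add x y, fun φ x => funext fun i => (h i).smul φ x⟩
@[fun_prop] theorem zero : Lin fun _ : X => (0 : Y) := ⟨by simp, by simp⟩
@[fun_prop] theorem fst {f : X → Y × W} (h : Lin f) : Lin fun x => (f x).1 :=
  ⟨fun x y => by rw [h.add]; rfl, fun φ x => by rw [h.smul]; rfl⟩
@[fun_prop] theorem snd {f : X → Y × W} (h : Lin f) : Lin fun x => (f x).2 :=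
  ⟨fun x y => by rw [h.add]; rfl, fun φ x => by rw [h.smul]; rfl⟩
@[fun_prop] theorem prodMk {f : X → Y} {g : X → W} (hf : Lin f) (hg : Lin g) :
    Lin fun x => (f x, g x) :=
  ⟨fun x y => Prod.ext (hf.add x y) (hg.add x y), fun φ x => Prod.ext (hf.smul φ x) (hg.smul φ x)⟩
@[fun_prop] theorem add' {f g : X → Y} (hf : Lin f) (hg : Lin g) : Lin fun x => f x + g x :=
  ⟨fun x y => by rw [hf.add, hg.add, add_add_add_comm], fun φ x => by
    rw [hf.smul, hg.smul, smul_add]⟩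
@[fun_prop] theorem neg {f : X → Y} (hf : Lin f) : Lin fun x => -f x :=
  ⟨fun x y => by rw [hf.add, neg_add], fun φ x => by rw [hf.smul, smul_neg]⟩
@[fun_prop] theorem sub {f g : X → Y} (hf : Lin f) (hg : Lin g) : Lin fun x => f x - g x := by
  simpa only [sub_eq_add_neg] using hf.add' hg.neg
@[fun_prop] theorem scs (a : F) {f : X → Y} (hf : Lin f) : Lin fun x => sc a • f x :=
  ⟨fun x y => by rw [hf.add, smul_add], fun φ x => by rw [hf.smul, smul_sc]⟩
@[fun_prop] theorem tens (c : μ → F) {f : X → Y} (hf : Lin f) : Lin fun x => tens c (f x) :=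
  pi fun i => scs (c i) hf
@[fun_prop] theorem sum {ι : Type} (s : Finset ι) {f : ι → X → Y} (hf : ∀ i, Lin (f i)) :
    Lin fun x => ∑ i ∈ s, f i x :=
  ⟨fun x y => by simp only [fun i => (hf i).add x y, Finset.sum_add_distrib], fun φ x => by
    simp only [fun i => (hf i).smul φ x, Finset.smul_sum]⟩
theorem elim {ν : Type} {f : X → μ → Y} {g : X → ν → Y} (hf : Lin f) (hg : Lin g) :
    Lin fun x => Sum.elim (f x) (g x) :=
  pi fun i => by rcases i with i | i <;> simp only [Sum.elim_inl, Sum.elim_inr] <;> fun_prop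

end Lin

@[simp] theorem tens_apply (c : μ → F) (h : X) (i : μ) : tens c h i = sc (c i) • h := rfl
@[simp] theorem tens_zero (c : μ → F) : tens c (0 : X) = 0 := funext fun _ => smul_zero _
@[simp] theorem zero_tens (h : X) : tens (0 : μ → F) h = 0 := funext fun _ => by simp
theorem tens_add (c : μ → F) (h h' : X) : tens c (h + h') = tens c h + tens c h' :=
  funext fun _ => smul_add _ _ _
theorem tens_sub (c : μ → F) (h h' : X) : tens c (h - h') = tens c h - tens c h' :=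
  funext fun _ => smul_sub _ _ _
theorem add_tens (c c' : μ → F) (h : X) : tens (c + c') h = tens c h + tens c' h :=
  funext fun _ => by simp [sc_add, add_smul]
theorem sub_tens (c c' : μ → F) (h : X) : tens (c - c') h = tens c h - tens c' h :=
  funext fun _ => by simp [sc_sub, sub_smul]
theorem smul_tens (a : F) (c : μ → F) (h : X) : tens (a • c) h = sc a • tens c h :=
  funext fun _ => by simp [sc_mul, mul_smul]
theorem tens_eq_zero {c : μ → F} {h : X} (e : tens c h = 0) : c = 0 ∨ h = 0 :=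
  or_iff_not_imp_right.2 fun k => funext fun i => (sc_eq_zero (congrFun e i)).resolve_right k

@[simp] theorem mem_tn {c : μ → F} {A : AddSubgroup X} {x : μ → X} :
    x ∈ tn c A ↔ ∃ h ∈ A, tens c h = x := Iff.rfl
theorem tens_mem_pw (c : μ → F) {A : AddSubgroup X} {h : X} (k : h ∈ A) : tens c h ∈ pw A :=
  mem_pw.2 fun _ => sc_mem _ k
theorem Ty_le {H : ℕ → AddSubgroup X} {l : (μ → F) → ℕ∞} {A : AddSubgroup (μ → X)} :
    Ty H l ≤ A ↔ ∀ c (n : ℕ), l c = n → ∀ h ∈ H n, tens c h ∈ A := by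
  refine iSup_le_iff.trans (forall_congr' fun c =>
    ⟨fun k n e h l => k ⟨h, by simpa [e] using l, rfl⟩, ?_⟩)
  rintro k _ ⟨h, l', rfl⟩
  cases e : l c using ENat.recTopCoe
  · rw [e] at l'
    obtain rfl : h = 0 := l'
    rw [map_zero]; exact A.zero_mem
  · exact k _ e h (by simpa [e] using l')
theorem mem_Ty {H : ℕ → AddSubgroup X} {l : (μ → F) → ℕ∞} {c : μ → F} {n : ℕ} (e : l c = n) {h : X}
    (k : h ∈ H n) : tens c h ∈ Ty H l := Ty_le.1 le_rfl c n e h k
theorem WC_le {C : Set (μ → F)} {A : AddSubgroup (μ → M)} :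
    WC C ≤ A ↔ ∀ c ∈ C, ∀ w, tens c w ∈ A :=
  iSup₂_le_iff.trans (forall₂_congr fun _ _ => ⟨fun k w => k ⟨w, trivial, rfl⟩, by
    rintro k _ ⟨w, -, rfl⟩; exact k w⟩)
theorem sum_single [Fintype μ] [DecidableEq μ] (x : μ → X) :
    ∑ i, tens (Pi.single i 1) (x i) = x := funext fun j => by
  rw [Finset.sum_apply, Finset.sum_eq_single j] <;> simp +contextual [eq_comm]
/-- A power is contained in every subgroup containing its coordinate axes. -/
theorem pw_le [Finite μ] [DecidableEq μ] {A : AddSubgroup X} {B : AddSubgroup (μ → X)}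
    (h : ∀ i, ∀ x ∈ A, tens (Pi.single i 1) x ∈ B) : pw A ≤ B := fun x k => by
  have := Fintype.ofFinite μ
  rw [← sum_single x]
  exact B.sum_mem fun i _ => h i _ (mem_pw.1 k i)
theorem yc_smul {d : ℕ} (y : Fin d → E) (c : Fin d → F) (v : X) :
    yc y c • v = ∑ k, y k • sc (c k) • v := by
  simp [yc, Finset.sum_smul, mul_smul, smul_sc]

end

namespace PP
variable {X Y W : Type} [AddCommGroup X] [Module E X] [AddCommGroup Y] [Module E Y]
  [AddCommGroup W] [Module E W] {μ : Type} {L : PP} {p q : X → Prop}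

theorem D.congr (h : L.D p) (e : ∀ x, p x ↔ q x) : L.D q :=
  let ⟨A, a, b⟩ := h
  ⟨A, a, fun x => (b x).trans (e x)⟩
theorem D.df (h : L.D p) {A : AddSubgroup X} (e : ∀ x, x ∈ A ↔ p x) : L.df A := by
  obtain ⟨B, a, b⟩ := h
  rwa [show A = B from AddSubgroup.ext fun x => (e x).trans (b x).symm]
theorem D.of {A : AddSubgroup X} (h : L.df A) : L.D fun x => x ∈ A := ⟨A, h, fun _ => Iff.rfl⟩

variable [Std X] [Std Y] [Std W]

theorem D.true : L.D fun _ : X => True := ⟨⊤, L.top, by simp⟩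
theorem D.and (h : L.D p) (k : L.D q) : L.D fun x => p x ∧ q x :=
  let ⟨_, a, b⟩ := h
  let ⟨_, a', b'⟩ := k
  ⟨_, L.inf a a', fun x => and_congr (b x) (b' x)⟩
theorem D.ex {r : X → Y → Prop} (h : L.D fun z : X × Y => r z.1 z.2) : L.D fun x => ∃ y, r x y :=
  let ⟨A, a, b⟩ := h
  have l : Lin fun z : X × Y => z.1 := by fun_prop
  ⟨A.map l.hom, L.map l a fun _ => Iff.rfl, fun x =>
    ⟨by rintro ⟨z, k, rfl⟩; exact ⟨z.2, (b z).1 k⟩, fun ⟨y, k⟩ => ⟨(x, y), (b _).2 k, rfl⟩⟩⟩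
theorem D.compL {r : Y → Prop} (h : L.D r) {f : X → Y} (hf : Lin f) : L.D fun x => r (f x) :=
  let ⟨A, a, b⟩ := h
  ⟨A.comap hf.hom, L.comap hf a fun _ => Iff.rfl, fun _ => b _⟩
theorem D.all {ι : Type} [Finite ι] {r : ι → X → Prop} (h : ∀ i, L.D (r i)) :
    L.D fun x => ∀ i, r i x := by
  classical
  have := Fintype.ofFinite ι
  have : ∀ s : Finset ι, L.D fun x => ∀ i ∈ s, r i x := fun s => by
    induction s using Finset.induction_on with
    | empty => exact D.true.congr (by simp)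
    | insert a s _ k => exact ((h a).and k).congr (by simp)
  exact (this Finset.univ).congr (by simp)
theorem D.imp {s : Prop} (h : s → L.D p) : L.D fun x => s → p x := by
  by_cases k : s
  · exact (h k).congr (by simp [k])
  · exact D.true.congr (by simp [k])
theorem Fn.of {f : X → Y} (h : Lin f) : L.Fn f :=
  ((D.of L.bot).compL (f := fun z : X × Y => f z.1 - z.2) (by fun_prop)).congr (by simp [sub_eq_zero])
theorem D.comp {r : Y → Prop} (h : L.D r) {f : X → Y} (hf : L.Fn f) : L.D fun x => r (f x) :=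
  (D.ex (r := fun x y => f x = y ∧ r y) (D.and hf (h.compL (by fun_prop)))).congr (by simp)
theorem D.mem {A : AddSubgroup Y} (h : L.df A) {f : X → Y} (hf : L.Fn f) : L.D fun x => f x ∈ A :=
  (D.of h).comp hf
theorem D.eq {f g : X → Y} (hf : L.Fn f) (hg : L.Fn g) : L.D fun x => f x = g x :=
  (D.ex (r := fun x y => f x = y ∧ g x = y) (D.and hf hg)).congr (by simp [eq_comm])

namespace Fn
@[fun_prop] theorem id : L.Fn fun x : X => x := of Lin.id
@[fun_prop] theorem comp {f : Y → W} {g : X → Y} (hf : L.Fn f) (hg : L.Fn g) :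
    L.Fn fun x => f (g x) :=
  (D.ex (r := fun (z : X × W) y => g z.1 = y ∧ f y = z.2)
    ((D.compL hg (f := fun z : (X × W) × Y => (z.1.1, z.2)) (by fun_prop)).and
      (D.compL hf (f := fun z : (X × W) × Y => (z.2, z.1.2)) (by fun_prop)))).congr (by simp)
@[fun_prop] theorem apply [Finite μ] (i : μ) : L.Fn fun x : μ → X => x i := of (Lin.apply i)
@[fun_prop] theorem pi [Finite μ] {f : X → μ → Y} (h : ∀ i, L.Fn fun x => f x i) :
    L.Fn fun x i => f x i :=
  (D.all fun i => D.compL (h i) (f := fun z : X × (μ → Y) => (z.1, z.2 i)) (by fun_prop)).congr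
    fun _ => funext_iff.symm
@[fun_prop] theorem zero : L.Fn fun _ : X => (0 : Y) := of Lin.zero
@[fun_prop] theorem fst {f : X → Y × W} (h : L.Fn f) : L.Fn fun x => (f x).1 :=
  comp (of (Lin.fst Lin.id)) h
@[fun_prop] theorem snd {f : X → Y × W} (h : L.Fn f) : L.Fn fun x => (f x).2 :=
  comp (of (Lin.snd Lin.id)) h
@[fun_prop] theorem prodMk {f : X → Y} {g : X → W} (hf : L.Fn f) (hg : L.Fn g) :
    L.Fn fun x => (f x, g x) :=
  ((D.compL hf (f := fun z : X × Y × W => (z.1, z.2.1)) (by fun_prop)).and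
    (D.compL hg (f := fun z : X × Y × W => (z.1, z.2.2)) (by fun_prop))).congr
    fun z => (Prod.ext_iff (x := (f z.1, g z.1)) (y := z.2)).symm
@[fun_prop] theorem add {f g : X → Y} (hf : L.Fn f) (hg : L.Fn g) : L.Fn fun x => f x + g x :=
  comp (f := fun z : Y × Y => z.1 + z.2) (of (by fun_prop)) (hf.prodMk hg)
@[fun_prop] theorem sub {f g : X → Y} (hf : L.Fn f) (hg : L.Fn g) : L.Fn fun x => f x - g x :=
  comp (f := fun z : Y × Y => z.1 - z.2) (of (by fun_prop)) (hf.prodMk hg)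
@[fun_prop] theorem neg {f : X → Y} (hf : L.Fn f) : L.Fn fun x => -f x :=
  comp (f := fun z : Y => -z) (of (by fun_prop)) hf
@[fun_prop] theorem scs (a : F) {f : X → Y} (hf : L.Fn f) : L.Fn fun x => sc a • f x :=
  comp (f := fun z : Y => sc a • z) (of (by fun_prop)) hf
@[fun_prop] theorem tens [Finite μ] (c : μ → F) {f : X → Y} (hf : L.Fn f) :
    L.Fn fun x => tens c (f x) := comp (f := fun z : Y => Z47.tens c z) (of (by fun_prop)) hf
@[fun_prop] theorem sum {ι : Type} (s : Finset ι) {f : ι → X → Y} (hf : ∀ i, L.Fn (f i)) :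
    L.Fn fun x => ∑ i ∈ s, f i x := by
  classical
  induction s using Finset.induction_on with
  | empty => exact zero
  | insert a s k l => simpa only [Finset.sum_insert k] using (hf a).add l
@[fun_prop] theorem smul {y : E} (hy : L.Dy y) {f : X → M} (hf : L.Fn f) :
    L.Fn fun x => y • f x := comp (f := fun v : M => y • v) hy hf
end Fn

theorem Dy.one : L.Dy 1 := by simpa [Dy] using Fn.id
theorem Dy.zero : L.Dy 0 := by simpa [Dy] using Fn.zero
theorem Dy.add {y z : E} (hy : L.Dy y) (hz : L.Dy z) : L.Dy (y + z) := by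
  simpa only [Dy, add_smul] using Fn.add hy hz
theorem Dy.sub {y z : E} (hy : L.Dy y) (hz : L.Dy z) : L.Dy (y - z) := by
  simpa only [Dy, sub_smul] using Fn.sub hy hz
theorem Dy.neg {y : E} (hy : L.Dy y) : L.Dy (-y) := by
  simpa only [Dy, neg_smul] using Fn.neg hy
theorem Dy.mul {y z : E} (hy : L.Dy y) (hz : L.Dy z) : L.Dy (y * z) := by
  simpa only [Dy, mul_smul] using Fn.smul hy hz
theorem Dy.yc {d : ℕ} {y : Fin d → E} (hy : ∀ k, L.Dy (y k)) (c : Fin d → F) : L.Dy (yc y c) := by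
  simpa only [Dy, yc_smul] using Fn.sum _ fun k => Fn.smul (hy k) (Fn.scs (c k) Fn.id)

variable {A B : AddSubgroup X}

theorem sup (h : L.df A) (k : L.df B) : L.df (A ⊔ B) :=
  (D.ex (r := fun x y : X => y ∈ A ∧ x - y ∈ B)
    ((D.mem h (by fun_prop)).and (D.mem k (by fun_prop)))).df fun x => AddSubgroup.mem_sup.trans
      ⟨by rintro ⟨y, a, z, b, rfl⟩; exact ⟨y, a, by simpa⟩, fun ⟨y, a, b⟩ => ⟨y, a, _, b, by simp⟩⟩
theorem prod {C : AddSubgroup Y} (h : L.df A) (k : L.df C) : L.df (A.prod C) :=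
  ((D.mem h (f := fun z : X × Y => z.1) (by fun_prop)).and
    (D.mem k (f := fun z : X × Y => z.2) (by fun_prop))).df fun _ => Iff.rfl
theorem pw [Finite μ] (h : L.df A) : L.df (pw A : AddSubgroup (μ → X)) :=
  (D.all fun i => D.mem h (Fn.apply i)).df fun _ => mem_pw
theorem tn [Finite μ] (c : μ → F) (h : L.df A) : L.df (tn c A) :=
  L.map (f := tens c) (by fun_prop) h fun _ => Iff.rfl
theorem iInf {ι : Type} [Finite ι] {A : ι → AddSubgroup X} (h : ∀ i, L.df (A i)) :
    L.df (⨅ i, A i) := (D.all fun i => D.of (h i)).df fun _ => AddSubgroup.mem_iInf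
theorem iSup {ι : Type} [Finite ι] {A : ι → AddSubgroup X} (h : ∀ i, L.df (A i)) :
    L.df (⨆ i, A i) := by
  classical
  have := Fintype.ofFinite ι
  have : ∀ s : Finset ι, L.df (s.sup A) := fun s => by
    induction s using Finset.induction_on with
    | empty => exact L.bot
    | insert a s _ k => rw [Finset.sup_insert]; exact sup (h a) k
  simpa [Finset.sup_univ_eq_iSup] using this Finset.univ
theorem Hx {H : ℕ → AddSubgroup X} (h : ∀ j, L.df (H j)) (l : ℕ∞) : L.df (Hx H l) := by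
  cases l using ENat.recTopCoe
  · exact L.bot
  · exact h _
theorem Ty [Finite μ] {H : ℕ → AddSubgroup X} (h : ∀ j, L.df (H j)) (l : (μ → F) → ℕ∞) :
    L.df (Ty H l) := iSup fun c => tn c (Hx h _)
theorem WC [Finite μ] (C : Set (μ → F)) : L.df (WC C) :=
  iSup fun c => by
    by_cases k : c ∈ C
    · simpa [k] using tn c L.top
    · simpa [k] using L.bot

end PP
end

section
variable [Amb]
variable {X Y W : Type} [AddCommGroup X] [Module E X] [AddCommGroup Y] [Module E Y]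
  [AddCommGroup W] [Module E W] {μ : Type} {L L' L'' : Cl}

theorem Cl.Le.refl (L : Cl) : L.Le L := fun _ _ _ _ _ h => h
theorem Cl.Le.trans (h : L.Le L') (k : L'.Le L'') : L.Le L'' := fun _ _ _ _ _ l => k (h l)

/-- The ambient class as a `Cl`. -/
def PC : Cl := ⟨P, id⟩

theorem le_PC (L : Cl) : L.Le PC := fun _ _ _ _ _ h => L.sub h

variable [Std X] [Std Y] [Std W] {A B S : AddSubgroup X}

theorem Cl.Le.D (h : L.Le L') {p : X → Prop} (k : L.D p) : L'.D p :=
  let ⟨A, a, b⟩ := k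
  ⟨A, h a, b⟩
theorem Cl.Le.Fn (h : L.Le L') {f : X → Y} (k : L.Fn f) : L'.Fn f := h.D k
theorem Cl.Le.Dy (h : L.Le L') {y : E} (k : L.Dy y) : L'.Dy y := h.D k
theorem Cl.Le.td (h : L.Le L') (k : L.td.df S) : L'.td.df S :=
  let ⟨Z, a, b, c⟩ := k
  ⟨Z, fun n => h (a n), b, c⟩
theorem Cl.Le.tdD (h : L.Le L') {p : X → Prop} (k : L.td.D p) : L'.td.D p :=
  let ⟨A, a, b⟩ := k
  ⟨A, h.td a, b⟩
omit [Std X] in
theorem Cl.td_of (h : L.df A) : L.td.df A := ⟨fun _ => A, fun _ => h, antitone_const, by simp⟩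
omit [Std X] in
theorem Cl.tdD {p : X → Prop} (k : L.D p) : L.td.D p :=
  let ⟨A, a, b⟩ := k
  ⟨A, Cl.td_of a, b⟩
omit [Std X] [Std Y] in
theorem Cl.tdFn {f : X → Y} (k : L.Fn f) : L.td.Fn f := Cl.tdD k
theorem Cl.tdDy {y : E} (k : L.Dy y) : L.td.Dy y := Cl.tdD k
omit [Std X] in
theorem Cl.td_anti {K : ℕ → AddSubgroup X} (h : ∀ n, L.df (K n)) (k : Antitone K) :
    L.td.df (⨅ n, K n) := ⟨K, h, k, fun _ => AddSubgroup.mem_iInf⟩
omit [Std X] in
theorem Chn.td {K : ℕ → AddSubgroup X} (h : Chn L K) : L.td.df (⨅ n, K n) :=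
  Cl.td_anti h.df h.anti
theorem Chn.mono {K : ℕ → AddSubgroup X} (h : Chn L K) (k : L.Le L') : Chn L' K :=
  ⟨fun j => k (h.df j), h.anti, h.lim⟩
/-- Countable meets of type-definable subspaces are type-definable. -/
theorem Cl.td_iInf {K : ℕ → AddSubgroup X} (h : ∀ n, L.td.df (K n)) : L.td.df (⨅ n, K n) := by
  choose Z a b c using h
  refine ⟨fun n => ⨅ i : Fin n, Z i n, fun n => PP.iInf fun i => a _ _, fun m n k =>
    le_iInf fun i => (iInf_le _ (i.castLE k)).trans (b _ k), fun x => ?_⟩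
  simp only [AddSubgroup.mem_iInf, c]
  exact ⟨fun k n i => k _ _, fun k i n =>
    b i (le_max_left n (i + 1)) (k (max n (i + 1)) ⟨i, by omega⟩)⟩
theorem Cl.td_all {r : ℕ → X → Prop} (h : ∀ n, L.td.D (r n)) : L.td.D fun x => ∀ n, r n x := by
  choose A a b using h
  exact ⟨_, Cl.td_iInf a, by simp [AddSubgroup.mem_iInf, b]⟩
/-- Saturation for definable chains. -/
theorem sat_le {K : ℕ → AddSubgroup X} (h : ∀ n, L.df (K n)) (k : Antitone K) (hA : L'.df A)
    (l : ⨅ n, K n ≤ A) : ∃ N, ∀ n ≥ N, K n ≤ A :=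
  let ⟨N, e⟩ := Amb.sat2 (fun n => L.sub (h n)) k (L'.sub hA)
    fun _ m => l (AddSubgroup.mem_iInf.2 m)
  ⟨N, fun _ m => (k m).trans e⟩
/-- A type-definable subspace of a definable one is contained in a definable subspace of it. -/
theorem td_le (h : L.td.df S) (hA : L'.df A) (l : S ≤ A) : ∃ K, L.df K ∧ S ≤ K ∧ K ≤ A :=
  let ⟨Z, a, b, c⟩ := h
  let ⟨N, e⟩ := Amb.sat2 (fun n => L.sub (a n)) b (L'.sub hA) fun x m => l ((c x).2 m)
  ⟨Z N, a N, fun x m => (c x).1 m N, e⟩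
/-- Saturation for chains of type-definable subspaces. -/
theorem td_sat {K : ℕ → AddSubgroup X} (h : ∀ n, L.td.df (K n)) (k : Antitone K) (hA : L'.df A)
    (l : ⨅ n, K n ≤ A) : ∃ N, ∀ n ≥ N, K n ≤ A := by
  choose Z a b c using h
  obtain ⟨N, e⟩ := Amb.sat2 (K := fun n => ⨅ i : Fin n, Z i n)
    (fun n => L.sub (PP.iInf fun i => a _ _))
    (fun m n k => le_iInf fun i => (iInf_le _ (i.castLE k)).trans (b _ k)) (L'.sub hA)
    fun x m => l (AddSubgroup.mem_iInf.2 fun i => (c i x).2 fun n => b i (le_max_left n (i + 1))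
      (AddSubgroup.mem_iInf.1 (m (max n (i + 1))) ⟨i, by omega⟩))
  exact ⟨N, fun n m x s => e (AddSubgroup.mem_iInf.2 fun i =>
    (c i x).1 (k (i.2.le.trans m) s) N)⟩
omit [Std X] in
/-- A point outside a type-definable subspace is outside a definable one. -/
theorem td_not (h : L.td.df S) {x : X} (k : x ∉ S) : ∃ K, L.df K ∧ S ≤ K ∧ x ∉ K := by
  obtain ⟨Z, a, -, c⟩ := h
  obtain ⟨n, e⟩ := not_forall.1 (mt (c x).2 k)
  exact ⟨Z n, a n, fun y m => (c y).1 m n, e⟩
/-- Existential saturation along chains of type-definable relations. -/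
theorem td_ex {K : ℕ → AddSubgroup (X × Y)} (h : ∀ n, L.td.df (K n)) (k : Antitone K) {x : X}
    (l : ∀ n, ∃ y, (x, y) ∈ K n) : ∃ y, ∀ n, (x, y) ∈ K n := by
  choose Z a b c using h
  obtain ⟨z, e, rfl⟩ := Amb.sat1 (f := fun z : X × Y => z.1) (y := x)
    (K := fun n => ⨅ i : Fin n, Z i n) (by fun_prop) (fun n => L.sub (PP.iInf fun i => a _ _))
    (fun m n k => le_iInf fun i => (iInf_le _ (i.castLE k)).trans (b _ k)) fun n =>
      let ⟨y, s⟩ := l n
      ⟨(x, y), AddSubgroup.mem_iInf.2 fun i => (c i _).1 (k i.2.le s) n, rfl⟩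
  exact ⟨z.2, fun i => (c i _).2 fun n => b i (le_max_left n (i + 1))
    (AddSubgroup.mem_iInf.1 (e (max n (i + 1))) ⟨i, by omega⟩)⟩

theorem Pkg.mem_H {p : Pkg} {j : ℕ} {h : M × M} : h ∈ p.H j ↔ h.1 ∈ p.b j ∧ h.2 ∈ p.a j := Iff.rfl
theorem Pkg.mem_Hi {p : Pkg} {h : M × M} : h ∈ p.Hi ↔ h.1 ∈ p.bi ∧ h.2 ∈ p.ai := Iff.rfl
theorem Pkg.mem_Hi' {p : Pkg} {h : M × M} : h ∈ p.Hi ↔ ∀ j, h ∈ p.H j := by
  simp [Pkg.mem_H, Pkg.mem_Hi, AddSubgroup.mem_iInf, forall_and]
theorem Pkg.mem_Pr {p : Pkg} {w : M} : w ∈ p.Pr ↔ ((0 : M), w) ∈ p.G := Iff.rfl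
theorem Pkg.Ok.mono {p : Pkg} (h : p.Ok L) (k : L.Le L') : p.Ok L' :=
  ⟨h.ca.mono k, h.cb.mono k, h.PG, h.le, h.tot, h.triv⟩
theorem Pkg.Ok.df {p : Pkg} (h : p.Ok L) (j : ℕ) : L.df (p.H j) := PP.prod (h.cb.df j) (h.ca.df j)
theorem Pkg.Ok.anti {p : Pkg} (h : p.Ok L) : Antitone p.H :=
  fun _ _ k => AddSubgroup.prod_mono (h.cb.anti k) (h.ca.anti k)
theorem Pkg.Ok.td {p : Pkg} (h : p.Ok L) : L.td.df p.Hi := PP.prod h.cb.td h.ca.td

end

end Z47
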