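import Pool.Agent.Lib.MP_1e63be_al.Z47.Blue

/-!
The definable classes generated by a family of relations.
-/

namespace Z47

open Set Cardinal

namespace CLS

variable [Amb]

section
variable {I : Type} {G : I → AddSubgroup (M × M)} {Φ Ψ : Set I}
variable {X : Type} [AddCommGroup X] [Module E X] {A : AddSubgroup X}

/-- Introduction rule with arbitrary standard spaces and labels. -/
theorem intro {W Y κ : Type} [AddCommGroup W] [Module E W] [hW : Std W] [AddCommGroup Y]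
    [Module E Y] [hY : Std Y] [Finite κ] (t : κ → I) (f : W → X) (g : W → κ → M × M) (h : W → Y)
    (hf : Lin f) (hg : Lin g) (hh : Lin h) (ht : ∀ i, t i ∈ Φ)
    (e : ∀ x, x ∈ A ↔ ∃ w, (∀ i, g w i ∈ G (t i)) ∧ h w = 0 ∧ f w = x) : cdf G Φ A := by
  obtain ⟨m, ⟨a⟩⟩ := hW
  obtain ⟨n, ⟨b⟩⟩ := hY
  have c := (Finite.equivFin κ).symm
  have la : Lin fun w => a.symm w := Lin.of_lin a.symm.toLinearMap
  have lb : Lin fun w => b w := Lin.of_lin b.toLinearMap
  refine ⟨m, _, n, fun i => t (c i), fun w => f (a.symm w), fun w i => g (a.symm w) (c i),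
    fun w => b (h (a.symm w)), hf.comp la, Lin.pi fun i => (Lin.apply (c i)).comp (hg.comp la),
    lb.comp (hh.comp la), fun i => ht _, fun x => (e x).trans ⟨?_, ?_⟩⟩
  · rintro ⟨w, k, l, rfl⟩
    exact ⟨a w, fun i => by simpa using k _, by simp [l], by simp⟩
  · rintro ⟨w, k, l, rfl⟩
    exact ⟨a.symm w, fun i => by simpa using k (c.symm i), by simpa using l, rfl⟩

theorem mono (h : Φ ⊆ Ψ) (k : cdf G Φ A) : cdf G Ψ A :=
  let ⟨m, k, n, t, f, g, h', a, b, c, d, e⟩ := k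
  ⟨m, k, n, t, f, g, h', a, b, c, fun i => h (d i), e⟩

theorem gen {ξ : I} (h : ξ ∈ Φ) : cdf G Φ (G ξ) :=
  intro (W := M × M) (Y := M) (κ := Unit) (fun _ => ξ) (fun w => w) (fun w _ => w) (fun _ => 0)
    (by fun_prop) (by fun_prop) (by fun_prop) (fun _ => h) (by simp)

end

/-- The class. -/
def cl {I : Type} (G : I → AddSubgroup (M × M)) (hG : ∀ ξ, P.df (G ξ)) (Φ : Set I) : Cl where
  df A := cdf G Φ A
  top := fun {X} _ _ _ => intro (W := X) (Y := M) (κ := Empty) (fun i => i.elim) (fun w => w)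
    (fun _ _ => 0) (fun _ => 0) (by fun_prop) (by fun_prop) (by fun_prop) (fun i => i.elim)
    (by simp)
  bot := fun {X} _ _ _ => intro (W := X) (Y := X) (κ := Empty) (fun i => i.elim) (fun w => w)
    (fun _ _ => 0) (fun w => w) (by fun_prop) (by fun_prop) (by fun_prop) (fun i => i.elim)
    (by simp [eq_comm])
  inf := fun {X} _ _ _ {A B} ⟨m, k, n, t, f, g, h, a, b, c, d, e⟩
      ⟨m', k', n', t', f', g', h', a', b', c', d', e'⟩ => by
    refine intro (W := (Fin m → M) × (Fin m' → M)) (Y := ((Fin n → M) × (Fin n' → M)) × X)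
      (κ := Fin k ⊕ Fin k') (Sum.elim t t') (fun w => f w.1)
      (fun w i => Sum.elim (g w.1) (g' w.2) i) (fun w => ((h w.1, h' w.2), f w.1 - f' w.2))
      (by fun_prop) (Lin.pi fun i => ?_) (by fun_prop) (by rintro (i | i) <;> simp [d, d'])
      fun x => ?_
    · rcases i with i | i
      · exact (Lin.apply i).comp (b.comp (Lin.fst Lin.id))
      · exact (Lin.apply i).comp (b'.comp (Lin.snd Lin.id))
    · rw [AddSubgroup.mem_inf, e, e']
      constructor
      · rintro ⟨⟨w, p, q, r⟩, ⟨w', p', q', r'⟩⟩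
        exact ⟨(w, w'), by rintro (i | i) <;> simp [p, p'], by simp [q, q', r, r'], r⟩
      · rintro ⟨⟨w, w'⟩, p, q, r⟩
        simp only [Prod.mk_eq_zero, sub_eq_zero] at q
        exact ⟨⟨w, fun i => p (.inl i), q.1.1, r⟩, w', fun i => p (.inr i), q.1.2, q.2.symm.trans r⟩
  map := fun {X Y} _ _ _ _ _ _ {F A B} hF ⟨m, k, n, t, f, g, h, a, b, c, d, e⟩ hB =>
    ⟨m, k, n, t, fun w => F (f w), g, h, hF.comp a, b, c, d, fun y => (hB y).trans
      ⟨by rintro ⟨x, l, rfl⟩; obtain ⟨w, p, q, rfl⟩ := (e x).1 l; exact ⟨w, p, q, rfl⟩,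
        by rintro ⟨w, p, q, rfl⟩; exact ⟨f w, (e _).2 ⟨w, p, q, rfl⟩, rfl⟩⟩⟩
  comap := fun {X Y} _ _ _ _ _ _ {F A B} hF ⟨m, k, n, t, f, g, h, a, b, c, d, e⟩ hA => by
    refine intro (W := (Fin m → M) × X) (Y := (Fin n → M) × Y) t (fun w => w.2) (fun w => g w.1)
      (fun w => (h w.1, f w.1 - F w.2)) (by fun_prop) (by fun_prop) (by fun_prop) d fun x => ?_
    rw [hA, e]
    constructor
    · rintro ⟨w, p, q, r⟩
      exact ⟨(w, x), p, by simp [q, r], rfl⟩
    · rintro ⟨⟨w, x'⟩, p, q, rfl⟩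
      simp only [Prod.mk_eq_zero, sub_eq_zero] at q
      exact ⟨w, p, q.1, q.2⟩
  sub := fun {X} _ _ _ {A} ⟨m, k, n, t, f, g, h, a, b, c, d, e⟩ =>
    (PP.D.ex (r := fun (x : X) (w : Fin m → M) => (∀ i, g w i ∈ G (t i)) ∧ h w = 0 ∧ f w = x)
      ((PP.D.all fun i => PP.D.mem (hG (t i))
        (PP.Fn.of ((Lin.apply i).comp (b.comp (Lin.snd Lin.id))))).and
        ((PP.D.eq (PP.Fn.of (c.comp (Lin.snd Lin.id))) PP.Fn.zero).and
          (PP.D.eq (PP.Fn.of (a.comp (Lin.snd Lin.id))) (PP.Fn.of (Lin.fst Lin.id)))))).df e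

theorem ext {I : Type} (G : I → AddSubgroup (M × M)) (hG : ∀ ξ, P.df (G ξ)) (Φ : Set I) (ξ : I) :
    Ext (cl G hG Φ) (G ξ) (cl G hG (insert ξ Φ)) where
  le := fun _ _ _ _ _ h => mono (subset_insert _ _) h
  df := gen (mem_insert _ _)
  nf := fun {X} _ _ _ {A} ⟨m, k, n, t, f, g, h, a, b, c, d, e⟩ => by
    classical
    have lg : ∀ i, Lin fun z : (X × (Fin k → M × M)) × (Fin m → M) => g z.2 i := fun i =>
      (Lin.apply i).comp (b.comp (Lin.snd Lin.id))
    obtain ⟨Z, p, q⟩ : (cl G hG Φ).D fun z : X × (Fin k → M × M) => ∃ w : Fin m → M,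
        (∀ i, t i ≠ ξ → g w i ∈ G (t i)) ∧ (∀ i, t i = ξ → g w i = z.2 i) ∧ h w = 0 ∧ f w = z.1 :=
      PP.D.ex (r := fun (z : X × (Fin k → M × M)) (w : Fin m → M) =>
        (∀ i, t i ≠ ξ → g w i ∈ G (t i)) ∧ (∀ i, t i = ξ → g w i = z.2 i) ∧ h w = 0 ∧ f w = z.1)
        ((PP.D.all fun i => PP.D.imp fun l => PP.D.mem (L := (cl G hG Φ).toPP)
          (gen ((d i).resolve_left l)) (PP.Fn.of (lg i))).and
          ((PP.D.all fun i => PP.D.imp fun _ => PP.D.eq (PP.Fn.of (lg i))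
            (PP.Fn.of ((Lin.apply i).comp (Lin.snd (Lin.fst Lin.id))))).and
          ((PP.D.eq (PP.Fn.of (c.comp (Lin.snd Lin.id))) PP.Fn.zero).and
            (PP.D.eq (PP.Fn.of (a.comp (Lin.snd Lin.id)))
              (PP.Fn.of (Lin.fst (Lin.fst Lin.id)))))))
    refine ⟨Fin k, inferInstance, Z, p, fun v => (e v).trans ⟨?_, ?_⟩⟩
    · rintro ⟨w, r, s, u⟩
      refine ⟨fun i => if t i = ξ then g w i else 0, mem_pw.2 fun i => ?_,
        (q _).2 ⟨w, fun i _ => r i, fun i l => by simp [l], s, u⟩⟩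
      split_ifs with l
      · exact l ▸ r i
      · exact zero_mem _
    · rintro ⟨γ, r, s⟩
      obtain ⟨w, s₁, s₂, s₃, s₄⟩ := (q _).1 s
      refine ⟨w, fun i => ?_, s₃, s₄⟩
      by_cases l : t i = ξ
      · rw [s₂ i l, l]
        exact mem_pw.1 r i
      · exact s₁ i l

/-- The commutant of all endomorphisms consists of scalars. -/
theorem lin_cases {f : M → M} (h : Lin f) : f = (fun _ => 0) ∨ f = fun v => v := by
  by_cases k : ∀ v : M, v = 0
  · exact .inl (funext fun v => k _)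
  obtain ⟨v, k⟩ := not_forall.1 k
  have key : ∀ (p : Submodule F M) (u : M), u ∉ p → ∀ w, ∃ φ : E, φ • u = w ∧ ∀ x ∈ p, φ • x = 0 := by
    intro p u l w
    obtain ⟨g, a, b⟩ := Submodule.exists_le_ker_of_notMem l
    refine ⟨g.smulRight w, ?_, fun x m => ?_⟩
    · have : g u = 1 := (F01 _).resolve_left a
      simp [this]
    · have : g x = 0 := b m
      simp [this]
  have h1 : f v ∈ Submodule.span F {v} := by
    by_contra l
    obtain ⟨φ, a, b⟩ := key _ _ l v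
    rw [← h.smul, b v (Submodule.mem_span_singleton_self v), h.map_zero] at a
    exact k a.symm
  obtain ⟨a, e⟩ := Submodule.mem_span_singleton.1 h1
  have h2 : ∀ w, ∃ φ : E, φ • v = w := fun w =>
    let ⟨φ, a, _⟩ := key ⊥ v (by simpa using k) w
    ⟨φ, a⟩
  obtain rfl | rfl := F01 a
  · refine .inl (funext fun w => ?_)
    obtain ⟨φ, rfl⟩ := h2 w
    rw [h.smul, ← e, zero_smul, smul_zero]
  · refine .inr (funext fun w => ?_)
    obtain ⟨φ, rfl⟩ := h2 w
    rw [h.smul, ← e, one_smul]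

instance finM : Finite {f : M → M // Lin f} :=
  ((Set.finite_singleton (fun v : M => v)).insert (fun _ => 0)).subset
    (s := {fun _ => 0, fun v => v}) (t := {f | Lin f}) fun _ h => lin_cases h

instance finLin {X Y : Type} [AddCommGroup X] [Module E X] [hX : Std X] [AddCommGroup Y]
    [Module E Y] [hY : Std Y] : Finite {f : X → Y // Lin f} := by
  classical
  obtain ⟨m, ⟨a⟩⟩ := hX
  obtain ⟨n, ⟨b⟩⟩ := hY
  have la : Lin fun w => a.symm w := Lin.of_lin a.symm.toLinearMap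
  have lb : Lin fun w => b w := Lin.of_lin b.toLinearMap
  have ls : ∀ i : Fin m, Lin fun v : M => (Pi.single i v : Fin m → M) := fun i =>
    Lin.of_lin (LinearMap.single E (fun _ => M) i)
  refine Finite.of_injective (β := Fin m → Fin n → {f : M → M // Lin f})
    (fun f i j => ⟨fun v => b (f.1 (a.symm (Pi.single i v))) j,
      (Lin.apply j).comp (lb.comp (f.2.comp (la.comp (ls i))))⟩) fun f g e => ?_
  refine Subtype.ext (funext fun x => ?_)
  have h1 : ∀ i v, f.1 (a.symm (Pi.single i v)) = g.1 (a.symm (Pi.single i v)) := fun i v =>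
    b.injective (funext fun j => congrFun (congrArg Subtype.val (congrFun (congrFun e i) j)) v)
  have h2 : x = ∑ i, a.symm (Pi.single i (a x i)) := by
    rw [← map_sum, Finset.univ_sum_single, LinearEquiv.symm_apply_apply]
  rw [h2]
  exact (map_sum f.2.hom _ _).trans
    ((Finset.sum_congr rfl fun i _ => h1 i _).trans (map_sum g.2.hom _ _).symm)

theorem card {I : Type} (G : I → AddSubgroup (M × M)) (Φ : Set I) (X : Type) [AddCommGroup X]
    [Module E X] [Std X] : #{A : AddSubgroup X | cdf G Φ A} ≤ max #Φ ℵ₀ := by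
  let T := Σ m : ℕ, Σ k : ℕ, Σ n : ℕ, {f : (Fin m → M) → X // Lin f} ×
    {g : (Fin m → M) → Fin k → M × M // Lin g} × {h : (Fin m → M) → Fin n → M // Lin h}
  let s : List Φ × T → Set X := fun z => {x | ∃ w, (∀ (i : Fin z.2.2.1) (l : i < z.1.length),
    z.2.2.2.2.2.1.1 w i ∈ G (z.1[i])) ∧ z.2.2.2.2.2.2.1 w = 0 ∧ z.2.2.2.2.1.1 w = x}
  have h1 : ∀ A : {A : AddSubgroup X | cdf G Φ A}, ∃ z, s z = A.1 := by
    rintro ⟨A, m, k, n, t, f, g, h, a, b, c, d, e⟩
    refine ⟨(List.ofFn fun i => ⟨t i, d i⟩, ⟨m, k, n, ⟨f, a⟩, ⟨g, b⟩, ⟨h, c⟩⟩), Set.ext fun x => ?_⟩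
    simp [s, e]
  choose z hz using h1
  have h2 : Function.Injective z := fun A B e =>
    Subtype.ext (SetLike.coe_injective ((hz A).symm.trans (e ▸ hz B)))
  refine (mk_le_of_injective h2).trans ?_
  rw [mk_prod, lift_id, lift_id]
  have h3 : #T ≤ ℵ₀ := mk_le_aleph0
  have h4 : #(List Φ) ≤ max #Φ ℵ₀ := (mk_list_le_max _).trans (max_comm _ _).le
  calc #(List Φ) * #T ≤ max #Φ ℵ₀ * max #Φ ℵ₀ := mul_le_mul' h4 (h3.trans (le_max_right _ _))
    _ = _ := mul_eq_self (le_max_right _ _)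

end CLS

theorem stCLS [Amb] : St_CLS := fun _ G hG =>
  ⟨CLS.cl G hG, fun _ _ _ _ _ => Iff.rfl, CLS.ext G hG, fun Φ X _ _ _ => CLS.card G Φ X⟩

end Z47
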