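import Mathlib

/-!
Definitions for the counterexample in ZFC: ambient space, definable classes, packages, systems.
-/

namespace Z47

open Set Filter Topology

/-- The ground field. -/
abbrev F : Type := ZMod 2

/-- The underlying space. -/
class Amb0 where
  M : Type
  [acg : AddCommGroup M]
  [mod : Module F M]

attribute [instance_reducible, instance] Amb0.acg Amb0.mod

export Amb0 (M)

section
variable [Amb0]

/-- All linear endomorphisms of the space. -/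
abbrev E : Type := Module.End F M

/-- Standard spaces: finite powers of `M`. -/
class Std (X : Type) [AddCommGroup X] [Module E X] : Prop where
  ex : ∃ n : ℕ, Nonempty (X ≃ₗ[E] (Fin n → M))

section
variable {X Y : Type} [AddCommGroup X] [Module E X] [AddCommGroup Y] [Module E Y]

/-- Matrix maps. -/
@[fun_prop] structure Lin (f : X → Y) : Prop where
  add : ∀ x y, f (x + y) = f x + f y
  smul : ∀ (φ : E) x, f (φ • x) = φ • f x

/-- A matrix map as a homomorphism. -/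
def Lin.hom {f : X → Y} (h : Lin f) : X →+ Y := AddMonoidHom.mk' f h.add

/-- Scalars as endomorphisms. -/
def sc (a : F) : E := algebraMap F E a

/-- The tensor `c ⊗ h`. -/
def tens {μ : Type} (c : μ → F) (h : X) : μ → X := fun i => sc (c i) • h

/-- `c ⊗ A`. -/
def tn {μ : Type} (c : μ → F) (A : AddSubgroup X) : AddSubgroup (μ → X) :=
  A.map (AddMonoidHom.mk' (tens c) fun _ _ => funext fun _ => smul_add _ _ _)

/-- The power `A ^ μ`. -/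
def pw {μ : Type} (A : AddSubgroup X) : AddSubgroup (μ → X) := AddSubgroup.pi univ fun _ => A

/-- A chain extended by zero at infinity. -/
def Hx (H : ℕ → AddSubgroup X) (l : ℕ∞) : AddSubgroup X := ENat.recTopCoe ⊥ H l

/-- The subspace of a type. -/
def Ty {μ : Type} (H : ℕ → AddSubgroup X) (l : (μ → F) → ℕ∞) : AddSubgroup (μ → X) :=
  ⨆ c, tn c (Hx H (l c))

/-- Full types. -/
def Full {μ : Type} (H : ℕ → AddSubgroup X) (G : AddSubgroup X) (Y : AddSubgroup (μ → X))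
    (l : (μ → F) → ℕ∞) : Prop := Ty H l ≤ (Y ⊓ Ty H l) ⊔ pw G

/-- `G` is generic over `Y`. -/
def GenAt {μ : Type} (H : ℕ → AddSubgroup X) (G : AddSubgroup X) (Y : AddSubgroup (μ → X)) :
    Prop := ∃ l, Y ⊓ pw G ≤ Ty H l ∧ Full H G Y l

/-- Rational subspaces. -/
def WC {μ : Type} (C : Set (μ → F)) : AddSubgroup (μ → M) := ⨆ c ∈ C, tn c ⊤

/-- The combination `∑ c k y k`. -/
def yc {d : ℕ} (y : Fin d → E) (c : Fin d → F) : E := ∑ k, sc (c k) * y k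

end

/-- A class of subspaces closed under pp operations. -/
structure PP where
  df : ∀ {X : Type} [AddCommGroup X] [Module E X], AddSubgroup X → Prop
  top : ∀ {X : Type} [AddCommGroup X] [Module E X] [Std X], df (⊤ : AddSubgroup X)
  bot : ∀ {X : Type} [AddCommGroup X] [Module E X] [Std X], df (⊥ : AddSubgroup X)
  inf : ∀ {X : Type} [AddCommGroup X] [Module E X] [Std X] {A B : AddSubgroup X},
    df A → df B → df (A ⊓ B)
  map : ∀ {X Y : Type} [AddCommGroup X] [Module E X] [Std X] [AddCommGroup Y] [Module E Y] [Std Y]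
    {f : X → Y} {A : AddSubgroup X} {B : AddSubgroup Y},
    Lin f → df A → (∀ y, y ∈ B ↔ ∃ x ∈ A, f x = y) → df B
  comap : ∀ {X Y : Type} [AddCommGroup X] [Module E X] [Std X] [AddCommGroup Y] [Module E Y] [Std Y]
    {f : X → Y} {A : AddSubgroup X} {B : AddSubgroup Y},
    Lin f → df B → (∀ x, x ∈ A ↔ f x ∈ B) → df A

section
variable {X Y : Type} [AddCommGroup X] [Module E X] [AddCommGroup Y] [Module E Y]

/-- Definable predicates. -/
def PP.D (L : PP) (p : X → Prop) : Prop := ∃ A : AddSubgroup X, L.df A ∧ ∀ x, x ∈ A ↔ p x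

/-- Definable functions. -/
@[fun_prop] def PP.Fn (L : PP) (f : X → Y) : Prop := L.D fun z : X × Y => f z.1 = z.2

/-- Definable endomorphisms. -/
def PP.Dy (L : PP) (y : E) : Prop := L.Fn fun v : M => y • v

/-- `G` is generic over the class `L`. -/
def Gen (H : ℕ → AddSubgroup (M × M)) (G : AddSubgroup (M × M)) (L : PP) : Prop :=
  ∀ (μ : Type) [Finite μ] (Y : AddSubgroup (μ → M × M)), L.df Y → GenAt H G Y

end
end

/-- The ambient space with its rank function. -/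
class Amb extends Amb0 where
  P : PP
  ρ : ∀ {X : Type} [AddCommGroup X] [Module E X], AddSubgroup X → ℝ
  ρ_top : ρ (⊤ : AddSubgroup M) = 1
  ρ_bot : ∀ {X : Type} [AddCommGroup X] [Module E X] [Std X], ρ (⊥ : AddSubgroup X) = 0
  ρ_mono : ∀ {X : Type} [AddCommGroup X] [Module E X] [Std X] {A B : AddSubgroup X},
    P.df A → P.df B → A ≤ B → ρ A ≤ ρ B
  ρ_faith : ∀ {X : Type} [AddCommGroup X] [Module E X] [Std X] {A B : AddSubgroup X},
    P.df A → P.df B → A ≤ B → ρ B ≤ ρ A → B ≤ A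
  ρ_mod : ∀ {X : Type} [AddCommGroup X] [Module E X] [Std X] {A B : AddSubgroup X},
    P.df A → P.df B → ρ (A ⊔ B) + ρ (A ⊓ B) = ρ A + ρ B
  ρ_map : ∀ {X Y : Type} [AddCommGroup X] [Module E X] [Std X] [AddCommGroup Y] [Module E Y]
    [Std Y] {f : X → Y} {A K : AddSubgroup X} {B : AddSubgroup Y}, Lin f → P.df A →
    (∀ y, y ∈ B ↔ ∃ x ∈ A, f x = y) → (∀ x, x ∈ K ↔ x ∈ A ∧ f x = 0) → ρ B + ρ K = ρ A
  sat1 : ∀ {X Y : Type} [AddCommGroup X] [Module E X] [Std X] [AddCommGroup Y] [Module E Y]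
    [Std Y] {f : X → Y} {K : ℕ → AddSubgroup X} {y : Y}, Lin f → (∀ n, P.df (K n)) → Antitone K →
    (∀ n, ∃ x ∈ K n, f x = y) → ∃ x, (∀ n, x ∈ K n) ∧ f x = y
  sat2 : ∀ {X : Type} [AddCommGroup X] [Module E X] [Std X] {K : ℕ → AddSubgroup X}
    {A : AddSubgroup X}, (∀ n, P.df (K n)) → Antitone K → P.df A →
    (∀ x, (∀ n, x ∈ K n) → x ∈ A) → ∃ n, K n ≤ A
  gen : ∀ (H : ℕ → AddSubgroup (M × M)) (r : ℕ → ℝ)
    (𝒴 : Set (Σ k : ℕ, AddSubgroup (Fin k → M × M))), (∀ j, P.df (H j)) → Antitone H →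
    Tendsto (fun j => ρ (H j)) atTop (𝓝 0) → Antitone r → (∀ j, 0 ≤ r j) → (∀ j, r j ≤ ρ (H j)) →
    (Antitone fun j => ρ (H j) - r j) → Cardinal.mk 𝒴 ≤ Cardinal.continuum →
    (∀ Y ∈ 𝒴, P.df Y.2) →
    ∃ G, P.df G ∧ G ≤ H 0 ∧ (∀ j, ρ (G ⊓ H j) = r j) ∧ ∀ Y ∈ 𝒴, GenAt H G Y.2

export Amb (P ρ)

section
variable [Amb]

/-- A pp class inside the ambient class. -/
structure Cl extends PP where
  sub : ∀ {X : Type} [AddCommGroup X] [Module E X] [Std X] {A : AddSubgroup X}, df A → P.df A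

/-- Inclusion of classes. -/
def Cl.Le (L L' : Cl) : Prop :=
  ∀ ⦃X : Type⦄ [AddCommGroup X] [Module E X] [Std X] ⦃A : AddSubgroup X⦄, L.df A → L'.df A

/-- Type-definable subspaces: countable decreasing meets. -/
def Cl.td (L : Cl) : PP where
  df {X} _ _ S := ∃ Z : ℕ → AddSubgroup X, (∀ n, L.df (Z n)) ∧ Antitone Z ∧
    ∀ x, x ∈ S ↔ ∀ n, x ∈ Z n
  top := ⟨fun _ => ⊤, fun _ => L.top, antitone_const, by simp⟩
  bot := ⟨fun _ => ⊥, fun _ => L.bot, antitone_const, by simp⟩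
  inf := fun ⟨Z, a, b, c⟩ ⟨Z', a', b', c'⟩ => ⟨fun n => Z n ⊓ Z' n, fun n => L.inf (a n) (a' n),
    fun _ _ h => inf_le_inf (b h) (b' h), by simp [c, c', forall_and]⟩
  map := fun {_ _} _ _ _ _ _ _ {_ _ _} hf ⟨Z, a, b, c⟩ h => ⟨fun n => (Z n).map hf.hom,
    fun n => L.map hf (a n) fun _ => Iff.rfl, fun _ _ k => AddSubgroup.map_mono (b k), fun y => by
      rw [h]
      exact ⟨fun ⟨x, k, e⟩ n => ⟨x, (c x).1 k n, e⟩, fun k =>
        let ⟨x, l, e⟩ := Amb.sat1 hf (fun n => L.sub (a n)) b k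
        ⟨x, (c x).2 l, e⟩⟩⟩
  comap := fun {_ _} _ _ _ _ _ _ {_ _ _} hf ⟨Z, a, b, c⟩ h => ⟨fun n => (Z n).comap hf.hom,
    fun n => L.comap hf (a n) fun _ => Iff.rfl, fun _ _ k => AddSubgroup.comap_mono (b k),
    fun y => (h y).trans (c _)⟩

section
variable {X Y : Type} [AddCommGroup X] [Module E X] [AddCommGroup Y] [Module E Y]

/-- The relative rank. -/
def dd (A B : AddSubgroup X) : ℝ := ρ (A ⊔ B) - ρ B

/-- Decreasing definable chains with ranks tending to zero. -/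
structure Chn (L : Cl) (K : ℕ → AddSubgroup X) : Prop where
  df : ∀ j, L.df (K j)
  anti : Antitone K
  lim : Tendsto (fun j => ρ (K j)) atTop (𝓝 0)

/-- Subspaces contained in definable subspaces of small rank. -/
def Small (L : Cl) (S : AddSubgroup X) : Prop := ∀ ε > 0, ∃ K, L.df K ∧ S ≤ K ∧ ρ K < ε

/-- No nonzero map from `S` to a quotient of a part of `S'`. -/
def NM (L : Cl) (S : AddSubgroup X) (S' : AddSubgroup Y) : Prop :=
  ∀ θ : AddSubgroup (X × Y), L.df θ → (∀ v ∈ S, ∃ w ∈ S', (v, w) ∈ θ) → ∀ v ∈ S, (v, 0) ∈ θ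

/-- Every definable relation between `S` and `S'` splits. -/
def Orth (L : Cl) (S : AddSubgroup X) (S' : AddSubgroup Y) : Prop :=
  ∀ θ : AddSubgroup (X × Y), L.df θ → ∀ v ∈ S, ∀ w ∈ S', (v, w) ∈ θ → (v, 0) ∈ θ

/-- The traces of `L'` on `S` are traces of `L`. -/
def Same (S : AddSubgroup X) (L L' : Cl) : Prop :=
  ∀ A : AddSubgroup X, L'.df A → ∃ A', L.df A' ∧ ∀ v ∈ S, v ∈ A ↔ v ∈ A'

/-- The interval of type-definable subspaces between `N` and `S` is finite. -/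
def FinI (L : Cl) (N S : AddSubgroup X) : Prop := {S' | L.td.df S' ∧ N ≤ S' ∧ S' ≤ S}.Finite

/-- Finitely many type-definable subspaces of the square. -/
def Fin2 (L : Cl) (S : AddSubgroup X) : Prop := FinI L ⊥ (S.prod S)

/-- No nonzero definable quotient of `S` is finite. -/
def NFs (L : Cl) (S : AddSubgroup X) : Prop :=
  ∀ A, L.df A → ¬ S ≤ A → ¬ FinI L ((A ⊓ S).prod (A ⊓ S)) (S.prod S)

/-- Atoms. -/
def Atom (L : Cl) (S : AddSubgroup X) : Prop :=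
  S ≠ ⊥ ∧ ∀ A, L.df A → S ≤ A ∨ ∀ v ∈ S, v ∈ A → v = 0

/-- `A₀` is the largest subspace of `A` in `L`. -/
structure IsInt (L : Cl) (A A₀ : AddSubgroup X) : Prop where
  df : L.df A₀
  le : A₀ ≤ A
  max : ∀ Y, L.df Y → Y ≤ A → Y ≤ A₀

/-- Increasing definable chains with coranks tending to zero. -/
structure Up (L : Cl) (Y : ℕ → AddSubgroup X) : Prop where
  df : ∀ j, L.df (Y j)
  mono : Monotone Y
  lim : Tendsto (fun j => dd ⊤ (Y j)) atTop (𝓝 0)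

/-- The subspaces of `L'` are those of `L` modulo the increasing chain `Y`. -/
def DSame (Y : ℕ → AddSubgroup X) (L L' : Cl) : Prop :=
  ∀ A : AddSubgroup X, L'.df A → ∃ A', L.df A' ∧ A ≤ A' ∧ ∃ j, A' ≤ A ⊔ Y j

end

/-- `L'` is generated by `L` and `G`. -/
structure Ext (L : Cl) (G : AddSubgroup (M × M)) (L' : Cl) : Prop where
  le : L.Le L'
  df : L'.df G
  nf : ∀ {X : Type} [AddCommGroup X] [Module E X] [Std X] {A : AddSubgroup X}, L'.df A →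
    ∃ (μ : Type) (_ : Finite μ) (Z : AddSubgroup (X × (μ → M × M))), L.df Z ∧
      ∀ v, v ∈ A ↔ ∃ γ ∈ (pw G : AddSubgroup (μ → M × M)), (v, γ) ∈ Z

/-- Proper subspaces have large codimension along the chain. -/
def Thin (L : Cl) (a : ℕ → AddSubgroup M) : Prop :=
  ∀ A, L.df A → ¬ ⨅ j, a j ≤ A → ∀ m : ℕ, ∀ᶠ j in atTop, m * ρ (a (j + 1)) < dd (a j) A

/-- Pairs that do not collapse are large along the chain. -/
def ThinB (L : Cl) (a : ℕ → AddSubgroup M) : Prop :=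
  ∀ (n : ℕ) (A₃ A₄ : AddSubgroup (Fin n → M)), L.df A₃ → L.df A₄ →
    ¬ pw (⨅ j, a j) ⊓ A₄ ≤ A₃ → ∀ m : ℕ, ∀ᶠ j in atTop, m * ρ (a (j + 1)) < dd (pw (a j) ⊓ A₄) A₃

/-- All traces on powers of `σ` are rational. -/
def Ratl (L : Cl) (σ : AddSubgroup M) : Prop :=
  ∀ (μ : Type) [Finite μ] (A : AddSubgroup (μ → M)), L.df A →
    ∃ C : Set (μ → F), ∀ v ∈ (pw σ : AddSubgroup (μ → M)), v ∈ A ↔ v ∈ WC C

/-- Complements exist. -/
def Cmp (L : Cl) : Prop := ∀ A : AddSubgroup M, L.df A → ∃ C, L.df C ∧ IsCompl A C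

/-- Interpolation of ranks. -/
def Itp (L : Cl) : Prop :=
  ∀ A A' C : AddSubgroup M, L.df A → L.df A' → L.df C → A ≤ A' → ∀ s t : ℚ,
    ρ A ≤ s + t * ρ C → s + t * ρ C ≤ ρ A' → ∃ B, L.df B ∧ A ≤ B ∧ B ≤ A' ∧ ρ B = s + t * ρ C

/-- `y` is definable and maps `κ` into itself. -/
def En (L : Cl) (κ : AddSubgroup M) (y : E) : Prop := L.Dy y ∧ ∀ v ∈ κ, y • v ∈ κ

/-- `κ` is the direct sum of the images of `σ` under the maps `y k ∘ z`. -/
def Glued (L L' : Cl) (σ κ : AddSubgroup M) : Prop :=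
  ∃ (d : ℕ) (y : Fin d → E) (z : AddSubgroup (M × M)), (∀ k, En L κ (y k)) ∧ L'.td.df z ∧
    z ≤ σ.prod κ ∧ (∀ u ∈ σ, ∃ w, (u, w) ∈ z) ∧ (∀ w, (0, w) ∈ z → w = 0) ∧
    (∀ v ∈ κ, ∃ h : Fin d → M × M, (∀ k, h k ∈ z) ∧ ∑ k, y k • (h k).2 = v) ∧
    ∀ h : Fin d → M × M, (∀ k, h k ∈ z) → ∑ k, y k • (h k).2 = 0 → h = 0

/-- Proper subspaces are killed by finitely many old endomorphisms. -/
def P2 (L L' : Cl) (κ : AddSubgroup M) : Prop :=
  ∀ A, L'.df A → ¬ κ ≤ A → ∃ (n : ℕ) (y : Fin n → E), (∀ i, En L κ (y i)) ∧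
    ∀ v ∈ κ, (∀ i, y i • v ∈ A) → v = 0

/-- Proper subspaces collapse an old pair. -/
def Seal (L L' : Cl) : Prop :=
  ∀ S : AddSubgroup M, L.td.df S → ∀ A, L'.df A → ¬ S ≤ A →
    ∃ (n : ℕ) (A₃ A₄ : AddSubgroup (Fin n → M)), L.df A₃ ∧ L.df A₄ ∧ pw A ⊓ A₄ ≤ A₃ ∧
      ¬ pw S ⊓ A₄ ≤ A₃

/-- The data of a gluing task. -/
structure GOk (L : Cl) (a b : ℕ → AddSubgroup M) (d : ℕ) (y : Fin d → E) : Prop where
  en : ∀ k j, En L (a j) (y k)
  ind : ∀ c, c ≠ 0 → ∃ w ∈ ⨅ j, a j, yc y c • w ≠ 0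
  span : ∀ θ : AddSubgroup (M × M), L.td.df θ → θ ≤ (⨅ j, a j).prod (⨅ j, a j) →
    (∀ v ∈ ⨅ j, a j, ∃ w, (v, w) ∈ θ) → (∀ w, (0, w) ∈ θ → w = 0) →
    ∃ c, ∀ v ∈ ⨅ j, a j, (v, yc y c • v) ∈ θ
  rk : ∀ j, ρ (a j) = d * ρ (b j)
  atom : Atom L (⨅ j, a j)
  fin : Fin2 L (⨅ j, a j)

/-- A package: two chains and a relation. -/
structure Pkg where
  a : ℕ → AddSubgroup M
  b : ℕ → AddSubgroup M
  G : AddSubgroup (M × M)

namespace Pkg

/-- The chain of the package. -/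
def H (p : Pkg) (j : ℕ) : AddSubgroup (M × M) := (p.b j).prod (p.a j)

/-- The limit of the target chain. -/
abbrev ai (p : Pkg) : AddSubgroup M := ⨅ j, p.a j

/-- The limit of the source chain. -/
abbrev bi (p : Pkg) : AddSubgroup M := ⨅ j, p.b j

/-- The limit of the chain. -/
def Hi (p : Pkg) : AddSubgroup (M × M) := p.bi.prod p.ai

/-- The generic subspace of a pure package. -/
def Pr (p : Pkg) : AddSubgroup M := p.G.comap (AddMonoidHom.inr M M)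

/-- Basic properties. -/
structure Ok (p : Pkg) (L : Cl) : Prop where
  ca : Chn L p.a
  cb : Chn L p.b
  PG : P.df p.G
  le : p.G ≤ p.H 0
  tot : ∀ j, ∀ u ∈ p.b j, ∃ w ∈ p.a j, (u, w) ∈ p.G
  triv : ∀ j, p.a j = ⊥ → p.b j = ⊥

/-- Graphs along strict chains. -/
structure Gr (p : Pkg) : Prop where
  fn : ∀ w, (0, w) ∈ p.G → w = 0
  str : ∀ j, ¬ p.a j ≤ p.a (j + 1)
  rk : ∀ j, ρ (p.G ⊓ p.H j) = ρ (p.b j)

/-- Pure packages. -/
structure Pure (p : Pkg) : Prop where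
  b : ∀ j, p.b j = ⊥
  a0 : p.a 0 = ⊤
  a1 : ∀ j, p.a (j + 1) = ⊥

/-- Packages of the killing kind. -/
structure IsK (p : Pkg) : Prop extends p.Gr where
  b : ∀ j, p.b j = p.a (j + 1)

end Pkg

/-- One generic step. -/
structure Step (L L' : Cl) (p : Pkg) : Prop where
  ok : p.Ok L
  gen : Gen p.H p.G L.toPP
  ext : Ext L p.G L'

/-- The reduced presentation of a new subspace. -/
structure Pres (L : Cl) (p : Pkg) {X : Type} [AddCommGroup X] [Module E X] (A : AddSubgroup X)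
    {μ : Type} (Z : AddSubgroup (X × (μ → M × M))) : Prop where
  old : L.df Z
  red : ∀ c : μ → F, (∀ w ∈ p.ai, ((0 : X), tens c ((0 : M), w)) ∈ Z) → c = 0
  sub : ∀ v, ∀ γ ∈ (pw p.G : AddSubgroup (μ → M × M)), (v, γ) ∈ Z → v ∈ A
  int : ∀ Y, L.df Y → Y ≤ A → ∀ v ∈ Y, (v, 0) ∈ Z
  lim : ∀ v ∈ A, (∀ ε > 0, ∃ K, L.df K ∧ v ∈ K ∧ ρ K < ε) →
    ∃ γ ∈ (pw p.G : AddSubgroup (μ → M × M)), γ ∈ (pw p.Hi : AddSubgroup (μ → M × M)) ∧ (v, γ) ∈ Z

/-- Old subspaces without rational directions miss the generic subspace. -/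
def L0 (L : Cl) (p : Pkg) : Prop :=
  ∀ (μ : Type) [Finite μ] (Z : AddSubgroup (μ → M × M)), L.td.df Z →
    (∀ c : μ → F, (∀ w ∈ p.ai, tens c ((0 : M), w) ∈ Z) → c = 0) →
    ∀ γ ∈ Z, γ ∈ (pw p.G : AddSubgroup (μ → M × M)) → γ ∈ (pw p.Hi : AddSubgroup (μ → M × M)) → γ = 0

/-- The quantitative form for killing packages. -/
def TH (L : Cl) (p : Pkg) : Prop :=
  ∀ (μ : Type) [Finite μ] (Z : AddSubgroup (μ → M × M)), L.df Z →
    (∀ c : μ → F, (∀ w ∈ p.ai, tens c ((0 : M), w) ∈ Z) → c = 0) →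
    ∃ N, ∀ j (Z' : AddSubgroup (μ → M × M)), L.df Z' → dd Z' Z ≤ ρ (p.a j) →
      Z' ⊓ pw p.G ⊓ pw (p.H N) ≤ pw (p.H j)

/-- The data of the transfinite construction. -/
class Sys0 where
  I : Type
  [lo : LinearOrder I]
  [wf : WellFoundedLT I]
  p : I → Pkg
  dep : I → Set I
  L : Set I → Cl
  q : ℕ → I
  K : I → Prop
  Gk : I → Prop

attribute [instance_reducible, instance] Sys0.lo
attribute [instance] Sys0.wf

export Sys0 (I p dep L q K Gk)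

section
variable [Sys0]

/-- Closed sets of tasks. -/
def Closed (Φ : Set I) : Prop := ∀ ξ ∈ Φ, dep ξ ⊆ Φ

/-- The base chain. -/
def sig (j : ℕ) : AddSubgroup M := ⨅ i < j, (p (q i)).Pr

/-- The base point. -/
def si : AddSubgroup M := ⨅ i, (p (q i)).Pr

/-- Nice bases. -/
structure Nice (B : Set I) : Prop where
  cnt : B.Countable
  cl : Closed B
  q : ∀ i, q i ∈ B
  cmp : Cmp (L B)
  itp : Itp (L B)

/-- The invariant of a task. -/
structure Good (ξ : I) (Φ : Set I) : Prop where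
  k : K ξ → Thin (L Φ) (p ξ).a ∧ NFs (L Φ) (p ξ).ai
  g : Gk ξ → Same ((p ξ).ai.prod (p ξ).ai) (L (dep ξ)) (L Φ) ∧ Orth (L Φ) si (p ξ).ai

/-- The inductive hypothesis. -/
structure Ctx (Φ Λ : Set I) : Prop where
  cl : Closed Φ
  low : ∀ α ∈ Φ, Iio α ⊆ Λ
  good : ∀ α ∈ Φ, ∀ Ψ ⊆ Φ ∩ Λ, Closed Ψ → α ∉ Ψ → dep α ⊆ Ψ → Good α Ψ

end

/-- The properties of the transfinite construction. -/
class Sys extends Sys0 where
  mono : ∀ {Φ Ψ}, Φ ⊆ Ψ → (L Φ).Le (L Ψ)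
  fin : ∀ {Φ} {X : Type} [AddCommGroup X] [Module E X] [Std X] {A : AddSubgroup X},
    (L Φ).df A → ∃ s ⊆ Φ, s.Finite ∧ (L s).df A
  ext : ∀ Φ ξ, Ext (L Φ) (p ξ).G (L (insert ξ Φ))
  cnt : ∀ {Φ} (X : Type) [AddCommGroup X] [Module E X] [Std X], Φ.Countable →
    {A : AddSubgroup X | (L Φ).df A}.Countable
  dep_lt : ∀ ξ, dep ξ ⊆ Iio ξ
  dep_cnt : ∀ ξ, (dep ξ).Countable
  dep_cl : ∀ ξ, Closed (dep ξ)
  ok : ∀ ξ, (p ξ).Ok (L (dep ξ))
  gen : ∀ ξ, Gen (p ξ).H (p ξ).G (L (Iio ξ)).toPP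
  q_inj : Function.Injective q
  q_pure : ∀ i, (p (q i)).Pure ∧ dep (q i) = ∅ ∧ ρ (p (q i)).Pr = 1 - 2⁻¹ ^ (i + 1)
  tri : ∀ ξ, (p ξ).Pure ∨ K ξ ∨ Gk ξ
  hK : ∀ ξ, K ξ → Nice (dep ξ) ∧ (p ξ).IsK ∧ ThinB (L (dep ξ)) (p ξ).a ∧ NFs (L (dep ξ)) (p ξ).ai
  hG : ∀ ξ, Gk ξ → Nice (dep ξ) ∧ (p ξ).Gr ∧ (∃ d y, GOk (L (dep ξ)) (p ξ).a (p ξ).b d y) ∧
    (p ξ).bi = si ∧ Orth (L (Iio ξ)) si (p ξ).ai
  exP : ∀ B : Set I, B.Countable → ∀ r : ℝ, 0 ≤ r → r ≤ 1 →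
    ∃ ξ, B ⊆ Iio ξ ∧ (p ξ).Pure ∧ dep ξ = ∅ ∧ ρ (p ξ).Pr = r
  exK : ∀ B, Nice B → ∀ a : ℕ → AddSubgroup M, Chn (L B) a → (∀ j, ¬ a j ≤ a (j + 1)) →
    ThinB (L B) a → NFs (L B) (⨅ j, a j) → ∃ ξ, K ξ ∧ dep ξ = B ∧ (p ξ).a = a
  exG : ∀ B, Nice B → ∀ (a b : ℕ → AddSubgroup M) d y, Chn (L B) a → Chn (L B) b →
    (∀ j, ¬ a j ≤ a (j + 1)) → GOk (L B) a b d y → ⨅ j, b j = si →
    ∃ ξ, B ⊆ Iio ξ ∧ (¬ Orth (L (Iio ξ)) si (⨅ j, a j) ∨ Gk ξ ∧ dep ξ = B ∧ (p ξ).a = a)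

end

end Z47
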