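import Pool.Agent.Lib.MP_1e63be_al.Z47.Blue

/-!
Exchange, genericity over closed sets, interiors and hulls over a base.
-/

namespace Z47

open Set Filter Topology

variable [Amb]

theorem stEXCH : St_EXCH := by
  intro L L₁ L₂ H H' G G' hG e1 hG' e2 hH μ _ Y hY
  obtain ⟨ν, _, Z, hZ, hYZ⟩ := e2.nf hY
  obtain ⟨Y', a1, b1⟩ : L₁.D fun γ : ν → M × M =>
      ∃ v : μ → M × M, v ∈ (pw G : AddSubgroup (μ → M × M)) ∧ (v, γ) ∈ Z :=
    PP.D.ex ((PP.D.mem (PP.pw e1.df) (by fun_prop)).and (PP.D.mem (e1.le hZ) (by fun_prop)))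
  obtain ⟨l', c1, f1⟩ := hG' ν Y' a1
  obtain ⟨Y'', a2, b2⟩ : L.D fun v : μ → M × M => ∃ t : ν → M × M, t ∈ Ty H' l' ∧ (v, t) ∈ Z :=
    PP.D.ex ((PP.D.mem (PP.Ty hH l') (by fun_prop)).and (PP.D.mem hZ (by fun_prop)))
  obtain ⟨l, c2, f2⟩ := hG μ Y'' a2
  refine ⟨l, fun v hv => ?_, fun t ht => ?_⟩
  · obtain ⟨γ, hγ, hz⟩ := (hYZ v).1 hv.1
    exact c2 ⟨(b2 v).2 ⟨γ, c1 ⟨(b1 γ).2 ⟨v, hv.2, hz⟩, hγ⟩, hz⟩, hv.2⟩
  · obtain ⟨y, hy, g, hg, rfl⟩ := AddSubgroup.mem_sup.1 (f2 ht)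
    obtain ⟨t', ht', hz⟩ := (b2 y).1 hy.1
    obtain ⟨y', hy', g', hg', rfl⟩ := AddSubgroup.mem_sup.1 (f1 ht')
    obtain ⟨v, hv, hz'⟩ := (b1 y').1 hy'.1
    have hvT : v ∈ Ty H l := c2 ⟨(b2 v).2 ⟨y', hy'.2, hz'⟩, hv⟩
    refine AddSubgroup.mem_sup.2 ⟨y - v, ⟨(hYZ _).2 ⟨g', hg', ?_⟩, (Ty H l).sub_mem hy.2 hvT⟩, v + g,
      add_mem hv hg, by abel⟩
    simpa using sub_mem hz hz'

variable [Sys]

/-- Induction along the chain from `B` to `B ∪ Φ`. -/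
theorem chain33 {B Φ : Set I} (Q : Set I → Prop) (h0 : Q B)
    (hf : ∀ Ψ, (∀ s ⊆ Ψ, s.Finite → ∃ Ψ', s ⊆ Ψ' ∧ Q Ψ') → Q Ψ)
    (hs : ∀ α ∈ Φ, α ∉ B → Q (B ∪ Φ ∩ Iio α) → Q (insert α (B ∪ Φ ∩ Iio α))) : Q (B ∪ Φ) := by
  have key : ∀ U : Set I, (∀ β ∈ U, Q (B ∪ Φ ∩ Iic β)) → Q (B ∪ Φ ∩ U) := fun U h =>
    hf _ fun s k l => by
      rcases (s \ B).eq_empty_or_nonempty with e | e
      · exact ⟨B, sdiff_eq_empty.1 e, h0⟩
      · obtain ⟨β, m, n⟩ := Set.exists_max_image (s \ B) id l.sdiff e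
        refine ⟨_, fun γ r => ?_, h β ((k m.1).resolve_left m.2).2⟩
        by_cases t : γ ∈ B
        · exact Or.inl t
        · exact Or.inr ⟨((k r).resolve_left t).1, n γ ⟨r, t⟩⟩
  have all : ∀ α, Q (B ∪ Φ ∩ Iic α) := fun α => by
    induction α using WellFoundedLT.induction with
    | ind α ih =>
      have h1 := key (Iio α) ih
      by_cases t : α ∈ Φ ∧ α ∉ B
      · convert hs α t.1 t.2 h1 using 1
        ext γ
        simp only [mem_union, mem_inter_iff, mem_Iic, mem_insert_iff, mem_Iio, le_iff_lt_or_eq]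
        constructor
        · rintro (r | ⟨r, u | u⟩)
          exacts [Or.inr (Or.inl r), Or.inr (Or.inr ⟨r, u⟩), Or.inl u]
        · rintro (rfl | r | ⟨r, u⟩)
          exacts [Or.inr ⟨t.1, Or.inr rfl⟩, Or.inl r, Or.inr ⟨r, Or.inl u⟩]
      · convert h1 using 1
        ext γ
        simp only [mem_union, mem_inter_iff, mem_Iic, mem_Iio, le_iff_lt_or_eq]
        constructor
        · rintro (r | ⟨r, u | rfl⟩)
          exacts [Or.inl r, Or.inr ⟨r, u⟩, Or.inl (by_contra fun v => t ⟨r, v⟩)]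
        · rintro (r | ⟨r, u⟩)
          exacts [Or.inl r, Or.inr ⟨r, Or.inl u⟩]
  simpa using key univ fun β _ => all β

theorem closed33 {B Φ : Set I} (hB : Closed B) (hΦ : Closed Φ) (α : I) :
    Closed (B ∪ Φ ∩ Iio α) := by
  rintro β (h | h) γ k
  · exact Or.inl (hB β h k)
  · exact Or.inr ⟨hΦ β h.1 k, lt_trans (Sys.dep_lt β k) h.2⟩

theorem dep33 {B Φ : Set I} (hΦ : Closed Φ) {α : I} (h : α ∈ Φ) : dep α ⊆ B ∪ Φ ∩ Iio α :=
  fun _ k => Or.inr ⟨hΦ α h k, Sys.dep_lt α k⟩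

theorem notMem33 {B Φ : Set I} {α : I} (h : α ∉ B) : α ∉ B ∪ Φ ∩ Iio α := by simp [h]

omit [Sys] in
theorem Gen.anti33 {H : ℕ → AddSubgroup (M × M)} {G : AddSubgroup (M × M)} {L L' : Cl}
    (h : Gen H G L'.toPP) (k : L.Le L') : Gen H G L.toPP := fun μ _ Y l => h μ Y (k l)

theorem stSTEP (hE : St_EXCH) : St_STEP := by
  intro ξ Φ hΦ hξ hd
  refine ⟨(Sys.ok ξ).mono (Sys.mono hd), ?_, Sys.ext Φ ξ⟩
  have := chain33 (B := ∅) (Φ := Φ) (fun Ψ => Gen (p ξ).H (p ξ).G (L Ψ).toPP)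
    ((Sys.gen ξ).anti33 (Sys.mono (empty_subset _))) (fun Ψ h μ _ Y k => ?_) fun α a _ h => ?_
  · simpa using this
  · obtain ⟨s, l, m, n⟩ := Sys.fin k
    obtain ⟨Ψ', r, t⟩ := h s l m
    exact t μ Y (Sys.mono r n)
  · rcases lt_trichotomy α ξ with u | rfl | u
    · refine (Sys.gen ξ).anti33 (Sys.mono ?_)
      rintro γ (rfl | r | r)
      exacts [u, r.elim, lt_trans r.2 u]
    · exact (hξ a).elim
    · refine hE h (Sys.ext _ ξ) ((Sys.gen α).anti33 (Sys.mono ?_)) (Sys.ext _ α)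
        ((Sys.ok α).mono (Sys.mono (dep33 hΦ a))).df
      rintro γ (rfl | r | r)
      exacts [u, r.elim, r.2]

theorem stINT (hN : St_NF) (hS : St_STEP) : St_INT := by
  intro B Φ hB hΦ hBΦ X _ _ _ A hA
  have := chain33 (B := B) (Φ := Φ)
    (fun Ψ => ∀ A : AddSubgroup X, (L Ψ).df A → ∃ A₀, IsInt (L B) A A₀)
    (fun A h => ⟨A, h, le_rfl, fun _ _ k => k⟩) (fun Ψ h A k => ?_) fun α a b h A k => ?_
  · exact this A (Sys.mono subset_union_right hA)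
  · obtain ⟨s, l, m, n⟩ := Sys.fin k
    obtain ⟨Ψ', r, t⟩ := h s l m
    exact t A (Sys.mono r n)
  · obtain ⟨μ, _, Z, hZ⟩ := hN (hS (closed33 hB hΦ α) (notMem33 b) (dep33 hΦ a)) k
    obtain ⟨A₁, a1, b1⟩ : (L (B ∪ Φ ∩ Iio α)).D fun v : X => (v, (0 : μ → M × M)) ∈ Z :=
      PP.D.mem hZ.old (by fun_prop)
    obtain ⟨A₀, h0⟩ := h A₁ a1
    exact ⟨A₀, h0.df, fun v l => hZ.sub v 0 (zero_mem _) ((b1 v).1 (h0.le l)), fun Y l m =>
      h0.max Y l fun v n => (b1 v).2 (hZ.int Y (Sys.mono subset_union_left l) m v n)⟩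

theorem stDS (hH : St_HL) (hS : St_STEP) : St_DS := by
  intro B hB X _ _ _ Y hY
  have hU : Closed (univ : Set I) := fun _ _ => subset_univ _
  have := chain33 (B := B) (Φ := univ) (fun Ψ => DSame Y (L B) (L Ψ))
    (fun A h => ⟨A, h, le_rfl, 0, le_sup_left⟩) (fun Ψ h A k => ?_) fun α a b h A k => ?_
  · simpa using this
  · obtain ⟨s, l, m, n⟩ := Sys.fin k
    obtain ⟨Ψ', r, t⟩ := h s l m
    exact t A (Sys.mono r n)
  · obtain ⟨A₁, a1, b1, j, c1⟩ := hH (hS (closed33 hB hU α) (notMem33 b) (dep33 hU a))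
      ⟨fun j => Sys.mono subset_union_left (hY.df j), hY.mono, hY.lim⟩ A k
    obtain ⟨A₂, a2, b2, i, c2⟩ := h A₁ a1
    exact ⟨A₂, a2, b1.trans b2, max j i, c2.trans (sup_le
      (c1.trans (sup_le_sup_left (hY.mono (le_max_left _ _)) _))
      ((hY.mono (le_max_right _ _)).trans le_sup_right))⟩

end Z47
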