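import Pool.Agent.Lib.MP_1e63be_al.Z47.Blue

/-!
Left ideals of the ring are annihilators, and the left side.
-/

namespace Z47

open Set Filter Topology

variable [Amb]

namespace FL4

/-- Functional relations extend to definable endomorphisms. -/
theorem rep {L : Cl} (hL : Cmp L) {θ : AddSubgroup (M × M)} (hθ : L.td.df θ)
    (fn : ∀ w, (0, w) ∈ θ → w = 0) : ∃ y : E, L.Dy y ∧ ∀ v w, (v, w) ∈ θ → y • v = w := by
  obtain ⟨Z, a, b, c⟩ := hθ
  have hK : ∀ n, L.D fun w : M => ((0 : M), w) ∈ Z n := fun n => PP.D.mem (a n) (by fun_prop)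
  choose K k1 k2 using hK
  obtain ⟨N, e⟩ := Amb.sat2 (K := K) (A := ⊥) (fun n => L.sub (k1 n))
    (fun m n h w l => (k2 m w).2 (b h ((k2 n w).1 l))) P.bot
    fun w l => fn w ((c _).2 fun n => (k2 n w).1 (l n))
  obtain ⟨D, d1, d2⟩ : L.D fun v : M => ∃ w, (v, w) ∈ Z N := PP.D.ex (PP.D.of (a N))
  obtain ⟨C, c1, c2⟩ := hL D d1
  obtain ⟨T, t1, t2⟩ : L.D fun z : M × M => ∃ u, u ∈ C ∧ (z.1 - u, z.2) ∈ Z N :=
    PP.D.ex ((PP.D.mem c1 (by fun_prop)).and (PP.D.mem (a N) (by fun_prop)))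
  have tot : ∀ v, ∃ w, (v, w) ∈ T := fun v => by
    obtain ⟨x, hx, u, hu, rfl⟩ := AddSubgroup.mem_sup.1 (c2.sup_eq_top ▸ AddSubgroup.mem_top v)
    obtain ⟨w, l⟩ := (d2 x).1 hx
    exact ⟨w, (t2 _).2 ⟨u, hu, by simpa⟩⟩
  have fu : ∀ v w w', (v, w) ∈ T → (v, w') ∈ T → w = w' := fun v w w' h h' => by
    obtain ⟨u, hu, l⟩ := (t2 _).1 (T.sub_mem h h')
    have : -u ∈ D ⊓ C := ⟨(d2 _).2 ⟨w - w', by simpa using l⟩, C.neg_mem hu⟩
    rw [c2.inf_eq_bot, AddSubgroup.mem_bot, neg_eq_zero] at this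
    subst this
    exact sub_eq_zero.1 (e ((k2 N _).2 (by simpa using l)))
  choose f hf using tot
  refine ⟨(AddMonoidHom.mk' f fun x y => fu _ _ _ (hf _) (T.add_mem (hf x) (hf y))).toZModLinearMap
    2, ⟨T, t1, fun z => ⟨fun h => fu _ _ _ (hf _) h, fun h => ?_⟩⟩, fun v w h =>
      fu _ _ _ (hf v) ((t2 _).2 ⟨0, C.zero_mem, by simpa using (c _).1 h N⟩)⟩
  have := hf z.1
  rwa [show f z.1 = z.2 from h] at this

theorem atom {L : Cl} {σ : AddSubgroup M} (h : Ratl L σ) (k : σ ≠ ⊥) : Atom L σ := by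
  refine ⟨k, fun A hA => ?_⟩
  obtain ⟨C, hC⟩ := h Unit (pw A) (PP.pw hA)
  by_cases l : (fun _ => 1) ∈ C
  · refine Or.inl fun v m => mem_pw.1 ((hC (fun _ => v) (mem_pw.2 fun _ => m)).2 ?_) ()
    have := WC_le.1 (le_refl (WC C)) _ l v
    rwa [show tens (fun _ : Unit => (1 : F)) v = fun _ => v from funext fun _ => by simp] at this
  · refine Or.inr fun v m n => ?_
    have : WC C ≤ ⊥ := WC_le.2 fun c e w => by
      obtain r | r := F01 (c ())
      · exact funext fun _ => by simp [r]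
      · exact absurd ((funext fun _ => r : c = fun _ => 1) ▸ e) l
    exact congrFun (this ((hC (fun _ => v) (mem_pw.2 fun _ => m)).1 (mem_pw.2 fun _ => n))) ()

variable [Sys]

/-- Functional relations extend to elements of the ring. -/
theorem repR (hL : Cmp (L univ)) {r : M → M → Prop} (h : (L univ).td.D fun z : M × M => r z.1 z.2)
    (fn : ∀ w, r 0 w → w = 0) : ∃ y : RR, ∀ v w, r v w → y.1 • v = w :=
  let ⟨_, a, b⟩ := h
  let ⟨y, c, d⟩ := rep hL a fun w l => fn w ((b _).1 l)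
  ⟨⟨y, c⟩, fun v w l => d v w ((b _).2 l)⟩

theorem ker (x : RR) : (L univ).D fun v : M => x.1 • v = 0 :=
  have : (L univ).Dy x.1 := x.2
  PP.D.eq (by fun_prop (disch := assumption)) (by fun_prop)

/-- Division on a type-definable subspace. -/
theorem div (hL : Cmp (L univ)) {S : AddSubgroup M} (hS : (L univ).td.df S) (x y : RR)
    (h : ∀ v ∈ S, x.1 • v = 0 → y.1 • v = 0) : ∃ r : RR, ∀ v ∈ S, (r * x).1 • v = y.1 • v := by
  have hx : (L univ).td.Dy x.1 := Cl.tdDy x.2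
  have hy : (L univ).td.Dy y.1 := Cl.tdDy y.2
  obtain ⟨r, e⟩ := repR hL (r := fun a b => ∃ v, v ∈ S ∧ x.1 • v = a ∧ y.1 • v = b)
    (PP.D.ex ((PP.D.mem hS (by fun_prop)).and ((PP.D.eq (by fun_prop (disch := assumption))
      (by fun_prop)).and (PP.D.eq (by fun_prop (disch := assumption)) (by fun_prop)))))
    fun w ⟨v, a, b, c⟩ => c ▸ h v a b
  exact ⟨r, fun v l => (mul_smul r.1 x.1 v).trans (e _ _ ⟨v, l, rfl, rfl⟩)⟩

/-- Every definable subspace is a kernel. -/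
theorem exker (hL : Cmp (L univ)) {A : AddSubgroup M} (hA : (L univ).df A) :
    ∃ x : RR, ∀ v : M, x.1 • v = 0 ↔ v ∈ A := by
  obtain ⟨C, c1, c2⟩ := hL A hA
  obtain ⟨x, e⟩ := repR hL (r := fun a b => a - b ∈ A ∧ b ∈ C)
    (Cl.tdD ((PP.D.mem hA (by fun_prop)).and (PP.D.mem c1 (by fun_prop))))
    fun w l => AddSubgroup.mem_bot.1 (c2.inf_eq_bot ▸ ⟨by simpa using l.1, l.2⟩)
  refine ⟨x, fun v => ⟨fun l => ?_, fun l => e v 0 ⟨by simpa, C.zero_mem⟩⟩⟩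
  obtain ⟨a, ha, u, hu, rfl⟩ := AddSubgroup.mem_sup.1 (c2.sup_eq_top ▸ AddSubgroup.mem_top v)
  have := e (a + u) u ⟨by simpa, hu⟩
  rw [l] at this
  subst this
  simpa

theorem reg (hL : Cmp (L univ)) : Reg RR := fun x => by
  obtain ⟨A, a1, a2⟩ := ker x
  obtain ⟨C, c1, c2⟩ := hL A a1
  obtain ⟨r, e⟩ := div hL (Cl.td_of c1) x 1 fun v l m => by
    simpa using AddSubgroup.mem_bot.1 (c2.inf_eq_bot ▸ (⟨(a2 v).2 m, l⟩ : v ∈ A ⊓ C))
  refine ⟨r, Subtype.ext (LinearMap.ext fun v => ?_)⟩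
  obtain ⟨a, ha, u, hu, rfl⟩ := AddSubgroup.mem_sup.1 (c2.sup_eq_top ▸ AddSubgroup.mem_top v)
  have h1 : x.1 a = 0 := (a2 a).1 ha
  have h2 : r.1 (x.1 u) = u := e u hu
  simp [h1, h2]

/-- The filter of a left ideal. -/
def Fil (J : Ideal RR) (A : AddSubgroup M) : Prop :=
  (L univ).df A ∧ ∀ x : RR, (∀ v ∈ A, x.1 • v = 0) → x ∈ J

theorem Fil.top (J : Ideal RR) : Fil J ⊤ := ⟨PP.top _, fun x h => by
  rw [show x = 0 from Subtype.ext (LinearMap.ext fun v => h v trivial)]; exact J.zero_mem⟩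

theorem Fil.inf (hL : Cmp (L univ)) {J : Ideal RR} {A A' : AddSubgroup M} (h : Fil J A)
    (k : Fil J A') : Fil J (A ⊓ A') := ⟨PP.inf _ h.1 k.1, fun x l => by
  have hx : (L univ).Dy x.1 := x.2
  obtain ⟨y, e⟩ := repR hL (r := fun a b => ∃ v, v ∈ A' ∧ a - v ∈ A ∧ x.1 • v = b)
    (Cl.tdD (PP.D.ex ((PP.D.mem k.1 (by fun_prop)).and ((PP.D.mem h.1 (by fun_prop)).and
      (PP.D.eq (by fun_prop (disch := assumption)) (by fun_prop))))))
    fun w ⟨v, a, b, c⟩ => c ▸ l v ⟨by simpa using b, a⟩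
  have h1 := h.2 y fun v m => e v 0 ⟨0, A'.zero_mem, by simpa, by simp⟩
  have h2 := k.2 (x - y) fun v m => by
    rw [AddSubgroupClass.coe_sub, sub_smul, e v _ ⟨v, m, by simp, rfl⟩, sub_self]
  simpa using J.add_mem h1 h2⟩

end FL4

open FL4

variable [Sys]

theorem stFILT (h1 : St_NICE) (h2 : St_SEAL) (h3 : St_GOOD) : St_FILT := by
  classical
  refine ⟨reg h1.1, fun J hJ => ?_⟩
  have hw : ∀ (n : ℕ) (A₃ A₄ : AddSubgroup (Fin n → M)), ∃ A, Fil J A ∧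
      ∀ A', Fil J A' → pw A' ⊓ A₄ ≤ A₃ → pw A ⊓ A₄ ≤ A₃ := fun n A₃ A₄ => by
    by_cases h : ∃ A', Fil J A' ∧ pw A' ⊓ A₄ ≤ A₃
    · obtain ⟨A, a, b⟩ := h
      exact ⟨A, a, fun _ _ _ => b⟩
    · exact ⟨⊤, Fil.top J, fun A' a b => absurd ⟨A', a, b⟩ h⟩
  choose w w1 w2 using hw
  obtain ⟨B, hB, hw⟩ := h1.2 w fun n a b => (w1 n a b).1
  obtain ⟨K, hK⟩ := ((Sys.cnt M hB.cnt).mono (s₁ := {A | (L B).df A ∧ Fil J A})
    fun _ h => h.1).exists_eq_range ⟨⊤, PP.top _, Fil.top J⟩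
  have k1 : ∀ n, (L B).df (K n) ∧ Fil J (K n) := fun n => hK.ge ⟨n, rfl⟩
  have k2 : ∀ N, Fil J (⨅ i : Fin N, K i) := fun N => by
    induction N with
    | zero => rw [iInf_of_empty]; exact Fil.top J
    | succ N k =>
      rw [show ⨅ i : Fin (N + 1), K i = (⨅ i : Fin N, K i) ⊓ K N from AddSubgroup.ext fun v => by
        simp [AddSubgroup.mem_iInf, Fin.forall_fin_succ']]
      exact k.inf h1.1 (k1 N).2
  have hS : (L B).td.df (⨅ n, K n) := Cl.td_iInf fun n => Cl.td_of (k1 n).1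
  have key : ∀ A, (L univ).df A → (Fil J A ↔ ⨅ n, K n ≤ A) := fun A hA => ⟨fun h => by
      by_contra l
      obtain ⟨n, A₃, A₄, a, b, c, d⟩ := h2 h3 hB (by simp) _ hS A hA l
      obtain ⟨m, e⟩ := hK.le ⟨hw n _ _ a b, w1 n A₃ A₄⟩
      exact d ((inf_le_inf_right _ (pw_mono (e ▸ iInf_le _ m))).trans (w2 n _ _ A h c)),
    fun h => by
      obtain ⟨N, e⟩ := sat_le (L := L B) (K := fun N => ⨅ i : Fin N, K i)
        (fun N => PP.iInf fun i => (k1 i).1)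
        (fun m n k => le_iInf fun i => iInf_le (fun i : Fin n => K i) (i.castLE k)) hA
        (le_trans (le_iInf fun n => (iInf_le _ (n + 1)).trans
          (iInf_le (fun i : Fin (n + 1) => K i) (Fin.last n))) h)
      exact ⟨hA, fun x l => (k2 N).2 x fun v m => l v (e N le_rfl m)⟩⟩
  refine ⟨B, _, hB, hS, fun e => hJ ((Ideal.eq_top_iff_one J).2
    (((key ⊥ (PP.bot _)).2 e.le).2 1 (by simp))), fun x => ?_⟩
  obtain ⟨A, a1, a2⟩ := ker x
  refine ⟨fun l v m => (a2 v).1 ((key A a1).1 ⟨a1, fun y n => ?_⟩ m),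
    fun l => ((key A a1).2 fun v m => (a2 v).2 (l v m)).2 x fun v => (a2 v).1⟩
  obtain ⟨r, e⟩ := div h1.1 (PP.top _) x y fun v _ o => n v ((a2 v).2 o)
  rw [← show r * x = y from Subtype.ext (LinearMap.ext fun v => e v trivial)]
  exact J.mul_mem_left r l

theorem stLEFT (h1 : St_FILT) (h2 : St_NU) (h3 : St_MAP) (h4 : St_RAT) (h5 : St_SIG)
    (h6 : St_GOOD) (h7 : St_NICE) : St_LEFT := by
  obtain ⟨s1, -, s3, s4, -, -⟩ := h5
  have hA := atom (h4 h6 (by simp)) s4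
  have hS : (L univ).td.df si := s3 ▸ (s1.mono (Sys.mono (subset_univ _))).td
  let I : Ideal RR :=
    { carrier := {x | ∀ v ∈ si, x.1 • v = 0}
      add_mem' := fun {x y} a b v l => by
        rw [AddMemClass.coe_add, add_smul, a v l, b v l, add_zero]
      zero_mem' := fun v _ => zero_smul _ _
      smul_mem' := fun r x a v l => by
        rw [smul_eq_mul, MulMemClass.coe_mul, mul_smul, a v l, smul_zero] }
  refine ⟨I, Ideal.isMaximal_iff.2 ⟨fun h => s4 (eq_bot_iff.2 fun v l => by simpa using h v l),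
    fun J x a b c => ?_⟩, fun J hJ hU => ?_⟩
  · obtain ⟨A, a1, a2⟩ := ker x
    obtain ⟨r, e⟩ := div h7.1 hS x 1 fun v l m => by
      simpa using (hA.2 A a1).resolve_left (fun n => b fun v o => (a2 v).1 (n o)) v l ((a2 v).2 m)
    have : 1 - r * x ∈ I := fun v l => by
      rw [AddSubgroupClass.coe_sub, sub_smul, e v l, sub_self]
    simpa using J.add_mem (a this) (J.mul_mem_left r c)
  · obtain ⟨B, S, hB, hS, s, e⟩ := h1.2 J hJ
    by_cases h : NFs (L B) S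
    · obtain ⟨A₁, A₂, a1, a2, b1, b2, c⟩ := h2 hB hS s (Or.inr h)
      obtain ⟨x, hx⟩ := exker h7.1 a1
      obtain ⟨y, hy⟩ := exker h7.1 a2
      obtain ⟨r, t, f, g⟩ := hU x (fun l => b1 fun v m => (hx v).1 ((e x).1 l v m)) y
        fun l => b2 fun v m => (hy v).1 ((e y).1 l v m)
      refine absurd ((e _).2 fun v m => ?_) g
      obtain ⟨v₁, m₁, v₂, m₂, rfl⟩ := AddSubgroup.mem_sup.1 (c m)
      have := (e _).1 f v₂ m₂.2
      rw [AddSubgroupClass.coe_sub, sub_smul, MulMemClass.coe_mul _ t, mul_smul t.1, (hy _).2 m₂.1,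
        smul_zero, sub_zero] at this
      rw [smul_add, this, MulMemClass.coe_mul, mul_smul, (hx _).2 m₁.1, smul_zero, add_zero]
    · obtain ⟨x, a, b, v, c, d⟩ := h3 hB hS h
      exact ⟨⟨x, a⟩, fun l => d ((e _).1 l v c), fun i l => (e _).2 fun u m =>
        (mul_smul i.1 x u).trans (l _ (b u m))⟩

end Z47

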