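import Pool.Agent.Lib.MP_1e63be_al.Z47.SysB

/-!
The invariant of gluing tasks, and the transfinite induction.
-/

namespace Z47

open Set Filter Topology

variable [Amb]

namespace GG22

section
variable {X Y : Type} [AddCommGroup X] [Module E X] [Std X] [AddCommGroup Y] [Module E Y] [Std Y]
  {L L' : Cl} {S : AddSubgroup X} {S' : AddSubgroup Y}

theorem orth_of_nm (hS : L.td.df S) (hS' : L.td.df S') (h : Atom L S) (h' : Atom L S')
    (k : NM L S S') : Orth L S S' := by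
  by_contra c
  obtain ⟨θ, d, le, t, -, -, z⟩ := atom_bij hS hS' h h' c
  refine h.1 (eq_bot_iff.2 fun v hv => z v (k.td d (fun v hv => ?_) v hv))
  obtain ⟨w, hw⟩ := t v hv
  exact ⟨w, (le hw).2, hw⟩

end

variable [Sys]

/-- A performed gluing task has a nonzero point of its graph at infinity. -/
theorem pt (h1 : St_STEP) (h3 : St_L0G) (h6 : St_SIG) {γ : I} (g : Gk γ) :
    ∃ u ∈ si, ∃ w ∈ (p γ).ai, (u, w) ∈ (p γ).G ∧ w ≠ 0 := by
  obtain ⟨-, gr, ⟨d, y, ok⟩, bi, o⟩ := Sys.hG γ g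
  have nm : γ ∉ dep γ := fun h => lt_irrefl _ (Sys.dep_lt γ h)
  have l0 : L0 (L (dep γ)) (p γ) := h3 (h1 (Sys.dep_cl γ) nm subset_rfl) gr ok
    (bi ▸ o.anti (Sys.mono (Sys.dep_lt γ)))
  obtain ⟨u, hu, u0⟩ : ∃ u ∈ si, u ≠ 0 := by
    by_contra c
    push Not at c
    exact h6.2.2.2.1 (eq_bot_iff.2 c)
  have hb : ∀ j, u ∈ (p γ).b j := AddSubgroup.mem_iInf.1 (bi ▸ hu : u ∈ (p γ).bi)
  choose w hw hg using fun j => (Sys.ok γ).tot j u (hb j)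
  have e : ∀ j, w j = w 0 := fun j => sub_eq_zero.1 (gr.fn _ (by
    simpa using (p γ).G.sub_mem (hg j) (hg 0)))
  have wa : w 0 ∈ (p γ).ai := AddSubgroup.mem_iInf.2 fun j => e j ▸ hw j
  refine ⟨u, hu, w 0, wa, hg 0, fun w0 => u0 ?_⟩
  obtain ⟨Z, dZ, mZ⟩ : (L (dep γ)).td.D fun z : Unit → M × M => (z ()).2 = 0 :=
    PP.D.eq (by fun_prop) (by fun_prop)
  have := l0 Unit Z dZ (fun c hc => ?_) (fun _ => (u, 0)) ((mZ _).2 rfl)
    (mem_pw.2 fun _ => w0 ▸ hg 0) (mem_pw.2 fun _ => ⟨bi ▸ hu, zero_mem _⟩)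
  · exact congrArg Prod.fst (congrFun this ())
  · by_contra c0
    refine ok.atom.1 (eq_bot_iff.2 fun v hv => ?_)
    have := (mZ _).1 (hc v hv)
    rcases sc_eq_zero (x := v) this with h | h
    · exact absurd (funext fun _ => h) c0
    · exact h

/-- A glued atom has no map to a space that is orthogonal to the base point. -/
theorem nm_of_glue (h1 : St_STEP) (h3 : St_L0G) (h6 : St_SIG) {γ : I} (g : Gk γ) {Ψ Φ : Set I}
    (le : Ψ ⊆ Φ) (m : γ ∈ Φ) (a : Atom (L Ψ) (p γ).ai) {T : AddSubgroup M}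
    (o : Orth (L Φ) si T) : NM (L Ψ) (p γ).ai T := by
  intro θ dθ tot
  obtain ⟨u, hu, w, hw, hg, w0⟩ := pt h1 h3 h6 g
  have dG : (L Φ).df (p γ).G := by
    have := (Sys.ext Φ γ).df
    rwa [insert_eq_of_mem m] at this
  obtain ⟨Z, dZ, mZ⟩ : (L Φ).D fun z : M × M => ∃ x : M, (z.1, x) ∈ (p γ).G ∧ (x, z.2) ∈ θ :=
    PP.D.ex (r := fun (z : M × M) (x : M) => (z.1, x) ∈ (p γ).G ∧ (x, z.2) ∈ θ)
      ((PP.D.mem dG (by fun_prop)).and (PP.D.mem (Sys.mono le dθ) (by fun_prop)))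
  obtain ⟨t, ht, wt⟩ := tot w hw
  obtain ⟨x, gx, x0⟩ := (mZ _).1 (o Z dZ u hu t ht ((mZ _).2 ⟨w, hg, wt⟩))
  have e : x = w := sub_eq_zero.1 ((Sys.hG γ g).2.1.fn _ (by
    simpa using (p γ).G.sub_mem gx hg))
  obtain ⟨A, dA, mA⟩ : (L Ψ).D fun v : M => (v, (0 : M)) ∈ θ := PP.D.mem dθ (by fun_prop)
  rcases a.2 A dA with h | h
  · exact fun v hv => (mA v).1 (h hv)
  · exact absurd (h w hw ((mA w).2 (e ▸ x0))) w0

theorem td_a {ξ : I} {Φ : Set I} (h : dep ξ ⊆ Φ) : (L Φ).td.df (p ξ).ai :=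
  ((Sys.ok ξ).ca.mono (Sys.mono h)).td

theorem sm_a {ξ : I} {Φ : Set I} (h : dep ξ ⊆ Φ) : Small (L Φ) (p ξ).ai :=
  ((Sys.ok ξ).ca.mono (Sys.mono h)).small

theorem td_si (h6 : St_SIG) {Φ : Set I} (h : range q ⊆ Φ) : (L Φ).td.df si :=
  h6.2.2.1 ▸ (h6.1.mono (Sys.mono h)).td

theorem sm_si (h6 : St_SIG) {Φ : Set I} (h : range q ⊆ Φ) : Small (L Φ) si :=
  h6.2.2.1 ▸ (h6.1.mono (Sys.mono h)).small

theorem atom_a {ξ : I} (g : Gk ξ) {Φ : Set I}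
    (s : Same ((p ξ).ai.prod (p ξ).ai) (L (dep ξ)) (L Φ)) : Atom (L Φ) (p ξ).ai := by
  obtain ⟨d, y, ok⟩ := (Sys.hG ξ g).2.2.1
  exact s.fst.atom ok.atom

theorem fin_a {ξ : I} (g : Gk ξ) {Φ : Set I}
    (s : Same ((p ξ).ai.prod (p ξ).ai) (L (dep ξ)) (L Φ)) : Fin2 (L Φ) (p ξ).ai := by
  obtain ⟨d, y, ok⟩ := (Sys.hG ξ g).2.2.1
  exact s.finI (PP.prod (td_a subset_rfl) (td_a subset_rfl)) ok.fin

/-- Two performed gluing tasks are orthogonal over the union of their bases. -/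
theorem orth_base (h1 : St_STEP) (h3 : St_L0G) (h6 : St_SIG) {α ξ : I} (gα : Gk α) (gξ : Gk ξ)
    (lt : α < ξ) {Ψ : Set I} (e : Ψ ⊆ Iio ξ) (dα : dep α ⊆ Ψ) (dξ : dep ξ ⊆ Ψ)
    (aα : Atom (L Ψ) (p α).ai) (aξ : Atom (L Ψ) (p ξ).ai) : Orth (L Ψ) (p α).ai (p ξ).ai :=
  orth_of_nm (td_a dα) (td_a dξ) aα aξ (nm_of_glue h1 h3 h6 gα e lt aα (Sys.hG ξ gξ).2.2.2.2)

/-- Orthogonality over the larger set. -/
theorem q2 (h1 : St_STEP) (h2 : St_TH) (h3 : St_L0G) (h4 : St_S0) (h6 : St_SIG) {Φ Λ : Set I}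
    {α ξ : I} (c : Ctx Φ Λ) (gα : Gk α) (gξ : Gk ξ) (ne : α ≠ ξ) (dα : dep α ⊆ Φ ∩ Λ)
    (dξ : dep ξ ⊆ Φ ∩ Λ) (hα : Good α Φ)
    (hξ : Same ((p ξ).ai.prod (p ξ).ai) (L (dep ξ)) (L Φ) ∧ Orth (L Φ) si (p ξ).ai) :
    Orth (L Φ) (p α).ai (p ξ).ai := by
  have sub : dep α ∪ dep ξ ⊆ Φ ∩ Λ := union_subset dα dξ
  have sub' : dep α ∪ dep ξ ⊆ Φ := sub.trans inter_subset_left
  have sα := (hα.g gα).1
  have sξ := hξ.1
  have cl : Closed (dep α ∪ dep ξ) := (Sys.dep_cl α).union (Sys.dep_cl ξ)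
  have st : ∀ γ, dep α ∪ dep ξ ∪ Φ ∩ Iio γ ⊆ Φ := fun γ => union_subset sub' inter_subset_left
  refine Same.orth (L := L (dep α ∪ dep ξ)) (same_core h1 h2 h3 h4 c cl sub
    (PP.prod (td_a subset_union_left) (td_a subset_union_right))
    ((sm_a subset_union_left).prod (sm_a subset_union_right)) (fun γ _ _ nf _ => ?_)
    fun γ m _ gγ hγ _ => ?_) ?_
  · have t : (L (dep α ∪ dep ξ ∪ Φ ∩ Iio γ)).td.df (p α).ai :=
      td_a (subset_union_left.trans subset_union_left)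
    exact (nf.nm t (fin_a gα (sα.anti (Sys.mono (st γ))))).prod
      (nf.nm (td_a (subset_union_right.trans subset_union_left))
        (fin_a gξ (sξ.anti (Sys.mono (st γ))))) t
  · exact (nm_of_glue h1 h3 h6 gγ (st γ) m (atom_a gγ (hγ.g gγ).1) (hα.g gα).2).prod
      (nm_of_glue h1 h3 h6 gγ (st γ) m (atom_a gγ (hγ.g gγ).1) hξ.2)
      (td_a (subset_union_left.trans subset_union_left))
  · have aα := atom_a gα (sα.anti (Sys.mono sub'))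
    have aξ := atom_a gξ (sξ.anti (Sys.mono sub'))
    rcases lt_or_gt_of_ne ne with l | l
    · exact orth_base h1 h3 h6 gα gξ l (union_subset ((Sys.dep_lt α).trans (Iio_subset_Iio l.le))
        (Sys.dep_lt ξ)) subset_union_left subset_union_right aα aξ
    · exact (orth_base h1 h3 h6 gξ gα l (union_subset (Sys.dep_lt α)
        ((Sys.dep_lt ξ).trans (Iio_subset_Iio l.le))) subset_union_right subset_union_left
        aξ aα).symm

theorem split {ξ : I} (g : Gk ξ) {Φ : Set I}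
    (s : Same (si.prod ((p ξ).ai.prod (p ξ).ai)) (L (dep ξ)) (L Φ)) :
    Same ((p ξ).ai.prod (p ξ).ai) (L (dep ξ)) (L Φ) ∧ Orth (L Φ) si (p ξ).ai :=
  ⟨s.snd, Same.orth (s.comap (f := fun z : M × M => (z.1, (z.2, z.2))) (by fun_prop)
    (fun _ _ e => Prod.ext (congrArg (fun z => z.1) e :) (congrArg (fun z => z.2.1) e :))
    fun _ h => ⟨h.1, h.2, h.2⟩) ((Sys.hG ξ g).2.2.2.2.anti (Sys.mono (Sys.dep_lt ξ)))⟩

/-- The invariant has finite character. -/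
theorem good_fin {ξ : I} {Φ : Set I}
    (h : ∀ s ⊆ Φ, s.Finite → ∃ Ψ, s ⊆ Ψ ∧ Ψ ⊆ Φ ∧ Good ξ Ψ) : Good ξ Φ := by
  have k : ∀ {X : Type} [AddCommGroup X] [Module E X] [Std X] {A : AddSubgroup X},
      (L Φ).df A → ∃ Ψ, Ψ ⊆ Φ ∧ Good ξ Ψ ∧ (L Ψ).df A := fun hA => by
    obtain ⟨s, a, b, c⟩ := Sys.fin hA
    obtain ⟨Ψ, d, e, f⟩ := h s a b
    exact ⟨Ψ, e, f, Sys.mono d c⟩
  refine ⟨fun g => ⟨fun A hA => ?_, fun A hA n f => ?_⟩, fun g => ⟨fun A hA => ?_, fun A hA => ?_⟩⟩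
  · obtain ⟨Ψ, -, a, b⟩ := k hA
    exact (a.k g).1 A b
  · obtain ⟨Ψ, e, a, b⟩ := k hA
    exact (a.k g).2 A b n (f.anti (Sys.mono e))
  · obtain ⟨Ψ, -, a, b⟩ := k hA
    exact (a.g g).1 A b
  · obtain ⟨Ψ, -, a, b⟩ := k hA
    exact (a.g g).2 A b

/-- Reduction to bounded sets. -/
theorem good_bd {α : I} {Ψ U : Set I} (cl : Closed Ψ) (n : α ∉ Ψ) (d : dep α ⊆ Ψ) (hα : α ∈ U)
    (hΨ : Ψ ⊆ U) (h : ∀ η ∈ U, ∀ ξ ≤ η, ∀ Φ ⊆ Iic η, Closed Φ → ξ ∉ Φ → dep ξ ⊆ Φ → Good ξ Φ) :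
    Good α Ψ := by
  refine good_fin fun s hs f => ?_
  obtain ⟨η, m, mx⟩ := Set.exists_max_image (insert α s) id (f.insert α) (insert_nonempty α s)
  have l : α ≤ η := mx α (mem_insert α s)
  refine ⟨Ψ ∩ Iic η, fun x hx => ⟨hs hx, mx x (mem_insert_of_mem α hx)⟩, inter_subset_left,
    h η ?_ α l _ inter_subset_right (fun x hx y hy => ⟨cl x hx.1 hy, ?_⟩) (fun e => n e.1)
      fun y hy => ⟨d hy, (Sys.dep_lt α hy).le.trans l⟩⟩
  · rcases m with rfl | m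
    exacts [hα, hΨ (hs m)]
  · exact (Sys.dep_lt x hy).le.trans hx.2

end GG22

open GG22

variable [Sys]

theorem stGG (hSTEP : St_STEP) (hS0 : St_S0) (hTH : St_TH) (hL0G : St_L0G) (hRAT : St_RAT)
    (hSIG : St_SIG) : St_GG := by
  intro Φ Λ ξ c d n g
  have d' : dep ξ ⊆ Φ := d.trans inter_subset_left
  have rq : range q ⊆ dep ξ := range_subset_iff.2 (Sys.hG ξ g).1.q
  have st : ∀ α, dep ξ ∪ Φ ∩ Iio α ⊆ Φ := fun α => union_subset d' inter_subset_left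
  have cα : ∀ α, Ctx (dep ξ ∪ Φ ∩ Iio α) Λ := fun α =>
    c.anti (st α) ((Sys.dep_cl ξ).step c.cl α)
  have ts : ∀ α, (L (dep ξ ∪ Φ ∩ Iio α)).td.df si := fun α =>
    td_si hSIG (rq.trans subset_union_left)
  have ta : ∀ α, (L (dep ξ ∪ Φ ∩ Iio α)).td.df (p ξ).ai := fun α => td_a subset_union_left
  have dl : ∀ α, dep ξ ⊆ (dep ξ ∪ Φ ∩ Iio α) ∩ Λ := fun α =>
    subset_inter subset_union_left (d.trans inter_subset_right)
  refine split g (same_core hSTEP hTH hL0G hS0 c (Sys.dep_cl ξ) d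
    (PP.prod (td_si hSIG rq) (PP.prod (td_a subset_rfl) (td_a subset_rfl)))
    ((sm_si hSIG rq).prod ((sm_a subset_rfl).prod (sm_a subset_rfl))) (fun α _ _ nf s => ?_)
    fun α m _ gα hα s => ?_)
  · have k := nf.nm (ta α) (fin_a g s.snd)
    exact (nf.nm (ts α) (hRAT (cα α) (rq.trans (dl α))).fin2).prod (k.prod k (ta α)) (ts α)
  · have k := (q2 hSTEP hTH hL0G hS0 hSIG (cα α) gα g (fun e => n (e ▸ m))
      (subset_inter (c.cl.dep_sub m) ((Sys.dep_lt α).trans (c.low α m))) (dl α) hα (split g s)).nm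
    exact (hα.g gα).2.symm.nm.prod (k.prod k (ta α)) (ts α)

theorem stGOOD (hGK : St_GK) (hGG : St_GG) : St_GOOD := by
  have one : ∀ {Φ Λ ξ}, Ctx Φ Λ → dep ξ ⊆ Φ ∩ Λ → ξ ∉ Φ → Good ξ Φ := fun c d n =>
    ⟨hGK c d, hGG c d n⟩
  have main : ∀ η : I, ∀ ξ ≤ η, ∀ Φ ⊆ Iic η, Closed Φ → ξ ∉ Φ → dep ξ ⊆ Φ → Good ξ Φ := by
    intro η
    induction η using WellFoundedLT.induction with
    | ind η ih =>
      have e : ∀ ξ, ∀ Ψ ⊆ Iio η, Closed Ψ → ξ ∉ Ψ → dep ξ ⊆ Ψ → Good ξ Ψ := fun ξ Ψ s cl n d =>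
        one (Λ := univ) ⟨cl, fun _ _ => subset_univ _, fun α m Ψ' s' cl' n' d' =>
          good_bd (U := Iio η) cl' n' d' (s m) (s'.trans (inter_subset_left.trans s)) ih⟩
          (subset_inter d (subset_univ _)) n
      intro ξ l Φ s cl n d
      exact one (Λ := Iio η) ⟨cl, fun α m => Iio_subset_Iio (s m), fun α _ Ψ s' =>
        e α Ψ (s'.trans inter_subset_right)⟩
        (subset_inter d ((Sys.dep_lt ξ).trans (Iio_subset_Iio l))) n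
  exact ⟨fun _ _ => subset_univ _, fun _ _ => subset_univ _, fun α _ Ψ _ cl n d =>
    good_bd (U := univ) cl n d (mem_univ _) (subset_univ _) fun η _ => main η⟩

end Z47
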