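import Pool.Agent.Lib.MP_1e63be_al.Z47.Blue

/-!
Gluing packages glue, and gluing is transported along isomorphisms of atoms.
-/

namespace Z47

open Set Filter Topology

variable [Amb]

theorem stGLUE : St_GLUE := by
  intro L L' p d y hs hg ho h0
  have hL := hs.ext.le
  have hy : ∀ k, L.Dy (y k) := fun k => (ho.en k 0).1
  have hy' : ∀ k, L'.Dy (y k) := fun k => hL.Dy (hy k)
  have hGH : ∀ j, L'.df (p.G ⊓ p.H j) := fun j => L'.inf hs.ext.df (hL (hs.ok.df j))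
  have hanti : Antitone fun j => p.G ⊓ p.H j := fun i j k => inf_le_inf_left _ (hs.ok.anti k)
  obtain ⟨Z, hZ, mZ⟩ : L.D fun h : Fin d → M × M => ∑ k, y k • (h k).2 = 0 :=
    PP.D.eq (PP.Fn.sum _ fun k => PP.Fn.smul (hy k) (by fun_prop)) (by fun_prop)
  have inj : ∀ h : Fin d → M × M, (∀ k, h k ∈ p.G ⊓ p.Hi) → ∑ k, y k • (h k).2 = 0 → h = 0 := by
    intro h hh e
    refine h0 (Fin d) Z (Cl.td_of hZ) (fun c hc => ?_) h ((mZ h).2 e)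
      (mem_pw.2 fun k => (hh k).1) (mem_pw.2 fun k => (hh k).2)
    by_contra hc0
    obtain ⟨w, hw, hne⟩ := ho.ind c hc0
    refine hne ?_
    rw [yc_smul]
    exact (mZ _).1 (hc w hw)
  refine ⟨d, y, p.G ⊓ p.Hi, fun k => ⟨hy k, fun v hv => AddSubgroup.mem_iInf.2 fun j =>
    (ho.en k j).2 v (AddSubgroup.mem_iInf.1 hv j)⟩,
    L'.td.inf (Cl.td_of hs.ext.df) (hL.td hs.ok.td), inf_le_right, fun u hu => ?_,
    fun w hw => hg.fn w hw.1, fun v hv => ?_, inj⟩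
  · obtain ⟨w, hw⟩ := td_ex (L := L') (K := fun j => p.G ⊓ p.H j) (fun j => Cl.td_of (hGH j))
      hanti (x := u) fun j =>
        let ⟨w, a, b⟩ := hs.ok.tot j u (AddSubgroup.mem_iInf.1 hu j)
        ⟨w, b, AddSubgroup.mem_iInf.1 hu j, a⟩
    exact ⟨w, (hw 0).1, Pkg.mem_Hi'.2 fun j => (hw j).2⟩
  · obtain ⟨N, hN⟩ := sat_le (L := L') (L' := L') (A := ⊥)
      (K := fun j => Z ⊓ pw (p.G ⊓ p.H j)) (fun j => L'.inf (hL hZ) (PP.pw (hGH j)))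
      (fun i j k => inf_le_inf_left _ (pw_mono (hanti k))) L'.bot fun h hh => by
        have hh := AddSubgroup.mem_iInf.1 hh
        exact inj h (fun k => ⟨(mem_pw.1 (hh 0).2 k).1,
          Pkg.mem_Hi'.2 fun j => (mem_pw.1 (hh j).2 k).2⟩) ((mZ h).1 (hh 0).1)
    have hT : ∀ j, L'.D fun z : M × (Fin d → M × M) =>
        z.2 ∈ (pw (p.G ⊓ p.H j) : AddSubgroup (Fin d → M × M)) ∧ ∑ k, y k • (z.2 k).2 = z.1 :=
      fun j => (PP.D.mem (PP.pw (hGH j)) (by fun_prop)).and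
        (PP.D.eq (PP.Fn.sum _ fun k => PP.Fn.smul (hy' k) (by fun_prop)) (by fun_prop))
    choose T hT mT using hT
    have sur : ∀ j ≥ N, ∀ v ∈ p.a j, ∃ h, (v, h) ∈ T j := by
      intro j hj
      obtain ⟨D, hD, mD⟩ : L'.D fun v : M => ∃ h, (v, h) ∈ T j := PP.D.ex (PP.D.of (hT j))
      have r1 := ρ_rel (A := D) (K := ⊥) (L'.sub (hT j)) mD fun h => ⟨fun e => by
        obtain rfl : h = 0 := e
        exact (T j).zero_mem, fun e => hN j hj ⟨(mZ h).2 ((mT j _).1 e).2, ((mT j _).1 e).1⟩⟩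
      have r2 := ρ_rel' (A := ⊥) (K := pw (p.G ⊓ p.H j)) (L'.sub (hT j))
        (fun h => ⟨fun e => ⟨∑ k, y k • (h k).2, (mT j _).2 ⟨e, rfl⟩⟩, fun ⟨_, e⟩ => ((mT j _).1 e).1⟩)
        fun v => ⟨fun e => by
          obtain rfl : v = 0 := e
          exact (T j).zero_mem, fun e => by simpa using ((mT j _).1 e).2.symm⟩
      rw [ρ_pw (L'.sub (hGH j)), hg.rk] at r2
      have le : D ≤ p.a j := fun v hv => by
        obtain ⟨h, e⟩ := (mD v).1 hv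
        obtain ⟨e1, e2⟩ := (mT j _).1 e
        rw [← show ∑ k, y k • (h k).2 = v from e2]
        exact (p.a j).sum_mem fun k _ => (ho.en k j).2 _ (mem_pw.1 e1 k).2.2
      intro v hv
      refine (mD v).1 (Amb.ρ_faith (L'.sub hD) (L.sub (hs.ok.ca.df j)) le ?_ hv)
      rw [ho.rk j]
      simp only [ρ_bot, Nat.card_eq_fintype_card, Fintype.card_fin] at r1 r2
      linarith
    have Tanti : Antitone T := fun i j k z e =>
      (mT i z).2 ⟨pw_mono (hanti k) ((mT j z).1 e).1, ((mT j z).1 e).2⟩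
    obtain ⟨h, hh⟩ := td_ex (L := L') (fun j => Cl.td_of (hT j)) Tanti (x := v) fun j =>
      let ⟨h, e⟩ := sur (max j N) (le_max_right _ _) v (AddSubgroup.mem_iInf.1 hv _)
      ⟨h, Tanti (le_max_left _ _) e⟩
    exact ⟨h, fun k => ⟨(mem_pw.1 ((mT 0 _).1 (hh 0)).1 k).1,
      Pkg.mem_Hi'.2 fun j => (mem_pw.1 ((mT j _).1 (hh j)).1 k).2⟩, ((mT 0 _).1 (hh 0)).2⟩

section
variable {X Y : Type} [AddCommGroup X] [Module E X] [Std X] [AddCommGroup Y] [Module E Y] [Std Y]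
  {L₀ L : Cl}

omit [Std X] in
/-- Atoms have no proper nonzero type-definable parts. -/
theorem g54_atom {S A : AddSubgroup X} (h : Atom L S) (hA : L.td.df A) :
    S ≤ A ∨ ∀ v ∈ S, v ∈ A → v = 0 := by
  obtain ⟨Z, a, -, c⟩ := hA
  by_cases k : ∀ n, S ≤ Z n
  · exact .inl fun v hv => (c v).2 fun n => k n hv
  · obtain ⟨n, e⟩ := not_forall.1 k
    exact .inr fun v hv l => (h.2 _ (a n)).resolve_left e v hv ((c v).1 l n)

/-- A total functional relation on a type-definable subspace is given by an endomorphism. -/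
theorem g54_rep {κ : AddSubgroup M} {R : AddSubgroup (M × M)} (hc : Cmp L₀) (hκ : L₀.td.df κ)
    (hR : L₀.df R) (tot : ∀ v ∈ κ, ∃ w ∈ κ, (v, w) ∈ R) (fn : ∀ w ∈ κ, (0, w) ∈ R → w = 0) :
    ∃ y, En L₀ κ y ∧ ∀ v ∈ κ, (v, y • v) ∈ R := by
  obtain ⟨V, hV, mV⟩ : L₀.D fun w : M => ((0 : M), w) ∈ R := PP.D.mem hR (by fun_prop)
  obtain ⟨Z, a, b, c⟩ := hκ
  obtain ⟨n, hn⟩ := sat_le (L := L₀) (L' := L₀) (A := ⊥) (K := fun n => V ⊓ Z n)
    (fun n => L₀.inf hV (a n)) (fun i j k => inf_le_inf_left _ (b k)) L₀.bot fun w hw =>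
      have hw := AddSubgroup.mem_iInf.1 hw
      fn w ((c w).2 fun n => (hw n).2) ((mV w).1 (hw 0).1)
  obtain ⟨D, hD, mD⟩ : L₀.D fun v : M => ∃ w, (v, w) ∈ R ∧ w ∈ Z n :=
    PP.D.ex ((PP.D.mem hR (by fun_prop)).and (PP.D.mem (a n) (by fun_prop)))
  obtain ⟨C, hC, cc⟩ := hc D hD
  obtain ⟨T, hT, mT⟩ : L₀.D fun z : M × M => ∃ u, u ∈ C ∧ (z.1 - u, z.2) ∈ R ∧ z.2 ∈ Z n :=
    PP.D.ex ((PP.D.mem hC (by fun_prop)).and
      ((PP.D.mem hR (by fun_prop)).and (PP.D.mem (a n) (by fun_prop))))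
  have Tfn : ∀ w, ((0 : M), w) ∈ T → w = 0 := fun w hw => by
    obtain ⟨u, e1, e2, e3⟩ := (mT _).1 hw
    have : u ∈ D ⊓ C := ⟨by simpa using D.neg_mem ((mD _).2 ⟨w, e2, e3⟩), e1⟩
    rw [cc.inf_eq_bot] at this
    obtain rfl : u = 0 := this
    exact hn n le_rfl ⟨(mV w).2 (by simpa using e2), e3⟩
  have Tuniq : ∀ v w w', (v, w) ∈ T → (v, w') ∈ T → w = w' := fun v w w' e e' =>
    sub_eq_zero.1 (Tfn _ (by simpa using T.sub_mem e e'))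
  have Ttot : ∀ v, ∃ w, (v, w) ∈ T := fun v => by
    have : v ∈ D ⊔ C := by rw [cc.sup_eq_top]; trivial
    obtain ⟨x, e1, u, e2, rfl⟩ := AddSubgroup.mem_sup.1 this
    obtain ⟨w, e3, e4⟩ := (mD x).1 e1
    exact ⟨w, (mT _).2 ⟨u, e2, by simpa using e3, e4⟩⟩
  choose f hf using Ttot
  let g : M →+ M := AddMonoidHom.mk' f fun x y => Tuniq _ _ _ (hf _) (T.add_mem (hf x) (hf y))
  have key : ∀ v ∈ κ, f v ∈ κ ∧ (v, f v) ∈ R := fun v hv => by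
    obtain ⟨w, e1, e2⟩ := tot v hv
    rw [Tuniq _ _ _ (hf v) ((mT (v, w)).2 ⟨0, C.zero_mem, by simpa using e2, (c w).1 e1 n⟩)]
    exact ⟨e1, e2⟩
  refine ⟨g.toZModLinearMap 2, ⟨⟨T, hT, fun z => ⟨fun e => Tuniq _ _ _ (hf _) e, fun e => ?_⟩⟩,
    fun v hv => (key v hv).1⟩, fun v hv => (key v hv).2⟩
  have e : f z.1 = z.2 := e
  have := hf z.1
  rwa [e] at this

end

theorem stTRG : St_TRG := by
  intro L₀ L L' σ β κ h0 h1 hc hκ hβ aκ aβ hS hO ⟨d, y, z, hy, hz, zle, ztot, zfn, zsur, zinj⟩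
  have hκL := h0.td hκ
  simp only [Orth, not_forall] at hO
  obtain ⟨θ, hθ, v₀, hv₀, w₀, hw₀, e₀, n₀⟩ := hO
  have hθt := Cl.td_of hθ
  -- the relation is a bijection
  have t1 : ∀ v ∈ β, ∃ w ∈ κ, (v, w) ∈ θ := by
    obtain ⟨A, hA, mA⟩ : L.td.D fun v : M => ∃ w, w ∈ κ ∧ (v, w) ∈ θ :=
      PP.D.ex ((PP.D.mem hκL (by fun_prop)).and (PP.D.mem hθt (by fun_prop)))
    rcases g54_atom aβ hA with k | k
    · exact fun v hv => (mA v).1 (k hv)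
    · obtain rfl := k v₀ hv₀ ((mA _).2 ⟨w₀, hw₀, e₀⟩)
      exact (n₀ θ.zero_mem).elim
  have t2 : ∀ w ∈ κ, ∃ v ∈ β, (v, w) ∈ θ := by
    obtain ⟨A, hA, mA⟩ : L.td.D fun w : M => ∃ v, v ∈ β ∧ (v, w) ∈ θ :=
      PP.D.ex ((PP.D.mem hβ (by fun_prop)).and (PP.D.mem hθt (by fun_prop)))
    rcases g54_atom aκ hA with k | k
    · exact fun v hv => (mA v).1 (k hv)
    · obtain rfl := k w₀ hw₀ ((mA _).2 ⟨v₀, hv₀, e₀⟩)
      exact (n₀ e₀).elim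
  have f1 : ∀ w ∈ κ, ((0 : M), w) ∈ θ → w = 0 := by
    obtain ⟨A, hA, mA⟩ : L.D fun w : M => ((0 : M), w) ∈ θ := PP.D.mem hθ (by fun_prop)
    rcases aκ.2 A hA with k | k
    · exact (n₀ (by simpa using θ.sub_mem e₀ ((mA _).1 (k hw₀)))).elim
    · exact fun w hw e => k w hw ((mA w).2 e)
  have f2 : ∀ v ∈ β, (v, (0 : M)) ∈ θ → v = 0 := by
    obtain ⟨A, hA, mA⟩ : L.D fun v : M => (v, (0 : M)) ∈ θ := PP.D.mem hθ (by fun_prop)
    rcases aβ.2 A hA with k | k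
    · exact (n₀ ((mA _).1 (k hv₀))).elim
    · exact fun w hw e => k w hw ((mA w).2 e)
  have u1 : ∀ v, ∀ w ∈ κ, ∀ w' ∈ κ, (v, w) ∈ θ → (v, w') ∈ θ → w = w' := fun v w a w' b e e' =>
    sub_eq_zero.1 (f1 _ (κ.sub_mem a b) (by simpa using θ.sub_mem e e'))
  -- transport of endomorphisms
  have tr : ∀ x, En L β x → ∃ x', En L₀ κ x' ∧ ∀ v ∈ β, ∀ w ∈ κ, (v, w) ∈ θ →
      (x • v, x' • w) ∈ θ := by
    intro x hx
    have hxt := Cl.tdDy hx.1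
    obtain ⟨R, hR, mR⟩ : L.td.D fun s : M × M => s.2 ∈ κ ∧
        ∃ v, v ∈ β ∧ (v, s.1) ∈ θ ∧ (x • v, s.2) ∈ θ :=
      (PP.D.mem hκL (by fun_prop)).and (PP.D.ex ((PP.D.mem hβ (by fun_prop)).and
        ((PP.D.mem hθt (by fun_prop)).and (PP.D.mem hθt (by fun_prop (disch := assumption))))))
    have Rtot : ∀ w ∈ κ, ∃ w' ∈ κ, (w, w') ∈ R := fun w hw =>
      let ⟨v, a, b⟩ := t2 w hw
      let ⟨w', a', b'⟩ := t1 _ (hx.2 v a)
      ⟨w', a', (mR _).2 ⟨a', v, a, b, b'⟩⟩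
    obtain ⟨Z, a, b, c⟩ := hR
    have hV : ∀ n, L.D fun w : M => ((0 : M), w) ∈ Z n := fun n => PP.D.mem (a n) (by fun_prop)
    choose V hV mV using hV
    obtain ⟨n, hn⟩ : ∃ n, ¬ κ ≤ V n := by
      by_contra! k
      refine aκ.1 (le_bot_iff.1 fun w hw => ?_)
      obtain ⟨-, v, e1, e2, e3⟩ := (mR _).1 ((c (0, w)).2 fun n => (mV n w).1 (k n hw))
      obtain rfl := f2 v e1 e2
      exact f1 w hw (by simpa using e3)
    have Zfn : ∀ w ∈ κ, ((0 : M), w) ∈ Z n → w = 0 := fun w hw e =>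
      (aκ.2 _ (hV n)).resolve_left hn w hw ((mV n w).2 e)
    obtain ⟨R', hR', mR'⟩ := hS _ (a n)
    obtain ⟨x', hx', k⟩ := g54_rep hc hκ hR'
      (fun w hw => let ⟨w', e1, e2⟩ := Rtot w hw
        ⟨w', e1, (mR' (w, w') ⟨hw, e1⟩).1 ((c _).1 e2 n)⟩)
      fun w hw e => Zfn w hw ((mR' (0, w) ⟨κ.zero_mem, hw⟩).2 e)
    refine ⟨x', hx', fun v hv w hw e => ?_⟩
    obtain ⟨w', e1, e2⟩ := t1 _ (hx.2 v hv)
    have e3 : (w, w') ∈ Z n := (c _).1 ((mR (w, w')).2 ⟨e1, v, hv, e, e2⟩) n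
    have e4 : (w, x' • w) ∈ Z n := (mR' (w, x' • w) ⟨hw, hx'.2 w hw⟩).2 (k w hw)
    rwa [sub_eq_zero.1 (Zfn _ (κ.sub_mem (hx'.2 w hw) e1) (by simpa using (Z n).sub_mem e4 e3))]
  choose y' hy' ey using fun k => tr (y k) (hy k)
  obtain ⟨z', hz', mz⟩ : L'.td.D fun s : M × M => s.2 ∈ κ ∧ ∃ v, (s.1, v) ∈ z ∧ (v, s.2) ∈ θ :=
    (PP.D.mem (h1.td hκL) (by fun_prop)).and (PP.D.ex ((PP.D.mem hz (by fun_prop)).and
      (PP.D.mem (h1.td hθt) (by fun_prop))))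
  have sumθ : ∀ (v w : Fin d → M), (∀ k, v k ∈ β) → (∀ k, w k ∈ κ) → (∀ k, (v k, w k) ∈ θ) →
      (∑ k, y k • v k, ∑ k, y' k • w k) ∈ θ := fun v w a b e => by
    rw [prod_mk_sum]
    exact θ.sum_mem fun k _ => ey k _ (a k) _ (b k) (e k)
  refine ⟨d, y', z', hy', hz', fun s hs => ?_, fun u hu => ?_, fun w hw => ?_, fun w hw => ?_,
    fun h hh e => ?_⟩
  · obtain ⟨e1, v, e2, -⟩ := (mz s).1 hs
    exact ⟨(zle e2).1, e1⟩
  · obtain ⟨v, e⟩ := ztot u hu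
    obtain ⟨w, e1, e2⟩ := t1 v (zle e).2
    exact ⟨w, (mz _).2 ⟨e1, v, e, e2⟩⟩
  · obtain ⟨e1, v, e2, e3⟩ := (mz _).1 hw
    obtain rfl := zfn v e2
    exact f1 w e1 e3
  · obtain ⟨v, e1, e2⟩ := t2 w hw
    obtain ⟨h, e3, rfl⟩ := zsur v e1
    choose w' e4 e5 using fun k => t1 _ (zle (e3 k)).2
    refine ⟨fun k => ((h k).1, w' k), fun k => (mz _).2 ⟨e4 k, _, e3 k, e5 k⟩, ?_⟩
    exact u1 _ _ (κ.sum_mem fun k _ => (hy' k).2 _ (e4 k)) _ hw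
      (sumθ _ _ (fun k => (zle (e3 k)).2) e4 e5) e2
  · choose e1 v e2 e3 using fun k => (mz _).1 (hh k)
    have e4 := sumθ v (fun k => (h k).2) (fun k => (zle (e2 k)).2) e1 e3
    rw [e] at e4
    have e5 := zinj (fun k => ((h k).1, v k)) e2
      (f2 _ (β.sum_mem fun k _ => (hy k).2 _ (zle (e2 k)).2) e4)
    funext k
    have e6 := congrFun e5 k
    have e7 : v k = 0 := congrArg Prod.snd e6
    have e8 : (h k).1 = 0 := congrArg (fun s : M × M => s.1) e6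
    exact Prod.ext e8 (f1 _ (e1 k) (by simpa [e7] using e3 k))

end Z47
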