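import Pool.Agent.Lib.MP_1e63be_al.Z47.Blue

/-!
The chain of a killing package stays without finite quotients in its own step.
-/

namespace Z47

open Set Filter Topology

variable [Amb] {L L' : Cl} {p : Pkg}

namespace KE

theorem bi_eq (hs : Step L L' p) (hK : p.IsK) : p.bi = p.ai := by
  refine le_antisymm (le_iInf fun j => (iInf_le _ j).trans ?_) (le_iInf fun j => ?_)
  · rw [hK.b]; exact hs.ok.ca.anti (Nat.le_succ j)
  · rw [hK.b]; exact iInf_le _ _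

theorem tot (hs : Step L L' p) (hK : p.IsK) {u : M} (hu : u ∈ p.ai) :
    ∃ w ∈ p.ai, (u, w) ∈ p.G := by
  rw [← bi_eq hs hK] at hu
  choose w hw hG using fun j => hs.ok.tot j u (AddSubgroup.mem_iInf.1 hu j)
  refine ⟨w 0, AddSubgroup.mem_iInf.2 fun j => ?_, hG 0⟩
  have : w 0 - w j = 0 := hK.fn _ (by simpa using p.G.sub_mem (hG 0) (hG j))
  rw [sub_eq_zero.1 this]
  exact hw j

theorem lim (hs : Step L L' p) {A : AddSubgroup M} {μ : Type}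
    {Z : AddSubgroup (M × (μ → M × M))} (hZ : Pres L p A Z) {v : M} (hv : v ∈ A) (hE : v ∈ p.ai) :
    ∃ γ ∈ (pw p.G : AddSubgroup (μ → M × M)), γ ∈ (pw p.Hi : AddSubgroup (μ → M × M)) ∧
      (v, γ) ∈ Z :=
  hZ.lim v hv fun ε h =>
    let ⟨K, a, b, c⟩ := hs.ok.ca.small ε h
    ⟨K, a, b hE, c⟩

/-- The definable form of the thinness argument. -/
theorem thin_df (hs : Step L L' p) (hK : p.IsK) (hT : Thin L p.a) (hTH : TH L p) {μ : Type}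
    [Finite μ] {Z : AddSubgroup (M × (μ → M × M))} (hZ : L.df Z) {Y : AddSubgroup M} (hY : L.df Y)
    (hC : ∀ c : μ → F, (∀ w ∈ p.ai, ∃ v ∈ Y, (v, tens c ((0 : M), w)) ∈ Z) → c = 0)
    (hE : ∀ v ∈ p.ai, ∃ a ∈ Y, ∃ γ ∈ (pw p.G : AddSubgroup (μ → M × M)),
      γ ∈ (pw p.Hi : AddSubgroup (μ → M × M)) ∧ (v - a, γ) ∈ Z) :
    ∀ x ∈ p.ai, ∃ a ∈ Y, (x - a, 0) ∈ Z := by
  obtain ⟨R, hR, eR⟩ : L.D fun z : M × (μ → M × M) => ∃ a : M, a ∈ Y ∧ (z.1 - a, z.2) ∈ Z :=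
    PP.D.ex ((PP.D.mem hY (by fun_prop)).and (PP.D.mem hZ (by fun_prop)))
  obtain ⟨A, hA, eA⟩ : L.D fun x : M => (x, (0 : μ → M × M)) ∈ R := PP.D.mem hR (by fun_prop)
  obtain ⟨W, hW, eW⟩ : L.D fun h : μ → M × M => ∃ v : M, v ∈ Y ∧ (v, h) ∈ Z :=
    PP.D.ex ((PP.D.mem hY (by fun_prop)).and (PP.D.mem hZ (by fun_prop)))
  obtain ⟨N, hN⟩ := hTH μ W hW fun c h => hC c fun w k => (eW _).1 (h w k)
  obtain ⟨T, hT', eT⟩ : L'.D fun v : M => ∃ γ : μ → M × M, (γ ∈ pw p.G ∧ γ ∈ pw (p.H N)) ∧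
      (v, γ) ∈ R :=
    PP.D.ex (((PP.D.mem (PP.pw hs.ext.df) (by fun_prop)).and
      (PP.D.mem (PP.pw (hs.ext.le (hs.ok.df N))) (by fun_prop))).and
      (PP.D.mem (hs.ext.le hR) (by fun_prop)))
  obtain ⟨j0, hj0⟩ := sat_le hs.ok.ca.df hs.ok.ca.anti hT' fun v k => by
    obtain ⟨a, ha, γ, h1, h2, h3⟩ := hE v k
    exact (eT v).2 ⟨γ, ⟨h1, mem_pw.2 fun i => Pkg.mem_Hi'.1 (mem_pw.1 h2 i) N⟩,
      (eR _).2 ⟨a, ha, h3⟩⟩
  by_contra hn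
  have hn' : ¬ ⨅ j, p.a j ≤ A := fun k => hn fun x l => (eR _).1 ((eA x).1 (k l))
  obtain ⟨j, h1, h2⟩ := ((hT A hA hn' (Nat.card μ)).and (eventually_ge_atTop j0)).exists
  have haj := hs.ok.ca.df j
  obtain ⟨W', hW', eW'⟩ : L.D fun h : μ → M × M => ∃ v : M, v ∈ Y ⊔ p.a j ∧ (v, h) ∈ Z :=
    PP.D.ex ((PP.D.mem (PP.sup hY haj) (by fun_prop)).and (PP.D.mem hZ (by fun_prop)))
  obtain ⟨Z', hZ', eZ'⟩ : L.D fun z : (μ → M × M) × M => (z.2, z.1) ∈ Z :=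
    PP.D.mem hZ (by fun_prop)
  have h3 : dd W' W ≤ ρ (p.a j) := by
    refine (dd_rel (L.sub hZ') (L.sub (PP.sup hY haj)) (L.sub hY) (L.sub hW') (L.sub hW)
      (fun h k => let ⟨v, a, b⟩ := (eW' h).1 k; ⟨v, a, (eZ' _).2 b⟩)
      fun h v a b => (eW h).2 ⟨v, a, (eZ' _).1 b⟩).trans ?_
    refine (dd_sup (L.sub hY) (L.sub haj) (L.sub hY)).trans ?_
    rw [dd_zero le_rfl, zero_add]
    exact dd_le (L.sub haj) (L.sub hY)
  have hGj : P.df (p.G ⊓ p.H j) := P.inf hs.ok.PG (L.sub (hs.ok.df j))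
  have h4 : dd (p.a j) A ≤ dd (pw (p.G ⊓ p.H j) : AddSubgroup (μ → M × M)) ⊥ := by
    refine dd_rel (L.sub hR) (PP.pw hGj) P.bot (L.sub haj) (L.sub hA) (fun v k => ?_)
      fun v γ a b => (eA v).2 (by rwa [AddSubgroup.mem_bot.1 a] at b)
    obtain ⟨γ, ⟨g1, g2⟩, g3⟩ := (eT v).1 (hj0 j h2 k)
    obtain ⟨a, ha, g4⟩ := (eR _).1 g3
    have g5 := hN j W' hW' h3 (x := γ) ⟨⟨(eW' γ).2 ⟨v - a, AddSubgroup.sub_mem _
      (AddSubgroup.mem_sup_right k) (AddSubgroup.mem_sup_left ha), g4⟩, g1⟩, g2⟩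
    exact ⟨γ, mem_pw.2 fun i => ⟨mem_pw.1 g1 i, mem_pw.1 g5 i⟩, g3⟩
  rw [dd_bot, ρ_pw hGj, hK.rk, hK.b] at h4
  exact absurd h1 (not_lt.2 h4)

/-- The type-definable form of the thinness argument. -/
theorem thin_td (hs : Step L L' p) (hK : p.IsK) (hT : Thin L p.a) (hTH : TH L p) {μ : Type}
    [Finite μ] {Z : AddSubgroup (M × (μ → M × M))} (hZ : L.df Z) {Y : AddSubgroup M}
    (hY : L.td.df Y)
    (hC : ∀ c : μ → F, (∀ w ∈ p.ai, ∃ v ∈ Y, (v, tens c ((0 : M), w)) ∈ Z) → c = 0)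
    (hE : ∀ v ∈ p.ai, ∃ a ∈ Y, ∃ γ ∈ (pw p.G : AddSubgroup (μ → M × M)),
      γ ∈ (pw p.Hi : AddSubgroup (μ → M × M)) ∧ (v - a, γ) ∈ Z) :
    ∀ x ∈ p.ai, ∃ a ∈ Y, (x - a, 0) ∈ Z := by
  obtain ⟨Y', a, b, e⟩ := hY
  have key : ∀ {f : M × M → M × (μ → M × M)}, Lin f → ∀ x : M,
      (∀ n, ∃ v ∈ Y' n, f (x, v) ∈ Z) → ∃ v ∈ Y, f (x, v) ∈ Z := fun {f} hf x k => by
    obtain ⟨v, hv⟩ := td_ex (L := L) (x := x)
      (K := fun n => (AddSubgroup.prod ⊤ (Y' n)) ⊓ Z.comap hf.hom)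
      (fun n => Cl.td_of (L.inf (PP.prod L.top (a n)) (L.comap hf hZ fun _ => Iff.rfl)))
      (fun _ _ l => inf_le_inf_right _ (AddSubgroup.prod_mono le_rfl (b l)))
      fun n => let ⟨v, c, d⟩ := k n; ⟨v, ⟨trivial, c⟩, d⟩
    exact ⟨v, (e v).2 fun n => (hv n).1.2, (hv 0).2⟩
  have h1 : ∀ c : μ → F, ∀ᶠ n in atTop,
      (∀ w ∈ p.ai, ∃ v ∈ Y' n, (v, tens c ((0 : M), w)) ∈ Z) → c = 0 := fun c => by
    by_cases hc : c = 0
    · exact Eventually.of_forall fun _ _ => hc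
    · obtain ⟨w, hw, k⟩ : ∃ w ∈ p.ai, ¬ ∃ v ∈ Y, (v, tens c ((0 : M), w)) ∈ Z := by
        by_contra l
        exact hc (hC c (by simpa only [not_exists, not_and, not_not] using
          fun w m => not_not.1 fun o => l ⟨w, m, o⟩))
      obtain ⟨n, hn⟩ := not_forall.1 (mt (key (f := fun z => (z.2, tens c ((0 : M), z.1)))
        (by fun_prop) w) k)
      exact (eventually_ge_atTop n).mono fun m l o =>
        (hn (let ⟨v, r, s⟩ := o w hw; ⟨v, b l r, s⟩)).elim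
  intro x hx
  refine key (f := fun z => (z.1 - z.2, 0)) (by fun_prop) x fun n => ?_
  obtain ⟨m, h2, h3⟩ := ((eventually_all.2 h1).and (eventually_ge_atTop n)).exists
  obtain ⟨v, h4, h5⟩ := thin_df hs hK hT hTH hZ (a m) h2 (fun v k =>
    let ⟨u, r, s⟩ := hE v k
    ⟨u, (e u).1 r m, s⟩) x hx
  exact ⟨v, b h3 h4, h5⟩

theorem inj (h0 : L0 L p) (hne : p.ai ≠ ⊥) {u : M} (hu : u ∈ p.bi) (hG : (u, 0) ∈ p.G) : u = 0 := by
  obtain ⟨Z, hZ, eZ⟩ : L.D fun h : Unit → M × M => (h ()).2 = 0 :=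
    PP.D.eq (by fun_prop) (by fun_prop)
  have := h0 Unit Z (Cl.td_of hZ) (fun c k => ?_) (fun _ => (u, 0)) ((eZ _).2 rfl)
    (mem_pw.2 fun _ => hG) (mem_pw.2 fun _ => ⟨hu, zero_mem _⟩)
  · exact congrArg Prod.fst (congrFun this ())
  · obtain ⟨⟨w, hw⟩, hw0⟩ := AddSubgroup.ne_bot_iff_exists_ne_zero.1 hne
    have h1 : sc (c ()) • w = 0 := (eZ _).1 (k w hw)
    exact funext fun _ => (sc_eq_zero h1).resolve_right fun l => hw0 (Subtype.ext l)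

theorem not_onto (hs : Step L L' p) (hK : p.IsK) (hT : Thin L p.a) (hTH : TH L p)
    (hne : p.ai ≠ ⊥) : ∃ w ∈ p.ai, ∀ u ∈ p.ai, (u, w) ∉ p.G := by
  by_contra hn
  obtain ⟨Z, hZ, eZ⟩ : L.D fun z : M × (Unit → M × M) => (z.2 ()).2 = z.1 :=
    PP.D.eq (by fun_prop) (by fun_prop)
  obtain ⟨⟨w, hw⟩, hw0⟩ := AddSubgroup.ne_bot_iff_exists_ne_zero.1 hne
  have hw1 : w ≠ 0 := fun l => hw0 (Subtype.ext l)
  obtain ⟨a, ha, h⟩ := thin_df hs hK hT hTH hZ L.bot (fun c k => by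
    obtain ⟨v, h1, h2⟩ := k w hw
    have h3 : sc (c ()) • w = v := (eZ _).1 h2
    rw [AddSubgroup.mem_bot.1 h1] at h3
    exact funext fun _ => (sc_eq_zero h3).resolve_right hw1) (fun v k => by
    obtain ⟨u, hu, hG⟩ : ∃ u ∈ p.ai, (u, v) ∈ p.G := by
      by_contra l
      exact hn ⟨v, k, fun u m o => l ⟨u, m, o⟩⟩
    exact ⟨0, zero_mem _, fun _ => (u, v), mem_pw.2 fun _ => hG,
      mem_pw.2 fun _ => ⟨(bi_eq hs hK).symm ▸ hu, k⟩, (eZ _).2 (by simp)⟩) w hw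
  have h3 : (0 : M) = w - a := (eZ _).1 h
  rw [AddSubgroup.mem_bot.1 ha, sub_zero] at h3
  exact hw1 h3.symm

/-- Every old total relation is one of the finitely many rational ones. -/
theorem rel (hs : Step L L' p) (hK : p.IsK) (hT : Thin L p.a) (hTH : TH L p) (h0 : L0 L p)
    {A : AddSubgroup M} (hA : L'.df A) (hEA : ¬ p.ai ≤ A)
    (hat : ∀ S, L'.td.df S → A ⊓ p.ai ≤ S → S ≤ p.ai → S ≤ A ∨ p.ai ≤ S) {μ : Type} [Finite μ]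
    {Z : AddSubgroup (M × (μ → M × M))} (hZ : Pres L p A Z) {θ : AddSubgroup (M × M)}
    (hθ : L.td.df θ) (ht : ∀ v ∈ p.ai, ∃ u ∈ p.ai, (v, u) ∈ θ)
    (hi : ∀ u ∈ p.ai, ((0 : M), u) ∈ θ → (u, 0) ∈ Z) :
    ∃ c : μ → F, ∀ v ∈ p.ai, ∃ u ∈ p.ai, (v, u) ∈ θ ∧ (u, tens c ((0 : M), v)) ∈ Z := by
  have hne : p.ai ≠ ⊥ := fun l => hEA (l ▸ bot_le)
  have hE : L.td.df p.ai := hs.ok.ca.td
  have hb := bi_eq hs hK
  obtain ⟨W, hW, eW⟩ : L.td.D fun h : Option μ → M × M => ∃ u : M, u ∈ p.ai ∧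
      ((h none).2, u) ∈ θ ∧ (u, fun i => h (some i)) ∈ Z :=
    PP.D.ex ((PP.D.mem hE (by fun_prop)).and ((PP.D.mem hθ (by fun_prop)).and
      (PP.D.mem (Cl.td_of hZ.old) (by fun_prop))))
  by_contra hn
  have hW0 := h0 (Option μ) W hW fun c k => by
    rcases F01 (c none) with h | h
    · have : (fun i => c (some i)) = 0 := hZ.red _ fun w hw => by
        obtain ⟨u, h1, h2, h3⟩ := (eW _).1 (k w hw)
        simp only [tens_apply, h, sc_zero, zero_smul, Prod.snd_zero] at h2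
        have h4 := Z.sub_mem h3 (hi u h1 h2)
        rw [Prod.mk_sub_mk, sub_self, sub_zero] at h4
        exact h4
      exact funext fun i => by
        cases i
        · exact h
        · exact congrFun this _
    · refine (hn ⟨fun i => c (some i), fun w hw => ?_⟩).elim
      obtain ⟨u, h1, h2, h3⟩ := (eW _).1 (k w hw)
      simp only [tens_apply, h, sc_one, one_smul] at h2
      exact ⟨u, h1, h2, h3⟩
  have h1 : ∀ u0 ∈ p.ai, ∀ w ∈ p.ai, (u0, w) ∈ p.G → ∀ u ∈ p.ai, (w, u) ∈ θ → u ∈ A → w = 0 := by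
    intro u0 a w b c u d e f
    obtain ⟨γ, g1, g2, g3⟩ := lim hs hZ f d
    have := hW0 (fun i => i.elim (u0, w) γ) ((eW _).2 ⟨u, d, e, g3⟩)
      (mem_pw.2 fun i => by cases i; exacts [c, mem_pw.1 g1 _])
      (mem_pw.2 fun i => by cases i; exacts [⟨hb.symm ▸ a, b⟩, mem_pw.1 g2 _])
    exact congrArg Prod.snd (congrFun this none)
  have hE' := hs.ext.le.td hE
  have hG' : L'.td.df p.G := Cl.td_of hs.ext.df
  obtain ⟨T, hT', eT⟩ : L'.td.D fun u : M => u ∈ p.ai ∧ ∃ z : (M × M) × M × M,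
      ((z.1.1 ∈ p.ai ∧ z.1.2 ∈ p.ai) ∧ z.2.1 ∈ p.ai ∧ z.2.2 ∈ p.ai) ∧
      (z.1 ∈ p.G ∧ (z.1.2, z.2.1) ∈ p.G) ∧ z.2 ∈ θ ∧ u - z.2.2 ∈ A :=
    (PP.D.of hE').and (PP.D.ex
      ((((PP.D.mem hE' (by fun_prop)).and (PP.D.mem hE' (by fun_prop))).and
        ((PP.D.mem hE' (by fun_prop)).and (PP.D.mem hE' (by fun_prop)))).and
      (((PP.D.mem hG' (by fun_prop)).and (PP.D.mem hG' (by fun_prop))).and
        ((PP.D.mem (hs.ext.le.td hθ) (by fun_prop)).and (PP.D.mem (Cl.td_of hA) (by fun_prop))))))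
  obtain ⟨x, hx, hx'⟩ := not_onto hs hK hT hTH hne
  obtain ⟨w1, a1, b1⟩ := tot hs hK hx
  rcases hat T hT' (fun u k => (eT u).2 ⟨k.2, 0, by simp, ⟨p.G.zero_mem, p.G.zero_mem⟩, θ.zero_mem,
      by simpa using k.1⟩)
    (fun u k => ((eT u).1 k).1) with h | h
  · obtain ⟨w2, a2, b2⟩ := tot hs hK a1
    obtain ⟨u, a3, b3⟩ := ht w2 a2
    have h2 := h1 w1 a1 w2 a2 b2 u a3 b3
      (h ((eT u).2 ⟨a3, ((x, w1), w2, u), ⟨⟨hx, a1⟩, a2, a3⟩, ⟨b1, b2⟩, b3, by simp⟩))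
    have h3 := inj h0 hne (hb.symm ▸ a1) (h2 ▸ b2)
    have h4 := inj h0 hne (hb.symm ▸ hx) (h3 ▸ b1)
    exact hx' 0 (zero_mem _) (by rw [h4]; exact p.G.zero_mem)
  · obtain ⟨u, a3, b3⟩ := ht w1 a1
    obtain ⟨-, ⟨⟨y0, y1⟩, y2, u'⟩, ⟨⟨c0, c1⟩, c2, c3⟩, ⟨d1, d2⟩, d3, d4⟩ := (eT u).1 (h a3)
    have h2 := h1 (x - y1) (sub_mem hx c1) (w1 - y2) (sub_mem a1 c2) (p.G.sub_mem b1 d2)
      (u - u') (sub_mem a3 c3) (θ.sub_mem b3 d3) d4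
    have h3 := inj h0 hne (hb.symm ▸ sub_mem hx c1) (h2 ▸ p.G.sub_mem b1 d2)
    exact hx' y0 c0 (sub_eq_zero.1 h3 ▸ d1)

/-- A maximal proper trace. -/
theorem maxTrace {E₀ A : AddSubgroup M} (hE : L'.td.df E₀) (hA : L'.df A) (hEA : ¬ E₀ ≤ A)
    (hf : FinI L' ((A ⊓ E₀).prod (A ⊓ E₀)) (E₀.prod E₀)) :
    ∃ A', L'.df A' ∧ ¬ E₀ ≤ A' ∧ FinI L' ((A' ⊓ E₀).prod (A' ⊓ E₀)) (E₀.prod E₀) ∧
      ∀ S, L'.td.df S → A' ⊓ E₀ ≤ S → S ≤ E₀ → S ≤ A' ∨ E₀ ≤ S := by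
  have h1 : {S | L'.td.df S ∧ A ⊓ E₀ ≤ S ∧ S ≤ E₀ ∧ ¬ E₀ ≤ S}.Finite := by
    refine Finite.of_finite_image (f := fun S : AddSubgroup M => S.prod E₀) (hf.subset ?_) ?_
    · rintro _ ⟨S, ⟨a, b, c, -⟩, rfl⟩
      exact ⟨PP.prod a hE, AddSubgroup.prod_mono b inf_le_right, AddSubgroup.prod_mono c le_rfl⟩
    · intro S _ S' _ e
      ext v
      have : (v, (0 : M)) ∈ S.prod E₀ ↔ (v, (0 : M)) ∈ S'.prod E₀ := by
        rw [show S.prod E₀ = S'.prod E₀ from e]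
      simpa [AddSubgroup.mem_prod] using this
  obtain ⟨S₀, ⟨a, b, c, d⟩, hm⟩ := h1.exists_maximal ⟨A ⊓ E₀, L'.td.inf (Cl.td_of hA) hE, le_rfl,
    inf_le_right, fun k => hEA (k.trans inf_le_left)⟩
  obtain ⟨x, hx, hx'⟩ := SetLike.not_le_iff_exists.1 d
  obtain ⟨K, hK, e, f⟩ := td_not a hx'
  have g : A ⊓ E₀ ≤ K ⊓ E₀ := le_inf (b.trans e) inf_le_right
  refine ⟨K, hK, fun k => f (k hx), hf.subset fun S k =>
    ⟨k.1, (AddSubgroup.prod_mono g g).trans k.2.1, k.2.2⟩, fun S l m n => ?_⟩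
  refine or_iff_not_imp_right.2 fun o => ?_
  exact (hm ⟨l, g.trans m, n, o⟩ ((le_inf e c).trans m)).trans e

end KE

open KE in
theorem stKE (hNF : St_NF) : St_KE := by
  intro L L' p hs hK hT hTH h0 hN A₁ hA₁ hEA₁ hf₁
  have hE : L.td.df p.ai := hs.ok.ca.td
  obtain ⟨A, hA, hEA, hf, hat⟩ := maxTrace (hs.ext.le.td hE) hA₁ hEA₁ hf₁
  obtain ⟨μ, _, Z, hZ⟩ := hNF hs hA
  have hZt : L.td.df Z := Cl.td_of hZ.old
  obtain ⟨A₀, hA₀, e₀⟩ : L.D fun v : M => (v, (0 : μ → M × M)) ∈ Z := PP.D.mem hZ.old (by fun_prop)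
  have h01 : A₀ ≤ A := fun v k => hZ.sub v 0 (zero_mem _) ((e₀ v).1 k)
  let C : AddSubgroup M → Set (μ → F) := fun Y =>
    {c | ∀ w ∈ p.ai, ∃ v ∈ Y, (v, tens c ((0 : M), w)) ∈ Z}
  obtain ⟨Y, ⟨hY, hY0, hYE, hYn⟩, hmin⟩ := (measure fun Y => (C Y).ncard).wf.has_min
    {Y | L.td.df Y ∧ A₀ ⊓ p.ai ≤ Y ∧ Y ≤ p.ai ∧ ¬ Y ≤ A₀}
    ⟨p.ai, hE, inf_le_right, le_rfl, fun k => hEA (k.trans h01)⟩
  by_cases hc : ∀ c ∈ C Y, c = 0
  · obtain ⟨W, hW, eW⟩ : L.td.D fun h : μ → M × M => ∃ v : M, v ∈ Y ∧ (v, h) ∈ Z :=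
      PP.D.ex ((PP.D.mem hY (by fun_prop)).and (PP.D.mem hZt (by fun_prop)))
    have h1 : ∀ v ∈ A, v ∈ Y → v ∈ A₀ := fun v a b => by
      obtain ⟨γ, g1, g2, g3⟩ := lim hs hZ a (hYE b)
      have := h0 μ W hW (fun c k => hc c fun w l => (eW _).1 (k w l)) γ ((eW γ).2 ⟨v, b, g3⟩) g1 g2
      exact (e₀ v).2 (this ▸ g3)
    have h2 : p.ai ≤ Y ⊔ A ⊓ p.ai :=
      (hat _ (PP.sup (hs.ext.le.td hY) (L'.td.inf (Cl.td_of hA) (hs.ext.le.td hE))) le_sup_right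
        (sup_le hYE inf_le_right)).resolve_left fun k =>
          hYn fun v l => h1 v (k (AddSubgroup.mem_sup_left l)) l
    have h3 : p.ai ≤ Y := fun x k => by
      obtain ⟨a, ha, l⟩ := thin_td hs hK hT hTH hZ.old hY hc (fun v m => by
        obtain ⟨a, ha, b, hb, rfl⟩ := AddSubgroup.mem_sup.1 (h2 m)
        obtain ⟨γ, g1, g2, g3⟩ := lim hs hZ hb.1 hb.2
        exact ⟨a, ha, γ, g1, g2, by simpa using g3⟩) x k
      simpa using Y.add_mem (hY0 ⟨(e₀ _).2 l, p.ai.sub_mem k (hYE ha)⟩) ha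
    have h4 : A ⊓ p.ai ≤ A₀ ⊓ p.ai := fun v k => ⟨h1 v k.1 (h3 k.2), k.2⟩
    exact hN A₀ hA₀ (fun k => hEA (k.trans h01)) (hf.subset fun S k =>
      ⟨hs.ext.le.td k.1, (AddSubgroup.prod_mono h4 h4).trans k.2.1, k.2.2⟩)
  · obtain ⟨c, hcY, hc0⟩ : ∃ c ∈ C Y, c ≠ 0 := by
      by_contra l
      exact hc fun c m => not_not.1 fun o => l ⟨c, m, o⟩
    obtain ⟨B, hB, eB⟩ : L.D fun w : M => ((0 : M), tens c ((0 : M), w)) ∈ Z :=
      PP.D.mem hZ.old (by fun_prop)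
    have hsub : ∀ {v : M} {c₁ c₂ : μ → F} {w₁ w₂ : M}, (v, tens c₁ ((0 : M), w₁)) ∈ Z →
        (v, tens c₂ ((0 : M), w₂)) ∈ Z →
        ((0 : M), tens c₁ ((0 : M), w₁) - tens c₂ ((0 : M), w₂)) ∈ Z := fun a b => by
      simpa using Z.sub_mem a b
    have hts : ∀ w₁ w₂ : M, tens c ((0 : M), w₁) - tens c ((0 : M), w₂) =
        tens c ((0 : M), w₁ - w₂) := fun w₁ w₂ => by rw [← tens_sub]; simp
    have hato : ∀ S, L.td.df S → B ⊓ p.ai ≤ S → S ≤ p.ai → S ≤ B ∨ p.ai ≤ S := by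
      intro S a b d
      by_contra l
      obtain ⟨l1, l2⟩ := not_or.1 l
      obtain ⟨Y', hY', eY'⟩ : L.td.D fun v : M => v ∈ Y ∧ ∃ w : M, w ∈ S ∧
          (v, tens c ((0 : M), w)) ∈ Z :=
        (PP.D.of hY).and (PP.D.ex ((PP.D.mem a (by fun_prop)).and (PP.D.mem hZt (by fun_prop))))
      have m1 : Y' ≤ Y := fun v k => ((eY' v).1 k).1
      refine hmin Y' ⟨hY', fun v k => (eY' v).2 ⟨hY0 k, 0, zero_mem _, ?_⟩, m1.trans hYE,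
        fun k => l1 fun w o => ?_⟩ (Set.ncard_lt_ncard ⟨fun c' k w o => ?_, fun k => l2 fun w o => ?_⟩)
      · simpa [← Prod.zero_eq_mk] using (e₀ v).1 k.1
      · obtain ⟨v, r, s⟩ := hcY w (d o)
        simpa using (eB w).2 (by simpa using Z.sub_mem s ((e₀ v).1 (k ((eY' v).2 ⟨r, w, o, s⟩))))
      · obtain ⟨v, r, s⟩ := k w o
        exact ⟨v, m1 r, s⟩
      · obtain ⟨v, r, s⟩ := k hcY w o
        obtain ⟨-, w', t, u⟩ := (eY' v).1 r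
        have n := hsub s u
        rw [hts] at n
        simpa using S.add_mem (b ⟨(eB _).2 n, p.ai.sub_mem o (d t)⟩) t
    choose R hR eR using fun c' : μ → F => (show L.td.D fun z : M × M =>
      (z.1 ∈ p.ai ∧ z.2 ∈ p.ai) ∧ ((0 : M), tens c ((0 : M), z.2) - tens c' ((0 : M), z.1)) ∈ Z from
      ((PP.D.mem hE (by fun_prop)).and (PP.D.mem hE (by fun_prop))).and
        (PP.D.mem hZt (by fun_prop)))
    refine hN B hB (fun k => hc0 (hZ.red c fun w l => (eB w).1 (k l)))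
      (((finite_range R).insert ((B ⊓ p.ai).prod (B ⊓ p.ai))).insert ((B ⊓ p.ai).prod p.ai)
        |>.insert (p.ai.prod p.ai) |>.subset ?_)
    rintro S ⟨a, b, d⟩
    have hS : ∀ {v v₁ v₂ : M}, (v, v₁) ∈ S → (v, v₂) ∈ S → ((0 : M), v₁ - v₂) ∈ S := fun k l => by
      simpa using S.sub_mem k l
    obtain ⟨S₁, a1, e1⟩ : L.td.D fun v : M => ∃ v' : M, (v, v') ∈ S := PP.D.ex (PP.D.of a)
    obtain ⟨S₂, a2, e2⟩ : L.td.D fun v : M => ((0 : M), v) ∈ S := PP.D.mem a (by fun_prop)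
    have b1 : ∀ v ∈ B ⊓ p.ai, (v, (0 : M)) ∈ S := fun v k => b ⟨k, zero_mem _⟩
    have b2 : ∀ v ∈ B ⊓ p.ai, ((0 : M), v) ∈ S := fun v k => b ⟨zero_mem _, k⟩
    simp only [mem_insert_iff, mem_range]
    rcases hato S₁ a1 (fun v k => (e1 v).2 ⟨0, b1 v k⟩)
        (fun v k => let ⟨_, l⟩ := (e1 v).1 k; (d l).1) with f1 | f1 <;>
      rcases hato S₂ a2 (fun v k => (e2 v).2 (b2 v k)) (fun v k => (d ((e2 v).1 k)).2) with f2 | f2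
    · refine Or.inr (Or.inr (Or.inl (le_antisymm (fun z k => ?_) b)))
      have g : z.1 ∈ B ⊓ p.ai := ⟨f1 ((e1 _).2 ⟨z.2, k⟩), (d k).1⟩
      exact ⟨g, f2 ((e2 _).2 (by simpa using hS (v₁ := z.2) k (b1 _ g))), (d k).2⟩
    · refine Or.inr (Or.inl (le_antisymm
        (fun z k => ⟨⟨f1 ((e1 _).2 ⟨z.2, k⟩), (d k).1⟩, (d k).2⟩) fun z k => ?_))
      simpa using S.add_mem (b1 _ k.1) ((e2 _).1 (f2 k.2))
    · obtain ⟨θ, hθ, eθ⟩ : L.td.D fun z : M × M => ∃ v' : M, (z.1, v') ∈ S ∧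
          (z.2, tens c ((0 : M), v')) ∈ Z :=
        PP.D.ex ((PP.D.mem a (by fun_prop)).and (PP.D.mem hZt (by fun_prop)))
      obtain ⟨c', hc'⟩ := rel hs hK hT hTH h0 hA hEA hat hZ hθ (fun v k => by
        obtain ⟨v', l⟩ := (e1 v).1 (f1 k)
        obtain ⟨u, r, s⟩ := hcY v' (d l).2
        exact ⟨u, hYE r, (eθ _).2 ⟨v', l, s⟩⟩) fun u _ k => by
        obtain ⟨v', l, s⟩ := (eθ _).1 k
        simpa using Z.sub_mem s ((eB v').1 (f2 ((e2 v').2 l)))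
      have g : ∀ v ∈ p.ai, ∃ v', (v, v') ∈ S ∧ (v, v') ∈ R c' := fun v k => by
        obtain ⟨u, -, r, s⟩ := hc' v k
        obtain ⟨v', l, t⟩ := (eθ _).1 r
        exact ⟨v', l, (eR c' _).2 ⟨⟨k, (d l).2⟩, hsub t s⟩⟩
      refine Or.inr (Or.inr (Or.inr ⟨c', le_antisymm (fun z k => ?_) fun z k => ?_⟩))
      · obtain ⟨⟨r, s⟩, t⟩ := (eR c' z).1 k
        obtain ⟨v', l, m⟩ := g z.1 r
        have n : ((0 : M), tens c ((0 : M), z.2 - v')) ∈ Z := by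
          rw [← hts]
          simpa using Z.sub_mem t ((eR c' _).1 m).2
        simpa using S.add_mem l (b2 _ ⟨(eB _).2 n, p.ai.sub_mem s (d l).2⟩)
      · obtain ⟨v', l, m⟩ := g z.1 (d k).1
        have n : z.2 - v' ∈ B := f2 ((e2 _).2 (hS (v₁ := z.2) k l))
        refine (eR c' z).2 ⟨d k, ?_⟩
        have o := Z.add_mem ((eB _).1 n) ((eR c' _).1 m).2
        rw [← hts] at o
        simpa using o
    · refine Or.inl (le_antisymm d fun z k => ?_)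
      obtain ⟨v', l⟩ := (e1 _).1 (f1 k.1)
      simpa using S.add_mem l ((e2 _).1 (f2 (p.ai.sub_mem k.2 (d l).2)))

end Z47
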