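import Pool.Agent.Lib.MP_1e63be_al.Z47.Blue

/-!
Toolbox for type-definable subspaces.
-/

namespace Z47

open Set Filter Topology

variable [Amb]
variable {X Y W : Type} [AddCommGroup X] [Module E X] [Std X] [AddCommGroup Y] [Module E Y] [Std Y]
  [AddCommGroup W] [Module E W] [Std W] {μ : Type} {L L' L'' : Cl} {S N A : AddSubgroup X}
  {S' N' : AddSubgroup Y} {S'' : AddSubgroup W}

section
omit [Std X] [Std Y]

theorem NM.td (h : NM L S S') {θ : AddSubgroup (X × Y)} (hθ : L.td.df θ)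
    (k : ∀ v ∈ S, ∃ w ∈ S', (v, w) ∈ θ) : ∀ v ∈ S, (v, 0) ∈ θ :=
  let ⟨_, a, _, c⟩ := hθ
  fun v l => (c _).2 fun n => h _ (a n)
    (fun v l => let ⟨w, m, o⟩ := k v l; ⟨w, m, (c _).1 o n⟩) v l
theorem NM.bot : NM L S (⊥ : AddSubgroup Y) := fun _ _ k v l =>
  let ⟨w, m, o⟩ := k v l
  (show w = 0 from m) ▸ o
theorem NM.of_bot : NM L (⊥ : AddSubgroup X) S' := fun θ _ _ v l =>
  (show v = 0 from l) ▸ θ.zero_mem
theorem Orth.td (h : Orth L S S') {θ : AddSubgroup (X × Y)} (hθ : L.td.df θ) :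
    ∀ v ∈ S, ∀ w ∈ S', (v, w) ∈ θ → (v, 0) ∈ θ :=
  let ⟨_, a, _, c⟩ := hθ
  fun v l w m o => (c _).2 fun n => h _ (a n) v l w m ((c _).1 o n)
theorem Orth.nm (h : Orth L S S') : NM L S S' := fun θ a k v l =>
  let ⟨w, m, o⟩ := k v l
  h θ a v l w m o
theorem FinI.mono {N₁ S₁ : AddSubgroup X} (h : FinI L N S) (k : N ≤ N₁) (l : S₁ ≤ S) :
    FinI L N₁ S₁ := h.subset fun _ m => ⟨m.1, k.trans m.2.1, m.2.2.trans l⟩
theorem finI_of_traces (h : {T | ∃ A, L.df A ∧ T = A ⊓ S}.Finite) : FinI L N S := by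
  refine (h.finite_subsets.image fun U => S ⊓ sInf U).subset ?_
  rintro T ⟨⟨Z, a, -, c⟩, -, l⟩
  refine ⟨range fun n => Z n ⊓ S, by rintro _ ⟨n, rfl⟩; exact ⟨_, a n, rfl⟩, le_antisymm
    (fun x m => (c x).2 fun n => ?_) (le_inf l (le_sInf ?_))⟩
  · simp only [AddSubgroup.mem_inf, AddSubgroup.mem_sInf, forall_mem_range] at m
    exact (m.2 n).1
  rintro _ ⟨n, rfl⟩
  exact le_inf (fun x m => (c x).1 m n) l
theorem Same.refl : Same S L L := fun A h => ⟨A, h, fun _ _ => Iff.rfl⟩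
theorem Same.trans (h : Same S L L') (k : Same S L' L'') : Same S L L'' := fun A l =>
  let ⟨B, a, b⟩ := k A l
  let ⟨C, c, d⟩ := h B a
  ⟨C, c, fun v m => (b v m).trans (d v m)⟩
theorem Same.atom (h : Same S L L') (k : Atom L S) : Atom L' S := ⟨k.1, fun A l =>
  let ⟨B, a, b⟩ := h A l
  (k.2 B a).imp (fun m v o => (b v o).2 (m o)) fun m v o s => m v o ((b v o).1 s)⟩
theorem Same.orth (h : Same (S.prod S') L L') (k : Orth L S S') : Orth L' S S' :=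
  fun θ l v m w o s =>
  let ⟨B, a, b⟩ := h θ l
  (b _ ⟨m, S'.zero_mem⟩).2 (k B a v m w o ((b _ ⟨m, o⟩).1 s))
theorem Atom.td (h : Atom L S) (hA : L.td.df A) (k : A ≤ S) : A = ⊥ ∨ A = S := by
  refine or_iff_not_imp_right.2 fun l => ?_
  obtain ⟨x, a, b⟩ := SetLike.exists_of_lt (k.lt_of_ne l)
  obtain ⟨K, c, d, e⟩ := td_not hA b
  exact (AddSubgroup.eq_bot_iff_forall _).2 fun v m =>
    ((h.2 K c).resolve_left fun o => e (o a)) v (k m) (d m)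

end

theorem NM.anti (h : NM L' S S') (k : L.Le L') : NM L S S' := fun θ a => h θ (k a)
theorem Orth.anti (h : Orth L' S S') (k : L.Le L') : Orth L S S' := fun θ a => h θ (k a)
theorem NM.prod (h : NM L S S') (k : NM L S S'') (hS' : L.td.df S') : NM L S (S'.prod S'') := by
  intro θ a b
  obtain ⟨θ₂, a2, b2⟩ : L.td.D fun z : X × W => ∃ w, w ∈ S' ∧ (z.1, w, z.2) ∈ θ :=
    .ex (.and (.mem hS' (by fun_prop)) (.mem (Cl.td_of a) (by fun_prop)))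
  obtain ⟨θ₁, a1, b1⟩ : L.D fun z : X × Y => (z.1, z.2, (0 : W)) ∈ θ := .mem a (by fun_prop)
  exact fun v l => (b1 _).1 (h θ₁ a1 (fun v l =>
    let ⟨w, m, o⟩ := (b2 _).1 (k.td a2 (fun v l =>
      let ⟨w, m, o⟩ := b v l; ⟨w.2, m.2, (b2 _).2 ⟨w.1, m.1, o⟩⟩) v l)
    ⟨w, m, (b1 _).2 o⟩) v l)
theorem NM.comap (h : NM L S S') {f : W → Y} {g : Y → W} (hg : Lin g) (e : ∀ w, g (f w) = w)
    (k : ∀ w ∈ S'', f w ∈ S') : NM L S S'' := by
  intro θ a b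
  obtain ⟨θ₁, a1, b1⟩ : L.D fun z : X × Y => (z.1, g z.2) ∈ θ := .mem a (.of (by fun_prop))
  exact fun v l => hg.map_zero ▸ (b1 _).1 (h θ₁ a1 (fun v l =>
    let ⟨w, m, o⟩ := b v l; ⟨f w, k w m, (b1 _).2 (by simpa [e])⟩) v l)
theorem NM.pw [Finite μ] (h : NM L S S') (hS' : L.td.df S') :
    NM L S (pw S' : AddSubgroup (μ → Y)) := by
  induction μ using fin_ind with
  | of_equiv e k =>
    exact k.comap (f := fun w i => w (e i)) (g := fun w i => w (e.symm i)) (by fun_prop)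
      (by simp) (by simp +contextual)
  | h_empty => exact Subsingleton.elim ⊥ (Z47.pw S' : AddSubgroup (PEmpty → Y)) ▸ NM.bot
  | h_option k =>
    exact (h.prod k hS').comap (f := fun w => (w none, fun i => w (some i)))
      (g := fun w i => i.elim w.1 w.2) (Lin.pi fun i => by cases i <;> simp <;> fun_prop)
      (fun w => funext fun i => by cases i <;> rfl)
      fun w l => ⟨mem_pw.1 l _, mem_pw.2 fun _ => mem_pw.1 l _⟩
omit [Std X] [Std Y] in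
theorem orth_iff : Orth L S S' ↔ ∀ T, T ≤ S → NM L T S' ∨ ¬ ∃ v, T = AddSubgroup.zmultiples v :=
  ⟨fun h _ k => Or.inl fun θ a b v l => let ⟨w, m, o⟩ := b v l; h θ a v (k l) w m o,
    fun h θ a v l w m o => ((h _ (AddSubgroup.zmultiples_le.2 l)).resolve_right
      fun k => k ⟨v, rfl⟩) θ a (by
        rintro _ ⟨n, rfl⟩; exact ⟨n • w, S'.zsmul_mem m n, θ.zsmul_mem o n⟩) v
      (AddSubgroup.mem_zmultiples v)⟩
theorem Orth.symm (h : Orth L S S') : Orth L S' S := by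
  intro θ a v l w m o
  obtain ⟨θ₁, a1, b1⟩ : L.D fun z : X × Y => (z.2, z.1) ∈ θ := .mem a (by fun_prop)
  simpa using θ.sub_mem o ((b1 _).1 (h θ₁ a1 w m v l ((b1 _).2 o)))
theorem Orth.prod (h : Orth L S S') (k : Orth L S S'') (hS' : L.td.df S') :
    Orth L S (S'.prod S'') := orth_iff.2 fun T l =>
  (orth_iff.1 h T l).elim (fun a => (orth_iff.1 k T l).imp_left fun b => a.prod b hS') Or.inr
theorem Orth.pw [Finite μ] (h : Orth L S S') (hS' : L.td.df S') :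
    Orth L S (pw S' : AddSubgroup (μ → Y)) := orth_iff.2 fun T l =>
  (orth_iff.1 h T l).imp_left fun a => a.pw hS'
theorem FinI.anti (h : FinI L' N S) (k : L.Le L') : FinI L N S :=
  h.subset fun _ m => ⟨k.td m.1, m.2⟩

/-- A total relation from `S'` to `S` embeds intervals. -/
theorem int_fin {θ : AddSubgroup (Y × X)} (hθ : L.td.df θ) (hS : L.td.df S) (hN : L.td.df N)
    (le : N ≤ S) (tot : ∀ w ∈ S', ∃ v ∈ S, (w, v) ∈ θ)
    (ker : ∀ w ∈ S', ∀ v ∈ N, (w, v) ∈ θ → w ∈ N') (h : FinI L (N.prod N) (S.prod S)) :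
    FinI L ((N' ⊓ S').prod (N' ⊓ S')) (S'.prod S') := by
  have : ∀ T : AddSubgroup (Y × Y), L.td.df T → ∃ U : AddSubgroup (X × X), L.td.df U ∧
      ∀ v, v ∈ U ↔ v ∈ S.prod S ∧ ∃ z : (Y × Y) × X × X, z.1 ∈ T ∧ (z.1.1, z.2.1) ∈ θ ∧
        (z.1.2, z.2.2) ∈ θ ∧ v - z.2 ∈ N.prod N := fun T hT =>
    PP.D.and (.of (PP.prod hS hS)) (.ex (.and (.mem hT (by fun_prop)) (.and (.mem hθ (by fun_prop))
      (.and (.mem hθ (by fun_prop)) (.mem (PP.prod hN hN) (by fun_prop))))))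
  choose! U a b using this
  have key : ∀ T T', L.td.df T → L.td.df T' → T ≤ S'.prod S' → T' ≤ S'.prod S' →
      (N' ⊓ S').prod (N' ⊓ S') ≤ T' → U T ≤ U T' → T ≤ T' := fun T T' c c' d d' e f w g => by
    obtain ⟨v1, i1, j1⟩ := tot _ (d g).1
    obtain ⟨v2, i2, j2⟩ := tot _ (d g).2
    obtain ⟨-, z, k1, k2, k3, k4⟩ := (b T' c' (v1, v2)).1
      (f ((b T c _).2 ⟨⟨i1, i2⟩, (w, v1, v2), g, j1, j2, by simp⟩))
    have l := (S'.prod S').sub_mem (d g) (d' k1)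
    simpa using T'.add_mem (e (x := w - z.1) ⟨⟨ker _ l.1 _ k4.1 (θ.sub_mem j1 k2), l.1⟩,
      ker _ l.2 _ k4.2 (θ.sub_mem j2 k3), l.2⟩) k1
  refine Finite.of_finite_image (f := U) (h.subset ?_) fun T c T' c' e => le_antisymm
    (key _ _ c.1 c'.1 c.2.2 c'.2.2 c'.2.1 e.le) (key _ _ c'.1 c.1 c'.2.2 c.2.2 c.2.1 e.ge)
  rintro _ ⟨T, c, rfl⟩
  exact ⟨a T c.1, fun v l => (b T c.1 v).2 ⟨⟨le l.1, le l.2⟩, 0, T.zero_mem, θ.zero_mem, θ.zero_mem,
    by simpa⟩, fun v l => ((b T c.1 v).1 l).1⟩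

theorem NFs.nm (h : NFs L S) (hS' : L.td.df S') (k : Fin2 L S') : NM L S S' := by
  intro θ a b
  obtain ⟨A, a1, b1⟩ : L.D fun v : X => (v, (0 : Y)) ∈ θ := .mem a (by fun_prop)
  by_contra l
  refine h A a1 (fun m => l fun v o => (b1 v).1 (m o)) (int_fin (N := ⊥) (Cl.td_of a) hS' L.td.bot
    bot_le b (fun w _ v m o => (b1 w).2 ((show v = 0 from m) ▸ o)) (by simpa [Fin2] using k))
theorem Same.anti (h : Same S L L'') (k : L'.Le L'') : Same S L L' := fun A l => h A (k l)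
theorem Same.td (h : Same S L L') (hS : L.td.df S) (hA : L'.td.df A) (k : A ≤ S) : L.td.df A := by
  obtain ⟨Z, a, -, c⟩ := hA
  choose Z' a' b' using fun n => h _ (a n)
  exact (PP.D.and (.of hS) (Cl.td_all fun n => .of (Cl.td_of (a' n)))).df fun x =>
    ⟨fun l => ⟨k l, fun n => (b' n x (k l)).1 ((c x).1 l n)⟩, fun l =>
      (c x).2 fun n => (b' n x l.1).2 (l.2 n)⟩
theorem Same.comap (h : Same S L L') {f : Y → X} (hf : Lin f) (inj : Function.Injective f)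
    (k : ∀ y ∈ S', f y ∈ S) : Same S' L L' := fun A l =>
  let ⟨B, a, b⟩ := h (A.map hf.hom) (L'.map hf l fun _ => Iff.rfl)
  ⟨B.comap hf.hom, L.comap hf a fun _ => Iff.rfl, fun v m =>
    (AddSubgroup.mem_map_iff_mem (f := hf.hom) inj).symm.trans (b _ (k v m))⟩
theorem Same.fst (h : Same (S.prod S') L L') : Same S L L' :=
  h.comap (f := fun v => (v, 0)) (by fun_prop) (fun _ _ e => congrArg Prod.fst e)
    fun _ l => ⟨l, S'.zero_mem⟩
theorem Same.snd (h : Same (S.prod S') L L') : Same S' L L' :=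
  h.comap (f := fun v => (0, v)) (by fun_prop) (fun _ _ e => congrArg Prod.snd e)
    fun _ l => ⟨S.zero_mem, l⟩
theorem Same.finI (h : Same S L L') (hS : L.td.df S) (k : FinI L N S) : FinI L' N S :=
  k.subset fun _ m => ⟨h.td hS m.1 m.2.2, m.2⟩
theorem En.mono {κ : AddSubgroup M} {y : E} (h : En L κ y) (k : L.Le L') : En L' κ y :=
  ⟨k.Dy h.1, h.2⟩
theorem GOk.same {a b : ℕ → AddSubgroup M} {d : ℕ} {y : Fin d → E} (h : GOk L a b d y)
    (ha : Chn L a) (k : L.Le L') (l : Same ((⨅ j, a j).prod (⨅ j, a j)) L L') : GOk L' a b d y :=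
  ⟨fun i j => (h.en i j).mono k, h.ind, fun θ m o => h.span θ (l.td (PP.prod ha.td ha.td) m o) o,
    h.rk, l.fst.atom h.atom, l.finI (PP.prod ha.td ha.td) h.fin⟩
theorem Atom.anti (h : Atom L' S) (k : L.Le L') : Atom L S := ⟨h.1, fun A l => h.2 A (k l)⟩

/-- Atoms that are not orthogonal are isomorphic. -/
theorem atom_bij (hS : L.td.df S) (hS' : L.td.df S') (h : Atom L S) (h' : Atom L S')
    (k : ¬ Orth L S S') : ∃ θ : AddSubgroup (X × Y), L.td.df θ ∧ θ ≤ S.prod S' ∧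
      (∀ v ∈ S, ∃ w, (v, w) ∈ θ) ∧ (∀ w ∈ S', ∃ v, (v, w) ∈ θ) ∧ (∀ w, (0, w) ∈ θ → w = 0) ∧
      ∀ v, (v, 0) ∈ θ → v = 0 := by
  simp only [Orth, not_forall] at k
  obtain ⟨θ₀, a, v, b, w, c, d, e⟩ := k
  have hθ := L.td.inf (Cl.td_of a) (PP.prod hS hS')
  obtain ⟨D, a1, b1⟩ : L.td.D fun v : X => ∃ w, (v, w) ∈ θ₀ ⊓ S.prod S' := .ex (.of hθ)
  obtain ⟨R, a2, b2⟩ : L.td.D fun w : Y => ∃ v, (v, w) ∈ θ₀ ⊓ S.prod S' :=
    .ex (.mem hθ (by fun_prop))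
  obtain ⟨K, a3, b3⟩ : L.td.D fun w : Y => (0, w) ∈ θ₀ ⊓ S.prod S' := .mem hθ (by fun_prop)
  obtain ⟨J, a4, b4⟩ : L.td.D fun v : X => (v, 0) ∈ θ₀ ⊓ S.prod S' := .mem hθ (by fun_prop)
  refine ⟨_, hθ, inf_le_right, fun x l => (b1 x).1 (?_ : x ∈ D), fun x l => (b2 x).1 (?_ : x ∈ R),
    fun x l => ?_, fun x l => ?_⟩
  · obtain rfl | rfl := h.td a1 fun x l => let ⟨_, m⟩ := (b1 x).1 l; m.2.1
    · obtain rfl : v = 0 := (b1 v).2 ⟨w, d, b, c⟩
      exact (e θ₀.zero_mem).elim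
    · exact l
  · obtain rfl | rfl := h'.td a2 fun x l => let ⟨_, m⟩ := (b2 x).1 l; m.2.2
    · obtain rfl : w = 0 := (b2 w).2 ⟨v, d, b, c⟩
      exact (e d).elim
    · exact l
  · obtain rfl | rfl := h'.td a3 fun x l => ((b3 x).1 l).2.2
    · exact (b3 x).2 l
    · exact (e (by simpa using θ₀.sub_mem d ((b3 w).1 c).1)).elim
  · obtain rfl | rfl := h.td a4 fun x l => ((b4 x).1 l).2.1
    · exact (b4 x).2 l
    · exact (e ((b4 v).1 b).1).elim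

/-- Functional relations extend to definable endomorphisms. -/
theorem rep (hL : Cmp L) {θ : AddSubgroup (M × M)} (hθ : L.td.df θ)
    (fn : ∀ w, (0, w) ∈ θ → w = 0) : ∃ y : E, L.Dy y ∧ ∀ v w, (v, w) ∈ θ → y • v = w := by
  obtain ⟨Z, a, b, c⟩ := hθ
  choose K a1 b1 using fun n => (PP.D.mem (a n) (f := fun w : M => ((0 : M), w)) (by fun_prop) :)
  obtain ⟨n, e⟩ := sat_le a1 (fun _ _ k x l => (b1 _ x).2 (b k ((b1 _ x).1 l))) L.bot
    fun x l => fn x ((c _).2 fun n => (b1 n x).1 (AddSubgroup.mem_iInf.1 l n))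
  obtain ⟨D, a2, b2⟩ : L.D fun v : M => ∃ w, (v, w) ∈ Z n := .ex (.of (a n))
  obtain ⟨C, a3, b3⟩ := hL D a2
  obtain ⟨Γ, a4, b4⟩ : L.D fun z : M × M => ∃ v, v ∈ C ∧ (z.1 - v, z.2) ∈ Z n :=
    .ex (.and (.mem a3 (by fun_prop)) (.mem (a n) (by fun_prop)))
  have u : ∀ v w w', (v, w) ∈ Γ → (v, w') ∈ Γ → w = w' := fun v w w' k l => by
    obtain ⟨x, m, o⟩ := (b4 _).1 (Γ.sub_mem k l)
    obtain rfl : x = 0 := AddSubgroup.disjoint_def.1 b3.1 (by simpa using (b2 _).2 ⟨_, o⟩) m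
    exact sub_eq_zero.1 (e n le_rfl ((b1 n _).2 (by simpa using o)))
  have t : ∀ v, ∃ w, (v, w) ∈ Γ := fun v => by
    obtain ⟨x, k, y, l, rfl⟩ := AddSubgroup.mem_sup.1 (b3.sup_eq_top.ge (AddSubgroup.mem_top v))
    obtain ⟨w, m⟩ := (b2 x).1 k
    exact ⟨w, (b4 _).2 ⟨y, l, by simpa⟩⟩
  choose f hf using t
  refine ⟨(AddMonoidHom.mk' f fun x y => u _ _ _ (hf _) (Γ.add_mem (hf x) (hf y))).toZModLinearMap 2,
    ⟨Γ, a4, fun z => ⟨u _ _ _ (hf _), fun k => ?_⟩⟩, fun v w k =>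
      u _ _ _ (hf v) ((b4 _).2 ⟨0, C.zero_mem, by simpa using (c _).1 k n⟩)⟩
  rw [show z = (z.1, f z.1) from Prod.ext rfl k.symm]
  exact hf _

/-- A finite nonzero quotient has an atomic quotient. -/
theorem max_trace (hS : L.td.df S) (hA : L.df A) (h : ¬ S ≤ A)
    (k : FinI L ((A ⊓ S).prod (A ⊓ S)) (S.prod S)) : ∃ A', L.df A' ∧ A ⊓ S ≤ A' ∧ ¬ S ≤ A' ∧
      ∀ T, L.td.df T → A' ⊓ S ≤ T → T ≤ S → T = A' ⊓ S ∨ T = S := by
  have f : {T | ∃ A', L.df A' ∧ A ⊓ S ≤ A' ∧ ¬ S ≤ A' ∧ T = A' ⊓ S}.Finite := by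
    refine Finite.of_finite_image (f := fun T => T.prod S) (k.subset ?_) fun T _ T' _ e =>
      AddSubgroup.ext fun x => by simpa [AddSubgroup.mem_prod] using SetLike.ext_iff.1 e (x, 0)
    rintro _ ⟨_, ⟨B, a, b, -, rfl⟩, rfl⟩
    exact ⟨PP.prod (L.td.inf (Cl.td_of a) hS) hS, AddSubgroup.prod_mono (le_inf b inf_le_right)
      inf_le_right, AddSubgroup.prod_mono inf_le_right le_rfl⟩
  obtain ⟨_, ⟨B, a, b, c, rfl⟩, d⟩ := f.exists_maximal ⟨_, A, hA, inf_le_left, h, rfl⟩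
  refine ⟨B, a, b, c, fun T l m o => or_iff_not_imp_right.2 fun s => le_antisymm ?_ m⟩
  obtain ⟨x, i, j⟩ := SetLike.exists_of_lt (o.lt_of_ne s)
  obtain ⟨K, a1, a2, a3⟩ := td_not l j
  exact (le_inf a2 o).trans (d ⟨K, a1, (le_inf b inf_le_right).trans (m.trans a2),
    fun u => a3 (u i), rfl⟩ (le_inf (m.trans a2) inf_le_right))

/-- An atomic quotient `S / N` with an infinite square has infinitely many endomorphisms. -/
theorem end_inf (hS : L.td.df S) (h : ∀ T, L.td.df T → N ≤ T → T ≤ S → T = N ∨ T = S)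
    (k : ¬ FinI L (N.prod N) (S.prod S)) : {y : AddSubgroup (X × X) | L.td.df y ∧ N.prod N ≤ y ∧
      y ≤ S.prod S ∧ (∀ v ∈ S, ∃ w, (v, w) ∈ y) ∧ ∀ w, (0, w) ∈ y → w ∈ N}.Infinite := by
  have _ := hS
  refine fun f => k ((f.union (toFinite {N.prod N, N.prod S, S.prod S})).subset ?_)
  rintro y ⟨a, b, c⟩
  obtain ⟨D, a1, b1⟩ : L.td.D fun v : X => ∃ w, (v, w) ∈ y := .ex (.of a)
  obtain ⟨K, a3, b3⟩ : L.td.D fun w : X => (0, w) ∈ y := .mem a (by fun_prop)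
  have e : ∀ v ∈ N, (v, 0) ∈ y := fun v l => b ⟨l, N.zero_mem⟩
  have hK := h K a3 (fun w l => (b3 w).2 (b ⟨N.zero_mem, l⟩)) fun w l => (c ((b3 w).1 l)).2
  obtain d | d := h D a1 (fun v l => (b1 v).2 ⟨0, e v l⟩) fun v l =>
    let ⟨_, m⟩ := (b1 v).1 l; (c m).1
  · have : y = N.prod K := AddSubgroup.ext fun z => ⟨fun l =>
      have m : z.1 ∈ N := d.le ((b1 _).2 ⟨_, l⟩)
      ⟨m, (b3 _).2 (by simpa [Prod.sub_def] using y.sub_mem l (e _ m))⟩, fun l => by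
        simpa using y.add_mem (e _ l.1) ((b3 _).1 l.2)⟩
    obtain g | g := hK <;> simp [this, g]
  · obtain g | g := hK
    · exact Or.inl ⟨a, b, c, fun v l => (b1 v).1 (d.ge l), fun w l => g.le ((b3 w).2 l)⟩
    · refine Or.inr (Or.inr (Or.inr (le_antisymm c fun z l => ?_)))
      obtain ⟨w, m⟩ := (b1 _).1 (d.ge l.1)
      simpa using y.add_mem m ((b3 _).1 (g.ge (S.sub_mem l.2 (c m).2)))

theorem end_inf' {κ : AddSubgroup M} (hL : Cmp L) (hκ : L.td.df κ) (h : Atom L κ) (k : ¬ Fin2 L κ)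
    (n : ℕ) : ∃ z : Fin n → E, (∀ i, En L κ (z i)) ∧
      ∀ i j, i ≠ j → ∀ v ∈ κ, z i • v = z j • v → v = 0 := by
  have f := (end_inf (N := ⊥) hκ (fun T a _ => h.td a) (by simpa [Fin2] using k)).natEmbedding
  choose z a b using fun i => rep hL (f i).2.1 (f i).2.2.2.2.2
  have e : ∀ i, ∀ v ∈ κ, (v, z i • v) ∈ (f i).1 := fun i v l =>
    let ⟨w, m⟩ := (f i).2.2.2.2.1 v l
    (b i v w m).symm ▸ m
  refine ⟨fun i => z i, fun i => ⟨a i, fun v l => ((f i).2.2.2.1 (e i v l)).2⟩, fun i j l => ?_⟩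
  obtain ⟨A, a1, b1⟩ : L.D fun v : M => z i • v = z j • v := .eq (a i) (a j)
  refine fun v m o => ((h.2 A a1).resolve_left fun s => l (Fin.ext (f.injective
    (Subtype.ext (AddSubgroup.ext fun x => ?_))))) v m ((b1 v).2 o)
  have g : ∀ i, x ∈ (f i).1 ↔ x.1 ∈ κ ∧ z i • x.1 = x.2 := fun i =>
    ⟨fun u => ⟨((f i).2.2.2.1 u).1, b i _ _ u⟩, fun u => by
      rw [show x = (x.1, z i • x.1) from Prod.ext rfl u.2.symm]; exact e i _ u.1⟩
  rw [g, g]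
  exact and_congr_right fun u => by rw [(b1 _).1 (s u)]

theorem smul_WC {C : Set (μ → F)} (φ : E) {x : μ → M} (h : x ∈ WC C) : φ • x ∈ WC C :=
  (WC_le (A := (WC C).comap (DistribSMul.toAddMonoidHom _ φ))).2 (fun c k w => by
    rw [AddSubgroup.mem_comap, DistribSMul.toAddMonoidHom_apply, ← (Lin.tens c Lin.id).smul]
    exact WC_le.1 le_rfl c k _) h

theorem Ratl.weak [Finite μ] {σ : AddSubgroup M} (h : Ratl L σ) {T : AddSubgroup (μ → M)}
    (hT : L.td.df T) (k : T ≤ pw σ) (l : T ≠ ⊥) : ∃ c : μ → F, c ≠ 0 ∧ ∀ u ∈ σ, tens c u ∈ T := by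
  obtain ⟨Z, a, -, c⟩ := hT
  obtain ⟨⟨x, m⟩, o⟩ := (AddSubgroup.ne_bot_iff_exists_ne_zero).1 l
  obtain ⟨i, s⟩ := Function.ne_iff.1 (show x ≠ 0 from fun e => o (Subtype.ext e))
  obtain ⟨φ, t⟩ := Module.Projective.exists_dual_ne_zero F s
  refine ⟨fun j => φ (x j), Function.ne_iff.2 ⟨i, t⟩, fun u v => (c _).2 fun n => ?_⟩
  obtain ⟨C, e⟩ := h μ _ (a n)
  refine (e _ (tens_mem_pw _ v)).2 ?_
  convert smul_WC (φ.smulRight u) ((e x (k m)).1 ((c x).1 m n)) using 1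
  exact funext fun j => by simp [sc, Module.End.smul_def]

theorem Ratl.atom {σ : AddSubgroup M} (h : Ratl L σ) (k : σ ≠ ⊥) : Atom L σ := by
  refine ⟨k, fun A l => or_iff_not_imp_right.2 fun m => ?_⟩
  simp only [not_forall] at m
  obtain ⟨v, a, b, c⟩ := m
  obtain ⟨B, a1, b1⟩ : L.D fun x : Unit → M => x () ∈ A := .mem l (by fun_prop)
  obtain ⟨C, e⟩ := h _ B a1
  obtain ⟨φ, t⟩ := Module.Projective.exists_dual_ne_zero F c
  intro u s
  have := smul_WC (φ.smulRight u) ((e (fun _ => v) (by simpa)).1 ((b1 _).2 b))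
  rw [show φ.smulRight u • (fun _ => v : Unit → M) = fun _ => u from funext fun _ => by
    simp [Module.End.smul_def, (F01 _).resolve_left t]] at this
  exact (b1 _).1 ((e _ (by simpa)).2 this)

theorem Ratl.fin2 {σ : AddSubgroup M} (h : Ratl L σ) : Fin2 L σ := by
  have l : Lin fun z : M × M => fun b : Bool => cond b z.1 z.2 :=
    Lin.pi fun b => by cases b <;> simp <;> fun_prop
  refine finI_of_traces ((finite_range fun C => (WC C).comap l.hom ⊓ σ.prod σ).subset ?_)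
  rintro _ ⟨A, a, rfl⟩
  obtain ⟨B, a1, b1⟩ : L.D fun x : Bool → M => (x true, x false) ∈ A := .mem a (by fun_prop)
  obtain ⟨C, e⟩ := h _ B a1
  exact ⟨C, AddSubgroup.ext fun z => and_congr_left fun m =>
    ((e _ (mem_pw.2 fun b => by cases b; exacts [m.2, m.1])).symm.trans (b1 _))⟩

end Z47
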