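import Pool.Agent.Lib.MP_1e63be_al.Z47.TH
import Pool.Agent.Lib.MP_1e63be_al.Z47.TD

/-!
Gluing packages: the vanishing statement.
-/

namespace Z47

open Set Filter Topology

variable [Amb]

namespace L0Gb

variable {μ : Type} [Fintype μ] [DecidableEq μ]

/-- The sum map. -/
noncomputable def T (w : (μ → F) → M) : μ → M := ∑ c, tens c (w c)

@[fun_prop] theorem T_lin {X : Type} [AddCommGroup X] [Module E X] {f : X → (μ → F) → M}
    (h : Lin f) : Lin fun x => T (f x) :=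
  Lin.comp (f := fun w : (μ → F) → M => ∑ c, tens c (w c)) (by fun_prop) h

@[fun_prop] theorem T_fn {L : PP} {X : Type} [AddCommGroup X] [Module E X] [Std X]
    {f : X → (μ → F) → M} (h : L.Fn f) : L.Fn fun x => T (f x) :=
  PP.Fn.comp (f := fun w => T w) (PP.Fn.of (T_lin Lin.id)) h

theorem T_add (w w' : (μ → F) → M) : T (w + w') = T w + T w' := (T_lin Lin.id).add w w'

theorem T_single (c : μ → F) (v : M) : T (Pi.single c v) = tens c v := by
  rw [T, Finset.sum_eq_single c] <;> simp +contextual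

/-- Families supported in `s` with values in `A`. -/
def Sp (s : Finset (μ → F)) (A : AddSubgroup M) : AddSubgroup ((μ → F) → M) where
  carrier := {w | ∀ c, w c ∈ A ∧ (c ∉ s → w c = 0)}
  add_mem' := fun a b c => ⟨A.add_mem (a c).1 (b c).1, fun k => by simp [(a c).2 k, (b c).2 k]⟩
  zero_mem' := fun c => ⟨A.zero_mem, fun _ => rfl⟩
  neg_mem' := fun a c => ⟨A.neg_mem (a c).1, fun k => by simp [(a c).2 k]⟩

omit [Fintype μ] [DecidableEq μ] in
theorem mem_Sp {s : Finset (μ → F)} {A : AddSubgroup M} {w : (μ → F) → M} :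
    w ∈ Sp s A ↔ ∀ c, w c ∈ A ∧ (c ∉ s → w c = 0) := Iff.rfl

omit [Fintype μ] [DecidableEq μ] in
theorem Sp_mono {s s' : Finset (μ → F)} {A A' : AddSubgroup M} (h : s ≤ s') (k : A ≤ A') :
    Sp s A ≤ Sp s' A' := fun _ l c => ⟨k (l c).1, fun m => (l c).2 fun n => m (h n)⟩

omit [DecidableEq μ] in
theorem Sp_df {L : PP} (s : Finset (μ → F)) {A : AddSubgroup M} (h : L.df A) : L.df (Sp s A) :=
  (PP.D.all fun c => (PP.D.mem h (PP.Fn.apply c)).and
    (PP.D.imp fun _ => PP.D.eq (PP.Fn.apply c) PP.Fn.zero)).df fun _ => mem_Sp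

omit [DecidableEq μ] in
theorem ρ_Sp (s : Finset (μ → F)) {A : AddSubgroup M} (h : P.df A) :
    ρ (Sp s A) = s.card * ρ A := by
  rw [← ρ_inj (f := fun (w : (μ → F) → M) (c : s) => w c) (B := pw A) (by fun_prop) (Sp_df s h)
    (fun y => ⟨fun l => ⟨fun c => if k : c ∈ s then y ⟨c, k⟩ else 0, fun c => by
      by_cases k : c ∈ s <;> simp [k, mem_pw.1 l], by ext c; simp⟩, by
        rintro ⟨x, l, rfl⟩; exact mem_pw.2 fun c => (l c).1⟩)
    (fun x l k => funext fun c => by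
      by_cases m : c ∈ s
      · exact congrFun k ⟨c, m⟩
      · exact (l c).2 m), ρ_pw h]
  simp

/-- Independence modulo `Q`. -/
def Ind (Q : AddSubgroup (μ → M)) (A : AddSubgroup M) (s : Finset (μ → F)) : Prop :=
  ∀ w ∈ Sp s A, T w ∈ Q → w = 0

/-- The family attached to a matrix. -/
noncomputable def ev {d : ℕ} (y : Fin d → E) (s : Finset (μ → F)) (m : s → Fin d → F) (v : M) :
    (μ → F) → M := fun c => if k : c ∈ s then yc y (m ⟨c, k⟩) • v else 0

omit [DecidableEq μ] in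
theorem ev_fn {L : PP} {d : ℕ} {y : Fin d → E} (hy : ∀ k, L.Dy (y k)) (s : Finset (μ → F))
    (m : s → Fin d → F) : L.Fn (ev y s m) :=
  PP.Fn.pi fun c => by
    by_cases k : c ∈ s
    · simp only [ev, dif_pos k]
      exact PP.Dy.yc hy (m ⟨c, k⟩)
    · simpa only [ev, dif_neg k] using PP.Fn.zero

omit [DecidableEq μ] in
theorem ev_mem {d : ℕ} {y : Fin d → E} {A : AddSubgroup M} (hy : ∀ k, ∀ v ∈ A, y k • v ∈ A)
    (s : Finset (μ → F)) (m : s → Fin d → F) {v : M} (hv : v ∈ A) : ev y s m v ∈ Sp s A :=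
  fun c => by
    by_cases k : c ∈ s
    · refine ⟨?_, fun l => (l k).elim⟩
      rw [ev, dif_pos k, yc_smul]
      exact A.sum_mem fun i _ => hy i _ (sc_mem _ hv)
    · simp [ev, k]

variable {L : Cl} {a b : ℕ → AddSubgroup M} {d : ℕ} {y : Fin d → E} {Q : AddSubgroup (μ → M)}

theorem en_i (g : GOk L a b d y) (k : Fin d) : ∀ v ∈ ⨅ j, a j, y k • v ∈ ⨅ j, a j :=
  fun v h => AddSubgroup.mem_iInf.2 fun j => (g.en k j).2 v (AddSubgroup.mem_iInf.1 h j)

/-- Representation by a matrix. -/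
theorem rep1 (g : GOk L a b d y) (ha : Chn L a) (hQ : L.df Q) {s : Finset (μ → F)}
    (hs : Ind Q (⨅ j, a j) s) (c : μ → F)
    (tot : ∀ v ∈ ⨅ j, a j, ∃ w ∈ Sp s (⨅ j, a j), tens c v + T w ∈ Q) :
    ∃ m, ∀ v ∈ ⨅ j, a j, tens c v + T (ev y s m v) ∈ Q := by
  have h1 : ∀ t : s, ∃ m : Fin d → F, ∀ v ∈ ⨅ j, a j, ∃ w ∈ Sp s (⨅ j, a j),
      tens c v + T w ∈ Q ∧ w t = yc y m • v := fun t => by
    obtain ⟨θ, h2, h3⟩ : L.td.D fun z : M × M => z.1 ∈ ⨅ j, a j ∧ ∃ w : (μ → F) → M,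
        w ∈ Sp s (⨅ j, a j) ∧ tens c z.1 + T w ∈ Q ∧ w t = z.2 :=
      (PP.D.mem ha.td (by fun_prop)).and (PP.D.ex ((PP.D.mem (Sp_df s ha.td) (by fun_prop)).and
        ((PP.D.mem (Cl.td_of hQ) (by fun_prop)).and (PP.D.eq (by fun_prop) (by fun_prop)))))
    obtain ⟨m, hm⟩ := g.span θ h2 (fun z l => by
        obtain ⟨l1, w, l2, -, l3⟩ := (h3 z).1 l
        exact ⟨l1, l3 ▸ (l2 t).1⟩)
      (fun v l => let ⟨w, l1, l2⟩ := tot v l; ⟨w t, (h3 _).2 ⟨l, w, l1, l2, rfl⟩⟩)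
      (fun v l => by
        obtain ⟨-, w, l2, l3, l4⟩ := (h3 _).1 l
        rw [hs w l2 (by simpa using l3)] at l4
        exact l4.symm)
    exact ⟨m, fun v l => ((h3 _).1 (hm v l)).2⟩
  choose m hm using h1
  refine ⟨m, fun v l => ?_⟩
  obtain ⟨w, l1, l2⟩ := tot v l
  rwa [show ev y s m v = w from funext fun t => ?_]
  by_cases k : t ∈ s
  · obtain ⟨w', l3, l4, l5⟩ := hm ⟨t, k⟩ v l
    have : w + w' = 0 := hs _ (AddSubgroup.add_mem _ l1 l3) (by
      have := Q.add_mem l2 l4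
      rwa [add_add_add_comm, add_self, zero_add, ← T_add] at this)
    rw [ev, dif_pos k, ← l5, eq_neg_of_add_eq_zero_left this, neg_eq]
  · rw [ev, dif_neg k, (l1 t).2 k]

/-- Maximal independent sets represent every vector. -/
theorem rep2 (g : GOk L a b d y) (ha : Chn L a) (hQ : L.df Q) {s : Finset (μ → F)}
    (hs : Ind Q (⨅ j, a j) s) {c : μ → F} (k : c ∉ s → ¬ Ind Q (⨅ j, a j) (insert c s)) :
    ∃ m, ∀ v ∈ ⨅ j, a j, tens c v + T (ev y s m v) ∈ Q := by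
  refine rep1 g ha hQ hs c ?_
  by_cases hc : c ∈ s
  · intro v l
    refine ⟨Pi.single c v, fun t => ?_, by rw [T_single, add_self]; exact Q.zero_mem⟩
    by_cases e : t = c
    · subst e
      exact ⟨by simpa using l, fun n => (n hc).elim⟩
    · simp [e]
  · obtain ⟨R, h2, h3⟩ : L.td.D fun v : M => v ∈ ⨅ j, a j ∧ ∃ w : (μ → F) → M,
        w ∈ Sp s (⨅ j, a j) ∧ tens c v + T w ∈ Q :=
      (PP.D.mem ha.td (by fun_prop)).and (PP.D.ex ((PP.D.mem (Sp_df s ha.td) (by fun_prop)).and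
        (PP.D.mem (Cl.td_of hQ) (by fun_prop))))
    rcases g.atom.td h2 (fun v l => ((h3 v).1 l).1) with e | e
    · refine (k hc fun w l1 l2 => ?_).elim
      have m1 : w + Pi.single c (w c) ∈ Sp s (⨅ j, a j) := fun t => by
        by_cases e : t = c
        · subst e
          simp [add_self]
        · simpa [e] using l1 t
      have m2 : w c ∈ R := (h3 _).2 ⟨(l1 c).1, _, m1, by
        rwa [T_add, T_single, add_comm (T w), ← add_assoc, add_self, zero_add]⟩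
      rw [e] at m2
      have m3 : w c = 0 := m2
      rw [m3, Pi.single_zero, add_zero] at m1
      exact hs w m1 l2
    · intro v l
      exact ((h3 v).1 (e ▸ l : v ∈ R)).2

/-- The shell property. -/
theorem shell (g : GOk L a b d y) (ha : Chn L a) (hQ : L.df Q) : ∃ N, ∀ j ≥ N,
    ∀ s : Finset (μ → F), Ind Q (⨅ j, a j) s → ∀ w ∈ Sp s (a j), T w ∈ Q ⊔ pw (a (j + 1)) →
      w ∈ Sp s (a (j + 1)) := by
  refine eventually_atTop.1 (eventually_all.2 fun s => ?_)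
  by_cases hs : Ind Q (⨅ j, a j) s
  swap
  · exact Eventually.of_forall fun _ h => (hs h).elim
  obtain ⟨s', le, mx⟩ := Finite.exists_le_maximal hs
  have h1 : ∀ i : μ, ∃ m, ∀ᶠ j in atTop, ∀ v ∈ a j,
      tens (Pi.single i 1) v + T (ev y s' m v) ∈ Q := fun i => by
    obtain ⟨m, hm⟩ := rep2 g ha hQ mx.prop (c := Pi.single i 1) fun k l =>
      k (mx.le_of_ge l (Finset.subset_insert _ _) (Finset.mem_insert_self _ _))
    have := ev_fn (fun k => (g.en k 0).1) s' m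
    obtain ⟨R, h2, h3⟩ : L.D fun v : M => tens (Pi.single i 1) v + T (ev y s' m v) ∈ Q :=
      PP.D.mem hQ (by fun_prop)
    obtain ⟨N, hN⟩ := sat_le ha.df ha.anti h2 fun v l => (h3 v).2 (hm v l)
    exact ⟨m, eventually_atTop.2 ⟨N, fun j k v l => (h3 v).1 (hN j k l)⟩⟩
  choose m hm using h1
  obtain ⟨R, h2, h3⟩ : L.D fun w : (μ → F) → M => T w ∈ Q := PP.D.mem hQ (by fun_prop)
  obtain ⟨N, hN⟩ := sat_le (K := fun j => Sp s' (a j) ⊓ R) (fun j => L.inf (Sp_df _ (ha.df j)) h2)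
    (fun i j k => inf_le_inf_right _ (Sp_mono le_rfl (ha.anti k))) (L' := L) L.bot fun w l => by
      have l' := AddSubgroup.mem_iInf.1 l
      exact mx.prop w (fun c => ⟨AddSubgroup.mem_iInf.2 fun j => ((l' j).1 c).1,
        ((l' 0).1 c).2⟩) ((h3 w).1 (l' 0).2)
  filter_upwards [eventually_all.2 hm, eventually_ge_atTop N] with j k1 k2 _ w l1 l2
  obtain ⟨x, l3, u, l4, e⟩ := AddSubgroup.mem_sup.1 l2
  have m1 : ∀ n ≤ j + 1, ∑ i, ev y s' (m i) (u i) ∈ Sp s' (a n) := fun n k =>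
    AddSubgroup.sum_mem _ fun i _ => ev_mem (fun k => (g.en k n).2) _ _ (ha.anti k (mem_pw.1 l4 i))
  have m2 : w + ∑ i, ev y s' (m i) (u i) = 0 := hN j k2 ⟨AddSubgroup.add_mem _
    (Sp_mono le le_rfl l1) (m1 j (by omega)), (h3 _).2 (by
      have e2 : T (∑ i, ev y s' (m i) (u i)) = ∑ i, T (ev y s' (m i) (u i)) :=
        map_sum (T_lin (μ := μ) Lin.id).hom _ _
      show T _ ∈ Q
      rw [T_add, ← e, e2, add_assoc]
      nth_rw 1 [← sum_single u]
      rw [← Finset.sum_add_distrib]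
      exact Q.add_mem l3 (Q.sum_mem fun i _ => k1 i _ (ha.anti (by omega) (mem_pw.1 l4 i))))⟩
  rw [eq_neg_of_add_eq_zero_left m2, neg_eq] at l1 ⊢
  exact fun c => ⟨(m1 _ le_rfl c).1, (l1 c).2⟩

/-- The count. -/
theorem count (g : GOk L a b d y) (ha : Chn L a) (hQ : L.df Q)
    (red : ∀ c, (∀ v ∈ ⨅ j, a j, tens c v ∈ Q) → c = 0) (U : Submodule F (μ → F)) :
    ∃ s : Finset (μ → F), (∀ c ∈ s, c ∈ U) ∧ Ind Q (⨅ j, a j) s ∧
      Module.finrank F U ≤ s.card * d := by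
  obtain ⟨s, -, mx⟩ := Finite.exists_le_maximal
    (p := fun s : Finset (μ → F) => (∀ c ∈ s, c ∈ U) ∧ Ind Q (⨅ j, a j) s) (a := ∅)
    ⟨by simp, fun w l _ => funext fun c => (l c).2 (by simp)⟩
  refine ⟨s, mx.prop.1, mx.prop.2, ?_⟩
  have h1 : ∀ c : U, ∃ m, ∀ v ∈ ⨅ j, a j, tens c.1 v + T (ev y s m v) ∈ Q := fun c =>
    rep2 g ha hQ mx.prop.2 fun k l => k (mx.le_of_ge ⟨fun t n => (Finset.mem_insert.1 n).elim
      (fun e => e ▸ c.2) (mx.prop.1 t), l⟩
      (Finset.subset_insert _ _) (Finset.mem_insert_self _ _))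
  choose m hm using h1
  have h2 : Function.Injective m := fun c c' e => Subtype.ext (sub_eq_zero.1 (red _ fun v l => by
    have := Q.sub_mem (hm c v l) (hm c' v l)
    rwa [e, add_sub_add_right_eq_sub, ← sub_tens] at this))
  have h3 := Nat.card_le_card_of_injective m h2
  rw [Module.natCard_eq_pow_finrank (K := F)] at h3
  simp only [Nat.card_eq_fintype_card, ZMod.card, Fintype.card_pi, Finset.prod_const,
    Finset.card_univ, Fintype.card_fin, Fintype.card_coe, ← pow_mul] at h3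
  rw [mul_comm]
  exact (Nat.pow_le_pow_iff_right (by norm_num)).1 h3

/-- One shell step. -/
theorem step {L' : Cl} {p : Pkg} (st : Step L L' p) (gr : p.Gr) (g : GOk L p.a p.b d y)
    (hQ : L.df Q) (red : ∀ c, (∀ v ∈ p.ai, tens c v ∈ Q) → c = 0) {j : ℕ}
    (sh : ∀ s : Finset (μ → F), Ind Q p.ai s → ∀ w ∈ Sp s (p.a j), T w ∈ Q ⊔ pw (p.a (j + 1)) →
      w ∈ Sp s (p.a (j + 1))) {γ : μ → M × M} (k1 : γ ∈ (pw p.G : AddSubgroup (μ → M × M)))
    (k2 : γ ∈ (pw (p.H j) : AddSubgroup (μ → M × M))) (k3 : (fun i => (γ i).2) ∈ Q) :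
    γ ∈ (pw (p.H (j + 1)) : AddSubgroup (μ → M × M)) := by
  have ok := st.ok
  have da := fun n => L.sub (ok.ca.df n)
  have db := fun n => L.sub (ok.cb.df n)
  have dH := fun n => L.sub (ok.df n)
  obtain ⟨Y, hY, mY⟩ : L.D fun γ : μ → M × M => γ ∈ (pw (p.H j) : AddSubgroup (μ → M × M)) ∧
      (fun i => (γ i).2) ∈ Q ⊔ pw (p.a (j + 1)) :=
    (PP.D.of (PP.pw (ok.df j))).and (PP.D.mem (PP.sup hQ (PP.pw (ok.ca.df _))) (by fun_prop))
  obtain ⟨l, cov, full⟩ := st.gen μ Y hY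
  have hlv : Ty p.H l ≤ pw (p.H j) ⊔ pw p.G :=
    full.trans (sup_le_sup_right (inf_le_left.trans fun x m => ((mY x).1 m).1) _)
  set U : Submodule F (μ → F) := Submodule.span F {c | l c = j} with hU
  obtain ⟨s, s1, s2, s3⟩ := count g ok.ca hQ red U
  let β := Module.finBasis F U
  have hβ : ∀ {X : Type} [AddCommGroup X] [Module E X] (A : AddSubgroup X) (c : U), ∀ h ∈ A,
      tens c.1 h ∈ ⨆ k, tn (β k).1 A := fun A c h m => by
    have e : c.1 = ∑ k, β.repr c k • (β k).1 := by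
      simpa only [Submodule.coe_sum, Submodule.coe_smul] using
        congrArg Subtype.val (β.sum_repr c).symm
    have e2 : tens c.1 h = ∑ k, sc (β.repr c k) • tens (β k).1 h := by
      rw [e]
      funext i
      simp [sc_sum, sc_mul, Finset.sum_smul, mul_smul]
    rw [e2]
    exact AddSubgroup.sum_mem _ fun k _ => sc_mem _ (le_iSup (fun k => tn (β k).1 A) k ⟨h, m, rfl⟩)
  set W : AddSubgroup (μ → M × M) := (⨆ k, tn (β k).1 (p.H j)) ⊔ pw (p.H (j + 1)) with hW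
  have dW : P.df W := PP.sup (PP.iSup fun k => PP.tn _ (dH j)) (PP.pw (dH _))
  have TW : Ty p.H l ≤ W := Ty_le.2 fun c n e h m => by
    by_cases hc : c = 0
    · rw [hc, zero_tens]
      exact W.zero_mem
    · rcases (THb.lv ok gr hlv hc e).eq_or_lt with rfl | k
      · exact AddSubgroup.mem_sup_left (hβ _ ⟨c, Submodule.subset_span e⟩ h m)
      · exact AddSubgroup.mem_sup_right (tens_mem_pw c (ok.anti k m))
  have d0 : P.df (pw p.G ⊓ W) := P.inf (PP.pw ok.PG) dW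
  have d1 : P.df (pw p.G ⊓ pw (p.H (j + 1)) : AddSubgroup (μ → M × M)) :=
    P.inf (PP.pw ok.PG) (PP.pw (dH _))
  have l10 : pw p.G ⊓ pw (p.H (j + 1)) ≤ pw p.G ⊓ W := inf_le_inf_left _ le_sup_right
  have l1Y : pw p.G ⊓ pw (p.H (j + 1)) ≤ Y := fun x m => (mY x).2
    ⟨pw_mono (ok.anti (by omega)) m.2,
      AddSubgroup.mem_sup_right (mem_pw.2 fun i => (mem_pw.1 m.2 i).2)⟩
  have f1 : ∀ c ∈ U, ∀ v ∈ p.a j, tens c ((0 : M), v) ∈ Y ⊔ pw p.G ⊓ W := fun c m v hv => by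
    induction m using Submodule.span_induction with
    | mem c e =>
      have m : tens c ((0 : M), v) ∈ Ty p.H l := mem_Ty e ⟨(p.b j).zero_mem, hv⟩
      obtain ⟨x, hx, z, hz, e⟩ := AddSubgroup.mem_sup.1 (full m)
      refine AddSubgroup.mem_sup.2 ⟨x, hx.1, z, ⟨hz, TW ?_⟩, e⟩
      rw [eq_sub_of_add_eq' e]
      exact AddSubgroup.sub_mem _ m hx.2
    | zero =>
      rw [zero_tens]
      exact AddSubgroup.zero_mem _
    | add c c' _ _ k k' =>
      rw [add_tens]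
      exact AddSubgroup.add_mem _ k k'
    | smul t c _ k =>
      rw [smul_tens]
      exact sc_mem _ k
  have f2 : dd (Sp s (p.a j)) (Sp s (p.a (j + 1))) ≤ dd (Y ⊔ pw p.G ⊓ W) Y := by
    refine dd_comap (f := fun w : (μ → F) → M => ∑ c, tens c ((0 : M), w c)) (by fun_prop)
      (PP.sup (L.sub hY) d0) (L.sub hY) (Sp_df _ (da _)) (Sp_df _ (da _))
      (fun w m => AddSubgroup.sum_mem _ fun c _ => ?_) fun w m k => sh s s2 w m ?_
    · by_cases n : c ∈ s
      · exact f1 c (s1 c n) _ (m c).1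
      · rw [(m c).2 n, show ((0 : M), (0 : M)) = 0 from rfl, tens_zero]
        exact AddSubgroup.zero_mem _
    · convert ((mY _).1 k).2 using 1
      funext i
      simp [T, Prod.snd_sum]
  have f3 := dd_sup (L.sub hY) d0 (L.sub hY)
  rw [dd_zero le_rfl, dd_eq d0 (L.sub hY)] at f3
  rw [dd_of_le (Sp_mono le_rfl (ok.ca.anti (by omega))), ρ_Sp _ (da _), ρ_Sp _ (da _), g.rk,
    g.rk] at f2
  have dB : P.df (⨆ k, tn (β k).1 (p.b j)) := PP.iSup fun k => PP.tn _ (db j)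
  have f4 : dd (pw p.G ⊓ W) (pw p.G ⊓ pw (p.H (j + 1))) ≤
      dd ((⨆ k, tn (β k).1 (p.b j)) ⊔ pw (p.b (j + 1))) (pw (p.b (j + 1))) := by
    refine dd_comap (f := fun (γ : μ → M × M) i => (γ i).1) (by fun_prop)
      (PP.sup dB (PP.pw (db _))) (PP.pw (db _)) d0 d1 (fun x m => ?_)
      fun x m k => ⟨m.1, mem_pw.2 fun i => ?_⟩
    · have lf : Lin fun (γ : μ → M × M) i => (γ i).1 := by fun_prop
      refine (show W ≤ AddSubgroup.comap lf.hom
        ((⨆ k, tn (β k).1 (p.b j)) ⊔ pw (p.b (j + 1))) from sup_le (iSup_le fun k => ?_) ?_) m.2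
      · rintro _ ⟨h, n, rfl⟩
        exact AddSubgroup.mem_sup_left (le_iSup (fun k => tn (β k).1 (p.b j)) k ⟨h.1, n.1, rfl⟩)
      · exact fun z n => AddSubgroup.mem_sup_right (mem_pw.2 fun i => (mem_pw.1 n i).1)
    · obtain ⟨w, n1, n2⟩ := ok.tot (j + 1) _ (mem_pw.1 k i)
      have n3 : ((0 : M), (x i).2 - w) ∈ p.G := by
        convert p.G.sub_mem (mem_pw.1 m.1 i) n2 using 1
        exact Prod.ext (sub_self _).symm rfl
      exact ⟨mem_pw.1 k i, sub_eq_zero.1 (gr.fn _ n3) ▸ n1⟩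
  have f5 := dd_sup dB (PP.pw (db (j + 1))) (PP.pw (db (j + 1)))
  have f6 := dd_iSup (A := fun k => tn (β k).1 (p.b j)) (fun k => PP.tn _ (db j))
    (PP.pw (db (j + 1)))
  have f7 : ∑ k, dd (tn (β k).1 (p.b j)) (pw (p.b (j + 1))) ≤
      ∑ _k : Fin (Module.finrank F U), dd (p.b j) (p.b (j + 1)) :=
    Finset.sum_le_sum fun k _ => dd_map (f := tens (β k).1) (by fun_prop) (db _) (db _)
      (PP.tn _ (db j)) (PP.pw (db _)) (fun _ m => m) fun _ m => tens_mem_pw _ m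
  have f8 := dd_nonneg (db j) (db (j + 1))
  rw [Finset.sum_const, Finset.card_univ, Fintype.card_fin, nsmul_eq_mul] at f7
  rw [dd_zero le_rfl] at f5
  rw [dd_of_le l10] at f4
  have f9 : (Module.finrank F U : ℝ) ≤ s.card * d := by exact_mod_cast s3
  have f10 := mul_le_mul_of_nonneg_right f9 f8
  rw [dd_of_le (ok.cb.anti (Nat.le_succ j))] at f7 f10
  have m := (mY γ).2 ⟨k2, AddSubgroup.mem_sup_left k3⟩
  exact (Amb.ρ_faith d1 (P.inf d0 (L.sub hY)) (le_inf l10 l1Y) (by nlinarith)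
    ⟨⟨k1, TW (cov ⟨m, k1⟩)⟩, m⟩).2

end L0Gb

theorem stL0G : St_L0G := by
  rintro L L' p d y st gr g orth μ _ Z ⟨Zn, a, b, e⟩ red γ m1 m2 m3
  classical
  have := Fintype.ofFinite μ
  have ok := st.ok
  have ev : ∀ᶠ n in atTop, ∀ c : μ → F,
      (∀ w ∈ p.ai, tens c ((0 : M), w) ∈ Zn n) → c = 0 := by
    refine eventually_all.2 fun c => ?_
    by_cases hc : c = 0
    · exact Eventually.of_forall fun _ _ => hc
    · obtain ⟨w, hw, k⟩ : ∃ w ∈ p.ai, tens c ((0 : M), w) ∉ Z := by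
        by_contra k
        push Not at k
        exact hc (red c k)
      obtain ⟨n, hn⟩ := not_forall.1 (mt (e _).2 k)
      exact (eventually_ge_atTop n).mono fun n' l s => (hn (b l (s w hw))).elim
  obtain ⟨n, hn⟩ := ev.exists
  obtain ⟨θ, h1, h2⟩ : L.D fun z : (μ → M) × (μ → M) => (fun i => (z.2 i, z.1 i)) ∈ Zn n :=
    PP.D.mem (a n) (by fun_prop)
  obtain ⟨Q, h3, h4⟩ : L.D fun w : μ → M => (fun i => ((0 : M), w i)) ∈ Zn n :=
    PP.D.mem (a n) (by fun_prop)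
  have o2 : Orth L (pw p.ai : AddSubgroup (μ → M)) (pw p.bi : AddSubgroup (μ → M)) :=
    (orth.pw ok.ca.td).symm.pw ok.cb.td
  have k3 : (fun i => (γ i).2) ∈ Q := (h4 _).2 ((h2 _).1 (o2 θ h1 _
    (mem_pw.2 fun i => (mem_pw.1 m3 i).2) (fun i => (γ i).1)
    (mem_pw.2 fun i => (mem_pw.1 m3 i).1) ((h2 _).2 ((e γ).1 m1 n))))
  have red' : ∀ c, (∀ v ∈ p.ai, tens c v ∈ Q) → c = 0 := fun c k => hn c fun w l => by
    convert (h4 _).1 (k w l) using 1
    funext i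
    simp
  obtain ⟨N, hN⟩ := L0Gb.shell g ok.ca h3
  obtain ⟨R, h5, h6⟩ : P.D fun γ : μ → M × M => γ ∈ (pw p.G : AddSubgroup (μ → M × M)) ∧
      γ ∈ (pw (p.H N) : AddSubgroup (μ → M × M)) ∧ (fun i => (γ i).2) ∈ Q :=
    (PP.D.of (PP.pw ok.PG)).and ((PP.D.of (PP.pw (L.sub (ok.df N)))).and
      (PP.D.mem (L.sub h3) (by fun_prop)))
  have h7 : ∀ j ≥ N, R ≤ pw (p.H j) := fun j k => by
    induction j, k using Nat.le_induction with
    | base => exact fun x m => ((h6 x).1 m).2.1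
    | succ j k ih =>
      exact fun x m => L0Gb.step st gr g h3 red' (hN j k) ((h6 x).1 m).1 (ih m) ((h6 x).1 m).2.2
  have lim : Tendsto (fun j => (Nat.card μ : ℝ) * ρ (p.H j)) atTop (𝓝 0) := by
    simpa using ok.lim.const_mul (Nat.card μ : ℝ)
  have z : R = ⊥ := by
    refine ρ_eq_zero h5 (ge_of_tendsto lim ((eventually_ge_atTop N).mono fun j k => ?_))
    rw [← ρ_pw (L.sub (ok.df j))]
    exact Amb.ρ_mono h5 (PP.pw (L.sub (ok.df j))) (h7 j k)
  have : γ ∈ R := (h6 γ).2 ⟨m2, mem_pw.2 fun i => Pkg.mem_Hi'.1 (mem_pw.1 m3 i) N, k3⟩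
  rwa [z] at this

end Z47
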