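import Pool.Agent.Lib.MP_1e63be_al.Z47.Basic

/-!
The model, part one: the space and the realisation of families.
-/

namespace Z47.Mdl

open Set Filter Topology Module

/-- The index set. -/
abbrev Ix : Type := Finset ℝ
/-- The error bound. -/
def KK (k : ℕ) : ℕ := (2 * k + 2) * (k + 2) ^ 2 ^ (k + 1)
/-- The dimensions. -/
def nn (i : Ix) : ℕ := (i.card + 1) * KK i.card
theorem nn_pos (i : Ix) : 0 < nn i := by unfold nn KK; positivity
/-- The finite spaces. -/
abbrev V (i : Ix) : Type := Fin (nn i) → F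
/-- The ultrafilter. -/
noncomputable def UU : Ultrafilter Ix := Ultrafilter.of atTop
/-- Negligible families of numbers. -/
def nul (a : Ix → ℕ) : Prop := Tendsto (fun i => (a i : ℝ) / nn i) UU (𝓝 0)

theorem nul.mono {a b : Ix → ℕ} (h : nul b) (k : ∀ᶠ i in (UU : Filter Ix), a i ≤ b i) : nul a :=
  squeeze_zero' (.of_forall fun _ => by positivity) (k.mono fun i l => by gcongr) h
theorem nul.add {a b : Ix → ℕ} (h : nul a) (k : nul b) : nul fun i => a i + b i := by
  simpa [nul, add_div] using Tendsto.add h k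
theorem nul_zero : nul fun _ => 0 := by simp [nul]
theorem nul_sum {ι : Type} (s : Finset ι) {a : ι → Ix → ℕ} (h : ∀ j, nul (a j)) :
    nul fun i => ∑ j ∈ s, a j i := by
  simpa [nul, Finset.sum_div] using tendsto_finsetSum s fun j _ => h j

/-- The codimension. -/
noncomputable def cod {i : Ix} (K : Submodule F (V i)) : ℕ := nn i - finrank F K
theorem fr_le {i : Ix} (K : Submodule F (V i)) : finrank F K ≤ nn i := by
  simpa using K.finrank_le
theorem cod_anti {i : Ix} {K K' : Submodule F (V i)} (h : K ≤ K') : cod K' ≤ cod K :=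
  Nat.sub_le_sub_left (Submodule.finrank_mono h) _
theorem cod_inf {i : Ix} (K K' : Submodule F (V i)) : cod (K ⊓ K') ≤ cod K + cod K' := by
  have := Submodule.finrank_sup_add_finrank_inf_eq K K'
  have := fr_le (K ⊔ K')
  unfold cod; omega
@[simp] theorem cod_top {i : Ix} : cod (⊤ : Submodule F (V i)) = 0 := by simp [cod]

section
variable {W W' : Ix → Type} [∀ i, AddCommGroup (W i)] [∀ i, Module F (W i)]
  [∀ i, AddCommGroup (W' i)] [∀ i, Module F (W' i)]

/-- Sequences of families of maps. -/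
abbrev Sq (W : Ix → Type) [∀ i, AddCommGroup (W i)] [∀ i, Module F (W i)] : Type :=
  ℕ → ∀ i, V i →ₗ[F] W i

/-- A family of maps is almost in a family of subspaces. -/
def Al (y : ∀ i, V i →ₗ[F] W i) (A : ∀ i, Submodule F (W i)) : Prop :=
  nul fun i => cod ((A i).comap (y i))

theorem Al.of_le {y : ∀ i, V i →ₗ[F] W i} {z : ∀ i, V i →ₗ[F] W' i} {A : ∀ i, Submodule F (W i)}
    {B : ∀ i, Submodule F (W' i)} (h : Al y A) (k : ∀ i v, y i v ∈ A i → z i v ∈ B i) : Al z B :=
  h.mono (.of_forall fun i => cod_anti (k i))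
theorem Al.and {W'' : Ix → Type} [∀ i, AddCommGroup (W'' i)] [∀ i, Module F (W'' i)]
    {y : ∀ i, V i →ₗ[F] W i} {z : ∀ i, V i →ₗ[F] W' i} {u : ∀ i, V i →ₗ[F] W'' i}
    {A : ∀ i, Submodule F (W i)} {B : ∀ i, Submodule F (W' i)} {C : ∀ i, Submodule F (W'' i)}
    (h : Al y A) (h' : Al z B) (k : ∀ i v, y i v ∈ A i → z i v ∈ B i → u i v ∈ C i) : Al u C :=
  (h.add h').mono (.of_forall fun i => (cod_inf _ _).trans' (cod_anti fun v l => k i v l.1 l.2))
theorem Al.exact {y : ∀ i, V i →ₗ[F] W i} {A : ∀ i, Submodule F (W i)} (k : ∀ i v, y i v ∈ A i) :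
    Al y A := nul_zero.mono (.of_forall fun i => (cod_anti fun v _ => k i v).trans cod_top.le)

/-- Null sequences. -/
def Nul (W : Ix → Type) [∀ i, AddCommGroup (W i)] [∀ i, Module F (W i)] : Submodule F (Sq W) where
  carrier := {y | ∀ᶠ k in atTop, Al (y k) ⊥}
  add_mem' h k := (h.and k).mono fun _ l => l.1.and l.2 (by simp +contextual)
  zero_mem' := .of_forall fun _ => .exact (by simp)
  smul_mem' _ _ h := h.mono fun _ l => l.of_le (by simp +contextual)

theorem comp_nul {y : Sq W} (h : y ∈ Nul W) (g : ∀ i, W i →ₗ[F] W' i) :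
    (fun k i => g i ∘ₗ y k i) ∈ Nul W' := h.mono fun _ l => l.of_le (by simp +contextual)

end

/-- The space. -/
def MM : Type := Sq V ⧸ Nul V
noncomputable instance : AddCommGroup MM := inferInstanceAs (AddCommGroup (Sq V ⧸ Nul V))
noncomputable instance : Module F MM := inferInstanceAs (Module F (Sq V ⧸ Nul V))
/-- The quotient map. -/
noncomputable def mk : Sq V →ₗ[F] MM := (Nul V).mkQ
theorem mk_eq_zero {y : Sq V} : mk y = 0 ↔ y ∈ Nul V := Submodule.Quotient.mk_eq_zero _
theorem mk_surj : Function.Surjective mk := (Nul V).mkQ_surjective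

instance : Nontrivial MM := ⟨mk fun _ _ => .id, 0, fun h => by
  obtain ⟨_, k⟩ := (mk_eq_zero.1 h).exists
  have : (fun i : Ix => ((cod ((⊥ : ∀ i, Submodule F (V i)) i |>.comap LinearMap.id) : ℕ) : ℝ) /
      nn i) = fun _ => 1 := funext fun i => by simp [cod, (nn_pos i).ne']
  rw [Al, nul, this] at k
  simpa using tendsto_nhds_unique k tendsto_const_nhds⟩

/-- The underlying space of the model. -/
@[reducible] noncomputable def amb0 : Amb0 := ⟨MM⟩

attribute [local instance] amb0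

variable {X Y : Type} [AddCommGroup X] [Module E X] [AddCommGroup Y] [Module E Y]

/-- Matrix functionals. -/
abbrev Du (X : Type) [AddCommGroup X] [Module E X] : Type := X →ₗ[E] M
/-- The finite version of a standard space. -/
abbrev Xi (X : Type) [AddCommGroup X] [Module E X] (i : Ix) : Type := Du X →ₗ[F] V i
/-- The finite version of a matrix map. -/
noncomputable def up {f : X → Y} (h : Lin f) (i : Ix) : Xi X i →ₗ[F] Xi Y i :=
  LinearMap.lcomp F (V i) (LinearMap.lcomp F M h.lin)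
@[simp] theorem up_apply {f : X → Y} (h : Lin f) (i : Ix) (w : Xi X i) (φ : Du Y) :
    up h i w φ = w (φ ∘ₗ h.lin) := rfl
/-- Evaluation. -/
noncomputable def ev (y : Sq (Xi X)) : Du X →ₗ[F] M :=
  mk ∘ₗ LinearMap.pi fun k => LinearMap.pi fun i => (y k i).flip
/-- `y` represents `x`. -/
def Rp (y : Sq (Xi X)) (x : X) : Prop := ∀ φ : Du X, φ x = ev y φ

theorem comm (φ : M →ₗ[E] M) : ∃ c : F, ∀ v, φ v = c • v := by
  obtain ⟨v, h⟩ := exists_ne (0 : MM)
  obtain ⟨ψ, k⟩ := Module.Projective.exists_dual_ne_zero F h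
  refine ⟨ψ (φ v), fun w => ?_⟩
  have := φ.map_smul (ψ.smulRight w) v
  simpa [Module.End.smul_def, (F01 _).resolve_left k] using this

theorem basis {n : ℕ} (e : X ≃ₗ[E] (Fin n → M)) :
    ∃ b : Basis (Fin n) F (Du X), ∀ j x, b j x = e x j := by
  refine ⟨Basis.mk (v := fun j => LinearMap.proj j ∘ₗ e.toLinearMap)
    (Fintype.linearIndependent_iff.2 fun c h j => ?_) fun φ _ => ?_, by simp⟩
  · obtain ⟨v, k⟩ := exists_ne (0 : MM)
    have := LinearMap.congr_fun h (e.symm (Pi.single j v))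
    simp only [LinearMap.sum_apply] at this
    rw [Finset.sum_eq_single j (by simp +contextual) (by simp)] at this
    simpa [k] using this
  · choose c h using fun j => comm (φ ∘ₗ e.symm.toLinearMap ∘ₗ LinearMap.single E (fun _ => M) j)
    refine (Submodule.mem_span_range_iff_exists_fun F).2 ⟨c, LinearMap.ext fun x => ?_⟩
    conv_rhs => rw [← e.symm_apply_apply x, ← Finset.univ_sum_single (e x), map_sum, map_sum]
    simp only [LinearMap.sum_apply]
    exact Finset.sum_congr rfl fun j _ => (h j _).symm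

instance [h : Std X] : Module.Finite F (Du X) :=
  let ⟨_, ⟨e⟩⟩ := h
  let ⟨b, _⟩ := basis e
  .of_basis b

theorem Rp.sub {y y' : Sq (Xi X)} {x x' : X} (h : Rp y x) (k : Rp y' x') : Rp (y - y') (x - x') :=
  fun φ => by rw [map_sub, h, k]; exact (mk.map_sub _ _).symm
theorem Rp.add {y y' : Sq (Xi X)} {x x' : X} (h : Rp y x) (k : Rp y' x') : Rp (y + y') (x + x') :=
  fun φ => by rw [map_add, h, k]; exact (mk.map_add _ _).symm
theorem Rp.up {y : Sq (Xi X)} {x : X} (h : Rp y x) {f : X → Y} (k : Lin f) :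
    Rp (fun n i => up k i ∘ₗ y n i) (f x) := fun φ => h (φ ∘ₗ k.lin)
theorem rp_nul {y : Sq (Xi X)} (h : y ∈ Nul _) : Rp y 0 := fun φ =>
  φ.map_zero.trans (mk_eq_zero.2 (comp_nul h fun _ => LinearMap.applyₗ φ)).symm

variable [hX : Std X] [Std Y]

theorem Rp.uniq {y : Sq (Xi X)} {x x' : X} (h : Rp y x) (k : Rp y x') : x = x' := by
  obtain ⟨n, ⟨e⟩⟩ := hX
  exact e.injective (funext fun j => (h (.proj j ∘ₗ e.toLinearMap)).trans (k _).symm)
theorem ex_rp (y : Sq (Xi X)) : ∃ x, Rp y x := by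
  obtain ⟨n, ⟨e⟩⟩ := hX
  obtain ⟨b, h⟩ := basis e
  exact ⟨e.symm fun j => ev y (b j), LinearMap.congr_fun (b.ext (f₁ := LinearMap.applyₗ' F _)
    fun j => by simp [h])⟩
theorem Rp.nul {y : Sq (Xi X)} (h : Rp y 0) : y ∈ Nul _ := by
  obtain ⟨n, ⟨e⟩⟩ := hX
  obtain ⟨b, -⟩ := basis e
  have := (Nul (Xi X)).sum_mem (t := Finset.univ) fun j _ => comp_nul
    (mk_eq_zero.1 ((h (b j)).symm.trans (b j).map_zero)) fun i => (b.coord j).smulRightₗ.flip.flip
  convert this using 1
  funext k i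
  refine LinearMap.ext fun v => b.ext fun j => ?_
  simp [Finsupp.single_apply, ite_smul]
theorem rp_ex (x : X) : ∃ y, Rp y x := by
  obtain ⟨n, ⟨e⟩⟩ := hX
  obtain ⟨b, -⟩ := basis e
  choose y h using fun j => mk_surj (b j x)
  refine ⟨fun k i => (b.constr F).toLinearMap ∘ₗ LinearMap.pi fun j => y j k i,
    LinearMap.congr_fun (b.ext (f₁ := LinearMap.applyₗ' F x) fun j => (h j).symm.trans ?_)⟩
  exact congrArg mk (funext₂ fun k i => LinearMap.ext fun v => 
    (b.constr_basis F (fun j => y j k i v) j).symm)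

/-- The realisation of a family of subspaces. -/
def hat {X : Type} [AddCommGroup X] [Module E X] (A : ∀ i, Submodule F (Xi X i)) :
    AddSubgroup X where
  carrier := {x | ∃ y, (∀ k i v, y k i v ∈ A i) ∧ Rp y x}
  add_mem' := fun ⟨_, a, b⟩ ⟨_, c, d⟩ => ⟨_, fun k i v => add_mem (a k i v) (c k i v), b.add d⟩
  zero_mem' := ⟨0, fun _ _ _ => zero_mem _, rp_nul (zero_mem _)⟩
  neg_mem' := fun ⟨y, a, b⟩ => ⟨0 - y, fun k i v => by simpa using a k i v, by
    simpa using (rp_nul (zero_mem _)).sub b⟩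

variable {A B : ∀ i, Submodule F (Xi X i)}

theorem Rp.mem {y : Sq (Xi X)} {x : X} (h : Rp y x) : x ∈ hat A ↔ ∀ᶠ k in atTop, Al (y k) A := by
  refine ⟨fun ⟨z, a, b⟩ => (by simpa using h.sub b : Rp (y - z) 0).nul.mono fun k l =>
    l.of_le fun i v m => ?_, fun l => ?_⟩
  · rw [show y k i v = z k i v from sub_eq_zero.1 m]; exact a k i v
  choose C c using fun k i => ((A i).comap (y k i)).exists_isCompl
  refine ⟨fun k i => y k i ∘ₗ Submodule.projection _ _ (c k i), fun k i v =>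
    Submodule.projection_apply_mem (c k i) v, ?_⟩
  have := h.sub (rp_nul (y := fun k i => y k i ∘ₗ Submodule.projection _ _ (c k i).symm)
    (l.mono fun k m => m.of_le fun i v o => by
      simp [(Submodule.projection_apply_eq_zero_iff (c k i).symm).2 o]))
  convert this using 1
  · funext k i
    refine LinearMap.ext fun v => ?_
    simp [← map_sub, Submodule.projection_eq_self_sub_projection (c k i)]
  · simp

theorem hat_mono (h : ∀ᶠ i in (UU : Filter Ix), A i ≤ B i) : hat A ≤ hat B := fun _ ⟨_, a, b⟩ =>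
  b.mem.2 (.of_forall fun k => nul_zero.mono
    (h.mono fun i l => (cod_anti fun v _ => l (a k i v)).trans cod_top.le))
theorem Al.hat (h : hat A ≤ hat B) {y : ∀ i, V i →ₗ[F] Xi X i} (k : Al y A) : Al y B :=
  let ⟨_, l⟩ := ex_rp fun _ => y
  eventually_const.1 (l.mem.1 (h (l.mem.2 (.of_forall fun _ => k))))
theorem hat_inf : hat (A ⊓ B) = hat A ⊓ hat B := AddSubgroup.ext fun x =>
  let ⟨_, h⟩ := rp_ex x
  ⟨fun k => ⟨hat_mono (.of_forall fun _ => inf_le_left) k,
    hat_mono (.of_forall fun _ => inf_le_right) k⟩, fun k => h.mem.2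
      (((h.mem.1 k.1).and (h.mem.1 k.2)).mono fun _ l => l.1.and l.2 fun _ _ a b => ⟨a, b⟩)⟩
theorem hat_top : hat (⊤ : ∀ i, Submodule F (Xi X i)) = ⊤ := top_unique fun x _ =>
  let ⟨y, h⟩ := rp_ex x
  ⟨y, fun _ _ _ => trivial, h⟩
theorem hat_bot : hat (⊥ : ∀ i, Submodule F (Xi X i)) = ⊥ := bot_unique fun _ ⟨_, a, b⟩ =>
  b.uniq (rp_nul (.of_forall fun k => .exact (a k)))
theorem hat_comap {f : X → Y} (h : Lin f) {B : ∀ i, Submodule F (Xi Y i)} {x : X} :
    (x ∈ hat fun i => (B i).comap (up h i)) ↔ f x ∈ hat B :=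
  let ⟨_, k⟩ := rp_ex x
  k.mem.trans (k.up h).mem.symm
theorem hat_map {f : X → Y} (h : Lin f) {w : Y} :
    (w ∈ hat fun i => (A i).map (up h i)) ↔ ∃ x ∈ hat A, f x = w := by
  refine ⟨fun ⟨y, a, b⟩ => ?_, by
    rintro ⟨x, ⟨y, a, b⟩, rfl⟩; exact ⟨_, fun k i v => ⟨_, a k i v, rfl⟩, b.up h⟩⟩
  choose z c using fun k i => Module.projective_lifting_property ((up h i).submoduleMap (A i))
    ((y k i).codRestrict _ (a k i)) ((up h i).submoduleMap_surjective _)
  obtain ⟨x, d⟩ := ex_rp fun k i => (A i).subtype ∘ₗ z k i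
  refine ⟨x, ⟨_, fun k i v => (z k i v).2, d⟩, (d.up h).uniq ?_⟩
  convert b using 3 with k i
  exact LinearMap.ext fun v => congrArg Subtype.val (LinearMap.congr_fun (c k i) v)
theorem hat_sup : hat (A ⊔ B) = hat A ⊔ hat B := by
  refine le_antisymm (fun w ⟨y, a, b⟩ => ?_) (sup_le (hat_mono (.of_forall fun _ => le_sup_left))
    (hat_mono (.of_forall fun _ => le_sup_right)))
  have s : ∀ i, Function.Surjective (((A i).subtype.coprod (B i).subtype).codRestrict (A i ⊔ B i)
      fun z => Submodule.add_mem_sup z.1.2 z.2.2) := fun i ⟨_, l⟩ => by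
    obtain ⟨u, m, v, o, rfl⟩ := Submodule.mem_sup.1 l
    exact ⟨(⟨u, m⟩, ⟨v, o⟩), rfl⟩
  choose z c using fun k i => Module.projective_lifting_property _
    ((y k i).codRestrict _ (a k i)) (s i)
  obtain ⟨x, d⟩ := ex_rp fun k i => (A i).subtype ∘ₗ .fst _ _ _ ∘ₗ z k i
  obtain ⟨x', d'⟩ := ex_rp fun k i => (B i).subtype ∘ₗ .snd _ _ _ ∘ₗ z k i
  refine AddSubgroup.mem_sup.2 ⟨x, ⟨_, fun k i v => (z k i v).1.2, d⟩, x',
    ⟨_, fun k i v => (z k i v).2.2, d'⟩, (d.add d').uniq ?_⟩
  convert b using 1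
  funext k i
  exact LinearMap.ext fun v => congrArg Subtype.val (LinearMap.congr_fun (c k i) v)
theorem hat_iSup {ι : Type} [Finite ι] {A : ι → ∀ i, Submodule F (Xi X i)} :
    hat (⨆ c, A c) = ⨆ c, hat (A c) := by
  classical
  have := Fintype.ofFinite ι
  have : ∀ s : Finset ι, hat (s.sup A) = s.sup fun c => hat (A c) := fun s =>
    Finset.apply_sup_eq_sup_comp hat (fun _ _ => hat_sup) hat_bot
  simpa [Finset.sup_univ_eq_iSup] using this Finset.univ

end Z47.Mdl
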