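import Pool.Agent.Lib.MP_1e63be_al.Z47.M47a

/-!
The model, part two: ranks and saturation.
-/

namespace Z47.Mdl

open Set Filter Topology Module

attribute [local instance] amb0

variable {X Y : Type} [AddCommGroup X] [Module E X] [AddCommGroup Y] [Module E Y]
  [hX : Std X] [Std Y] {A B : ∀ i, Submodule F (Xi X i)}

theorem fr_Xi (i : Ix) : finrank F (Xi X i) = finrank F (Du X) * nn i := by
  simp [Module.finrank_linearMap]

theorem cod_comap {i : Ix} {W : Type} [AddCommGroup W] [Module F W] [Module.Finite F W]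
    (y : V i →ₗ[F] W) (B : Submodule F W) :
    cod (B.comap y) + finrank F B = finrank F ↥(LinearMap.range y ⊔ B) := by
  have a := LinearMap.finrank_range_add_finrank_ker (B.mkQ ∘ₗ y)
  have b := LinearMap.finrank_range_add_finrank_ker (B.mkQ.domRestrict (LinearMap.range y ⊔ B))
  rw [LinearMap.range_domRestrict, LinearMap.ker_domRestrict, Submodule.map_sup, B.mkQ_map_self,
    sup_bot_eq, B.ker_mkQ, (Submodule.comapSubtypeEquivOfLe le_sup_right).finrank_eq] at b
  rw [LinearMap.range_comp, LinearMap.ker_comp, B.ker_mkQ] at a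
  simp only [finrank_fintype_fun_eq_card, Fintype.card_fin] at a
  unfold cod; omega

theorem hat_le_of {e : Ix → ℕ} (he : nul e)
    (h : ∀ᶠ i in (UU : Filter Ix), finrank F ↥(A i ⊔ B i) ≤ finrank F (B i) + e i) :
    hat A ≤ hat B := fun _ ⟨y, a, b⟩ => b.mem.2 (.of_forall fun k => he.mono (h.mono fun i l => by
  have := cod_comap (y k i) (B i)
  have := Submodule.finrank_mono (sup_le_sup_right (show LinearMap.range (y k i) ≤ A i by
    rintro _ ⟨v, rfl⟩; exact a k i v) (B i))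
  omega))

theorem nul_of_le (h : hat A ≤ hat B) : nul fun i => finrank F ↥(A i ⊔ B i) - finrank F (B i) := by
  have : ∀ i, ∃ g : (Fin (finrank F (Du X)) → V i) →ₗ[F] Xi X i, LinearMap.range g = A i := fun i =>
    let ⟨e⟩ : Nonempty ((Fin (finrank F (Du X)) → V i) ≃ₗ[F] Xi X i) :=
      FiniteDimensional.nonempty_linearEquiv_of_finrank_eq (by
        rw [fr_Xi]; simp [Module.finrank_pi_fintype])
    let ⟨_, c⟩ := (A i).exists_isCompl
    ⟨Submodule.projection _ _ c ∘ₗ e.toLinearMap, by simp [LinearMap.range_comp]⟩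
  choose g hg using this
  refine (nul_sum Finset.univ fun c => Al.hat h (y := fun i => g i ∘ₗ .single F (fun _ => V i) c)
    (.exact fun i v => hg i ▸ ⟨_, rfl⟩)).mono (.of_forall fun i => ?_)
  classical
  have : ∀ s : Finset (Fin (finrank F (Du X))), finrank F ↥((s.sup fun c => LinearMap.range
      (g i ∘ₗ .single F (fun _ => V i) c)) ⊔ B i) ≤ finrank F (B i) +
      ∑ c ∈ s, cod ((B i).comap (g i ∘ₗ .single F (fun _ => V i) c)) := fun s => by
    induction s using Finset.induction_on with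
    | empty => rw [Finset.sup_empty, bot_sup_eq]; simp
    | insert a s l k =>
      rw [Finset.sup_insert, Finset.sum_insert l, sup_sup_distrib_right]
      have a1 := cod_comap (g i ∘ₗ .single F (fun _ => V i) a) (B i)
      have a2 := Submodule.finrank_sup_add_finrank_inf_eq (LinearMap.range
        (g i ∘ₗ .single F (fun _ => V i) a) ⊔ B i) ((s.sup fun c => LinearMap.range
        (g i ∘ₗ .single F (fun _ => V i) c)) ⊔ B i)
      have a3 := Submodule.finrank_mono (le_inf (le_sup_right (a := LinearMap.range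
        (g i ∘ₗ .single F (fun _ => V i) a)) (b := B i)) (le_sup_right (a := s.sup fun c =>
          LinearMap.range (g i ∘ₗ .single F (fun _ => V i) c))))
      omega
  refine Nat.sub_le_iff_le_add'.2 ((Submodule.finrank_mono (sup_le_sup_right ?_ _)).trans
    (this Finset.univ))
  rw [← hg]
  rintro _ ⟨w, rfl⟩
  rw [← Finset.univ_sum_single w, map_sum]
  exact Submodule.sum_mem _ fun c k => Finset.le_sup (f := fun c => LinearMap.range
    (g i ∘ₗ .single F (fun _ => V i) c)) k ⟨w c, rfl⟩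

/-- The normalised dimension. -/
noncomputable def nd {X : Type} [AddCommGroup X] [Module E X] (A : ∀ i, Submodule F (Xi X i))
    (i : Ix) : ℝ := finrank F (A i) / nn i

theorem ex_lim (A : ∀ i, Submodule F (Xi X i)) : ∃ r, Tendsto (nd A) UU (𝓝 r) :=
  let ⟨r, _, h⟩ := (isCompact_Icc (a := 0) (b := (finrank F (Du X) : ℝ))).ultrafilter_le_nhds'
    (UU.map (nd A)) (mem_map.2 (univ_mem' fun i => ⟨by unfold nd; positivity, by
      rw [nd, div_le_iff₀ (by exact_mod_cast nn_pos i)]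
      exact_mod_cast fr_Xi (X := X) i ▸ (A i).finrank_le⟩))
  ⟨r, h⟩

theorem lim_le {r s : ℝ} (h : hat A ≤ hat B) (a : Tendsto (nd A) UU (𝓝 r))
    (b : Tendsto (nd B) UU (𝓝 s)) : r ≤ s := by
  refine le_of_tendsto_of_tendsto' a (add_zero s ▸ b.add (nul_of_le h)) fun i => ?_
  rw [nd, nd, ← add_div]
  gcongr
  have := Submodule.finrank_mono (le_sup_left (a := A i) (b := B i))
  norm_cast; beta_reduce; omega

open Classical in
/-- The rank. -/
noncomputable def rk {X : Type} [AddCommGroup X] [Module E X] (S : AddSubgroup X) : ℝ :=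
  if h : ∃ A, hat A = S then limUnder UU (nd h.choose) else 0

theorem tendsto_rk (A : ∀ i, Submodule F (Xi X i)) : Tendsto (nd A) UU (𝓝 (rk (hat A))) := by
  have h : ∃ B, hat B = hat A := ⟨A, rfl⟩
  obtain ⟨r, a⟩ := ex_lim A
  have b := tendsto_nhds_limUnder (ex_lim h.choose)
  rwa [rk, dif_pos h, le_antisymm (lim_le h.choose_spec.le b a) (lim_le h.choose_spec.ge a b)]

theorem rk_add {Z W : Type} [AddCommGroup Z] [Module E Z] [Std Z] [AddCommGroup W] [Module E W]
    [Std W] {B : ∀ i, Submodule F (Xi Y i)} {C : ∀ i, Submodule F (Xi Z i)}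
    {D : ∀ i, Submodule F (Xi W i)}
    (h : ∀ i, finrank F (A i) + finrank F (B i) = finrank F (C i) + finrank F (D i)) :
    rk (hat A) + rk (hat B) = rk (hat C) + rk (hat D) :=
  tendsto_nhds_unique ((tendsto_rk A).add (tendsto_rk B)) (((tendsto_rk C).add (tendsto_rk D)).congr
    fun i => by simp only [nd, ← add_div]; norm_cast; rw [h])

theorem rk_bot : rk (⊥ : AddSubgroup X) = 0 :=
  hat_bot (X := X) ▸ tendsto_nhds_unique (tendsto_rk _)
    (tendsto_const_nhds.congr fun i => by simp [nd])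

theorem rk_top : rk (⊤ : AddSubgroup M) = 1 := by
  obtain ⟨b, -⟩ := basis (LinearEquiv.funUnique (Fin 1) E M).symm
  exact hat_top (X := M) ▸ tendsto_nhds_unique (tendsto_rk _) (tendsto_const_nhds.congr fun i => by
    simp [nd, fr_Xi, finrank_eq_card_basis b, (nn_pos i).ne'])

theorem rk_faith (h : hat A ≤ hat B) (k : rk (hat B) ≤ rk (hat A)) : hat B ≤ hat A := by
  have a := rk_add (A := A ⊔ B) (B := A ⊓ B) (C := A) (D := B) fun i =>
    Submodule.finrank_sup_add_finrank_inf_eq _ _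
  refine hat_le_of (e := fun i => finrank F ↥(A i ⊔ B i) - finrank F (A i)) ?_
    (.of_forall fun i => by rw [sup_comm]; omega)
  have b := (tendsto_rk (A ⊔ B)).sub (tendsto_rk A)
  rw [hat_sup, sup_eq_right.2 h, le_antisymm k (lim_le h (tendsto_rk A) (tendsto_rk B)),
    sub_self] at b
  exact b.congr fun i => by
    rw [nd, nd, ← sub_div, Nat.cast_sub (Submodule.finrank_mono le_sup_left)]; rfl

/-- The ambient class. -/
def PM : PP where
  df S := ∃ A, hat A = S
  top := ⟨_, hat_top⟩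
  bot := ⟨_, hat_bot⟩
  inf := by rintro X _ _ _ _ _ ⟨A, rfl⟩ ⟨B, rfl⟩; exact ⟨_, hat_inf⟩
  map := by
    rintro X Y _ _ _ _ _ _ f _ B h ⟨A, rfl⟩ e
    exact ⟨_, AddSubgroup.ext fun y => (hat_map h).trans (e y).symm⟩
  comap := by
    rintro X Y _ _ _ _ _ _ f A _ h ⟨B, rfl⟩ e
    exact ⟨_, AddSubgroup.ext fun y => (hat_comap h).trans (e y).symm⟩

theorem diag {α : ℕ → Type} [∀ k, Nonempty (α k)] {p : ℕ → ∀ k, α k → Prop}
    (h : ∀ m n k z, m ≤ n → p n k z → p m k z) (l : ∀ n, ∀ᶠ k in atTop, ∃ z, p n k z) :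
    ∃ z : ∀ k, α k, ∀ n, ∀ᶠ k in atTop, p n k (z k) := by
  classical
  have : ∀ k, ∃ z, ∀ n ≤ k, (∃ z, p n k z) → p n k z := fun k => by
    by_cases e : ∃ n ≤ k, ∃ z, p n k z
    · obtain ⟨n, a, b⟩ := e
      obtain ⟨z, c⟩ := Nat.findGreatest_spec (P := fun n => ∃ z, p n k z) a b
      exact ⟨z, fun m a b => h _ _ _ _ (Nat.le_findGreatest a b) c⟩
    · exact ⟨Classical.arbitrary _, fun n a b => (e ⟨n, a, b⟩).elim⟩
  choose z e using this
  exact ⟨z, fun n => ((l n).and (eventually_ge_atTop n)).mono fun k a => e k n a.2 a.1⟩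

theorem sat1 {f : X → Y} {K : ℕ → AddSubgroup X} {w : Y} (hf : Lin f) (h : ∀ n, PM.df (K n))
    (a : Antitone K) (l : ∀ n, ∃ x ∈ K n, f x = w) : ∃ x, (∀ n, x ∈ K n) ∧ f x = w := by
  choose A e using h
  obtain ⟨y, b⟩ := rp_ex w
  obtain ⟨z, c⟩ := diag (p := fun n k z => Al z (A n) ∧ Al ((fun i => up hf i ∘ₗ z i) - y k) ⊥)
    (fun m n k z o s => ⟨s.1.hat (by rw [e, e]; exact a o), s.2⟩) fun n => by
      obtain ⟨x, o, rfl⟩ := l n
      obtain ⟨z, s⟩ := rp_ex x
      exact ((s.mem.1 ((e n).ge o)).and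
        (by simpa using (s.up hf).sub b : Rp (_ - y) 0).nul).mono fun k t => ⟨z k, t⟩
  obtain ⟨x, s⟩ := ex_rp z
  exact ⟨x, fun n => (e n).le (s.mem.2 ((c n).mono fun _ t => t.1)), sub_eq_zero.1
    (((s.up hf).sub b).uniq (rp_nul ((c 0).mono fun _ t => t.2)))⟩

theorem sat2 {K : ℕ → AddSubgroup X} {S : AddSubgroup X} (h : ∀ n, PM.df (K n)) (a : Antitone K)
    (hS : PM.df S) (l : ∀ x, (∀ n, x ∈ K n) → x ∈ S) : ∃ n, K n ≤ S := by
  choose A e using h
  obtain ⟨B, rfl⟩ := hS
  by_contra! k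
  have : ∀ n, ∃ z, Al z (A n) ∧ ¬ Al z B := fun n => by
    obtain ⟨x, o, s⟩ := SetLike.not_le_iff_exists.1 (k n)
    obtain ⟨y, t⟩ := rp_ex x
    obtain ⟨k, u⟩ := ((not_eventually.1 (mt t.mem.2 s)).and_eventually
      (t.mem.1 ((e n).ge o))).exists
    exact ⟨y k, u.2, u.1⟩
  choose z b c using this
  obtain ⟨x, s⟩ := ex_rp z
  obtain ⟨n, t⟩ := (s.mem.1 (l x fun n => (e n).le (s.mem.2 ((eventually_ge_atTop n).mono
    fun k o => (b k).hat (by rw [e, e]; exact a o))))).exists
  exact c n t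

end Z47.Mdl
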