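import Pool.Agent.Lib.MP_1e63be_al.Z47.M47b
import Pool.Agent.Lib.MP_1e63be_al.Z47.Blue
import Pool.Agent.Lib.MP_1e63be_al.FL90

/-!
The model, part three: generic subspaces.
-/

namespace Z47.Mdl

open Set Filter Topology Module Pool.Agent.Lib.MP_1e63be_al

attribute [local instance] amb0

variable {X : Type} [AddCommGroup X] [Module E X] {k : ℕ}

theorem ev_ge (i : Ix) : ∀ᶠ j in (UU : Filter Ix), i ≤ j :=
  Ultrafilter.of_le atTop (eventually_ge_atTop i)
theorem ev_card (n : ℕ) : ∀ᶠ j in (UU : Filter Ix), n ≤ j.card :=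
  let ⟨i, h⟩ := Infinite.exists_subset_card_eq ℝ n
  (ev_ge i).mono fun _ l => h ▸ Finset.card_le_card l
theorem tendsto_card : Tendsto (fun j : Ix => j.card) UU atTop := tendsto_atTop.2 ev_card
theorem nul_div {N e : Ix → ℕ} (h : Tendsto N UU atTop) (k : ∀ i, e i * (N i + 1) ≤ nn i) :
    nul e :=
  squeeze_zero (fun _ => by positivity) (fun i => by
    rw [Function.comp, div_le_div_iff₀ (by exact_mod_cast nn_pos i) (by positivity), one_mul]
    exact_mod_cast k i) (tendsto_one_div_add_atTop_nhds_zero_nat.comp h)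
theorem nul_KK : nul fun i => KK i.card := nul_div tendsto_card fun _ => (mul_comm _ _).le
theorem tendsto_nn : Tendsto (fun i => (nn i : ℝ)) UU atTop :=
  tendsto_natCast_atTop_atTop.comp (tendsto_atTop_mono (fun i => (Nat.le_succ _).trans
    (Nat.le_mul_of_pos_right _ (by unfold KK; positivity))) tendsto_card)

theorem lt (c : Fin k → F) : Lin (tens c : X → Fin k → X) := Lin.tens c Lin.id

/-- The finite power is the finite version of the power. -/
noncomputable def jj (i : Ix) : (Fin k → Xi X i) →ₗ[F] Xi (Fin k → X) i :=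
  ∑ m, up (lt (Pi.single m 1)) i ∘ₗ LinearMap.proj m

theorem jj_tens (i : Ix) (c : Fin k → F) : jj i ∘ₗ FL90.tens c = up (lt (X := X) c) i := by
  refine LinearMap.ext fun w => LinearMap.ext fun φ => ?_
  simp only [jj, LinearMap.comp_apply, LinearMap.sum_apply, LinearMap.proj_apply, up_apply,
    FL90.tens_apply, LinearMap.smul_apply, ← map_smul, ← map_sum]
  refine congrArg w (LinearMap.ext fun x => ?_)
  conv_rhs => rw [LinearMap.comp_apply, Lin.lin_apply, ← sum_single (tens c x), map_sum]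
  simp only [LinearMap.sum_apply, LinearMap.smul_apply, LinearMap.comp_apply, Lin.lin_apply]
  refine Finset.sum_congr rfl fun m _ => ?_
  obtain e | e := F01 (c m) <;> simp [e]

theorem jj_bij (i : Ix) : Function.Bijective (jj (X := X) (k := k) i) := by
  refine Function.bijective_iff_has_inverse.2 ⟨fun w m => up (Lin.apply m) i w,
    fun x => funext fun m => LinearMap.ext fun φ => ?_, fun w => LinearMap.ext fun φ => ?_⟩
  · simp only [jj, LinearMap.comp_apply, LinearMap.sum_apply, LinearMap.proj_apply, up_apply]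
    rw [Finset.sum_eq_single m (fun j _ l => ?_) (by simp)]
    · exact congrArg _ (LinearMap.ext fun x => by simp)
    · exact (congrArg _ (LinearMap.ext fun x => by simp [l.symm])).trans (map_zero _)
  · simp only [jj, LinearMap.comp_apply, LinearMap.sum_apply, LinearMap.proj_apply, up_apply,
      ← map_sum]
    refine congrArg w (LinearMap.ext fun x => ?_)
    conv_rhs => rw [← sum_single x, map_sum]
    simp

theorem pw_eq {W : Type} [AddCommGroup W] [Module F W] (G : Submodule F W) :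
    FL90.pw (Fin k) G = ⨆ c, G.map (FL90.tens c) := by
  refine le_antisymm (fun x h => ?_) (iSup_le fun c => by
    rintro _ ⟨w, h, rfl⟩ m -; exact G.smul_mem _ h)
  rw [← Finset.univ_sum_single x]
  exact Submodule.sum_mem _ fun m _ => Submodule.mem_iSup_of_mem (Pi.single m 1)
    ⟨x m, h m trivial, funext fun j => by by_cases e : j = m <;> simp [e]⟩

variable [Std X]

theorem hat_tn (c : Fin k → F) (A : ∀ i, Submodule F (Xi X i)) :
    (hat fun i => (A i).map (up (lt c) i)) = tn c (hat A) := AddSubgroup.ext fun _ => hat_map _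

theorem hat_jj (A : (Fin k → F) → ∀ i, Submodule F (Xi X i)) :
    (hat fun i => (⨆ c, (A c i).map (FL90.tens c)).map (jj i)) = ⨆ c, tn c (hat (A c)) := by
  simp only [← hat_tn, ← hat_iSup, Submodule.map_iSup, ← Submodule.map_comp, jj_tens]
  exact congrArg hat (funext fun i => by simp)

theorem hat_pw (G : ∀ i, Submodule F (Xi X i)) :
    (hat fun i => (FL90.pw (Fin k) (G i)).map (jj i)) = pw (hat G) := by
  simp only [pw_eq, hat_jj]
  exact le_antisymm (iSup_le fun c => by rintro _ ⟨w, h, rfl⟩; exact tens_mem_pw _ h)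
    (pw_le fun m x h => AddSubgroup.mem_iSup_of_mem (Pi.single m 1) ⟨x, h, rfl⟩)

theorem hat_lvl {H : ℕ → ∀ i, Submodule F (Xi X i)} (a : ∀ i, Antitone fun j => H j i)
    (h : Tendsto (fun j => rk (hat (H j))) atTop (𝓝 0)) (l : Ix → ℕ∞) :
    ∃ s, (hat fun i => FL90.lvl (fun j => H j i) (l i)) = Hx (fun j => hat (H j)) s := by
  by_cases e : ∃ n : ℕ, ∀ᶠ i in (UU : Filter Ix), l i = n
  · obtain ⟨n, e⟩ := e
    exact ⟨n, le_antisymm (hat_mono (e.mono fun i m => by simp [m]))
      (hat_mono (e.mono fun i m => by simp [m]))⟩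
  refine ⟨⊤, le_bot_iff.1 (hat_bot (X := X) ▸ rk_faith (hat_mono (.of_forall fun _ => bot_le)) ?_)⟩
  rw [hat_bot, rk_bot]
  refine ge_of_tendsto' h fun N => lim_le (hat_mono ?_) (tendsto_rk _) (tendsto_rk _)
  have : ∀ᶠ i in (UU : Filter Ix), ∀ n ∈ Finset.range N, l i ≠ n :=
    (eventually_all_finset _).2 fun n _ => Ultrafilter.eventually_not.2 fun m => e ⟨n, m⟩
  refine this.mono fun i m => FL90.lvl_anti (a i) (?_ : (N : ℕ∞) ≤ l i)
  cases o : l i using ENat.recTopCoe
  · exact le_top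
  · exact_mod_cast not_lt.1 fun s => m _ (Finset.mem_range.2 s) o

omit [Std X] in
theorem fr_jj (i : Ix) (A : Submodule F (Fin k → Xi X i)) :
    finrank F (A.map (jj i)) = finrank F A :=
  (Submodule.equivMapOfInjective _ (jj_bij i).1 A).finrank_eq.symm

theorem gen (H : ℕ → AddSubgroup X) (r : ℕ → ℝ) (𝒴 : Set (Σ k : ℕ, AddSubgroup (Fin k → X)))
    (h1 : ∀ j, PM.df (H j)) (h2 : Antitone H) (h3 : Tendsto (fun j => rk (H j)) atTop (𝓝 0))
    (h4 : Antitone r) (h5 : ∀ j, 0 ≤ r j) (h6 : ∀ j, r j ≤ rk (H j))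
    (h7 : Antitone fun j => rk (H j) - r j) (h8 : Cardinal.mk 𝒴 ≤ Cardinal.continuum)
    (h9 : ∀ Y ∈ 𝒴, PM.df Y.2) :
    ∃ G, PM.df G ∧ G ≤ H 0 ∧ (∀ j, rk (G ⊓ H j) = r j) ∧ ∀ Y ∈ 𝒴, GenAt H G Y.2 := by
  classical
  choose H₀ e₀ using h1
  obtain ⟨A, an, e⟩ : ∃ A : ℕ → ∀ i, Submodule F (Xi X i), (∀ i, Antitone fun j => A j i) ∧
      ∀ j, hat (A j) = H j := by
    refine ⟨fun j => Nat.rec (H₀ 0) (fun n B => B ⊓ H₀ (n + 1)) j,
      fun i => antitone_nat_of_succ_le fun _ => inf_le_left, fun j => ?_⟩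
    induction j with
    | zero => exact e₀ 0
    | succ n k => exact hat_inf.trans (by rw [k, e₀, inf_eq_right.2 (h2 n.le_succ)])
  obtain rfl : H = fun j => hat (A j) := (funext e).symm
  let S : Ix → ℕ → ℕ := fun i j => min ⌊r j * nn i⌋₊ (finrank F (A j i))
  have hS : ∀ j, Tendsto (fun i => (S i j : ℝ) / nn i) UU (𝓝 (r j)) := fun j => by
    have := ((tendsto_nat_floor_mul_div_atTop (h5 j)).comp tendsto_nn).min (tendsto_rk (A j))
    rw [min_eq_left (h6 j)] at this
    exact this.congr fun i => by simp [S, nd, min_div_div_right]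
  let Ev : Ix → ℕ → Prop := fun i N => ∀ k j, k ≤ j → j ≤ N →
    S i k + finrank F (A j i) ≤ S i j + finrank F (A k i) + nn i / (N + 1)
  have hEv : ∀ N, ∀ᶠ i in (UU : Filter Ix), Ev i N := fun N => by
    have : ∀ᶠ i in (UU : Filter Ix), ∀ j ∈ Finset.range (N + 1), ∀ k ∈ Finset.range (j + 1),
        S i k + finrank F (A j i) ≤ S i j + finrank F (A k i) + nn i / (N + 1) := by
      refine (eventually_all_finset _).2 fun j _ => (eventually_all_finset _).2 fun k l => ?_
      have a := h7 (Finset.mem_range_succ_iff.1 l)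
      have b : (0 : ℝ) < 1 / (N + 1) := by positivity
      refine (((hS k).add (tendsto_rk (A j))).eventually_lt (((hS j).add (tendsto_rk (A k))).add
        (tendsto_const_nhds (x := 1 / ((N : ℝ) + 1)))) (by dsimp only at a; linarith)).mono
        fun i m => ?_
      have c : (0 : ℝ) < nn i := by exact_mod_cast nn_pos i
      simp only [nd] at m
      rw [← add_div, ← add_div, div_lt_iff₀ c, add_mul, div_mul_cancel₀ _ c.ne', one_div,
        ← div_eq_inv_mul] at m
      rw [← Nat.sub_le_iff_le_add', Nat.le_div_iff_mul_le N.succ_pos]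
      obtain o | o := le_total (S i k + finrank F (A j i)) (S i j + finrank F (A k i))
      · simp [Nat.sub_eq_zero_of_le o]
      · rw [← sub_lt_iff_lt_add', lt_div_iff₀ (by positivity)] at m
        exact_mod_cast (show (((S i k + finrank F (A j i) - (S i j + finrank F (A k i)) : ℕ) : ℝ)) *
          (N + 1) ≤ nn i by rw [Nat.cast_sub o]; push_cast; exact m.le)
    exact this.mono fun i m k j a b =>
      m j (Finset.mem_range_succ_iff.2 b) k (Finset.mem_range_succ_iff.2 a)
  let N : Ix → ℕ := fun i => Nat.findGreatest (Ev i) i.card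
  have hN : Tendsto N UU atTop := tendsto_atTop.2 fun n =>
    ((hEv n).and (ev_card n)).mono fun i m => Nat.le_findGreatest m.2 m.1
  obtain ⟨ι⟩ : Nonempty (𝒴 ↪ ℝ) := by rwa [← Cardinal.le_def, Cardinal.mk_real]
  choose Y₀ eY using fun Y : 𝒴 => h9 Y.1 Y.2
  have fT : ∀ i : Ix, {Y : 𝒴 | ι Y ∈ i ∧ Y.1.1 ≤ i.card}.Finite := fun i =>
    (i.finite_toSet.preimage ι.injective.injOn).subset fun _ m => m.1
  have := fun i : Ix => Module.finite_of_finite F (M := Xi X i)
  choose G g1 g2 l g3 using fun i : Ix => FL90.FL (an i) (S i) (fun a b m => min_le_min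
    (Nat.floor_mono (mul_le_mul_of_nonneg_right (h4 m) (by positivity)))
    (Submodule.finrank_mono (an i m))) (N i) (nn i / (N i + 1)) (fun j _ => min_le_right _ _)
    (Nat.findGreatest_spec (P := Ev i) (Nat.zero_le _) fun k j a b => by
      obtain rfl : j = 0 := by omega
      obtain rfl : k = 0 := by omega
      omega) (T := (fT i).toFinset) (fun t => t.1.1.1) (fun t => (Y₀ t.1 i).comap (jj i))
    (i.card + 1) (KK i.card) (fun t => ((fT i).mem_toFinset.1 t.2).2.trans (Nat.le_succ _))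
    (Nat.le_add_left _ _) (le_trans (by
      have a : N i ≤ i.card := Nat.findGreatest_le _
      have b : Fintype.card (fT i).toFinset ≤ i.card := by
        rw [Fintype.card_coe]
        exact Finset.card_le_card_of_injOn ι (fun t m => ((fT i).mem_toFinset.1 m).1)
          ι.injective.injOn
      unfold KK
      gcongr
      omega) Nat.lt_two_pow_self.le)
  have n1 : nul fun i => nn i / (N i + 1) := nul_div hN fun i => Nat.div_mul_le_self _ _
  refine ⟨hat G, ⟨G, rfl⟩, hat_mono (.of_forall g1), fun j => ?_, fun Y hY => ?_⟩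
  · rw [← hat_inf]
    refine tendsto_nhds_unique (tendsto_rk _) (tendsto_of_tendsto_of_tendsto_of_le_of_le'
      (sub_zero (r j) ▸ (hS j).sub nul_KK) (add_zero (r j) ▸ (hS j).add (n1.add nul_KK))
      ((tendsto_atTop.1 hN j).mono fun i m => ?_) ((tendsto_atTop.1 hN j).mono fun i m => ?_))
    · rw [sub_le_iff_le_add, nd, ← add_div]
      gcongr
      exact_mod_cast (g2 i j m).1
    · rw [nd, ← add_div]
      gcongr
      exact_mod_cast (g2 i j m).2.trans_eq (add_assoc _ _ _)
  let l' : Ix → (Fin Y.1 → F) → ℕ∞ := fun i =>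
    if m : (⟨Y, hY⟩ : 𝒴) ∈ (fT i).toFinset then l i ⟨_, m⟩ else ⊤
  choose s hs using fun c => hat_lvl an h3 fun i => l' i c
  have t1 : (hat fun i => (FL90.HT (fun j => A j i) (l' i)).map (jj i)) =
      Ty (fun j => hat (A j)) s := by simp only [FL90.HT, hat_jj, hs, Ty]
  have t2 : ∀ᶠ i in (UU : Filter Ix), (⟨Y, hY⟩ : 𝒴) ∈ (fT i).toFinset :=
    ((ev_ge {ι ⟨Y, hY⟩}).and (ev_card Y.1)).mono fun i m =>
      (fT i).mem_toFinset.2 ⟨Finset.singleton_subset_iff.1 m.1, m.2⟩
  have t3 : ∀ i, Y₀ ⟨Y, hY⟩ i = ((Y₀ ⟨Y, hY⟩ i).comap (jj i)).map (jj i) := fun i =>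
    (Submodule.map_comap_eq_of_surjective (jj_bij i).2 _).symm
  refine ⟨s, ?_, ?_⟩
  · rw [← t1, ← hat_pw, ← show _ = Y.2 from eY ⟨Y, hY⟩, ← hat_inf]
    refine hat_le_of nul_KK (t2.mono fun i m => ?_)
    rw [Pi.inf_apply, t3, ← Submodule.map_inf _ (jj_bij i).1, ← Submodule.map_sup, fr_jj, fr_jj]
    rw [show l' i = l i ⟨_, m⟩ from dif_pos m]
    exact (g3 i ⟨_, m⟩).1
  · rw [Full, ← t1, ← hat_pw, ← show _ = Y.2 from eY ⟨Y, hY⟩, ← hat_inf]
    refine le_trans ?_ (sup_le_sup_left (inf_le_left (b := hat fun i =>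
      (FL90.HT (fun j => A j i) (l' i)).map (jj i))) _)
    rw [← hat_inf, ← hat_sup]
    refine hat_le_of nul_KK (t2.mono fun i m => ?_)
    rw [Pi.sup_apply, Pi.inf_apply, Pi.inf_apply, t3, ← Submodule.map_inf _ (jj_bij i).1,
      ← Submodule.map_inf _ (jj_bij i).1, ← Submodule.map_sup, ← Submodule.map_sup, fr_jj, fr_jj,
      sup_eq_left.2 (sup_le inf_le_right inf_le_right)]
    rw [show l' i = l i ⟨_, m⟩ from dif_pos m]
    exact (g3 i ⟨_, m⟩).2

theorem amb : St_AMB := ⟨{
  toAmb0 := amb0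
  P := PM
  ρ := rk
  ρ_top := rk_top
  ρ_bot := rk_bot
  ρ_mono := by
    rintro X _ _ _ _ _ ⟨A, rfl⟩ ⟨B, rfl⟩ h; exact lim_le h (tendsto_rk A) (tendsto_rk B)
  ρ_faith := by rintro X _ _ _ _ _ ⟨A, rfl⟩ ⟨B, rfl⟩ h k; exact rk_faith h k
  ρ_mod := by
    rintro X _ _ _ _ _ ⟨A, rfl⟩ ⟨B, rfl⟩
    rw [← hat_sup, ← hat_inf]
    exact rk_add fun i => Submodule.finrank_sup_add_finrank_inf_eq _ _
  ρ_map := by
    rintro X Y _ _ _ _ _ _ f _ K B h ⟨A, rfl⟩ e e'
    obtain rfl : B = hat fun i => (A i).map (up h i) :=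
      AddSubgroup.ext fun y => (e y).trans (hat_map h).symm
    obtain rfl : K = hat (A ⊓ fun i => (⊥ : Submodule F (Xi Y i)).comap (up h i)) :=
      AddSubgroup.ext fun x => (e' x).trans (by
        rw [hat_inf]
        exact and_congr_right fun _ => ((hat_comap h (B := ⊥)).trans (by simp [hat_bot])).symm)
    have := rk_add (A := fun i => (A i).map (up h i)) (C := A) (D := (⊥ : ∀ i, Submodule F (Xi X i)))
      (B := A ⊓ fun i => (⊥ : Submodule F (Xi Y i)).comap (up h i))
      fun i => (FL90.rk_map (up h i) (A i)).trans (by simp)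
    rwa [hat_bot, rk_bot, add_zero] at this
  sat1 := sat1
  sat2 := sat2
  gen := gen }⟩

end Z47.Mdl
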