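import Pool.Agent.Lib.MP_1e63be_al.Z47.SysB
import Pool.Agent.Lib.MP_1e63be_al.Z47.L0G

/-!
Maps to the base point.
-/

namespace Z47

open Set Filter Topology

variable [Amb]

namespace MAP91

/-- A functional relation from `κ` to `σ` that is total and nonzero. -/
def Rel (L : Cl) (κ σ : AddSubgroup M) : Prop :=
  ∃ ζ : AddSubgroup (M × M), L.td.df ζ ∧ (∀ w ∈ κ, ∃ u ∈ σ, (w, u) ∈ ζ) ∧
    (∀ u, (0, u) ∈ ζ → u = 0) ∧ ∃ w ∈ κ, ∃ u, u ≠ 0 ∧ (w, u) ∈ ζ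

theorem of_glued {L L' : Cl} {σ κ : AddSubgroup M} (hL : L.Le L') (hσ : σ ≠ ⊥) (hκ : κ ≠ ⊥)
    (h : Glued L L' σ κ) : Rel L' κ σ := by
  classical
  obtain ⟨d, y, z, en, td, le, tot, -, sp, ind⟩ := h
  obtain ⟨k0⟩ : Nonempty (Fin d) := by
    by_contra e
    have := not_nonempty_iff.1 e
    exact hκ ((AddSubgroup.eq_bot_iff_forall _).2 fun v l =>
      let ⟨_, _, o⟩ := sp v l
      by simpa using o.symm)
  have hy : ∀ k, L'.td.Dy (y k) := fun k => Cl.tdDy (hL.Dy (en k).1)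
  obtain ⟨ζ, a, b⟩ : L'.td.D fun x : M × M => ∃ h : Fin d → M × M, (∀ k, h k ∈ z) ∧
      ∑ k, y k • (h k).2 = x.1 ∧ (h k0).1 = x.2 :=
    .ex (.and (.all fun k => .mem td (by fun_prop)) (.and
      (.eq (PP.Fn.sum _ fun k => PP.Fn.smul (hy k) (by fun_prop)) (by fun_prop))
      (.eq (by fun_prop) (by fun_prop))))
  refine ⟨ζ, a, fun w l => ?_, fun u l => ?_, ?_⟩
  · obtain ⟨h, m, o⟩ := sp w l
    exact ⟨_, (le (m k0)).1, (b _).2 ⟨h, m, o, rfl⟩⟩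
  · obtain ⟨h, m, o, s⟩ := (b _).1 l
    rw [ind h m o] at s
    exact s.symm
  · obtain ⟨⟨u, m⟩, o⟩ := (AddSubgroup.ne_bot_iff_exists_ne_zero).1 hσ
    obtain ⟨w, s⟩ := tot u m
    have t : ∀ k, (Pi.single k0 (u, w) : Fin d → M × M) k ∈ z := fun k => by
      by_cases e : k = k0
      · simpa [e] using s
      · simp [e]
    exact ⟨_, κ.sum_mem (t := Finset.univ) fun k _ => (en k).2 _ (le (t k)).2, u,
      fun e => o (Subtype.ext e),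
      (b _).2 ⟨_, t, rfl, by simp⟩⟩

theorem of_not_orth {L : Cl} {σ κ : AddSubgroup M} (hσ : L.td.df σ) (hκ : L.td.df κ)
    (a : Atom L σ) (b : Atom L κ) (h : ¬ Orth L σ κ) : Rel L κ σ := by
  obtain ⟨θ, td, le, t1, t2, -, f⟩ := atom_bij hσ hκ a b h
  obtain ⟨ζ, c, d⟩ : L.td.D fun x : M × M => (x.2, x.1) ∈ θ := .mem td (by fun_prop)
  refine ⟨ζ, c, fun w l => ?_, fun u l => f u ((d _).1 l), ?_⟩
  · obtain ⟨v, m⟩ := t2 w l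
    exact ⟨v, (le m).1, (d _).2 m⟩
  · obtain ⟨⟨u, m⟩, o⟩ := (AddSubgroup.ne_bot_iff_exists_ne_zero).1 a.1
    obtain ⟨w, s⟩ := t1 u m
    exact ⟨w, (le s).2, u, fun e => o (Subtype.ext e), (d _).2 s⟩

/-- A finite nonzero quotient is a finite atom. -/
theorem quot {L : Cl} (hL : Cmp L) {S : AddSubgroup M} (hS : L.td.df S) (h : ¬ NFs L S) :
    ∃ (κ : AddSubgroup M) (θ : AddSubgroup (M × M)), L.td.df κ ∧ Atom L κ ∧ Fin2 L κ ∧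
      L.td.df θ ∧ (∀ v ∈ S, ∃ w ∈ κ, (v, w) ∈ θ) ∧ (∀ w ∈ κ, ∃ v ∈ S, (v, w) ∈ θ) ∧
      ∀ w, (0, w) ∈ θ → w = 0 := by
  simp only [NFs, not_forall, not_not] at h
  obtain ⟨A, hA, n, f⟩ := h
  obtain ⟨A', a1, a2, a3, a4⟩ := max_trace hS hA n f
  obtain ⟨C, c1, c2⟩ := hL A' a1
  have dj : ∀ w, w ∈ A' → w ∈ C → w = 0 := fun w k l => AddSubgroup.disjoint_def.1 c2.1 k l
  obtain ⟨θ, t1, t2⟩ : L.td.D fun x : M × M => x.1 ∈ S ∧ x.2 ∈ C ∧ x.1 - x.2 ∈ A' :=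
    .and (.mem hS (by fun_prop)) (.and (.mem (Cl.td_of c1) (by fun_prop))
      (.mem (Cl.td_of a1) (by fun_prop)))
  obtain ⟨κ, k1, k2⟩ : L.td.D fun w : M => ∃ v, (v, w) ∈ θ := .ex (.mem t1 (by fun_prop))
  have tot : ∀ v ∈ S, ∃ w ∈ κ, (v, w) ∈ θ := fun v l => by
    obtain ⟨x, k, y, m, rfl⟩ := AddSubgroup.mem_sup.1 (c2.sup_eq_top.ge (AddSubgroup.mem_top v))
    have : (x + y, y) ∈ θ := (t2 _).2 ⟨l, m, by simpa⟩
    exact ⟨y, (k2 y).2 ⟨_, this⟩, this⟩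
  have sur : ∀ w ∈ κ, ∃ v ∈ S, (v, w) ∈ θ := fun w l =>
    let ⟨v, m⟩ := (k2 w).1 l
    ⟨v, ((t2 _).1 m).1, m⟩
  have ker : ∀ v w, (v, w) ∈ θ → v ∈ A' → w = 0 := fun v w l m =>
    dj w (by simpa using A'.sub_mem m ((t2 _).1 l).2.2) ((t2 _).1 l).2.1
  refine ⟨κ, θ, k1, ⟨fun e => a3 fun v l => ?_, fun D hD => ?_⟩, ?_, t1, tot, sur,
    fun w l => ker 0 w l A'.zero_mem⟩
  · obtain ⟨w, m, o⟩ := tot v l
    obtain rfl : w = 0 := by simpa [e] using m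
    simpa using ((t2 _).1 o).2.2
  · obtain ⟨T, s1, s2⟩ : L.td.D fun v : M => ∃ w, w ∈ D ∧ (v, w) ∈ θ :=
      .ex (.and (.mem (Cl.td_of hD) (by fun_prop)) (.of t1))
    obtain e | e := a4 T s1 (fun v l => (s2 v).2 ⟨0, D.zero_mem, (t2 _).2 ⟨l.2, C.zero_mem,
      by simpa using l.1⟩⟩) fun v l => let ⟨_, _, m⟩ := (s2 v).1 l; ((t2 _).1 m).1
    · refine Or.inr fun w l m => ?_
      obtain ⟨v, -, o⟩ := sur w l
      exact ker v w o (e.le ((s2 v).2 ⟨w, m, o⟩)).1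
    · refine Or.inl fun w l => ?_
      obtain ⟨v, m, o⟩ := sur w l
      obtain ⟨w', i, j⟩ := (s2 v).1 (e.ge m)
      have := ker 0 (w - w') (by simpa using θ.sub_mem o j) A'.zero_mem
      rwa [sub_eq_zero.1 this]
  · obtain ⟨ζ, c, d⟩ : L.td.D fun x : M × M => (x.2, x.1) ∈ θ := .mem t1 (by fun_prop)
    have := int_fin (S' := κ) (N' := ⊥) c hS (L.td.inf (Cl.td_of a1) hS) inf_le_right
      (fun w l => let ⟨v, m, o⟩ := sur w l; ⟨v, m, (d _).2 o⟩)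
      (fun w _ v m o => ker v w ((d _).1 o) m.1)
      (f.mono (AddSubgroup.prod_mono (le_inf a2 inf_le_right) (le_inf a2 inf_le_right)) le_rfl)
    simpa [Fin2] using this

/-- The graph of a gluing package is a nonsplit relation. -/
theorem not_orth {L L' : Cl} {p : Pkg} (ok : p.Ok L) (gr : p.Gr) (l0 : L0 L p) (hG : L'.df p.G)
    (hb : p.bi ≠ ⊥) (ha : p.ai ≠ ⊥) : ¬ Orth L' p.bi p.ai := by
  intro h
  refine hb ((AddSubgroup.eq_bot_iff_forall _).2 fun u l => ?_)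
  choose w a b using fun j => ok.tot j u (AddSubgroup.mem_iInf.1 l j)
  have e : ∀ j, w 0 = w j := fun j => sub_eq_zero.1 (gr.fn _ (by simpa using p.G.sub_mem (b 0) (b j)))
  have g := h _ hG u l (w 0) (AddSubgroup.mem_iInf.2 fun j => e j ▸ a j) (b 0)
  obtain ⟨Z, z1, z2⟩ : L.td.D fun γ : Unit → M × M => (γ ()).2 = 0 := .eq (by fun_prop) (by fun_prop)
  have := l0 Unit Z z1 (fun c k => ?_) (fun _ => (u, 0)) ((z2 _).2 rfl) (mem_pw.2 fun _ => g)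
    (mem_pw.2 fun _ => ⟨l, p.ai.zero_mem⟩)
  · exact congrArg Prod.fst (congrFun this ())
  · obtain ⟨⟨v, m⟩, o⟩ := (AddSubgroup.ne_bot_iff_exists_ne_zero).1 ha
    exact funext fun _ => (sc_eq_zero ((z2 _).1 (k v m))).resolve_right fun s => o (Subtype.ext s)

end MAP91

variable [Sys]

theorem stMAP (hAT : St_ATOM) (hP2 : St_P2) (hGO : St_GOOD) (hTG : St_TASKG) (hRA : St_RAT)
    (hSI : St_SIG) (hNI : St_NICE) (hST : St_STEP) : St_MAP := by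
  intro B hB S hS h
  have le : ∀ Φ, (L Φ).Le (L univ) := fun Φ => Sys.mono (subset_univ Φ)
  obtain ⟨κ, θ, k1, k2, k3, t1, tot, sur, fn⟩ := MAP91.quot hB.cmp hS h
  have sm := (hAT hB k1).1 k2
  obtain ⟨c1, -, c2, c3, -, -⟩ := hSI
  have key : MAP91.Rel (L univ) κ si := by
    obtain g | g := (hP2 hGO hB (by simp) k1 sm k2).2 k3
    · exact MAP91.of_glued (le B) c3 k2.1 g
    refine MAP91.of_not_orth (c2 ▸ (le _).td c1.td) ((le B).td k1)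
      ((hRA hGO (by simp)).atom c3) (g.fst.atom k2) fun o => ?_
    obtain ⟨a, b, d, y, a1, a2, a3, a4, a5, a6⟩ := hTG hB k1 sm k2 k3
    obtain ⟨ξ, x1, x2 | ⟨x2, x3, x4⟩⟩ := Sys.exG B hB a b d y a1 a2 a3 a4 a5
    · exact x2 (a6 ▸ o.anti (le _))
    obtain ⟨-, g1, ⟨d', y', g2⟩, g3, -⟩ := Sys.hG ξ x2
    have e : (p ξ).ai = κ := by rw [Pkg.ai, x4, a6]
    have st := hST (ξ := ξ) (Sys.dep_cl ξ) (fun l => lt_irrefl ξ (Sys.dep_lt ξ l)) le_rfl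
    rw [← g3, ← e] at o
    exact MAP91.not_orth st.ok g1 (stL0G st g1 g2 (o.anti (le _))) (le _ st.ext.df) (g3 ▸ c3)
      (e ▸ k2.1) o
  obtain ⟨ζ, z1, z2, z3, w, z4, u, z5, z6⟩ := key
  obtain ⟨η, e1, e2⟩ : (L univ).td.D fun x : M × M => ∃ w, (x.1, w) ∈ θ ∧ (w, x.2) ∈ ζ :=
    .ex (.and (.mem ((le B).td t1) (by fun_prop)) (.mem z1 (by fun_prop)))
  obtain ⟨x, r1, r2⟩ := rep hNI.1 e1 fun u l =>
    let ⟨w, m, o⟩ := (e2 _).1 l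
    z3 u (fn w m ▸ o)
  refine ⟨x, r1, fun v l => ?_, ?_⟩
  · obtain ⟨w, m, o⟩ := tot v l
    obtain ⟨u, i, j⟩ := z2 w m
    exact r2 v u ((e2 _).2 ⟨w, o, j⟩) ▸ i
  · obtain ⟨v, m, o⟩ := sur w z4
    exact ⟨v, m, r2 v u ((e2 _).2 ⟨w, o, z6⟩) ▸ z5⟩

end Z47
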