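import Pool.Agent.Lib.MP_1e63be_al.Z47.Blue

/-!
Least full types, reduced presentations and hulls.
-/

namespace Z47

open Set Filter Topology

variable [Amb]

section
variable {V : Type} [AddCommGroup V] [Module E V] {μ ν : Type} {H : ℕ → AddSubgroup V}
  {G : AddSubgroup V} {Y Y' : AddSubgroup (μ → V)} {l l' : (μ → F) → ℕ∞}

theorem Ty_anti (hH : Antitone H) (h : l ≤ l') : Ty H l' ≤ Ty H l :=
  iSup_mono fun c => AddSubgroup.map_mono (Hx_anti hH (h c))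

theorem Ty_inf_le : Ty H (l ⊓ l') ≤ Ty H l ⊔ Ty H l' := Ty_le.2 fun c n e h k => by
  rcases min_choice (l c) (l' c) with a | a
  · exact AddSubgroup.mem_sup_left (mem_Ty (a.symm.trans e) k)
  · exact AddSubgroup.mem_sup_right (mem_Ty (a.symm.trans e) k)

theorem Full.mono (h : Full H G Y l) (k : Y ≤ Y') : Full H G Y' l :=
  le_trans h (sup_le_sup_right (inf_le_inf_right _ k) _)

theorem Full.inf (hH : Antitone H) (h : Full H G Y l) (k : Full H G Y l') :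
    Full H G Y (l ⊓ l') :=
  Ty_inf_le.trans (sup_le
    (le_trans h (sup_le_sup_right (inf_le_inf_left _ (Ty_anti hH inf_le_left)) _))
    (le_trans k (sup_le_sup_right (inf_le_inf_left _ (Ty_anti hH inf_le_right)) _)))

theorem Full.ex (h : Full H G Y l) {x : μ → V} (k : x ∈ Ty H l) :
    ∃ y ∈ Y, y ∈ Ty H l ∧ x - y ∈ pw G :=
  let ⟨y, a, z, b, e⟩ := AddSubgroup.mem_sup.1 (h k)
  ⟨y, a.1, a.2, by rwa [← e, add_sub_cancel_left]⟩

/-- The least full type. -/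
structure Lst (H : ℕ → AddSubgroup V) (G : AddSubgroup V) (Y : AddSubgroup (μ → V))
    (l : (μ → F) → ℕ∞) : Prop where
  full : Full H G Y l
  cov : Y ⊓ pw G ≤ Ty H l
  least : ∀ l', Full H G Y l' → l ≤ l'

theorem GenAt.lst [Finite μ] (hH : Antitone H) (h : GenAt H G Y) : ∃ l, Lst H G Y l := by
  obtain ⟨l, a, b⟩ := h
  obtain ⟨m, hm, e⟩ := wellFounded_lt.has_min {l | Full H G Y l} ⟨l, b⟩
  have : ∀ l', Full H G Y l' → m ≤ l' := fun l' k =>
    inf_eq_left.1 (eq_of_le_of_not_lt inf_le_left (e _ (Full.inf hH hm k)))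
  exact ⟨m, hm, a.trans (Ty_anti hH (this l b)), this⟩

theorem Lst.le (h : Lst H G Y' l') (k : Lst H G Y l) (e : Y ≤ Y') : l' ≤ l :=
  h.least _ (k.full.mono e)

/-- Linear maps of coefficient spaces act on powers. -/
theorem ex_act [Finite μ] (f : (μ → F) →ₗ[F] (ν → F)) :
    ∃ a : (μ → V) → ν → V, Lin a ∧ (∀ c h, a (tens c h) = tens (f c) h) ∧
      ∀ (A : AddSubgroup V), ∀ x ∈ pw A, a x ∈ pw A := by
  classical
  have := Fintype.ofFinite μ
  refine ⟨fun x => ∑ i, tens (f (Pi.single i 1)) (x i), by fun_prop, fun c h => ?_,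
    fun A x k => AddSubgroup.sum_mem _ fun i _ => tens_mem_pw _ (mem_pw.1 k i)⟩
  funext j
  have : f c = ∑ i, c i • f (Pi.single i 1) := by
    simp only [← map_smul, ← map_sum]
    exact congrArg f (pi_eq_sum_univ' c)
  simp only [this, Finset.sum_apply, tens_apply, sc_sum, Finset.sum_smul, Pi.smul_apply,
    smul_eq_mul, sc_mul, mul_smul]
  exact Finset.sum_congr rfl fun i _ => smul_sc _ _ _

omit [Amb] in
theorem ex_quot [Finite μ] (U : Submodule F (μ → F)) :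
    ∃ (n : ℕ) (q : (μ → F) →ₗ[F] (Fin n → F)) (s : (Fin n → F) →ₗ[F] (μ → F)),
      (∀ c, q c = 0 ↔ c ∈ U) ∧ ∀ c, q (s c) = c := by
  let e := (Module.finBasis F ((μ → F) ⧸ U)).equivFun
  obtain ⟨s, h⟩ := (e.toLinearMap ∘ₗ U.mkQ).exists_rightInverse_of_surjective
    (LinearMap.range_eq_top.2 (e.surjective.comp U.mkQ_surjective))
  exact ⟨_, e.toLinearMap ∘ₗ U.mkQ, s, by simp, fun c => LinearMap.congr_fun h c⟩

end

omit [Amb] in
theorem ex_min_le {ι : Type} [Nonempty ι] (f : ι → ℕ∞) (N : ℕ) : ∃ i, min (⨆ i, f i) N ≤ f i := by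
  by_contra! h
  obtain ⟨n, e⟩ := ENat.ne_top_iff_exists.1
    (ne_top_of_le_ne_top (ENat.natCast_ne_top N) (min_le_right (⨆ i, f i) N))
  cases n with
  | zero => exact not_lt_zero (e ▸ h (Classical.arbitrary ι))
  | succ n =>
    have : ⨆ i, f i ≤ n := iSup_le fun i => Order.le_of_lt_add_one (by simpa [← e] using h i)
    have := (e ▸ min_le_left _ _).trans this
    exact absurd (ENat.natCast_le_natCast.1 this) (by omega)

section
variable {X W : Type} [AddCommGroup X] [AddCommGroup W]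

/-- The image of a subspace under a relation. -/
def sec (Z : AddSubgroup (X × W)) (Y : AddSubgroup X) : AddSubgroup W :=
  (Z ⊓ Y.prod ⊤).map (AddMonoidHom.snd X W)

omit [Amb] in
theorem mem_sec {Z : AddSubgroup (X × W)} {Y : AddSubgroup X} {h : W} :
    h ∈ sec Z Y ↔ ∃ v ∈ Y, (v, h) ∈ Z :=
  ⟨by rintro ⟨z, a, rfl⟩; exact ⟨z.1, a.2.1, a.1⟩, fun ⟨v, a, b⟩ => ⟨(v, h), ⟨b, a, trivial⟩, rfl⟩⟩

omit [Amb] in
theorem mem_sec0 {Z : AddSubgroup (X × W)} {h : W} : h ∈ sec Z ⊥ ↔ (0, h) ∈ Z := by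
  simp [mem_sec]

omit [Amb] in
theorem sec_mono {Z : AddSubgroup (X × W)} {Y Y' : AddSubgroup X} (h : Y ≤ Y') :
    sec Z Y ≤ sec Z Y' := fun _ k =>
  let ⟨v, a, b⟩ := mem_sec.1 k
  mem_sec.2 ⟨v, h a, b⟩

variable [Module E X] [Module E W] [Std X] [Std W] {Z : AddSubgroup (X × W)} {Y : AddSubgroup X}

theorem sec_df {L : PP} (hZ : L.df Z) (hY : L.df Y) : L.df (sec Z Y) :=
  (PP.D.ex (r := fun h v => v ∈ Y ∧ (v, h) ∈ Z)
    ((PP.D.mem hY (by fun_prop)).and (PP.D.mem hZ (by fun_prop)))).df fun _ => mem_sec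

theorem dd_sec (hZ : P.df Z) (hY : P.df Y) : dd (sec Z Y) (sec Z ⊥) ≤ ρ Y := by
  obtain ⟨Z', a, b⟩ : P.D fun z : W × X => (z.2, z.1) ∈ Z := PP.D.mem hZ (by fun_prop)
  rw [← dd_bot]
  exact dd_rel a hY P.bot (sec_df hZ hY) (sec_df hZ P.bot) (by simp [mem_sec, b])
    (by simp [mem_sec, b])

end

variable {L L' : Cl} {p : Pkg} {X : Type} [AddCommGroup X] [Module E X] [Std X] {μ : Type}
  [Finite μ] {Z : AddSubgroup (X × (μ → M × M))} {l₀ : (μ → F) → ℕ∞}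

theorem Step.lst (s : Step L L' p) (hZ : L.df Z) :
    ∃ t : AddSubgroup X → (μ → F) → ℕ∞, ∀ K, L.df K → Lst p.H p.G (sec Z K) (t K) := by
  choose! t ht using fun K (hK : L.df K) => (s.gen μ _ (sec_df hZ hK)).lst s.ok.anti
  exact ⟨t, ht⟩

/-- Small vectors only need witnesses in the limit. -/
theorem Step.small (s : Step L L' p) (hZ : L.df Z) (h0 : Lst p.H p.G (sec Z ⊥) l₀) {v : X}
    {g : μ → M × M} (hg : g ∈ pw p.G) (hv : (v, g) ∈ Z)
    (sm : ∀ ε > 0, ∃ K, L.df K ∧ v ∈ K ∧ ρ K < ε) : ∃ h ∈ Ty p.H l₀, g - h ∈ pw p.Hi := by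
  obtain ⟨t, ht⟩ := s.lst hZ
  have hH := fun j => L.sub (s.ok.df j)
  have : Nonempty {K : AddSubgroup X // L.df K ∧ v ∈ K} := ⟨⟨⊤, L.top, trivial⟩⟩
  set l : (μ → F) → ℕ∞ := fun c => ⨆ K : {K : AddSubgroup X // L.df K ∧ v ∈ K}, t K c with hl
  have ap : ∀ (N : ℕ), ∀ ε > 0, ∃ K, L.df K ∧ v ∈ K ∧ ρ K < ε ∧
      Ty p.H (t K) ≤ Ty p.H l ⊔ pw (p.H N) := fun N ε e => by
    choose K hK using fun c =>
      ex_min_le (fun K : {K : AddSubgroup X // L.df K ∧ v ∈ K} => t K c) N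
    obtain ⟨K', a, b, d⟩ := sm ε e
    have k := L.inf a (PP.iInf fun c => (K c).2.1)
    refine ⟨_, k, ⟨b, AddSubgroup.mem_iInf.2 fun c => (K c).2.2⟩,
      (Amb.ρ_mono (L.sub k) (L.sub a) inf_le_left).trans_lt d,
      (Ty_anti (l := l ⊓ fun _ => N) s.ok.anti fun c => (hK c).trans
        ((ht _ (K c).2.1).le (ht _ k) (sec_mono (inf_le_right.trans (iInf_le _ c))) c)).trans
      (Ty_inf_le.trans (sup_le_sup_left (Ty_le.2 fun c n e h m => tens_mem_pw _ ?_) _))⟩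
    rwa [ENat.natCast_inj.1 e]
  have hT := fun l : (μ → F) → ℕ∞ => PP.Ty hH l
  have hG : P.df (pw p.G : AddSubgroup (μ → M × M)) := PP.pw s.ok.PG
  have hX := sec_df (L.sub hZ) P.bot
  have fl : Full p.H p.G (sec Z ⊥) l := by
    refine le_of_dd (hT l) (PP.sup (P.inf hX (hT l)) hG) (le_of_forall_pos_le_add fun ε e => ?_)
    obtain ⟨N, hN⟩ := ((s.ok.lim.const_mul (Nat.card μ : ℝ)).eventually
      (gt_mem_nhds (a := ε / 2) (by simpa using e))).exists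
    obtain ⟨K, a, b, c, d⟩ := ap N _ (half_pos e)
    have hK := sec_df (L.sub hZ) (L.sub a)
    have hB := PP.sup (P.inf hX (hT l)) hG
    have hN' : P.df (pw (p.H N) : AddSubgroup (μ → M × M)) := PP.pw (hH N)
    have e1 := dd_mono (hT l) hB (PP.sup (P.inf hK (hT _)) hG) hB ((Ty_anti s.ok.anti
      fun c => le_iSup (fun K : {K : AddSubgroup X // L.df K ∧ v ∈ K} => t K c) ⟨K, a, b⟩).trans
      (ht K a).full) le_rfl
    have e2 := dd_sup (P.inf hK (hT (t K))) hG hB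
    have e3 := dd_tri (P.inf hK (hT (t K))) (P.inf hX (hT (t K))) hB
    have e4 := (dd_inf hK hX (hT (t K))).trans (dd_sec (L.sub hZ) (L.sub a))
    have e5 := dd_mono (P.inf hX (hT (t K))) hB (P.inf (PP.sup (hT l) hN') hX) (P.inf (hT l) hX)
      (fun _ m => ⟨d m.2, m.1⟩) fun _ m => AddSubgroup.mem_sup_left ⟨m.2, m.1⟩
    have e6 := (dd_inf (PP.sup (hT l) hN') (hT l) hX).trans (dd_sup (hT l) hN' (hT l))
    have e7 := dd_le hN' (hT l)
    rw [dd_zero le_sup_right] at e2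
    rw [dd_zero le_rfl] at e6
    rw [ρ_pw (hH N)] at e7
    linarith
  obtain ⟨x, a, rfl⟩ := Amb.sat1 (f := fun z : (μ → M × M) × (μ → M × M) => z.1 + z.2) (y := g)
    (K := fun n => (Ty p.H l₀).prod (pw (p.H n))) (by fun_prop)
    (fun n => PP.prod (hT _) (PP.pw (hH n)))
    (fun _ _ k => AddSubgroup.prod_mono le_rfl (pw_mono (s.ok.anti k))) fun n => by
      obtain ⟨K, a, b, -, d⟩ := ap n 1 one_pos
      obtain ⟨y, e, z, f, k⟩ := AddSubgroup.mem_sup.1 (d ((ht K a).cov ⟨mem_sec.2 ⟨v, b, hv⟩, hg⟩))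
      exact ⟨(y, z), ⟨Ty_anti s.ok.anti (h0.least _ fl) e, f⟩, k⟩
  exact ⟨x.1, (a 0).1, by
    simpa using fun i => Pkg.mem_Hi'.2 fun j => mem_pw.1 (a j).2 i⟩

theorem stNF : St_NF := by
  intro L L' p s X _ _ _ A hA
  obtain ⟨μ, _, Z, hZ, hA⟩ := s.ext.nf hA
  obtain ⟨t, ht⟩ := s.lst hZ
  have h0 := ht ⊥ L.bot
  have hT := PP.Ty s.ok.df (t ⊥)
  obtain ⟨n, q, r, hq, hr⟩ := ex_quot (Submodule.span F {c | t ⊥ c ≠ ⊤})
  obtain ⟨Q, Q1, Q2, Q3⟩ := ex_act (V := M × M) q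
  obtain ⟨R, R1, R2, R3⟩ := ex_act (V := M × M) r
  obtain ⟨Z', hZ', e⟩ : L.D fun z : X × (Fin n → M × M) =>
      ∃ h, h ∈ Ty p.H (t ⊥) ∧ (z.1, h + R z.2) ∈ Z :=
    PP.D.ex ((PP.D.mem hT (by fun_prop)).and (PP.D.mem hZ (PP.Fn.of (by fun_prop))))
  refine ⟨Fin n, inferInstance, Z', hZ', fun c hc => ?_, fun v γ a b => ?_, fun Y hY a v b => ?_,
    fun v a sm => ?_⟩
  · classical
    have hB := PP.sup (sec_df hZ L.bot) hT
    obtain ⟨B, a, b⟩ : L.D fun w : M => tens (r c) ((0 : M), w) ∈ sec Z ⊥ ⊔ Ty p.H (t ⊥) :=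
      PP.D.mem hB (by fun_prop)
    obtain ⟨N, hN⟩ := sat_le s.ok.ca.df s.ok.ca.anti a fun w m => by
      obtain ⟨h, k, o⟩ := (e _).1 (hc w m)
      exact (b w).2 (AddSubgroup.mem_sup.2 ⟨_, mem_sec0.2 o, _, neg_mem k, by simp [R2]⟩)
    have : Full p.H p.G (sec Z ⊥) (t ⊥ ⊓ Function.update ⊤ (r c) N) := by
      have i := Ty_anti (l := t ⊥ ⊓ Function.update ⊤ (r c) N) s.ok.anti inf_le_left
      have j := Ty_anti (l := t ⊥ ⊓ Function.update ⊤ (r c) N) s.ok.anti inf_le_right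
      have k := le_trans h0.full (sup_le_sup_right (inf_le_inf_left _ i) _)
      refine Ty_inf_le.trans (sup_le k (Ty_le.2 fun d m o h u => ?_))
      obtain rfl : d = r c := by_contra fun z => by simp [z] at o
      obtain rfl : N = m := by simpa using o
      obtain ⟨w, w1, w2⟩ := s.ok.tot N h.1 u.1
      have w3 := (p.a N).sub_mem u.2 w1
      obtain ⟨x, x1, y, y1, z⟩ := AddSubgroup.mem_sup.1 ((b _).1 (hN N le_rfl w3))
      have : tens (r c) h = x + y + tens (r c) (h.1, w) := by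
        rw [z, ← tens_add]; simp
      rw [this]
      refine add_mem (add_mem (AddSubgroup.mem_sup_left ⟨x1, ?_⟩) (k y1))
        (AddSubgroup.mem_sup_right (tens_mem_pw _ w2))
      rw [← eq_sub_iff_add_eq] at z
      exact z ▸ AddSubgroup.sub_mem _ (j (mem_Ty o ⟨zero_mem _, w3⟩)) (i y1)
    have := (h0.least _ this (r c)).trans inf_le_right
    rw [← hr c, hq]
    exact Submodule.subset_span (ne_top_of_le_ne_top (by simp) this)
  · obtain ⟨h, k, o⟩ := (e _).1 b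
    obtain ⟨y, y1, -, y2⟩ := h0.full.ex k
    exact (hA v).2 ⟨_, add_mem y2 (R3 _ _ a), by
      simpa [sub_add_eq_add_sub] using sub_mem o (mem_sec0.1 y1)⟩
  · have k := ht Y hY
    have : Full p.H p.G (sec Z ⊥) (t Y) := fun h m => by
      obtain ⟨x, x1, x2, x3⟩ := k.full.ex m
      obtain ⟨u, u1, u2⟩ := mem_sec.1 x1
      obtain ⟨g, g1, g2⟩ := (hA u).1 (a u1)
      exact AddSubgroup.mem_sup.2 ⟨x - g, ⟨mem_sec0.2 (by simpa using sub_mem u2 g2),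
        AddSubgroup.sub_mem _ x2 (k.cov ⟨mem_sec.2 ⟨u, u1, g2⟩, g1⟩)⟩, _, add_mem x3 g1, by abel⟩
    obtain ⟨g, g1, g2⟩ := (hA v).1 (a b)
    exact (e _).2 ⟨g, Ty_anti s.ok.anti (h0.least _ this) (k.cov ⟨mem_sec.2 ⟨v, b, g2⟩, g1⟩), by
      simpa [R1.map_zero]⟩
  · classical
    obtain ⟨g, g1, g2⟩ := (hA v).1 a
    obtain ⟨h, h1, h2⟩ := s.small hZ h0 g1 g2 sm
    have q0 : Ty p.H (t ⊥) ≤ Q1.hom.ker := Ty_le.2 fun c m o x _ => by
      simp [Q2, (hq c).2 (Submodule.subset_span (o.trans_ne (ENat.natCast_ne_top m)))]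
    have q1 : Q g = Q (g - h) := by rw [Q1.map_sub, show Q h = 0 from q0 h1, sub_zero]
    have u : ∀ c ∈ Submodule.span F {c | t ⊥ c ≠ ⊤}, ∀ x ∈ p.Hi, tens c x ∈ Ty p.H (t ⊥) := by
      intro c hc x m
      induction hc using Submodule.span_induction with
      | mem c o =>
        obtain ⟨n, o⟩ := ENat.ne_top_iff_exists.1 o
        exact mem_Ty o.symm (Pkg.mem_Hi'.1 m n)
      | zero => simp
      | add c d _ _ o w => exact add_tens c d x ▸ add_mem o w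
      | smul a c _ o => exact smul_tens a c x ▸ sc_mem a o
    have q2 : pw p.Hi ≤ (Ty p.H (t ⊥)).comap (Lin.id.sub (R1.comp Q1)).hom :=
      pw_le fun i x m => by
        simpa [Q2, R2, ← sub_tens] using u _ ((hq _).1 (by simp [hr])) x m
    refine ⟨Q g, Q3 _ _ g1, q1 ▸ Q3 _ _ h2, (e _).2 ⟨_, add_mem h1 (q2 h2), ?_⟩⟩
    simpa [← q1, add_assoc]

theorem stHL : St_HL := by
  intro L L' p s X _ _ _ Y hY A hA'
  obtain ⟨μ, _, Z, hZ, hA⟩ := s.ext.nf hA'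
  obtain ⟨t, ht⟩ := s.lst hZ
  obtain ⟨_, ⟨j, rfl⟩, e⟩ := wellFounded_lt.has_min (range fun j => t (Y j)) (range_nonempty _)
  obtain ⟨B, hB, b⟩ : L.D fun v : X => ∃ h, h ∈ Ty p.H (t (Y j)) ∧ (v, h) ∈ Z :=
    PP.D.ex ((PP.D.mem (PP.Ty s.ok.df _) (by fun_prop)).and (PP.D.mem hZ (by fun_prop)))
  refine ⟨B, hB, le_of_dd_lim (L'.sub hA') (L.sub hB) hY.lim
    ((eventually_ge_atTop j).mono fun i k => ?_), j, fun v m => ?_⟩
  · have := eq_of_le_of_not_lt ((ht _ (hY.df i)).le (ht _ (hY.df j)) (sec_mono (hY.mono k)))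
      (e _ ⟨i, rfl⟩)
    refine dd_comap PP.Fn.id P.top (L.sub (hY.df i)) (L'.sub hA') (L.sub hB) (fun _ _ => trivial)
      fun v m o => ?_
    obtain ⟨g, g1, g2⟩ := (hA v).1 m
    exact (b v).2 ⟨g, this ▸ (ht _ (hY.df i)).cov ⟨mem_sec.2 ⟨v, o, g2⟩, g1⟩, g2⟩
  · obtain ⟨h, k, o⟩ := (b v).1 m
    obtain ⟨x, x1, -, x2⟩ := (ht _ (hY.df j)).full.ex k
    obtain ⟨y, y1, y2⟩ := mem_sec.1 x1
    exact AddSubgroup.mem_sup.2 ⟨v - y, (hA _).2 ⟨_, x2, sub_mem o y2⟩, y, y1, by abel⟩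

end Z47
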