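import Pool.Agent.Lib.MP_1e63be_al.Z47.Blue

/-!
Nice bases and atoms.
-/

namespace Z47

open Set Filter Topology

variable [Amb] [Sys]

namespace N50

/-- A fresh pure subspace of prescribed rank meets old subspaces in the expected rank. -/
theorem fresh (hP : St_PURE) {s : Set I} (hs : s.Countable) {r : ℝ} (h0 : 0 ≤ r) (h1 : r ≤ 1) :
    ∃ Q : AddSubgroup M, (L univ).df Q ∧ ρ Q = r ∧
      ∀ A : AddSubgroup M, (L s).df A → ρ (A ⊓ Q) = max 0 (ρ A + r - 1) := by
  obtain ⟨ξ, a, b, -, d⟩ := Sys.exP s hs r h0 h1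
  have st : Step (L (Iio ξ)) (L (insert ξ (Iio ξ))) (p ξ) :=
    ⟨(Sys.ok ξ).mono (Sys.mono (Sys.dep_lt ξ)), Sys.gen ξ, Sys.ext _ ξ⟩
  obtain ⟨e, f, -⟩ := hP st b
  have hQ : P.df (p ξ).Pr := (L _).sub e
  refine ⟨_, Sys.mono (subset_univ _) e, d, fun A hA => ?_⟩
  have hA' : P.df A := (L _).sub hA
  have m := Amb.ρ_mod hA' hQ
  have m1 := ρ_le_one (PP.sup hA' hQ)
  have m2 := ρ_nonneg (P.inf hA' hQ)
  rcases f A (Sys.mono a hA) with g | g
  · rw [g, ρ_bot] at m ⊢
    exact (max_eq_left (by linarith)).symm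
  · rw [g, Amb.ρ_top] at m
    rw [max_eq_right (by linarith)]
    linarith

theorem cmp (hP : St_PURE) : Cmp (L univ) := fun A hA => by
  obtain ⟨s, -, a, b⟩ := Sys.fin hA
  have hA' : P.df A := (L _).sub hA
  obtain ⟨Q, c, d, e⟩ := fresh hP a.countable (r := 1 - ρ A) (by linarith [ρ_le_one hA'])
    (by linarith [ρ_nonneg hA'])
  have hQ : P.df Q := (L _).sub c
  have f := e A b
  rw [max_eq_left (by linarith)] at f
  have m := Amb.ρ_mod hA' hQ
  refine ⟨Q, c, disjoint_iff.2 (ρ_eq_zero (P.inf hA' hQ) f.le), codisjoint_iff.2 (top_le_iff.1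
    (Amb.ρ_faith (PP.sup hA' hQ) P.top le_top ?_))⟩
  rw [Amb.ρ_top]
  linarith

theorem two {X Y : Type} [AddCommGroup X] [Module E X] [Std X] [AddCommGroup Y] [Module E Y]
    [Std Y] {Φ : Set I} {A : AddSubgroup X} {A' : AddSubgroup Y} (h : (L Φ).df A)
    (k : (L Φ).df A') : ∃ s ⊆ Φ, s.Finite ∧ (L s).df A ∧ (L s).df A' := by
  obtain ⟨s, a, b, c⟩ := Sys.fin h
  obtain ⟨t, a', b', c'⟩ := Sys.fin k
  exact ⟨s ∪ t, union_subset a a', b.union b', Sys.mono subset_union_left c,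
    Sys.mono subset_union_right c'⟩

theorem itp (hP : St_PURE) (A A' : AddSubgroup M) (t : ℝ) : ∃ B, (L univ).df B ∧
    ((L univ).df A → (L univ).df A' → A ≤ A' → ρ A ≤ t → t ≤ ρ A' →
      A ≤ B ∧ B ≤ A' ∧ ρ B = t) := by
  by_cases h : (L univ).df A ∧ (L univ).df A' ∧ A ≤ A' ∧ ρ A ≤ t ∧ t ≤ ρ A'
  swap
  · exact ⟨⊤, (L _).top, fun a b c d e => (h ⟨a, b, c, d, e⟩).elim⟩
  obtain ⟨hA, hA', le, h1, h2⟩ := h
  obtain ⟨s, -, a, b, b'⟩ := two hA hA'
  have k : P.df A := (L _).sub hA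
  have k' : P.df A' := (L _).sub hA'
  obtain ⟨Q, c, d, e⟩ := fresh hP a.countable (r := t + 1 - ρ A - ρ A')
    (by linarith [ρ_le_one k']) (by linarith [ρ_nonneg k])
  have hQ : P.df Q := (L _).sub c
  have f := e A b
  have f' := e A' b'
  rw [max_eq_left (by linarith)] at f
  rw [max_eq_right (by linarith)] at f'
  refine ⟨A ⊔ (A' ⊓ Q), PP.sup hA ((L _).inf hA' c), fun _ _ _ _ _ =>
    ⟨le_sup_left, sup_le le inf_le_left, ?_⟩⟩
  have m := Amb.ρ_mod k (P.inf k' hQ)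
  rw [← inf_assoc, inf_eq_left.2 le] at m
  linarith

omit [Amb] [Sys] in
/-- Countable hulls under finitary operations. -/
theorem hull0 {J : Type} (G : Set J → Set J) (hG : ∀ s, s.Finite → (G s).Countable) {B₀ : Set J}
    (h : B₀.Countable) : ∃ B, B.Countable ∧ B₀ ⊆ B ∧ ∀ s ⊆ B, s.Finite → G s ⊆ B := by
  let T : Set J → Set J := fun B => B ∪ ⋃ s ∈ {t | t.Finite ∧ t ⊆ B}, G s
  let C : ℕ → Set J := fun n => T^[n] B₀
  have e : ∀ n, C (n + 1) = T (C n) := fun n => Function.iterate_succ_apply' _ _ _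
  have c : ∀ n, (C n).Countable := fun n => by
    induction n with
    | zero => exact h
    | succ n k =>
      rw [e]
      exact k.union ((countable_ofPred_finite_subset k).biUnion fun s l => hG s l.1)
  have m : Monotone C := monotone_nat_of_le_succ fun n => by
    rw [e]
    exact subset_union_left
  refine ⟨⋃ n, C n, countable_iUnion c, subset_iUnion C 0, fun s a b => ?_⟩
  obtain ⟨n, k⟩ : ∃ n, s ⊆ C n := by
    induction s, b using Set.Finite.induction_on with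
    | empty => exact ⟨0, empty_subset _⟩
    | insert _ _ k =>
      obtain ⟨n, k⟩ := k ((subset_insert _ _).trans a)
      obtain ⟨n', k'⟩ := mem_iUnion.1 (a (mem_insert _ _))
      exact ⟨max n n', insert_subset (m (le_max_right _ _) k') (k.trans (m (le_max_left _ _)))⟩
  refine Subset.trans ?_ (subset_iUnion C (n + 1))
  rw [e]
  exact subset_union_of_subset_right
    (subset_biUnion_of_mem (u := G) (show s ∈ {t | t.Finite ∧ t ⊆ C n} from ⟨b, k⟩)) _

/-- Countable closed hulls. -/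
theorem hull (𝒜 : Set I → Set (AddSubgroup M)) (hc : ∀ s, s.Finite → (𝒜 s).Countable)
    (hd : ∀ s, ∀ A ∈ 𝒜 s, (L univ).df A) : ∃ B, B.Countable ∧ Closed B ∧ range q ⊆ B ∧
      ∀ s ⊆ B, s.Finite → ∀ A ∈ 𝒜 s, (L B).df A := by
  have : ∀ A : AddSubgroup M, ∃ t : Set I, t.Finite ∧ ((L univ).df A → (L t).df A) := fun A => by
    by_cases h : (L univ).df A
    · obtain ⟨t, -, a, b⟩ := Sys.fin h
      exact ⟨t, a, fun _ => b⟩
    · exact ⟨∅, finite_empty, fun k => (h k).elim⟩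
  choose u hu hv using this
  obtain ⟨B, a, b, c⟩ := hull0 (fun s => (⋃ ξ ∈ s, dep ξ) ∪ ⋃ A ∈ 𝒜 s, u A)
    (fun s k => (k.countable.biUnion fun ξ _ => Sys.dep_cnt ξ).union
      ((hc s k).biUnion fun A _ => (hu A).countable)) (countable_range q)
  refine ⟨B, a, fun ξ k => Subset.trans ?_ (c {ξ} (singleton_subset_iff.2 k) (finite_singleton _)),
    b, fun s k l A m => Sys.mono (Subset.trans ?_ (c s k l)) (hv A (hd s A m))⟩
  · exact subset_union_of_subset_left (subset_biUnion_of_mem (u := dep) (mem_singleton ξ)) _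
  · exact subset_union_of_subset_right (subset_biUnion_of_mem (u := u) m) _

omit [Sys] in
theorem half {L : Cl} (hL : Itp L) {S : AddSubgroup M} (hS : L.td.df S) (h : Atom L S)
    {K : AddSubgroup M} (hK : L.df K) (le : S ≤ K) : ∃ K', L.df K' ∧ S ≤ K' ∧ ρ K' ≤ ρ K / 2 := by
  have k := ρ_nonneg (L.sub hK)
  obtain ⟨B, a, -, b, c⟩ := hL ⊥ K K L.bot hK hK bot_le 0 2⁻¹ (by simp; linarith)
    (by simp; linarith)
  have c : ρ B = ρ K / 2 := by rw [c]; simp; ring
  rcases h.2 B a with d | d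
  · exact ⟨B, a, d, c.le⟩
  obtain ⟨Z, e, f, g⟩ := hS
  obtain ⟨n, l⟩ := Amb.sat2 (K := fun n => Z n ⊓ B) (A := ⊥) (fun n => L.sub (L.inf (e n) a))
    (fun _ _ l => inf_le_inf_right _ (f l)) P.bot
    fun x l => d x ((g x).2 fun n => (l n).1) (l 0).2
  have hK' := L.inf (e n) hK
  refine ⟨Z n ⊓ K, hK', fun x m => ⟨(g x).1 m n, le m⟩, ?_⟩
  have m := Amb.ρ_mod (L.sub hK') (L.sub a)
  have m1 := Amb.ρ_mono (PP.sup (L.sub hK') (L.sub a)) (L.sub hK) (sup_le inf_le_right b)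
  rw [show Z n ⊓ K ⊓ B = ⊥ from le_bot_iff.1 ((inf_le_inf_right _ inf_le_left).trans l),
    ρ_bot] at m
  linarith

end N50

open N50

theorem stNICE (hP : St_PURE) : St_NICE := by
  refine ⟨cmp hP, fun w hw => ?_⟩
  have : ∀ A : AddSubgroup M, ∃ C, (L univ).df C ∧ ((L univ).df A → IsCompl A C) := fun A => by
    by_cases h : (L univ).df A
    · obtain ⟨C, a, b⟩ := cmp hP A h
      exact ⟨C, a, fun _ => b⟩
    · exact ⟨⊤, (L _).top, fun k => (h k).elim⟩
  choose c hc hc' using this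
  choose i hi hi' using itp hP
  let D : Set I → Set (AddSubgroup M) := fun s => {A | (L s).df A}
  let D' : Set I → ∀ n : ℕ, Set (AddSubgroup (Fin n → M)) := fun s _ => {A | (L s).df A}
  obtain ⟨B, h1, h2, h3, h4⟩ := hull (fun s => c '' D s ∪
    ((⋃ A ∈ D s, ⋃ A' ∈ D s, ⋃ C ∈ D s, ⋃ x : ℚ, ⋃ y : ℚ, {i A A' (x + y * ρ C)}) ∪
      ⋃ n, image2 (w n) (D' s n) (D' s n)))
    (fun s k => by
      have a : (D s).Countable := Sys.cnt M k.countable
      have b : ∀ n, (D' s n).Countable := fun n => Sys.cnt _ k.countable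
      exact (a.image _).union ((a.biUnion fun _ _ => a.biUnion fun _ _ => a.biUnion fun _ _ =>
        countable_iUnion fun _ => countable_iUnion fun _ => countable_singleton _).union
          (countable_iUnion fun n => (b n).image2 (b n) _)))
    (fun s A k => by
      rcases k with ⟨A, -, rfl⟩ | k | k
      · exact hc A
      · simp only [mem_iUnion, mem_singleton_iff] at k
        obtain ⟨_, -, _, -, _, -, _, _, rfl⟩ := k
        exact hi _ _ _
      · obtain ⟨n, _, -, _, -, rfl⟩ := mem_iUnion.1 k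
        exact hw _ _ _)
  have u : (L B).Le (L univ) := Sys.mono (subset_univ _)
  refine ⟨B, ⟨h1, h2, fun n => h3 ⟨n, rfl⟩, fun A hA => ?_, fun A A' C hA hA' hC le x y k l => ?_⟩,
    fun n A A' hA hA' => ?_⟩
  · obtain ⟨s, a, b, d⟩ := Sys.fin hA
    exact ⟨c A, h4 s a b _ (Or.inl ⟨A, d, rfl⟩), hc' A (u hA)⟩
  · obtain ⟨s, a, b, d, e⟩ := two hA (PP.prod hA' hC)
    have e1 : (L s).df A' := (PP.D.mem e (f := fun v : M => (v, (0 : M))) (by fun_prop)).df
      fun v => ⟨fun m => ⟨m, C.zero_mem⟩, fun m => m.1⟩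
    have e2 : (L s).df C := (PP.D.mem e (f := fun v : M => ((0 : M), v)) (by fun_prop)).df
      fun v => ⟨fun m => ⟨A'.zero_mem, m⟩, fun m => m.2⟩
    refine ⟨i A A' (x + y * ρ C), h4 s a b _ (Or.inr (Or.inl ?_)), hi' _ _ _ (u hA) (u hA') le k l⟩
    simp only [mem_iUnion, mem_singleton_iff]
    exact ⟨A, d, A', e1, C, e2, x, y, rfl⟩
  · obtain ⟨s, a, b, d, e⟩ := two hA hA'
    exact h4 s a b _ (Or.inr (Or.inr (mem_iUnion.2 ⟨n, A, d, A', e, rfl⟩)))

theorem stATOM : St_ATOM := by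
  intro B hB S hS
  refine ⟨fun h ε hε => ?_, fun h => ?_⟩
  · have : ∀ n : ℕ, ∃ K, (L B).df K ∧ S ≤ K ∧ ρ K ≤ (1 / 2) ^ n := fun n => by
      induction n with
      | zero => exact ⟨⊤, (L _).top, le_top, by simp [Amb.ρ_top]⟩
      | succ n k =>
        obtain ⟨K, a, b, c⟩ := k
        obtain ⟨K', a', b', c'⟩ := half hB.itp hS h a b
        exact ⟨K', a', b', by rw [pow_succ]; linarith⟩
    obtain ⟨n, k⟩ := exists_pow_lt_of_lt_one hε (show (1 / 2 : ℝ) < 1 by norm_num)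
    obtain ⟨K, a, b, c⟩ := this n
    exact ⟨K, a, b, c.trans_lt k⟩
  · classical
    obtain ⟨A, hA⟩ := (Sys.cnt M hB.cnt).exists_eq_range ⟨⊤, (L B).top⟩
    have a : ∀ n, (L B).df (A n) := fun n => by
      have : A n ∈ {A : AddSubgroup M | (L B).df A} := hA ▸ mem_range_self n
      exact this
    let T : ℕ → AddSubgroup M := fun n =>
      Nat.rec S (fun n T => if T ⊓ A n = ⊥ then T else T ⊓ A n) n
    have e : ∀ n, T (n + 1) = if T n ⊓ A n = ⊥ then T n else T n ⊓ A n := fun _ => rfl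
    have b : ∀ n, (L B).td.df (T n) ∧ T n ≠ ⊥ := fun n => by
      induction n with
      | zero => exact ⟨hS, h⟩
      | succ n k =>
        rw [e]
        split_ifs with l
        · exact k
        · exact ⟨(L B).td.inf k.1 (Cl.td_of (a n)), l⟩
    have c : Antitone T := antitone_nat_of_succ_le fun n => by
      rw [e]
      split_ifs
      · exact le_rfl
      · exact inf_le_left
    refine ⟨⨅ n, T n, iInf_le T 0, Cl.td_iInf fun n => (b n).1, fun k => ?_, fun A' hA' => ?_⟩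
    · obtain ⟨N, l⟩ := td_sat (fun n => (b n).1) c (L B).bot k.le
      exact (b N).2 (le_bot_iff.1 (l N le_rfl))
    · obtain ⟨n, rfl⟩ : A' ∈ range A := hA ▸ hA'
      by_cases l : T n ⊓ A n = ⊥
      · exact Or.inr fun v m k => by
          have : v ∈ T n ⊓ A n := ⟨iInf_le T n m, k⟩
          rwa [l] at this
      · refine Or.inl ((iInf_le T (n + 1)).trans ?_)
        rw [e, if_neg l]
        exact inf_le_right

end Z47
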