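import Pool.Agent.Lib.MP_1e63be_al.Z47.TD

/-!
Toolbox for the system.
-/

namespace Z47

open Set Filter Topology

theorem chain_ind {I : Type} [LinearOrder I] [WellFoundedLT I] {B Φ : Set I} {Q : Set I → Prop}
    (hB : B ⊆ Φ) (h0 : Q B)
    (loc : ∀ Ψ, B ⊆ Ψ → Ψ ⊆ Φ → (∀ s ⊆ Ψ, s.Finite → ∃ Ψ', s ⊆ Ψ' ∧ B ⊆ Ψ' ∧ Ψ' ⊆ Ψ ∧ Q Ψ') → Q Ψ)
    (step : ∀ α ∈ Φ, α ∉ B → Q (B ∪ Φ ∩ Iio α) → Q (insert α (B ∪ Φ ∩ Iio α))) : Q Φ := by
  have key : ∀ U : Set I, IsLowerSet U → (∀ β ∈ U, Q (B ∪ Φ ∩ Iio β)) → Q (B ∪ Φ ∩ U) := by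
    refine fun U hU h => loc _ subset_union_left (union_subset hB inter_subset_left) fun s k l => ?_
    obtain e | e := (s \ B).eq_empty_or_nonempty
    · exact ⟨B, sdiff_eq_empty.1 e, le_rfl, subset_union_left, h0⟩
    obtain ⟨β, m, o⟩ := exists_max_image _ id (l.subset sdiff_subset) e
    have t := (k m.1).resolve_left m.2
    refine ⟨_, fun x u => ?_, subset_union_left.trans (subset_insert _ _), insert_subset (k m.1)
      (union_subset_union_right _ (inter_subset_inter_right _ fun x u => hU u.le t.2)),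
      step β t.1 m.2 (h β t.2)⟩
    by_cases v : x ∈ B
    · exact Or.inr (Or.inl v)
    · exact (o x ⟨u, v⟩).eq_or_lt.imp_right fun w => Or.inr ⟨((k u).resolve_left v).1, w⟩
  simpa [union_eq_right.2 hB] using key univ isLowerSet_univ fun β _ => by
    induction β using WellFoundedLT.induction with
    | ind β k => exact key _ (isLowerSet_Iio β) fun y l => k y l trivial

variable [Amb] [Sys] {B Φ Ψ Λ : Set I} {α ξ : I} {X : Type} [AddCommGroup X] [Module E X] [Std X]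
  {S : AddSubgroup X}

theorem Closed.dep_sub (hΦ : Closed Φ) (h : α ∈ Φ) : dep α ⊆ B ∪ Φ ∩ Iio α :=
  fun _ k => Or.inr ⟨hΦ α h k, Sys.dep_lt α k⟩
theorem Closed.union (hB : Closed B) (hΦ : Closed Φ) : Closed (B ∪ Φ) := fun ζ h =>
  h.elim (fun k => (hB ζ k).trans subset_union_left) fun k => (hΦ ζ k).trans subset_union_right
theorem Closed.inter (hB : Closed B) (hΦ : Closed Φ) : Closed (B ∩ Φ) := fun ζ h =>
  subset_inter (hB ζ h.1) (hΦ ζ h.2)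
theorem closed_Iio (α : I) : Closed (Iio α) := fun ζ h => (Sys.dep_lt ζ).trans (Iio_subset_Iio h.le)
theorem closed_Iic (α : I) : Closed (Iic α) := fun ζ h =>
  (Sys.dep_lt ζ).trans (Iio_subset_Iic_self.trans (Iic_subset_Iic.2 h))
theorem closed_univ : Closed (univ : Set I) := fun _ _ => subset_univ _
theorem Closed.step (hB : Closed B) (hΦ : Closed Φ) (α : I) : Closed (B ∪ Φ ∩ Iio α) :=
  hB.union (hΦ.inter (closed_Iio α))
theorem Closed.insert (hΦ : Closed Φ) (h : dep α ⊆ Φ) : Closed (insert α Φ) := fun ζ k =>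
  (k.elim (fun e => e ▸ h) (hΦ ζ)).trans (subset_insert _ _)
theorem not_mem_step (h : α ∉ B) : α ∉ B ∪ Φ ∩ Iio α := fun k => k.elim h fun l => lt_irrefl α l.2
theorem step_sub (h : Ctx Φ Λ) (k : B ⊆ Φ ∩ Λ) (l : α ∈ Φ) : B ∪ Φ ∩ Iio α ⊆ Φ ∩ Λ :=
  union_subset k (inter_subset_inter_right _ (h.low α l))
/-- Every countable set lies in a countable closed set. -/
theorem exists_closed (h : B.Countable) : ∃ B', B ⊆ B' ∧ B'.Countable ∧ Closed B' :=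
  ⟨B ∪ ⋃ ζ ∈ B, dep ζ, subset_union_left, h.union (h.biUnion fun ζ _ => Sys.dep_cnt ζ),
    fun ζ k => k.elim (fun l => (subset_biUnion_of_mem l).trans subset_union_right) fun l =>
      let ⟨η, m, o⟩ := mem_iUnion₂.1 l
      (Sys.dep_cl η ζ o).trans ((subset_biUnion_of_mem m).trans subset_union_right)⟩
theorem Ctx.anti (h : Ctx Φ Λ) (k : Ψ ⊆ Φ) (l : Closed Ψ) : Ctx Ψ Λ :=
  ⟨l, fun α m => h.low α (k m), fun α m Θ o =>
    h.good α (k m) Θ (o.trans (inter_subset_inter_left _ k))⟩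
theorem Ctx.step (h : Ctx Φ Λ) (hB : Closed B) (k : B ⊆ Φ ∩ Λ) (l : α ∈ Φ) (m : α ∉ B) :
    Good α (B ∪ Φ ∩ Iio α) :=
  h.good α l _ (step_sub h k l) (hB.step h.cl α) (not_mem_step m) (h.cl.dep_sub l)
theorem gok_of_good (h : Good α Φ) (k : dep α ⊆ Φ) (l : Gk α) :
    ∃ d y, GOk (L Φ) (p α).a (p α).b d y :=
  let ⟨d, y, m⟩ := (Sys.hG α l).2.2.1
  ⟨d, y, m.same (Sys.ok α).ca (Sys.mono k) (h.g l).1⟩
omit [Sys] in
theorem Pkg.Pure.ai {p : Pkg} (h : p.Pure) : p.ai = ⊥ :=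
  le_bot_iff.1 ((iInf_le _ 1).trans (h.a1 0).le)
omit [Sys] in
theorem Pkg.Pure.Hi {p : Pkg} (h : p.Pure) : p.Hi = ⊥ := by
  rw [Pkg.Hi, h.ai, show p.bi = ⊥ from le_bot_iff.1 ((iInf_le _ 0).trans (h.b 0).le),
    AddSubgroup.bot_prod_bot]
theorem l0_of_good (h1 : St_STEP) (h2 : St_TH) (h3 : St_L0G) (hΦ : Closed Φ) (h : Good α Φ)
    (k : dep α ⊆ Φ) (l : α ∉ Φ) : L0 (L Φ) (p α) := by
  obtain m | m | m := Sys.tri α
  · exact fun μ _ Z _ _ γ _ _ o => funext fun i => by simpa [m.Hi] using mem_pw.1 o i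
  · exact (h2 (h1 hΦ l k) (Sys.hK α m).2.1 (h.k m).1).2
  · obtain ⟨d, y, o⟩ := gok_of_good h k m
    exact h3 (h1 hΦ l k) (Sys.hG α m).2.1 o ((Sys.hG α m).2.2.2.1 ▸ (h.g m).2)
theorem Same.loc (h : ∀ s ⊆ Ψ, s.Finite → ∃ Ψ', s ⊆ Ψ' ∧ Same S (L B) (L Ψ')) :
    Same S (L B) (L Ψ) := fun A k =>
  let ⟨s, a, b, c⟩ := Sys.fin k
  let ⟨_, d, e⟩ := h s a b
  e A (Sys.mono d c)
/-- The two kinds of steps to check (pure steps are free). -/
theorem same_core (h1 : St_STEP) (h2 : St_TH) (h3 : St_L0G) (h4 : St_S0) (h : Ctx Φ Λ)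
    (hB : Closed B) (k : B ⊆ Φ ∩ Λ) (hS : (L B).td.df S) (sm : Small (L B) S)
    (hK : ∀ α ∈ Φ, α ∉ B → NFs (L (B ∪ Φ ∩ Iio α)) (p α).ai →
      Same S (L B) (L (B ∪ Φ ∩ Iio α)) → NM (L (B ∪ Φ ∩ Iio α)) (p α).ai S)
    (hG : ∀ α ∈ Φ, α ∉ B → Gk α → Good α (B ∪ Φ ∩ Iio α) →
      Same S (L B) (L (B ∪ Φ ∩ Iio α)) → NM (L (B ∪ Φ ∩ Iio α)) (p α).ai S) :
    Same S (L B) (L Φ) := by
  refine chain_ind (Q := fun Ψ => Same S (L B) (L Ψ)) (k.trans inter_subset_left) Same.refl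
    (fun Ψ _ _ l => Same.loc fun s a b => let ⟨Θ, c, _, _, d⟩ := l s a b; ⟨Θ, c, d⟩)
    fun α a b c => ?_
  have g := h.step hB k a b
  have d := hB.step h.cl α
  have e : (L B).Le (L (B ∪ Φ ∩ Iio α)) := Sys.mono subset_union_left
  refine c.trans (h4 (h1 d (not_mem_step b) (h.cl.dep_sub a))
    (l0_of_good h1 h2 h3 d g (h.cl.dep_sub a) (not_mem_step b)) (e.td hS) (sm.mono e) ?_)
  obtain m | m | m := Sys.tri α
  · exact m.ai ▸ NM.of_bot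
  · exact hK α a b (g.k m).2 c
  · exact hG α a b m g c

end Z47
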