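import Pool.Agent.Lib.MP_1e63be_al.Z47.NICE
import Pool.Agent.Lib.MP_1e63be_al.Z47.SysB

/-!
Subspaces that are large or have no finite quotient are sums of two proper traces.
-/

namespace Z47

open Set Filter Topology

variable [Amb]

theorem nu47_img {L L' : Cl} {p : Pkg} (st : Step L L' p) (k : p.IsK) (th : TH L p)
    (hn : p.ai ≠ ⊥) {f : M × M → M} (hf : Lin f) (e : ∀ w, f (0, w) = w) :
    ∃ N, ¬ p.ai ≤ (p.G ⊓ p.H N).map hf.hom := by
  have hD : ∀ A : AddSubgroup M, L.df A → L.D fun γ : Unit → M × M => f (γ ()) ∈ A := fun A hA =>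
    (PP.D.of hA).compL (hf.comp (Lin.apply ()))
  obtain ⟨Z, z1, z2⟩ := hD ⊥ L.bot
  obtain ⟨N, t⟩ := th Unit Z z1 fun c l => funext fun i => by
    by_contra o
    refine hn ((AddSubgroup.eq_bot_iff_forall _).2 fun w m => ?_)
    have : f (sc (c ()) • ((0 : M), w)) = 0 := (z2 _).1 (l w m)
    rw [hf.smul, e] at this
    exact (sc_eq_zero this).resolve_left o
  refine ⟨N, fun l => ?_⟩
  have pH := fun j => L.sub (st.ok.df j)
  have pa := fun j => L.sub (st.ok.ca.df j)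
  have pG := fun j => P.inf st.ok.PG (pH j)
  obtain ⟨j, m⟩ := sat_le (L' := PC) st.ok.ca.df st.ok.ca.anti
    (P.map hf (pG N) fun _ => Iff.rfl) l
  obtain ⟨Z', y1, y2⟩ := hD _ (st.ok.ca.df j)
  have u := t j Z' y1 (dd_bot (A := p.a j) ▸ dd_comap (f := fun γ : Unit → M × M => f (γ ()))
    (PP.Fn.of (hf.comp (Lin.apply ()))) (pa j) P.bot (L.sub y1) (L.sub z1)
      (fun γ o => (y2 γ).1 o) fun γ _ o => (z2 γ).2 o)
  have v := dd_map (A := p.a j) (A' := ⊥) (PP.Fn.of hf) (pG j) P.bot (pa j) P.bot (fun x o => by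
    obtain ⟨γ, a, b⟩ := m j le_rfl o
    exact ⟨γ, ⟨a.1, mem_pw.1 (u (x := fun _ => γ) ⟨⟨(y2 _).2 (b ▸ o : hf.hom γ ∈ _),
      mem_pw.2 fun _ => a.1⟩, mem_pw.2 fun _ => a.2⟩) ()⟩, b⟩) fun g o => by
      obtain rfl : g = 0 := o
      exact hf.map_zero
  rw [dd_bot, dd_bot, k.rk, k.b] at v
  exact (ρ_lt (pa _) (pa j) (st.ok.ca.anti j.le_succ) (k.str j)).not_ge v

variable [Sys]

theorem nu47 (h1 : St_STEP) (h2 : St_PURE) (h3 : St_TASKK) (h4 : St_TH) (h5 : St_GOOD) :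
    St_NU := by
  intro B hB S hS hn h
  by_cases sm : Small (L B) S
  · obtain ⟨a, a1, a2, a3, rfl⟩ := h3 hB.cnt hS sm hn
    obtain ⟨ξ, k, rfl, rfl⟩ := Sys.exK B hB a a1 a2 a3 (h.resolve_left (not_not.2 sm))
    have nm : ξ ∉ dep ξ := fun l => lt_irrefl ξ (Sys.dep_lt ξ l)
    have st := h1 hB.cl nm le_rfl
    have ik := (Sys.hK ξ k).2.1
    have th := (h4 st ik ((Ctx.good h5 ξ trivial _ (by simp) hB.cl nm le_rfl).k k).1).1
    have l1 : Lin fun z : M × M => z.2 := by fun_prop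
    have l2 : Lin fun z : M × M => z.1 + z.2 := by fun_prop
    obtain ⟨N, b⟩ := nu47_img st ik th hn l1 fun _ => rfl
    obtain ⟨N', b'⟩ := nu47_img st ik th hn l2 fun _ => zero_add _
    have d := fun j => Sys.mono (subset_univ _) ((L _).inf st.ext.df (st.ext.le (st.ok.df j)))
    refine ⟨_, _, (L _).map l1 (d N) fun _ => Iff.rfl, (L _).map l2 (d N') fun _ => Iff.rfl, b, b',
      fun v m => ?_⟩
    have mb : ∀ j, v ∈ (p ξ).b j := fun j => ik.b j ▸ AddSubgroup.mem_iInf.1 m (j + 1)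
    choose w w1 w2 using fun j => st.ok.tot j v (mb j)
    have e : ∀ j, w j = w 0 := fun j =>
      sub_eq_zero.1 (ik.fn _ (by simpa using (p ξ).G.sub_mem (w2 j) (w2 0)))
    have o : w 0 ∈ ⨅ j, (p ξ).a j := AddSubgroup.mem_iInf.2 fun j => e j ▸ w1 j
    have g : ∀ j, (v, w 0) ∈ (p ξ).G ⊓ (p ξ).H j := fun j => ⟨w2 0, mb j, e j ▸ w1 j⟩
    exact AddSubgroup.mem_sup.2 ⟨-w 0, neg_mem ⟨⟨_, g N, rfl⟩, o⟩, v + w 0,
      ⟨⟨_, g N', rfl⟩, add_mem m o⟩, by abel⟩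
  simp only [Small, not_forall, not_exists, not_and, not_lt] at sm
  obtain ⟨ε, e0, e⟩ := sm
  have e1 : ε ≤ 1 := Amb.ρ_top ▸ e ⊤ (L B).top le_top
  obtain ⟨Q, q1, -, q2⟩ := N50.fresh h2 hB.cnt (r := 1 - ε / 3) (by linarith) (by linarith)
  obtain ⟨s, -, s1, s2⟩ := Sys.fin q1
  obtain ⟨Q', r1, -, r2⟩ := N50.fresh h2 (hB.cnt.union s1.countable) (r := 1 - ε / 3)
    (by linarith) (by linarith)
  have lb : (L B).Le (L (B ∪ s)) := Sys.mono subset_union_left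
  have key : ∀ T, (L univ).df T → (∀ A, (L B).df A → ρ (A ⊓ T) = max 0 (ρ A + (1 - ε / 3) - 1)) →
      ¬ S ≤ T := fun T t u l => by
    obtain ⟨K, k1, k2, k3⟩ := td_le hS t l
    have := u K k1
    have := e K k1 k2
    rw [inf_eq_left.2 k3, max_eq_right (by linarith)] at *
    linarith
  refine ⟨Q, Q', q1, r1, key Q q1 q2, key Q' r1 fun A a => r2 A (lb a), fun v m => ?_⟩
  obtain ⟨Z, z1, z2, z3⟩ := hS
  have pZ := fun n => (L B).sub (z1 n)
  have pQ := fun n => P.inf (pZ n) ((L _).sub q1)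
  have pQ' := fun n => P.inf (pZ n) ((L _).sub r1)
  obtain ⟨x, x1, rfl⟩ := Amb.sat1 (f := fun z : M × M => z.1 + z.2) (y := v)
    (K := fun n => (Z n ⊓ Q).prod (Z n ⊓ Q')) (by fun_prop) (fun n => PP.prod (pQ n) (pQ' n))
    (fun _ _ l => AddSubgroup.prod_mono (inf_le_inf_right _ (z2 l)) (inf_le_inf_right _ (z2 l)))
    fun n => by
      have a := e _ (z1 n) fun y l => (z3 y).1 l n
      have b := Amb.ρ_mod (pQ n) (pQ' n)
      have c := r2 _ ((L _).inf (lb (z1 n)) (Sys.mono subset_union_right s2))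
      rw [show Z n ⊓ Q ⊓ (Z n ⊓ Q') = Z n ⊓ Q ⊓ Q' from
        le_antisymm (inf_le_inf_left _ inf_le_right) (le_inf inf_le_left
          (inf_le_inf_right _ inf_le_left)), c, r2 _ (lb (z1 n)), q2 _ (z1 n),
        max_eq_right (b := ρ (Z n) + _ - 1) (by linarith), max_eq_right (by linarith)] at b
      obtain ⟨y, y1, y', y2, o⟩ := AddSubgroup.mem_sup.1 (Amb.ρ_faith (PP.sup (pQ n) (pQ' n)) (pZ n)
        (sup_le inf_le_left inf_le_left) (by linarith) ((z3 v).1 m n))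
      exact ⟨(y, y'), ⟨y1, y2⟩, o⟩
  exact AddSubgroup.add_mem_sup ⟨(x1 0).1.2, (z3 _).2 fun n => (x1 n).1.1⟩
    ⟨(x1 0).2.2, (z3 _).2 fun n => (x1 n).2.1⟩

end Z47
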