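import Pool.Agent.Lib.MP_1e63be_al.Z47.SysB

/-!
The base point stays rational; atoms over nice bases.
-/

namespace Z47

open Set Filter Topology

variable [Amb]

theorem Glued.mono {L L' L'' : Cl} {σ κ : AddSubgroup M} (h : Glued L L' σ κ) (k : L'.Le L'') :
    Glued L L'' σ κ :=
  let ⟨d, y, z, a, b, c⟩ := h
  ⟨d, y, z, a, k.td b, c⟩

theorem Atom.p2 {L L' : Cl} {κ : AddSubgroup M} (h : Atom L' κ) : P2 L L' κ := fun A a b =>
  ⟨1, fun _ => 1, fun _ => ⟨PP.Dy.one, fun v l => by simpa using l⟩, fun v l m =>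
    (h.2 A a).resolve_left b v l (by simpa using m 0)⟩

variable [Sys]

theorem stRAT (h1 : St_STEP) (h2 : St_TH) (h3 : St_L0G) (h4 : St_S0) (h5 : St_SIG) : St_RAT := by
  obtain ⟨s1, -, s2, -, s3, s4⟩ := h5
  have a1 : (L (range q)).td.df si := s2 ▸ s1.td
  have a2 : Small (L (range q)) si := s2 ▸ s1.small
  have a3 : ∀ {Φ Λ}, Ctx Φ Λ → range q ⊆ Φ ∩ Λ → Same (si.prod si) (L (range q)) (L Φ) :=
    fun {Φ Λ} h k => same_core h1 h2 h3 h4 h s3 k (PP.prod a1 a1) (a2.prod a2)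
      (fun α _ _ l m =>
        have := (Sys.mono (subset_union_left (t := Φ ∩ Iio α))).td a1
        have b := l.nm this (m.finI (PP.prod a1 a1) s4.fin2)
        b.prod b this)
      fun α _ _ l m _ =>
        have := (Sys.mono (subset_union_left (t := Φ ∩ Iio α))).td a1
        have b := (m.g l).2.symm.nm
        b.prod b this
  intro Φ Λ h k μ _ A hA
  obtain ⟨A', b1, b2⟩ := same_core (S := (pw si : AddSubgroup (μ → M))) h1 h2 h3 h4 h s3 k
    (PP.pw a1) a2.pw
    (fun α _ _ l _ =>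
      have := (Sys.mono (subset_union_left (t := Φ ∩ Iio α))).td a1
      (l.nm this ((a3 (h.anti (union_subset (k.trans inter_subset_left) inter_subset_left)
        (s3.step h.cl α)) (subset_inter subset_union_left (k.trans inter_subset_right))).finI
        (PP.prod a1 a1) s4.fin2)).pw this)
    (fun α _ _ l m _ =>
      (m.g l).2.symm.nm.pw ((Sys.mono (subset_union_left (t := Φ ∩ Iio α))).td a1)) A hA
  obtain ⟨C, b3⟩ := s4 μ A' b1
  exact ⟨C, fun v l => (b2 v l).trans (b3 v l)⟩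

theorem stP2 (h1 : St_STEP) (h2 : St_TH) (h3 : St_L0G) (h4 : St_S0) (h5 : St_SIG) (h6 : St_RAT)
    (h7 : St_P2S) (h8 : St_P2G) (h9 : St_TRG) (h10 : St_GLUE) : St_P2 := by
  intro Φ Λ B h hB k κ hκ sm hA
  have kΦ : B ⊆ Φ := k.trans inter_subset_left
  have st : ∀ α ∈ Φ, α ∉ B → α ∉ B ∪ Φ ∩ Iio α := fun α _ l m =>
    m.elim l fun m => lt_irrefl α m.2
  have Q : Fin2 (L B) κ → Glued (L B) (L Φ) si κ ∨ Same (κ.prod κ) (L B) (L Φ) := fun hF => by
    refine or_iff_not_imp_left.2 fun nG => same_core h1 h2 h3 h4 h hB.cl k (PP.prod hκ hκ)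
      (sm.prod sm) (fun α _ _ l m => ?_) fun α a1 a2 l m n => ?_
    · have := (Sys.mono (subset_union_left (t := Φ ∩ Iio α))).td hκ
      have b := l.nm this (m.finI (PP.prod hκ hκ) hF)
      exact b.prod b this
    · have := (Sys.mono (subset_union_left (t := Φ ∩ Iio α))).td hκ
      suffices b : Orth (L (B ∪ Φ ∩ Iio α)) (p α).ai κ from b.nm.prod b.nm this
      by_contra b
      have c1 := h1 (hB.cl.step h.cl α) (st α a1 a2) (h.cl.dep_sub a1)
      obtain ⟨d, y, c2⟩ := gok_of_good m (h.cl.dep_sub a1) l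
      obtain ⟨-, c3, -, c4, -⟩ := Sys.hG α l
      have c5 := h10 c1 c3 c2
        (l0_of_good h1 h2 h3 (hB.cl.step h.cl α) m (h.cl.dep_sub a1) (st α a1 a2))
      rw [c4] at c5
      exact nG ((h9 (Sys.mono subset_union_left) c1.ext.le hB.cmp hκ c1.ok.ca.td
        (n.fst.atom hA) c2.atom n b c5).mono
        (Sys.mono (insert_subset a1 (union_subset kΦ inter_subset_left))))
  refine ⟨?_, Q⟩
  by_cases hF : Fin2 (L B) κ
  · rcases Q hF with a | a
    · exact h8 (Sys.mono kΦ) hB.cmp hκ h5.2.2.2.1 hA hF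
        (h6 h ((range_subset_iff.2 hB.q).trans k)) a
    · exact (a.fst.atom hA).p2
  · refine chain_ind (Q := fun Ψ => P2 (L B) (L Ψ) κ) kΦ hA.p2 (fun Ψ _ _ l A a b => ?_)
      fun α a1 a2 l => ?_
    · obtain ⟨s, c1, c2, c3⟩ := Sys.fin a
      obtain ⟨Ψ', c4, -, -, c5⟩ := l s c1 c2
      exact c5 A (Sys.mono c4 c3) b
    · have c0 : (L B).Le (L (B ∪ Φ ∩ Iio α)) := Sys.mono subset_union_left
      exact h7 (h1 (hB.cl.step h.cl α) (st α a1 a2) (h.cl.dep_sub a1))
        (l0_of_good h1 h2 h3 (hB.cl.step h.cl α) (h.step hB.cl k a1 a2) (h.cl.dep_sub a1)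
          (st α a1 a2)) c0 (c0.td hκ) (sm.mono c0) (end_inf' hB.cmp hκ hA hF) l

end Z47
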