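import Pool.Agent.Lib.MP_1e63be_al.Z47.TD

/-!
Glued atoms: proper subspaces are killed by finitely many old endomorphisms.
-/

namespace Z47

open Set Filter Topology

variable [Amb]

theorem En.one {L : Cl} {κ : AddSubgroup M} : En L κ 1 := ⟨PP.Dy.one, fun v h => by simpa using h⟩

theorem En.mul {L : Cl} {κ : AddSubgroup M} {y z : E} (h : En L κ y) (k : En L κ z) :
    En L κ (y * z) := ⟨h.1.mul k.1, fun v l => by rw [mul_smul]; exact h.2 _ (k.2 _ l)⟩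

theorem En.yc {L : Cl} {κ : AddSubgroup M} {d : ℕ} {y : Fin d → E} (h : ∀ k, En L κ (y k))
    (c : Fin d → F) : En L κ (yc y c) :=
  ⟨PP.Dy.yc (fun k => (h k).1) c, fun v l => by
    rw [yc_smul]
    exact κ.sum_mem fun k _ => (h k).2 _ (sc_mem _ l)⟩

/-- Finitely many representatives of the endomorphisms. -/
theorem Fin2.reps {L : Cl} {κ : AddSubgroup M} (hκ : L.td.df κ) (h : Fin2 L κ) :
    ∃ (n : ℕ) (Y : Fin n → E), (∀ i, En L κ (Y i)) ∧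
      ∀ y, En L κ y → ∃ i, ∀ v ∈ κ, y • v = Y i • v := by
  have a1 : ∀ y : {y // En L κ y}, ∃ T : AddSubgroup (M × M), L.td.df T ∧
      ∀ x, x ∈ T ↔ x.1 ∈ κ ∧ y.1 • x.1 = x.2 := fun y =>
    have := Cl.tdDy y.2.1
    (PP.D.mem hκ (by fun_prop)).and (PP.D.eq (by fun_prop (disch := assumption)) (by fun_prop))
  choose T a2 a3 using a1
  have a4 : (range T).Finite := h.subset (by
    rintro _ ⟨y, rfl⟩
    exact ⟨a2 y, bot_le, fun x k => ⟨((a3 y x).1 k).1,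
      ((a3 y x).1 k).2 ▸ y.2.2 _ ((a3 y x).1 k).1⟩⟩)
  have := a4.to_subtype
  obtain ⟨n, ⟨e⟩⟩ := Finite.exists_equiv_fin (range T)
  refine ⟨n, fun i => (e.symm i).2.choose.1, fun i => (e.symm i).2.choose.2, fun y hy =>
    ⟨e ⟨T ⟨y, hy⟩, _, rfl⟩, fun v hv => ?_⟩⟩
  have b1 := (e.symm (e ⟨T ⟨y, hy⟩, _, rfl⟩)).2.choose_spec
  have b2 : (v, y • v) ∈ T ⟨y, hy⟩ := (a3 _ _).2 ⟨hv, rfl⟩
  have b3 : (e.symm (e ⟨T ⟨y, hy⟩, _, rfl⟩)).1 = T ⟨y, hy⟩ := by rw [e.symm_apply_apply]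
  rw [← b3, ← b1] at b2
  exact ((a3 _ _).1 b2).2.symm

/-- Nonzero endomorphisms of atoms are invertible. -/
theorem En.inv {L : Cl} {κ : AddSubgroup M} (hL : Cmp L) (hκ : L.td.df κ) (h : Atom L κ) {y : E}
    (hy : En L κ y) (k : ∃ v ∈ κ, y • v ≠ 0) : ∃ y', En L κ y' ∧ ∀ v ∈ κ, y' • y • v = v := by
  have a0 := Cl.tdDy hy.1
  have a1 : ∀ v ∈ κ, y • v = 0 → v = 0 := by
    obtain ⟨A, a, b⟩ : L.D fun v : M => y • v = 0 :=
      have := hy.1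
      PP.D.eq (by fun_prop (disch := assumption)) (by fun_prop)
    obtain ⟨v, k1, k2⟩ := k
    exact fun w l m => ((h.2 A a).resolve_left fun e => k2 ((b v).1 (e k1))) w l ((b w).2 m)
  obtain ⟨θ, a2, a3⟩ : L.td.D fun x : M × M => x.2 ∈ κ ∧ y • x.2 = x.1 :=
    (PP.D.mem hκ (by fun_prop)).and (PP.D.eq (by fun_prop (disch := assumption)) (by fun_prop))
  obtain ⟨y', a4, a5⟩ := rep hL a2 fun w l => a1 w ((a3 _).1 l).1 ((a3 _).1 l).2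
  obtain ⟨R, a6, a7⟩ : L.td.D fun v : M => ∃ w, (v, w) ∈ θ :=
    PP.D.ex (r := fun v w : M => (v, w) ∈ θ) (PP.D.mem a2 (by fun_prop))
  have a8 : R = κ := (h.td a6 fun v l => by
    obtain ⟨w, m⟩ := (a7 v).1 l
    exact (show y • w = v from ((a3 _).1 m).2) ▸ hy.2 _ ((a3 _).1 m).1).resolve_left fun e => by
      obtain ⟨v, k1, k2⟩ := k
      exact k2 (AddSubgroup.mem_bot.1 (e ▸ (a7 _).2 ⟨v, (a3 _).2 ⟨k1, rfl⟩⟩))
  refine ⟨y', ⟨a4, fun v l => ?_⟩, fun v l => a5 _ _ ((a3 _).2 ⟨l, rfl⟩)⟩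
  obtain ⟨w, m⟩ := (a7 v).1 (a8 ▸ l)
  exact a5 _ _ m ▸ ((a3 _).1 m).1

theorem stP2G : St_P2G := by
  intro L₀ L σ κ hle hC hκ hσ hA hF hR ⟨d, y, z, g1, g2, g3, g4, g5, g6, g7⟩ A dA nA
  obtain ⟨n, Y, a1, a2⟩ := hF.reps hκ
  refine ⟨n, Y, a1, fun v₀ k1 k2 => by_contra fun k3 => nA ?_⟩
  obtain ⟨T, b1, b2⟩ : L.td.D fun v : M => v ∈ κ ∧ ∀ i, Y i • v ∈ A :=
    (PP.D.of (hle.td hκ)).and (PP.D.all fun i =>
      have := Cl.tdDy (hle.Dy (a1 i).1)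
      PP.D.mem (Cl.td_of dA) (by fun_prop (disch := assumption)))
  have b3 : ∀ x, En L₀ κ x → ∀ v ∈ T, x • v ∈ T := fun x hx v hv => by
    obtain ⟨c1, c2⟩ := (b2 v).1 hv
    refine (b2 _).2 ⟨hx.2 v c1, fun i => ?_⟩
    obtain ⟨j, c3⟩ := a2 _ ((a1 i).mul hx)
    rw [← mul_smul, c3 v c1]
    exact c2 j
  have b4 : T ≤ A := fun v hv => by
    obtain ⟨c1, c2⟩ := (b2 v).1 hv
    obtain ⟨j, c3⟩ := a2 _ En.one
    rw [← one_smul E v, c3 v c1]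
    exact c2 j
  have hy : ∀ k, L.td.Dy (y k) := fun k => Cl.tdDy (hle.Dy (g1 k).1)
  obtain ⟨T', b5, b6⟩ : L.td.D fun u : Fin d → M =>
      ∃ w : Fin d → M, (∀ k, (u k, w k) ∈ z) ∧ ∑ k, y k • w k ∈ T :=
    PP.D.ex (r := fun u w : Fin d → M => (∀ k, (u k, w k) ∈ z) ∧ ∑ k, y k • w k ∈ T)
      ((PP.D.all fun k => PP.D.mem g2 (by fun_prop)).and
        (PP.D.mem b1 (PP.Fn.sum _ fun k => PP.Fn.smul (hy k) (by fun_prop))))
  obtain ⟨c, c1, c2⟩ := hR.weak b5 (fun u l => by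
    obtain ⟨w, m, -⟩ := (b6 u).1 l
    exact mem_pw.2 fun k => (g3 (m k)).1) fun e => by
      obtain ⟨h, m1, m2⟩ := g6 v₀ k1
      have : (fun k => (h k).1) ∈ T' := (b6 _).2 ⟨fun k => (h k).2, m1, m2 ▸ (b2 _).2 ⟨k1, k2⟩⟩
      rw [e, AddSubgroup.mem_bot] at this
      refine k3 (m2 ▸ Finset.sum_eq_zero fun k _ => ?_)
      rw [g5 (h k).2 ((show (h k).1 = 0 from congrFun this k) ▸ m1 k), smul_zero]
  have c3 : ∀ h ∈ z, yc y c • h.2 ∈ T := fun h l => by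
    obtain ⟨w, m1, m2⟩ := (b6 _).1 (c2 h.1 (g3 l).1)
    rw [yc_smul]
    convert m2 using 3 with k
    refine (sub_eq_zero.1 (g5 _ ?_)).symm
    convert z.sub_mem (m1 k) (sc_mem (c k) l) using 1
    exact Prod.ext (sub_self _).symm rfl
  obtain ⟨y', c4, c5⟩ := (En.yc g1 c).inv hC hκ hA (by
    obtain ⟨⟨u, m1⟩, m2⟩ := AddSubgroup.ne_bot_iff_exists_ne_zero.1 hσ
    obtain ⟨w, m3⟩ := g4 u m1
    refine ⟨w, (g3 m3).2, fun e => m2 (Subtype.ext ?_)⟩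
    have := g7 (tens c (u, w)) (fun k => sc_mem _ m3) ((yc_smul y c w).symm.trans e)
    exact congrArg Prod.fst ((tens_eq_zero this).resolve_left c1))
  intro v hv
  obtain ⟨h, m1, rfl⟩ := g6 v hv
  refine b4 (T.sum_mem fun k _ => b3 _ (g1 k) _ ?_)
  rw [← c5 _ (g3 (m1 k)).2]
  exact b3 _ c4 _ (c3 _ (m1 k))

end Z47
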