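import Pool.Agent.Lib.MP_1e63be_al.Z47.Blue

/-!
Generic subspaces for the three kinds of packages.
-/

namespace Z47

open Set Filter Topology

variable [Amb]

namespace PK21

/-- Genericity is invariant under reindexing. -/
theorem reindex {μ ν : Type} (e : μ ≃ ν) {H : ℕ → AddSubgroup (M × M)} {G : AddSubgroup (M × M)}
    {Y : AddSubgroup (μ → M × M)} {Y' : AddSubgroup (ν → M × M)}
    (hY : ∀ x, x ∈ Y' ↔ (fun i => x (e i)) ∈ Y) (h : GenAt H G Y') : GenAt H G Y := by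
  obtain ⟨l, a, b⟩ := h
  have f1 : Lin fun (x : ν → M × M) i => x (e i) := by fun_prop
  have f2 : Lin fun (x : μ → M × M) i => x (e.symm i) := by fun_prop
  have t1 : ∀ x ∈ Ty H l, (fun i => x (e i)) ∈ Ty H fun c => l fun i => c (e.symm i) :=
    fun x k => (Ty_le (A := (Ty H fun c => l fun i => c (e.symm i)).comap f1.hom)).2
      (fun c n s h t => mem_Ty (c := fun i => c (e i)) (n := n) (by simpa using s) t) k
  have t2 : ∀ x ∈ Ty H fun c => l fun i => c (e.symm i), (fun i => x (e.symm i)) ∈ Ty H l :=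
    fun x k => (Ty_le (A := (Ty H l).comap f2.hom)).2
      (fun c n s h t => mem_Ty (c := fun i => c (e.symm i)) s t) k
  refine ⟨fun c => l fun i => c (e.symm i), fun x k => ?_, fun x k => ?_⟩
  · simpa using t1 _ (a (x := fun i => x (e.symm i))
      ⟨(hY _).2 (by simpa using k.1), mem_pw.2 fun i => mem_pw.1 k.2 _⟩)
  · obtain ⟨y, s, z, t, u⟩ := AddSubgroup.mem_sup.1 (b (t2 x k))
    exact AddSubgroup.mem_sup.2 ⟨fun i => y (e i), ⟨(hY _).1 s.1, t1 _ s.2⟩, fun i => z (e i),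
      mem_pw.2 fun i => mem_pw.1 t _, funext fun i => by simpa using congrFun u (e i)⟩

/-- A generic subspace over a small class. -/
theorem gen (L : Cl)
    (hL : ∀ k, Cardinal.mk {A : AddSubgroup (Fin k → M × M) | L.df A} ≤ Cardinal.continuum)
    (H : ℕ → AddSubgroup (M × M)) (r : ℕ → ℝ) (h1 : ∀ j, P.df (H j)) (h2 : Antitone H)
    (h3 : Tendsto (fun j => ρ (H j)) atTop (𝓝 0)) (h4 : Antitone r) (h5 : ∀ j, 0 ≤ r j)
    (h6 : ∀ j, r j ≤ ρ (H j)) (h7 : Antitone fun j => ρ (H j) - r j) :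
    ∃ G, P.df G ∧ G ≤ H 0 ∧ (∀ j, ρ (G ⊓ H j) = r j) ∧ Gen H G L.toPP := by
  obtain ⟨G, a, b, c, d⟩ := Amb.gen H r {Y | L.df Y.2} h1 h2 h3 h4 h5 h6 h7 (by
    refine (Cardinal.mk_le_of_injective
      (f := fun Y : {Y : Σ k : ℕ, AddSubgroup (Fin k → M × M) | L.df Y.2} =>
        (⟨Y.1.1, Y.1.2, Y.2⟩ : Σ k : ℕ, {A : AddSubgroup (Fin k → M × M) | L.df A})) ?_).trans ?_
    · rintro ⟨⟨k, A⟩, s⟩ ⟨⟨k', A'⟩, s'⟩ e
      obtain ⟨rfl, e⟩ := Sigma.mk.inj_iff.1 e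
      obtain rfl : A = A' := congrArg Subtype.val (eq_of_heq e)
      rfl
    · rw [Cardinal.mk_sigma]
      exact (Cardinal.sum_le_sum _ _ hL).trans (by simp)) fun Y k => L.sub k
  refine ⟨G, a, b, c, fun μ _ Y k => ?_⟩
  have e := Finite.equivFin μ
  have f : Lin fun (x : Fin (Nat.card μ) → M × M) i => x (e i) := by fun_prop
  exact reindex e (Y' := Y.comap f.hom) (fun _ => Iff.rfl)
    (d ⟨_, Y.comap f.hom⟩ (L.comap f k fun _ => Iff.rfl))

/-- The rank of a trace splits. -/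
theorem split {G : AddSubgroup (M × M)} (hG : P.df G) : ∃ A K : AddSubgroup M, P.df A ∧ P.df K ∧
    (∀ u, u ∈ A ↔ ∃ w, (u, w) ∈ G) ∧ (∀ w, w ∈ K ↔ ((0 : M), w) ∈ G) ∧ ρ G = ρ A + ρ K := by
  obtain ⟨A, a, b⟩ : P.D fun u : M => ∃ w, (u, w) ∈ G := PP.D.ex (PP.D.of hG)
  obtain ⟨K, c, d⟩ : P.D fun w : M => ((0 : M), w) ∈ G := PP.D.mem hG (by fun_prop)
  exact ⟨A, K, a, c, b, d, ρ_rel hG b d⟩

/-- A generic subspace of the right ranks is functional. -/
theorem fn {L : Cl} {p : Pkg} (hH : ∀ j, P.df (p.H j)) (hb : ∀ j, P.df (p.b j)) (hG : P.df p.G)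
    (rk : ∀ j, ρ (p.G ⊓ p.H j) = ρ (p.b j)) (h : Gen p.H p.G L.toPP) (w : M)
    (k : ((0 : M), w) ∈ p.G) : w = 0 := by
  obtain ⟨Y, a, b⟩ : L.D fun x : Unit → M × M => (x ()).1 = 0 := PP.D.eq (by fun_prop) (by fun_prop)
  obtain ⟨l, c, d⟩ := h Unit Y a
  have f : Lin fun x : Unit → M × M => x () := by fun_prop
  have t : ∀ x ∈ Ty p.H l, x () ∈ Hx p.H (l 1) := fun x s =>
    (Ty_le (A := (Hx p.H (l 1)).comap f.hom)).2 (fun c n s h t => by
      obtain e | e := F01 (c ())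
      · simp [e]
      · obtain rfl : c = 1 := funext fun _ => e
        simpa [s] using t) s
  have u := t _ (c (x := fun _ => (0, w)) ⟨(b _).2 rfl, mem_pw.2 fun _ => k⟩)
  cases e : l 1 using ENat.recTopCoe with
  | top => simpa [e] using u
  | coe n =>
    rw [e] at t u
    obtain ⟨A, K, a1, a2, b1, b2, r⟩ := split (P.inf hG (hH n))
    have le : p.b n ≤ A := fun v s => by
      obtain ⟨y, y1, z, z1, z2⟩ := AddSubgroup.mem_sup.1
        (d (mem_Ty (c := 1) e (h := (v, 0)) ⟨s, (p.a n).zero_mem⟩))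
      have e1 : y () + z () = (v, 0) := by simpa using congrFun z2 ()
      have e2 : (y ()).1 = 0 := (b y).1 y1.1
      have e3 : z () = (v, 0) - y () := eq_sub_of_add_eq' e1
      refine (b1 v).2 ⟨(z ()).2, ?_⟩
      rw [show (v, (z ()).2) = z () from Prod.ext (by simp [e3, e2]) rfl]
      exact ⟨mem_pw.1 z1 (), e3 ▸ (p.H n).sub_mem ⟨s, (p.a n).zero_mem⟩ (t y y1.2)⟩
    have : K = ⊥ := ρ_eq_zero a2 (by linarith [rk n, Amb.ρ_mono (hb n) a1 le])
    simpa [this] using (b2 w).2 ⟨k, u⟩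

end PK21

theorem stPKG : St_PKG := fun L hL => by
  refine ⟨fun r r0 r1 => ?_, fun L₀ a b ha hb hs => ?_⟩
  · let a : ℕ → AddSubgroup M := fun j => Nat.casesOn j ⊤ fun _ => ⊥
    have an : Antitone a := antitone_nat_of_succ_le fun _ => bot_le
    have ca : ∀ L₀ : Cl, Chn L₀ a := fun L₀ => ⟨fun j => by cases j; exacts [L₀.top, L₀.bot], an,
      (tendsto_add_atTop_iff_nat 1).1 (by simp [a])⟩
    have cb : ∀ L₀ : Cl, Chn L₀ fun _ : ℕ => (⊥ : AddSubgroup M) := fun L₀ =>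
      ⟨fun _ => L₀.bot, antitone_const, by simp⟩
    have rH : ∀ j, ρ ((⊥ : AddSubgroup M).prod (a j)) = ρ (a j) := fun j => by
      simp [ρ_prod P.bot (L.sub ((ca L).df j))]
    obtain ⟨G, g1, g2, g3, g4⟩ := PK21.gen L hL (fun j => (⊥ : AddSubgroup M).prod (a j))
      (fun j => Nat.casesOn j r fun _ => 0) (fun j => PP.prod P.bot (L.sub ((ca L).df j)))
      (fun _ _ k => AddSubgroup.prod_mono le_rfl (an k)) (by simpa only [rH] using (ca L).lim)
      (antitone_nat_of_succ_le fun j => by cases j; exacts [r0, le_rfl])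
      (fun j => by cases j; exacts [r0, le_rfl])
      (fun j => by rw [rH]; cases j <;> simp [a, Amb.ρ_top, r1])
      (antitone_nat_of_succ_le fun j => by rw [rH j, rH (j + 1)]; cases j <;> simp [a, Amb.ρ_top, r1])
    refine ⟨⟨a, fun _ => ⊥, G⟩, ⟨fun _ => rfl, rfl, fun _ => rfl⟩, fun L₀ =>
      ⟨ca L₀, cb L₀, g1, g2, fun j u k => ⟨0, (a j).zero_mem, ?_⟩, fun _ _ => rfl⟩, g4, ?_⟩
    · obtain rfl : u = 0 := k
      exact G.zero_mem
    · have := ρ_rel (A := ⊥) (K := Pkg.Pr ⟨a, fun _ => ⊥, G⟩) g1 (fun x => ⟨fun k => ⟨0, by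
        obtain rfl : x = 0 := k
        exact G.zero_mem⟩, fun ⟨_, k⟩ => (g2 k).1⟩) fun _ => Iff.rfl
      have e := g3 0
      rw [inf_eq_left.2 g2] at e
      simpa [e] using this.symm
  · have pa := fun j => L₀.sub (ha.df j)
    have pb := fun j => L₀.sub (hb.df j)
    obtain ⟨G, g1, g2, g3, g4⟩ := PK21.gen L hL (fun j => (b j).prod (a j)) (fun j => ρ (b j))
      (fun j => PP.prod (pb j) (pa j)) (fun _ _ k => AddSubgroup.prod_mono (hb.anti k) (ha.anti k))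
      (by simpa [fun j => ρ_prod (pb j) (pa j)] using hb.lim.add ha.lim)
      (fun _ _ k => Amb.ρ_mono (pb _) (pb _) (hb.anti k)) (fun j => ρ_nonneg (pb j))
      (fun j => by linarith [ρ_prod (pb j) (pa j), ρ_nonneg (pa j)])
      fun i j k => by
        have := Amb.ρ_mono (pa _) (pa _) (ha.anti k)
        simp only [ρ_prod (pb _) (pa _)]; linarith
    have fn := PK21.fn (L := L) (p := ⟨a, b, G⟩) (fun j => PP.prod (pb j) (pa j)) pb g1 g3 g4
    refine ⟨G, ⟨ha, hb, g1, g2, fun j u k => ?_, fun j k => (hs j (k.le.trans bot_le)).elim⟩,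
      ⟨fn, hs, g3⟩, g4⟩
    obtain ⟨A, K, a1, a2, b1, b2, r⟩ := PK21.split (P.inf g1 (PP.prod (pb j) (pa j)))
    obtain rfl : K = ⊥ := le_bot_iff.1 fun w s => fn w ((b2 w).1 s).1
    obtain ⟨w, s⟩ := (b1 u).1 (Amb.ρ_faith a1 (pb j) (fun v s => ((b1 v).1 s).elim fun _ t => t.2.1)
      (by rw [← g3 j, r]; simp) k)
    exact ⟨w, s.2.2, s.1⟩

end Z47
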