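import Pool.Agent.Lib.MP_1e63be_al.Z47.Blue

/-!
Pure packages and the base point.
-/

namespace Z47

open Set Filter Topology

variable [Amb]

namespace PUREb

theorem rat {L L' : Cl} {p : Pkg} (s : Step L L' p) (h : p.Pure) (μ : Type) [Finite μ]
    (A : AddSubgroup (μ → M)) (hA : L.df A) :
    ∃ C, A ⊓ pw p.Pr ≤ WC C ∧ WC C ≤ (A ⊓ WC C) ⊔ pw p.Pr := by
  have lπ : Lin fun (γ : μ → M × M) i => (γ i).2 := by fun_prop
  have lι : Lin fun (v : μ → M) i => ((0 : M), v i) := by fun_prop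
  obtain ⟨l, h1, h2⟩ := s.gen μ (A.comap lπ.hom) (L.comap lπ hA fun _ => Iff.rfl)
  have e1 : Ty p.H l ≤ (WC {c | l c = (0 : ℕ)}).comap lπ.hom := Ty_le.2 fun c n e x k => by
    show (fun i => (tens c x i).2) ∈ WC {c | l c = (0 : ℕ)}
    have : (fun i => (tens c x i).2) = tens c x.2 := rfl
    rw [this]
    cases n with
    | zero => exact WC_le.1 le_rfl c e _
    | succ n =>
      have : x.2 = 0 := by simpa [h.a1] using k.2
      rw [this, tens_zero]
      exact zero_mem _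
  have e2 : WC {c | l c = (0 : ℕ)} ≤ (Ty p.H l).comap lι.hom := WC_le.2 fun c e w => by
    show (fun i => ((0 : M), tens c w i)) ∈ Ty p.H l
    have : (fun i => ((0 : M), tens c w i)) = tens c ((0 : M), w) := funext fun i => by simp
    rw [this]
    exact mem_Ty e ⟨zero_mem _, by simp [h.a0]⟩
  refine ⟨{c | l c = (0 : ℕ)}, fun v k => ?_, fun v k => ?_⟩
  · exact e1 (h1 (show (fun i => ((0 : M), v i)) ∈ _ from ⟨k.1, mem_pw.2 fun i => mem_pw.1 k.2 i⟩))
  · obtain ⟨y, hy, g, hg, e⟩ := AddSubgroup.mem_sup.1 (h2 (e2 k))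
    refine AddSubgroup.mem_sup.2 ⟨fun i => (y i).2, ⟨hy.1, e1 hy.2⟩, fun i => (g i).2,
      mem_pw.2 fun i => ?_, funext fun i => congrArg Prod.snd (congrFun e i)⟩
    have a := mem_pw.1 hg i
    have b : (g i).1 = 0 := by simpa [h.b] using (s.ok.le a).1
    rw [Pkg.mem_Pr, ← b]
    exact a

theorem alt {L L' : Cl} {p : Pkg} (s : Step L L' p) (h : p.Pure) (A : AddSubgroup M)
    (hA : L.df A) : A ⊓ p.Pr = ⊥ ∨ A ⊔ p.Pr = ⊤ := by
  obtain ⟨C, h1, h2⟩ := rat s h Unit (pw A) (PP.pw hA)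
  by_cases k : ∃ c ∈ C, c () = 1
  · obtain ⟨c, hc, e⟩ := k
    refine Or.inr (eq_top_iff.2 fun w _ => ?_)
    obtain ⟨y, hy, g, hg, e'⟩ := AddSubgroup.mem_sup.1 (h2 (WC_le.1 le_rfl c hc w))
    exact AddSubgroup.mem_sup.2 ⟨y (), mem_pw.1 hy.1 _, g (), mem_pw.1 hg _, by
      simpa [e] using congrFun e' ()⟩
  · refine Or.inl (eq_bot_iff.2 fun w hw => ?_)
    have : WC C ≤ ⊥ := WC_le.2 fun c hc w => by
      have : c = 0 := funext fun _ => (F01 _).resolve_right fun e => k ⟨c, hc, e⟩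
      simp [this]
    exact congrFun (AddSubgroup.mem_bot.1 (this (h1 (show (fun _ => w) ∈ _ from
      ⟨mem_pw.2 fun _ => hw.1, mem_pw.2 fun _ => hw.2⟩)))) ()

theorem WC_span {μ : Type} (C : Set (μ → F)) : WC (Submodule.span F C : Set (μ → F)) = WC C := by
  refine le_antisymm (WC_le.2 fun c hc w => ?_)
    (WC_le.2 fun c hc w => WC_le.1 le_rfl c (Submodule.subset_span hc) w)
  induction hc using Submodule.span_induction with
  | mem c k => exact WC_le.1 le_rfl c k w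
  | zero => simp
  | add c c' _ _ k l => rw [add_tens]; exact add_mem k l
  | smul a c _ k => rw [smul_tens]; exact sc_mem a k

/-- A rational direction inside `WC U ⊔ pw B` with `B` proper lies in `U`. -/
theorem mem_of_dir {μ : Type} [Finite μ] {U : Submodule F (μ → F)} {B : AddSubgroup M}
    (hB : B ≠ ⊤) {c : μ → F} (h : ∀ w, tens c w ∈ WC (U : Set (μ → F)) ⊔ pw B) : c ∈ U := by
  classical
  have := Fintype.ofFinite μ
  by_contra k
  obtain ⟨φ, h1, h2⟩ := Submodule.exists_le_ker_of_notMem k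
  have lφ : Lin fun v : μ → M => ∑ i, sc (φ (Pi.single i 1)) • v i := by fun_prop
  have ev : ∀ (c : μ → F) (w : M), lφ.hom (tens c w) = sc (φ c) • w := fun c w => by
    simp only [Lin.hom_apply, tens_apply, smul_smul, ← sc_mul, ← Finset.sum_smul, ← sc_sum]
    congr 2
    conv_rhs => rw [← Finset.univ_sum_single c, map_sum]
    refine Finset.sum_congr rfl fun i _ => ?_
    rw [mul_comm, ← smul_eq_mul, ← map_smul, ← Pi.single_smul, smul_eq_mul, mul_one]
  have : WC (U : Set (μ → F)) ⊔ pw B ≤ B.comap lφ.hom := sup_le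
    (WC_le.2 fun c hc w => by
      rw [AddSubgroup.mem_comap, ev, show φ c = 0 from h2 hc]; simp)
    fun v hv => B.sum_mem fun i _ => sc_mem _ (mem_pw.1 hv i)
  refine hB (eq_top_iff.2 fun w _ => ?_)
  have a := this (h w)
  rw [AddSubgroup.mem_comap, ev, (F01 _).resolve_left h1] at a
  simpa using a

end PUREb

theorem stPURE : St_PURE := fun s h =>
  ⟨(PP.D.mem s.ext.df (by fun_prop)).df fun _ => Pkg.mem_Pr, PUREb.alt s h, PUREb.rat s h⟩

variable [Sys]

namespace PUREb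

theorem mem_sig {j : ℕ} {v : M} : v ∈ sig j ↔ ∀ i < j, v ∈ (p (q i)).Pr := by
  simp [sig, AddSubgroup.mem_iInf]

theorem sig_zero : sig 0 = ⊤ := by simp [sig]

theorem sig_succ (j : ℕ) : sig (j + 1) = sig j ⊓ (p (q j)).Pr := AddSubgroup.ext fun v => by
  simp only [mem_sig, AddSubgroup.mem_inf]
  exact ⟨fun k => ⟨fun i l => k i (by omega), k j (by omega)⟩, fun k i l => by
    rcases Nat.lt_succ_iff_lt_or_eq.1 l with m | rfl
    exacts [k.1 i m, k.2]⟩

theorem sig_anti : Antitone sig := fun _ _ k _ l => mem_sig.2 fun i m => mem_sig.1 l i (m.trans_le k)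

theorem df_Pr {Φ : Set I} {ξ : I} (h : ξ ∈ Φ) : (L Φ).df (p ξ).Pr := by
  have := (Sys.ext Φ ξ).df
  rw [insert_eq_of_mem h] at this
  exact (PP.D.mem this (by fun_prop)).df fun _ => Pkg.mem_Pr

theorem df_sig {Φ : Set I} {j : ℕ} (h : ∀ i < j, q i ∈ Φ) : (L Φ).df (sig j) := by
  induction j with
  | zero => rw [sig_zero]; exact (L Φ).top
  | succ j k =>
    rw [sig_succ]
    exact (L Φ).inf (k fun i l => h i (by omega)) (df_Pr (h j (by omega)))

theorem step (h1 : St_STEP) (j : ℕ) :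
    Step (L (q '' Iio j)) (L (insert (q j) (q '' Iio j))) (p (q j)) :=
  h1 (by rintro _ ⟨i, -, rfl⟩; simp [(Sys.q_pure i).2.1])
    (by rintro ⟨i, k, e⟩; exact (mem_Iio.1 k).ne (Sys.q_inj e))
    (by simp [(Sys.q_pure j).2.1])

theorem df_sig' (j : ℕ) : (L (q '' Iio j)).df (sig j) := df_sig fun i k => ⟨i, k, rfl⟩

theorem P_Pr (j : ℕ) : P.df (p (q j)).Pr := (L univ).sub (df_Pr trivial)

theorem P_sig (j : ℕ) : P.df (sig j) := (L _).sub (df_sig' j)

theorem rk_sig (h1 : St_STEP) (h2 : St_PURE) (j : ℕ) : ρ (sig j) = 2⁻¹ ^ j := by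
  induction j with
  | zero => rw [sig_zero, Amb.ρ_top, pow_zero]
  | succ j k =>
    have a := Amb.ρ_mod (P_sig j) (P_Pr j)
    have b := ρ_le_one (PP.sup (P_sig j) (P_Pr j))
    have c : (0 : ℝ) < 2⁻¹ ^ j := by positivity
    rw [k, (Sys.q_pure j).2.2, pow_succ] at a
    rw [sig_succ, pow_succ]
    rcases (h2 (step h1 j) (Sys.q_pure j).1).2.1 _ (df_sig' j) with e | e
    · rw [e, ρ_bot] at a
      linarith
    · rw [e, Amb.ρ_top] at a
      linarith

theorem lim_sig (h1 : St_STEP) (h2 : St_PURE) : Tendsto (fun j => ρ (sig j)) atTop (𝓝 0) := by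
  simp only [rk_sig h1 h2]
  exact tendsto_pow_atTop_nhds_zero_of_lt_one (by norm_num) (by norm_num)

theorem iInf_sig : ⨅ j, sig j = si := AddSubgroup.ext fun v => by
  simp only [si, AddSubgroup.mem_iInf, mem_sig]
  exact ⟨fun k i => k (i + 1) i (by omega), fun k _ i _ => k i⟩

theorem Pr_ne (j : ℕ) : (p (q j)).Pr ≠ ⊤ := fun e => by
  have a := (Sys.q_pure j).2.2
  have c : (0 : ℝ) < 2⁻¹ ^ (j + 1) := by positivity
  rw [e, Amb.ρ_top] at a
  linarith

theorem ratl (h1 : St_STEP) (h2 : St_PURE) : Ratl (L (range q)) si := by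
  intro μ _ A hA
  obtain ⟨s, hs, fs, hA'⟩ := Sys.fin hA
  obtain ⟨N, hN⟩ : ∃ N, ∀ j ≥ N, s ⊆ q '' Iio j := by
    obtain ⟨N, k⟩ := (fs.preimage Sys.q_inj.injOn).bddAbove
    refine ⟨N + 1, fun j l ξ m => ?_⟩
    obtain ⟨i, rfl⟩ := hs m
    exact ⟨i, (Nat.lt_succ_of_le (k m)).trans_le l, rfl⟩
  obtain ⟨U, ⟨j₀, l₀, hU⟩, mn⟩ := wellFounded_lt.has_min
    {U : Submodule F (μ → F) | ∃ j ≥ N, A ⊓ pw (sig j) ≤ WC (U : Set (μ → F))}
    ⟨⊤, N, le_rfl, by
      classical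
      exact fun v _ => pw_le (A := ⊤) (fun i x _ => WC_le.1 le_rfl _ Submodule.mem_top x) (by simp)⟩
  have hU' : ∀ j ≥ j₀, A ⊓ pw (sig j) ≤ WC (U : Set (μ → F)) := fun j k =>
    (inf_le_inf_left _ (pw_mono (sig_anti k))).trans hU
  have full : ∀ j ≥ j₀, WC (U : Set (μ → F)) ≤ (A ⊓ pw (sig j)) ⊔ pw (p (q j)).Pr := fun j k => by
    obtain ⟨C, c1, c2⟩ := (h2 (step h1 j) (Sys.q_pure j).1).2.2 μ (A ⊓ pw (sig j))
      ((L _).inf (Sys.mono (hN j (l₀.trans k)) hA') (PP.pw (df_sig' j)))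
    have c3 : WC C ≤ (A ⊓ pw (sig j)) ⊔ pw (p (q j)).Pr :=
      c2.trans (sup_le_sup_right inf_le_left _)
    have le : Submodule.span F C ≤ U := Submodule.span_le.2 fun c hc => mem_of_dir (Pr_ne j)
      fun w => sup_le_sup_right (hU' j k) _ (c3 (WC_le.1 le_rfl c hc w))
    have eq : Submodule.span F C = U := le.eq_or_lt.resolve_right (mn _ ⟨j + 1, by omega, by
      rw [WC_span]
      refine le_trans (fun v hv => ?_) c1
      have := fun i => sig_succ j ▸ mem_pw.1 hv.2 i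
      exact ⟨⟨hv.1, mem_pw.2 fun i => (this i).1⟩, mem_pw.2 fun i => (this i).2⟩⟩)
    rw [← eq, WC_span]
    exact c3
  have ind : ∀ j ≥ j₀, WC (U : Set (μ → F)) ⊓ pw (sig j₀) ≤
      A ⊔ (WC (U : Set (μ → F)) ⊓ pw (sig j)) := fun j k => by
    induction j, k using Nat.le_induction with
    | base => exact le_sup_right
    | succ j k l =>
      refine l.trans (sup_le le_sup_left fun x hx => ?_)
      obtain ⟨a, ha, g, hg, rfl⟩ := AddSubgroup.mem_sup.1 (full j k hx.1)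
      refine AddSubgroup.add_mem_sup ha.1 ⟨?_, mem_pw.2 fun i => ?_⟩
      · exact (add_mem_cancel_left (hU' j k ha)).1 hx.1
      · rw [sig_succ]
        have m : a ∈ (pw (sig j) : AddSubgroup (μ → M)) := ha.2
        exact ⟨mem_pw.1 ((add_mem_cancel_left m).1 hx.2) i, mem_pw.1 hg i⟩
  have PA : P.df A := (L _).sub hA
  have key : WC (U : Set (μ → F)) ⊓ pw (sig j₀) ≤ A := by
    refine le_of_dd_lim (l := atTop) (r := fun j => Nat.card μ * ρ (sig j))
      (P.inf (PP.WC _) (PP.pw (P_sig _))) PA (by simpa using (lim_sig h1 h2).const_mul _)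
      ((eventually_ge_atTop j₀).mono fun j k => ?_)
    have a := dd_mono (P.inf (PP.WC _) (PP.pw (P_sig _))) PA (PP.sup PA (PP.pw (P_sig j))) PA
      ((ind j k).trans (sup_le_sup_left inf_le_right _)) le_rfl
    have b := dd_sup PA (PP.pw (μ := μ) (P_sig j)) PA
    have c := dd_le (PP.pw (μ := μ) (P_sig j)) PA
    rw [dd_zero le_rfl] at b
    rw [ρ_pw (P_sig j)] at c
    linarith
  refine ⟨U, fun v hv => ?_⟩
  have m : v ∈ (pw (sig j₀) : AddSubgroup (μ → M)) := pw_mono (iInf_sig ▸ iInf_le _ j₀) hv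
  exact ⟨fun k => hU ⟨k, m⟩, fun k => key ⟨k, m⟩⟩

end PUREb

open PUREb in
theorem stSIG (h1 : St_STEP) (h2 : St_PURE) : St_SIG := by
  have df : ∀ j, (L (range q)).df (sig j) := fun j => df_sig fun i _ => ⟨i, rfl⟩
  refine ⟨⟨df, sig_anti, lim_sig h1 h2⟩, rk_sig h1 h2, iInf_sig, fun e => ?_, ?_, ratl h1 h2⟩
  · obtain ⟨N, k⟩ := sat_le df sig_anti (L (range q)).bot (iInf_sig.trans e).le
    have a := rk_sig h1 h2 N
    have c : (0 : ℝ) < 2⁻¹ ^ N := by positivity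
    rw [le_bot_iff.1 (k N le_rfl), ρ_bot] at a
    linarith
  · rintro _ ⟨i, rfl⟩
    simp [(Sys.q_pure i).2.1]

end Z47
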