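import Pool.Agent.Lib.MP_1e63be_al.Z47.Blue

/-!
The transfinite construction of the system.
-/

namespace Z47

open Set Filter Topology Cardinal

namespace REC

/-- Recursion with choices. -/
theorem rec_choice {I D : Type} [LinearOrder I] [WellFoundedLT I] (d₀ : D)
    (R : I → (I → D) → D → Prop) (hex : ∀ ξ f, ∃ d, R ξ f d)
    (hc : ∀ ξ f g d, (∀ η < ξ, f η = g η) → R ξ f d → R ξ g d) : ∃ f, ∀ ξ, R ξ f (f ξ) := by
  classical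
  choose s hs using hex
  let f : I → D := (wellFounded_lt (α := I)).fix fun ξ g =>
    s ξ fun η => if h : η < ξ then g η h else d₀
  refine ⟨f, fun ξ => ?_⟩
  have e : f ξ = s ξ fun η => if η < ξ then f η else d₀ := by
    simp only [f]
    rw [WellFounded.fix_eq]
    rfl
  rw [e]
  exact hc ξ _ _ _ (fun η h => if_pos h) (hs _ _)

/-- The index set. -/
abbrev J : Type := continuum.ord.ToType

/-- Codes of tasks. -/
abbrev Code : Type := (ℕ → J × ℕ × ℕ) × ℝ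

theorem mk_J : #J = continuum := mk_ord_toType _

theorem ex_code : ∃ c : J → Code, ∀ x (B : Set J), B.Countable → ∃ ξ, c ξ = x ∧ B ⊆ Iio ξ := by
  have h : #J = #(Code × J) := by
    simp [mk_real]
  obtain ⟨e⟩ := Cardinal.eq.1 h
  refine ⟨fun ξ => (e ξ).1, fun x B hB => ?_⟩
  have h1 : ¬ IsCofinal B := fun k => by
    have a := Order.cof_le k
    have b := lt_cof_ord_power (a := ℵ₀) (b := 2) le_rfl (by norm_num)
    rw [Ordinal.cof_toType] at a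
    rw [two_power_aleph0] at b
    exact absurd (a.trans (le_aleph0_iff_set_countable.2 hB)) (not_le.2 b)
  obtain ⟨z, hz⟩ := not_isCofinal_iff.1 h1
  by_contra k
  push Not at k
  have a : #J ≤ #(Iio z) := mk_le_of_injective
    (f := fun t => ⟨e.symm (x, t), lt_of_not_ge fun l => k (e.symm (x, t)) (by simp)
      fun y m => (hz y m).trans_le l⟩)
    fun t t' l => by simpa using l
  rw [mk_J] at a
  exact absurd a (not_le.2 (mk_Iio_toType_ord_lt z))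

variable [Amb]

theorem cl_ext {L L' : Cl} (h : ∀ (X : Type) [AddCommGroup X] [Module E X] (A : AddSubgroup X),
    L.df A ↔ L'.df A) : L = L' := by
  obtain ⟨⟨a, _, _, _, _, _⟩, _⟩ := L
  obtain ⟨⟨b, _, _, _, _, _⟩, _⟩ := L'
  have e : @a = @b := by
    funext X _ _ A
    exact propext (h X A)
  subst e
  rfl

theorem cdf_of {G G' : J → AddSubgroup (M × M)} {Φ Ψ : Set J} (e : ∀ η ∈ Φ, G η = G' η)
    (l : Φ ⊆ Ψ) {X : Type} [AddCommGroup X] [Module E X] {A : AddSubgroup X} (h : cdf G Φ A) :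
    cdf G' Ψ A := by
  obtain ⟨m, k, n, t, f, g, h, a, b, c, d, u⟩ := h
  refine ⟨m, k, n, t, f, g, h, a, b, c, fun i => l (d i), fun x => ?_⟩
  simpa only [← e _ (d _)] using u x

theorem ex_en : ∃ en : Cl → ℕ → AddSubgroup M, ∀ L : Cl, {A : AddSubgroup M | L.df A}.Countable →
    ∀ A, L.df A → ∃ n, en L n = A := by
  have h (L : Cl) : ∃ e : ℕ → AddSubgroup M, {A : AddSubgroup M | L.df A}.Countable →
      ∀ A, L.df A → ∃ n, e n = A := by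
    by_cases k : {A : AddSubgroup M | L.df A}.Countable
    · obtain ⟨e, l⟩ := k.exists_eq_range ⟨⊤, L.top⟩
      exact ⟨e, fun _ A a => (l.subset a : A ∈ range e)⟩
    · exact ⟨fun _ => ⊥, fun l => absurd l k⟩
  choose en h using h
  exact ⟨en, h⟩

/-- The data of one stage. -/
abbrev D : Type := {p : Pkg // P.df p.G} × Set J

section
variable (LL : (J → D) → Set J → Cl) (en : Cl → ℕ → AddSubgroup M) (c : J → Code) (q : ℕ → J)

/-- The base of a task. -/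
def bs (ξ : J) : Set J := range fun n => ((c ξ).1 n).1

/-- The target chain of a task. -/
def ca (ξ : J) (L : Cl) (j : ℕ) : AddSubgroup M := en L ((c ξ).1 j).2.1

/-- The source chain of a task. -/
def cb (ξ : J) (L : Cl) (j : ℕ) : AddSubgroup M := en L ((c ξ).1 j).2.2

/-- The base is nice. -/
def Nc (ξ : J) (L : Cl) (N : Prop) : Prop :=
  (bs c ξ ⊆ Iio ξ ∧ ∀ i, q i ∈ bs c ξ) ∧ N ∧ Cmp L ∧ Itp L ∧ Chn L (ca en c ξ L) ∧
    ∀ j, ¬ ca en c ξ L j ≤ ca en c ξ L (j + 1)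

/-- Valid killing tasks. -/
def VK (ξ : J) (L : Cl) (N : Prop) : Prop :=
  Nc en c q ξ L N ∧ (c ξ).2 = 2 ∧ ThinB L (ca en c ξ L) ∧ NFs L (⨅ j, ca en c ξ L j)

/-- Valid gluing tasks. -/
def VG (ξ : J) (L L₁ : Cl) (N : Prop) (σ : AddSubgroup M) : Prop :=
  Nc en c q ξ L N ∧ (c ξ).2 = 3 ∧ Chn L (cb en c ξ L) ∧
    (∃ d y, GOk L (ca en c ξ L) (cb en c ξ L) d y) ∧ ⨅ j, cb en c ξ L j = σ ∧
    Orth L₁ σ (⨅ j, ca en c ξ L j)

/-- The requirement at one stage. -/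
def Rq (ξ : J) (L L₁ : Cl) (N : Prop) (σ : AddSubgroup M) (d : D) : Prop :=
  Gen d.1.1.H d.1.1.G L₁.toPP ∧
  (VK en c q ξ L N → d.2 = bs c ξ ∧ d.1.1.a = ca en c ξ L ∧ d.1.1.Ok L ∧ d.1.1.IsK) ∧
  (VG en c q ξ L L₁ N σ → d.2 = bs c ξ ∧ d.1.1.a = ca en c ξ L ∧ d.1.1.b = cb en c ξ L ∧
    d.1.1.Ok L ∧ d.1.1.Gr) ∧
  (¬ VK en c q ξ L N → ¬ VG en c q ξ L L₁ N σ → d.2 = ∅ ∧ d.1.1.Pure ∧ (∀ L₀, d.1.1.Ok L₀) ∧
    (0 ≤ (c ξ).2 → (c ξ).2 ≤ 1 → ρ d.1.1.Pr = (c ξ).2))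

theorem rq_ex (hP : St_PKG) (ξ : J) (L L₁ : Cl) (N : Prop) (σ : AddSubgroup M)
    (h : ∀ k, #{A : AddSubgroup (Fin k → M × M) | L₁.df A} ≤ continuum) :
    ∃ d, Rq en c q ξ L L₁ N σ d := by
  obtain ⟨h1, h2⟩ := hP L₁ h
  by_cases k : VK en c q ξ L N
  · have a := k.1.2.2.2.2
    obtain ⟨G, u, v, w⟩ := h2 L _ (fun j => ca en c ξ L (j + 1)) a.1
      ⟨fun _ => a.1.df _, fun _ _ l => a.1.anti (Nat.succ_le_succ l),
        a.1.lim.comp (tendsto_add_atTop_nat 1)⟩ a.2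
    exact ⟨(⟨_, u.PG⟩, bs c ξ), w, fun _ => ⟨rfl, rfl, u, v, fun _ => rfl⟩,
      fun l => absurd (k.2.1.symm.trans l.2.1) (by norm_num), fun l => absurd k l⟩
  by_cases l : VG en c q ξ L L₁ N σ
  · have a := l.1.2.2.2.2
    obtain ⟨G, u, v, w⟩ := h2 L _ _ a.1 l.2.2.1 a.2
    exact ⟨(⟨_, u.PG⟩, bs c ξ), w, fun m => absurd m k, fun _ => ⟨rfl, rfl, rfl, u, v⟩,
      fun _ m => absurd l m⟩
  by_cases m : 0 ≤ (c ξ).2 ∧ (c ξ).2 ≤ 1
  · obtain ⟨p, a, u, v, w⟩ := h1 _ m.1 m.2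
    exact ⟨(⟨p, (u L).PG⟩, ∅), v, fun n => absurd n k, fun n => absurd n l,
      fun _ _ => ⟨rfl, a, u, fun _ _ => w⟩⟩
  · obtain ⟨p, a, u, v, -⟩ := h1 0 le_rfl zero_le_one
    exact ⟨(⟨p, (u L).PG⟩, ∅), v, fun n => absurd n k, fun n => absurd n l,
      fun _ _ => ⟨rfl, a, u, fun n n' => absurd ⟨n, n'⟩ m⟩⟩

/-- The base is closed. -/
def cl (f : J → D) (ξ : J) : Prop := ∀ η ∈ bs c ξ, (f η).2 ⊆ bs c ξ

/-- The base point. -/
def sg (f : J → D) : AddSubgroup M := ⨅ i, (f (q i)).1.1.Pr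

theorem ex_rec (hP : St_PKG) (h1 : ∀ f g Φ, (∀ η ∈ Φ, f η = g η) → LL f Φ = LL g Φ)
    (h2 : ∀ f Φ k, #{A : AddSubgroup (Fin k → M × M) | (LL f Φ).df A} ≤ continuum) :
    ∃ f : J → D, ∀ ξ, Rq en c q ξ (LL f (bs c ξ)) (LL f (Iio ξ)) (cl c f ξ) (sg q f) (f ξ) := by
  refine rec_choice (⟨⟨fun _ => ⊥, fun _ => ⊥, ⊥⟩, P.bot⟩, ∅)
    (fun ξ f d => Rq en c q ξ (LL f (bs c ξ)) (LL f (Iio ξ)) (cl c f ξ) (sg q f) d)
    (fun ξ f => rq_ex en c q hP ξ _ _ _ _ (h2 f _)) fun ξ f g d e h => ?_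
  rw [← h1 f g (Iio ξ) e]
  by_cases k : bs c ξ ⊆ Iio ξ ∧ ∀ i, q i ∈ bs c ξ
  · have a : cl c f ξ = cl c g ξ :=
      propext (forall₂_congr fun η l => by rw [e η (k.1 l)])
    have b : sg q f = sg q g := iInf_congr fun i => by rw [e _ (k.1 (k.2 i))]
    rwa [← h1 f g _ fun η l => e η (k.1 l), ← a, ← b]
  · exact ⟨h.1, fun l => absurd l.1.1 k, fun l => absurd l.1.1 k,
      fun _ _ => h.2.2.2 (fun l => k l.1.1) fun l => k l.1.1⟩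

end

end REC

open REC in
theorem stREC [Amb] (hC : St_CLS) (hP : St_PKG) : St_REC := by
  choose LL0 hL1 hL2 hL3 using hC J
  let LL (f : J → D) : Set J → Cl := LL0 (fun ξ => (f ξ).1.1.G) fun ξ => (f ξ).1.2
  have hcd (f : J → D) (Φ : Set J) (X : Type) [AddCommGroup X] [Module E X] [Std X] :
      #{A : AddSubgroup X | (LL f Φ).df A} ≤ max #Φ ℵ₀ := by
    simp only [LL, hL1]
    exact hL3 _ (fun ξ => (f ξ).1.2) Φ X
  have hct (f : J → D) {Φ : Set J} (X : Type) [AddCommGroup X] [Module E X] [Std X]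
      (h : Φ.Countable) : {A : AddSubgroup X | (LL f Φ).df A}.Countable :=
    le_aleph0_iff_set_countable.1
      ((hcd f Φ X).trans (max_le (le_aleph0_iff_set_countable.2 h) le_rfl))
  obtain ⟨en, hen⟩ := ex_en
  obtain ⟨c, hc⟩ := ex_code
  obtain ⟨z⟩ : Nonempty J := mk_ne_zero_iff.1 (mk_J ▸ continuum_ne_zero)
  choose q hq _ using fun i : ℕ => hc (fun _ => (z, 0, 0), 1 - 2⁻¹ ^ (i + 1)) ∅ countable_empty
  obtain ⟨f, hf⟩ := ex_rec LL en c q hP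
    (fun f g Φ e => cl_ext fun X _ _ A => by
      simp only [LL, hL1]
      exact ⟨cdf_of (fun η l => by rw [e η l]) subset_rfl,
        cdf_of (fun η l => by rw [e η l]) subset_rfl⟩)
    fun f Φ k => (hcd f Φ _).trans
      (max_le ((mk_set_le Φ).trans mk_J.le) aleph0_le_continuum)
  let S : Sys0 := ⟨J, fun ξ => (f ξ).1.1, fun ξ => (f ξ).2, LL f, q,
    fun ξ => VK en c q ξ (LL f (bs c ξ)) (cl c f ξ),
    fun ξ => VG en c q ξ (LL f (bs c ξ)) (LL f (Iio ξ)) (cl c f ξ) (sg q f)⟩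
  have hd (ξ : J) : ((f ξ).2 = ∅ ∧ (f ξ).1.1.Pure ∧ ∀ L₀, (f ξ).1.1.Ok L₀) ∨
      (K ξ ∨ Gk ξ) ∧ (f ξ).2 = bs c ξ ∧ Nc en c q ξ (LL f (bs c ξ)) (cl c f ξ) ∧
        (f ξ).1.1.Ok (LL f (bs c ξ)) := by
    by_cases k : K ξ
    · exact .inr ⟨.inl k, ((hf ξ).2.1 k).1, k.1, ((hf ξ).2.1 k).2.2.1⟩
    by_cases l : Gk ξ
    · exact .inr ⟨.inr l, ((hf ξ).2.2.1 l).1, l.1, ((hf ξ).2.2.1 l).2.2.2.1⟩
    have a := (hf ξ).2.2.2 k l
    exact .inl ⟨a.1, a.2.1, a.2.2.1⟩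
  have hp (ξ : J) (a : 0 ≤ (c ξ).2) (b : (c ξ).2 ≤ 1) :
      (f ξ).1.1.Pure ∧ (f ξ).2 = ∅ ∧ ρ (f ξ).1.1.Pr = (c ξ).2 := by
    have e := (hf ξ).2.2.2 (fun l => by linarith [l.2.1]) fun l => by linarith [l.2.1]
    exact ⟨e.2.1, e.1, e.2.2.2 a b⟩
  have hn (ξ : J) (h : Nc en c q ξ (LL f (bs c ξ)) (cl c f ξ)) : Nice (bs c ξ) :=
    ⟨countable_range _, h.2.1, h.1.2, h.2.2.1, h.2.2.2.1⟩
  have ht (B : Set J) (hB : Nice B) (a b : ℕ → AddSubgroup M) (ha : Chn (LL f B) a)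
      (hb : Chn (LL f B) b) (st : ∀ j, ¬ a j ≤ a (j + 1)) (r : ℝ) :
      ∃ ξ, B ⊆ Iio ξ ∧ bs c ξ = B ∧ (c ξ).2 = r ∧ ca en c ξ (LL f B) = a ∧
        cb en c ξ (LL f B) = b ∧ Nc en c q ξ (LL f (bs c ξ)) (cl c f ξ) := by
    obtain ⟨s, hs⟩ := hB.cnt.exists_eq_range ⟨_, hB.q 0⟩
    choose n hn using fun j => hen _ (hct f M hB.cnt) _ (ha.df j)
    choose m hm using fun j => hen _ (hct f M hB.cnt) _ (hb.df j)
    obtain ⟨ξ, e, l⟩ := hc (fun j => (s j, n j, m j), r) B hB.cnt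
    have e1 : bs c ξ = B := by rw [hs, bs, e]
    have e2 : ca en c ξ (LL f B) = a := funext fun j => by rw [ca, e, hn]
    refine ⟨ξ, l, e1, by rw [e], e2, funext fun j => by rw [cb, e, hm], ?_⟩
    rw [Nc, cl, e1, e2]
    exact ⟨⟨l, hB.q⟩, hB.cl, hB.cmp, hB.itp, ha, st⟩
  refine ⟨@Sys.mk _ S (fun l X _ _ _ A h => ?_) (fun h => ?_) (fun Φ ξ => hL2 _ _ Φ ξ)
    (fun X _ _ _ => hct f X) (fun ξ => ?_) (fun ξ => ?_) (fun ξ => ?_) (fun ξ => ?_)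
    (fun ξ => (hf ξ).1) (fun i j e => ?_) (fun i => ?_) (fun ξ => ?_) (fun ξ k => ?_)
    (fun ξ k => ?_) (fun B hB r a b => ?_) (fun B hB a ha st u v => ?_)
    fun B hB a b d y ha hb st u v => ?_⟩
  · exact (hL1 ..).2 (cdf_of (fun _ _ => rfl) l ((hL1 ..).1 h))
  · obtain ⟨m, k, n, t, u, g, v, a, b, d, e, w⟩ := (hL1 ..).1 h
    exact ⟨range t, range_subset_iff.2 e, finite_range t,
      (hL1 ..).2 ⟨m, k, n, t, u, g, v, a, b, d, fun i => ⟨i, rfl⟩, w⟩⟩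
  · rcases hd ξ with h | h
    · exact h.1.subset.trans (empty_subset _)
    · exact h.2.1.subset.trans h.2.2.1.1.1
  · rcases hd ξ with h | h
    · exact countable_empty.mono h.1.subset
    · exact (countable_range _).mono h.2.1.subset
  · rcases hd ξ with h | h
    · exact fun η l => absurd (h.1.subset l) id
    · exact fun η l => (h.2.2.1.2.1 η (h.2.1.subset l)).trans h.2.1.superset
  · rcases hd ξ with h | h
    · exact h.2.2 _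
    · change (f ξ).1.1.Ok (LL f (f ξ).2)
      rw [h.2.1]
      exact h.2.2.2
  · have a : c (q i) = c (q j) := congrArg c e
    rw [hq, hq] at a
    have b : (2⁻¹ : ℝ) ^ (i + 1) = 2⁻¹ ^ (j + 1) := by linarith [(Prod.ext_iff.1 a).2]
    exact Nat.succ_injective (pow_right_injective₀ (by norm_num) (by norm_num) b)
  · have e : (c (q i)).2 = 1 - 2⁻¹ ^ (i + 1) := by rw [hq]
    exact e ▸ hp (q i) (by rw [e, sub_nonneg]; exact pow_le_one₀ (by norm_num) (by norm_num))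
      (by rw [e, sub_le_self_iff]; positivity)
  · exact (hd ξ).imp (fun h => h.2.1) fun h => h.1
  · obtain ⟨a, b, -, e⟩ := (hf ξ).2.1 k
    change Nice (f ξ).2 ∧ _ ∧ ThinB (LL f (f ξ).2) (f ξ).1.1.a ∧
      NFs (LL f (f ξ).2) (⨅ j, (f ξ).1.1.a j)
    rw [a, b]
    exact ⟨hn ξ k.1, e, k.2.2⟩
  · obtain ⟨a, b, d, -, e⟩ := (hf ξ).2.2.1 k
    change Nice (f ξ).2 ∧ _ ∧ (∃ d y, GOk (LL f (f ξ).2) (f ξ).1.1.a (f ξ).1.1.b d y) ∧
      ⨅ j, (f ξ).1.1.b j = _ ∧ Orth _ _ (⨅ j, (f ξ).1.1.a j)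
    rw [a, b, d]
    exact ⟨hn ξ k.1, e, k.2.2.2⟩
  · obtain ⟨ξ, e, l⟩ := hc (fun _ => (z, 0, 0), r) B hB
    have e' : (c ξ).2 = r := by rw [e]
    exact ⟨ξ, l, e' ▸ hp ξ (e' ▸ a) (e' ▸ b)⟩
  · obtain ⟨ξ, -, e1, e2, e3, -, h⟩ := ht B hB a a ha ha st 2
    have k : K ξ := ⟨h, e2, by rw [e1, e3]; exact ⟨u, v⟩⟩
    obtain ⟨m, n, -⟩ := (hf ξ).2.1 k
    exact ⟨ξ, k, m.trans e1, n.trans (e1 ▸ e3)⟩
  · obtain ⟨ξ, l, e1, e2, e3, e4, h⟩ := ht B hB a b ha hb st 3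
    refine ⟨ξ, l, or_iff_not_imp_left.2 fun o => ?_⟩
    have k : Gk ξ := ⟨h, e2, by rw [e1, e3, e4]; exact ⟨hb, ⟨d, y, u⟩, v, not_not.1 o⟩⟩
    obtain ⟨m, n, -⟩ := (hf ξ).2.2.1 k
    exact ⟨k, m.trans e1, n.trans (e1 ▸ e3)⟩

end Z47
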