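import Pool.Agent.Lib.MP_1e63be_al.Z47.Blue

/-!
The right side: two maximal right ideals without homomorphisms between the quotients.
-/

namespace Z47

open Set Filter Topology

variable [Amb]

namespace RGT

section
variable {L L' : Cl}

/-- Selection of a definable endomorphism inside a total relation. -/
theorem sel (hC : Cmp L) {θ : AddSubgroup (M × M)} (hθ : L.df θ) (tot : ∀ v, ∃ w, (v, w) ∈ θ) :
    ∃ y : E, L.Dy y ∧ ∀ v, (v, y • v) ∈ θ := by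
  obtain ⟨N, hN, eN⟩ : L.D fun w : M => ((0 : M), w) ∈ θ := PP.D.mem hθ (by fun_prop)
  obtain ⟨C, hC, c⟩ := hC N hN
  have uq : ∀ v w w', (v, w) ∈ θ → w ∈ C → (v, w') ∈ θ → w' ∈ C → w = w' := fun v w w' a b a' b' =>
    sub_eq_zero.1 (AddSubgroup.disjoint_def.1 c.disjoint
      ((eN _).2 (by simpa using θ.sub_mem a a')) (C.sub_mem b b'))
  have ex : ∀ v, ∃ w, (v, w) ∈ θ ∧ w ∈ C := fun v => by
    obtain ⟨w, a⟩ := tot v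
    obtain ⟨n, b, k, d, rfl⟩ := AddSubgroup.mem_sup.1
      (show w ∈ N ⊔ C from c.sup_eq_top ▸ AddSubgroup.mem_top w)
    exact ⟨k, by simpa using θ.sub_mem a ((eN n).1 b), d⟩
  choose f a b using ex
  refine ⟨(AddMonoidHom.mk' f fun v w => uq _ _ _ (a _) (b _) (θ.add_mem (a v) (a w))
    (C.add_mem (b v) (b w))).toZModLinearMap 2, ?_, a⟩
  exact ((PP.D.of hθ).and (PP.D.mem hC (f := fun z : M × M => z.2) (by fun_prop))).congr fun z =>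
    ⟨fun l => uq _ _ _ (a _) (b _) l.1 l.2, fun l => by
      obtain ⟨v, w⟩ := z
      obtain rfl : f v = w := l
      exact ⟨a v, b v⟩⟩

theorem lt_one {Y : AddSubgroup M} (h : L.df Y) (k : Y ≠ ⊤) : ρ Y < 1 :=
  Amb.ρ_top ▸ ρ_lt (L.sub h) P.top le_top (mt top_le_iff.1 k)

theorem ne_top {Y : AddSubgroup M} (k : ρ Y < 1) : Y ≠ ⊤ := by
  rintro rfl
  exact k.ne Amb.ρ_top

theorem dd_top (Y : AddSubgroup M) : dd ⊤ Y = 1 - ρ Y := by rw [dd_of_le le_top, Amb.ρ_top]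

/-- Proper subspaces lie in proper subspaces of small corank. -/
theorem big (hI : Itp L) {Y : AddSubgroup M} (h : L.df Y) (k : Y ≠ ⊤) {ε : ℝ} (e : 0 < ε) :
    ∃ Y', L.df Y' ∧ Y ≤ Y' ∧ Y' ≠ ⊤ ∧ 1 - ε < ρ Y' := by
  obtain ⟨s, a, b⟩ := exists_rat_btwn (max_lt (lt_one h k) (sub_lt_self 1 e))
  obtain ⟨Y', c, d, -, f⟩ := hI Y ⊤ ⊤ h L.top L.top le_top s 0
    (by simpa using ((le_max_left _ _).trans_lt a).le) (by simpa [Amb.ρ_top] using b.le)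
  have f : ρ Y' = s := by simpa using f
  exact ⟨Y', c, d, ne_top (f ▸ b), f ▸ (le_max_right _ _).trans_lt a⟩

/-- The relation `θ` is handled by the pair. -/
def Hd (θ : AddSubgroup (M × M)) (Y₁ Y₂ : AddSubgroup M) : Prop :=
  (∀ v, ∃ w, (v, w) ∈ θ) → (∀ z ∈ θ, z.2 ∈ Y₂) ∨ ∀ w, ∃ z ∈ θ, z.1 ∈ Y₁ ∧ w - z.2 ∈ Y₂

theorem Hd.mono {θ : AddSubgroup (M × M)} {Y₁ Y₂ Z₁ Z₂ : AddSubgroup M} (h : Hd θ Y₁ Y₂)
    (a : Y₁ ≤ Z₁) (b : Y₂ ≤ Z₂) : Hd θ Z₁ Z₂ := fun t => (h t).imp (fun k z l => b (k z l))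
  fun k w => let ⟨z, c, d, e⟩ := k w; ⟨z, c, a d, b e⟩

theorem step (hC : Cmp L) (hI : Itp L) {θ : AddSubgroup (M × M)} (hθ : L.df θ)
    {Y₁ Y₂ : AddSubgroup M} (h₁ : L.df Y₁) (h₂ : L.df Y₂) (k₁ : Y₁ ≠ ⊤) (k₂ : Y₂ ≠ ⊤) {ε : ℝ}
    (e : 0 < ε) : ∃ Z₁ Z₂, L.df Z₁ ∧ L.df Z₂ ∧ Z₁ ≠ ⊤ ∧ Z₂ ≠ ⊤ ∧ Y₁ ≤ Z₁ ∧ Y₂ ≤ Z₂ ∧
      1 - ε < ρ Z₂ ∧ Hd θ Z₁ Z₂ := by
  by_cases t : ∀ v, ∃ w, (v, w) ∈ θ
  swap
  · obtain ⟨Z, a, b, c, d⟩ := big hI h₂ k₂ e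
    exact ⟨Y₁, Z, h₁, a, k₁, c, le_rfl, b, d, fun l => absurd l t⟩
  obtain ⟨R, hR, eR⟩ : L.D fun w : M => ∃ v : M, (v, w) ∈ θ :=
    PP.D.ex (PP.D.mem hθ (by fun_prop))
  by_cases s : R ⊔ Y₂ = ⊤
  swap
  · obtain ⟨Z, a, b, c, d⟩ := big hI (PP.sup hR h₂) s e
    exact ⟨Y₁, Z, h₁, a, k₁, c, le_rfl, le_sup_right.trans b, d,
      fun _ => .inl fun z l => b (AddSubgroup.mem_sup_left ((eR _).2 ⟨z.1, l⟩))⟩
  obtain ⟨Z, a, b, c, d⟩ := big hI h₂ k₂ (lt_min e (sub_pos.2 (lt_one h₁ k₁)))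
  obtain ⟨N, hN, eN⟩ : L.D fun v : M => ∃ w : M, w ∈ Z ∧ (v, w) ∈ θ :=
    PP.D.ex ((PP.D.mem a (by fun_prop)).and (PP.D.mem hθ (by fun_prop)))
  obtain ⟨K', hK, cK⟩ := hC N hN
  have r1 : dd ⊤ N ≤ dd ⊤ Z := dd_rel (L.sub hθ) P.top (L.sub a) P.top (L.sub hN)
    (fun v _ => let ⟨w, l⟩ := t v; ⟨w, trivial, l⟩) fun v w l m => (eN v).2 ⟨w, l, m⟩
  have r2 := Amb.ρ_mod (L.sub hN) (L.sub hK)
  rw [cK.sup_eq_top, cK.inf_eq_bot, Amb.ρ_top, ρ_bot] at r2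
  rw [dd_top, dd_top] at r1
  have r3 := ρ_sup_le (L.sub h₁) (L.sub hK)
  have r4 := min_le_left ε (1 - ρ Y₁)
  have r5 := min_le_right ε (1 - ρ Y₁)
  refine ⟨Y₁ ⊔ K', Z, PP.sup h₁ hK, a, ne_top (by linarith), c, le_sup_left, b, by linarith,
    fun _ => .inr fun w => ?_⟩
  obtain ⟨r, l, y, m, rfl⟩ := AddSubgroup.mem_sup.1
    (show w ∈ R ⊔ Y₂ from s ▸ AddSubgroup.mem_top w)
  obtain ⟨v, l⟩ := (eR r).1 l
  obtain ⟨n, o, k, u, rfl⟩ := AddSubgroup.mem_sup.1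
    (show v ∈ N ⊔ K' from cK.sup_eq_top ▸ AddSubgroup.mem_top v)
  obtain ⟨w, x, o⟩ := (eN n).1 o
  refine ⟨(k, r - w), by simpa using θ.sub_mem l o, AddSubgroup.mem_sup_right u, ?_⟩
  rw [show r + y - (k, r - w).2 = y + w by simp only; abel]
  exact Z.add_mem (b m) x

theorem up {Y : ℕ → AddSubgroup M} (h : ∀ j, L.df (Y j)) (k : ∀ j, Y j ≤ Y (j + 1))
    (l : ∀ j : ℕ, 1 - 1 / ((j : ℝ) + 1) < ρ (Y (j + 1))) : Up L Y := by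
  refine ⟨h, monotone_nat_of_le_succ k, (tendsto_add_atTop_iff_nat 1).1 ?_⟩
  refine squeeze_zero (fun j => dd_nonneg P.top (L.sub (h _))) (fun j => ?_)
    tendsto_one_div_add_atTop_nhds_zero_nat
  rw [dd_top]
  linarith [l j]

/-- The diagonal construction over a countable class. -/
theorem chains (hC : Cmp L) (hI : Itp L) (hc : {A : AddSubgroup (M × M) | L.df A}.Countable) :
    ∃ Y₁ Y₂ : ℕ → AddSubgroup M, Up L Y₁ ∧ Up L Y₂ ∧ (∀ j, Y₁ j ≠ ⊤) ∧ (∀ j, Y₂ j ≠ ⊤) ∧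
      (∀ θ, L.df θ → ∃ j, Hd θ (Y₁ j) (Y₂ j)) ∧ ∀ θ, L.df θ → ∃ j, Hd θ (Y₂ j) (Y₁ j) := by
  obtain ⟨θ, eθ⟩ := hc.exists_eq_range ⟨⊤, L.top⟩
  have hθ : ∀ n, L.df (θ n) := fun n => show θ n ∈ {A | L.df A} from eθ ▸ mem_range_self n
  let S := {y : AddSubgroup M × AddSubgroup M // L.df y.1 ∧ L.df y.2 ∧ y.1 ≠ ⊤ ∧ y.2 ≠ ⊤}
  have st : ∀ (n : ℕ) (y : S), ∃ z : S, y.1.1 ≤ z.1.1 ∧ y.1.2 ≤ z.1.2 ∧
      1 - 1 / ((n : ℝ) + 1) < ρ z.1.1 ∧ 1 - 1 / ((n : ℝ) + 1) < ρ z.1.2 ∧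
      Hd (θ n) z.1.1 z.1.2 ∧ Hd (θ n) z.1.2 z.1.1 := fun n ⟨y, a, b, c, d⟩ => by
    obtain ⟨Z₁, Z₂, a1, b1, c1, d1, e1, f1, g1, h1⟩ :=
      step hC hI (hθ n) a b c d (Nat.one_div_pos_of_nat (α := ℝ) (n := n))
    obtain ⟨W₂, W₁, a2, b2, c2, d2, e2, f2, g2, h2⟩ :=
      step hC hI (hθ n) b1 a1 d1 c1 (Nat.one_div_pos_of_nat (α := ℝ) (n := n))
    exact ⟨⟨(W₁, W₂), b2, a2, d2, c2⟩, e1.trans f2, f1.trans e2, g2,
      g1.trans_le (Amb.ρ_mono (L.sub b1) (L.sub a2) e2), h1.mono f2 e2, h2⟩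
  choose f a b c d e g using st
  have bt : (⊥ : AddSubgroup M) ≠ ⊤ := ne_top (by simp)
  let y : ℕ → S := fun n => Nat.rec ⟨(⊥, ⊥), L.bot, L.bot, bt, bt⟩ f n
  have ex : ∀ η, L.df η → ∃ n, θ n = η := fun η l => show η ∈ range θ from eθ ▸ l
  refine ⟨fun n => (y n).1.1, fun n => (y n).1.2, up (fun n => (y n).2.1) (fun n => a n _)
    fun n => c n _, up (fun n => (y n).2.2.1) (fun n => b n _) fun n => d n _,
    fun n => (y n).2.2.2.1, fun n => (y n).2.2.2.2, fun η l => ?_, fun η l => ?_⟩ <;>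
    obtain ⟨n, rfl⟩ := ex η l
  exacts [⟨n + 1, e n _⟩, ⟨n + 1, g n _⟩]

theorem up_prod {Y₁ Y₂ : ℕ → AddSubgroup M} (h₁ : Up L Y₁) (h₂ : Up L Y₂) :
    Up L fun j => (Y₁ j).prod (Y₂ j) := by
  refine ⟨fun j => PP.prod (h₁.df j) (h₂.df j),
    fun _ _ k => AddSubgroup.prod_mono (h₁.mono k) (h₂.mono k), ?_⟩
  have := h₁.lim.add h₂.lim
  rw [add_zero] at this
  refine this.congr fun j => ?_
  rw [dd_of_le le_top, dd_of_le le_top, dd_of_le le_top, ← AddSubgroup.top_prod_top,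
    ρ_prod P.top P.top, ρ_prod (L.sub (h₁.df j)) (L.sub (h₂.df j))]
  ring

/-- Transfer to the larger class. -/
theorem tr {Y₁ Y₂ : ℕ → AddSubgroup M} (h₁ : Monotone Y₁) (h₂ : Monotone Y₂)
    (hD : DSame (fun j => (Y₁ j).prod (Y₂ j)) L L')
    (h : ∀ θ, L.df θ → ∃ j, Hd θ (Y₁ j) (Y₂ j)) (θ : AddSubgroup (M × M)) (k : L'.df θ) :
    ∃ j, Hd θ (Y₁ j) (Y₂ j) := by
  obtain ⟨η, a, b, j, c⟩ := hD θ k
  obtain ⟨i, d⟩ := h η a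
  refine ⟨max i j, fun t => (d fun v => (t v).imp fun _ l => b l).imp
    (fun l z m => h₂ (le_max_left i j) (l z (b m))) fun l w => ?_⟩
  obtain ⟨z, m, n, o⟩ := l w
  obtain ⟨z', r, y, s, rfl⟩ := AddSubgroup.mem_sup.1 (c m)
  refine ⟨z', r, ?_, ?_⟩
  · simpa using (Y₁ _).sub_mem (h₁ (le_max_left i j) n) (h₁ (le_max_right i j) s.1)
  · rw [show w - z'.2 = w - (z' + y).2 + y.2 by simp only [Prod.snd_add]; abel]
    exact (Y₂ _).add_mem (h₂ (le_max_left i j) o) (h₂ (le_max_right i j) s.2)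

end

variable [Sys]

/-- The right ideal of a chain. -/
def idl (Y : ℕ → AddSubgroup M) (h : Monotone Y) : Ideal RRᵐᵒᵖ where
  carrier := {x | ∃ j, ∀ v : M, x.unop.1 • v ∈ Y j}
  zero_mem' := ⟨0, fun v => by simp⟩
  add_mem' := fun ⟨i, a⟩ ⟨j, b⟩ => ⟨max i j, fun v => by
    simpa [add_smul] using (Y _).add_mem (h (le_max_left i j) (a v)) (h (le_max_right i j) (b v))⟩
  smul_mem' := fun c x ⟨j, a⟩ => ⟨j, fun v => by simpa [mul_smul] using a (c.unop.1 • v)⟩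

theorem idl_max (hC : Cmp (L univ)) {Y' Y : ℕ → AddSubgroup M} (h : Monotone Y)
    (d : ∀ j, (L univ).df (Y j)) (k : ∀ j, Y j ≠ ⊤)
    (t : ∀ θ, (L univ).df θ → ∃ j, Hd θ (Y' j) (Y j)) : (idl Y h).IsMaximal := by
  refine Ideal.isMaximal_iff.2 ⟨fun ⟨j, a⟩ => k j (eq_top_iff.2 fun v _ => by simpa using a v),
    fun J x a b c => ?_⟩
  have hx : (L univ).Dy x.unop.1 := x.unop.2
  obtain ⟨θ, e, f⟩ : (L univ).D fun z : M × M => x.unop.1 • z.1 = z.2 := x.unop.2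
  obtain ⟨j, g⟩ := t θ e
  obtain g | g := g fun v => ⟨_, (f _).2 rfl⟩
  · exact absurd ⟨j, fun v => g (v, _) ((f _).2 rfl)⟩ b
  obtain ⟨η, l, m⟩ : (L univ).D fun z : M × M => z.1 - x.unop.1 • z.2 ∈ Y j :=
    PP.D.mem (d j) (by fun_prop (disch := assumption))
  obtain ⟨y, n, o⟩ := sel hC l fun w => by
    obtain ⟨z, r, -, s⟩ := g w
    exact ⟨z.1, (m _).2 (by rwa [← (f z).1 r] at s)⟩
  have : 1 - MulOpposite.op (⟨y, n⟩ : RR) * x ∈ idl Y h :=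
    ⟨j, fun v => by simpa [sub_smul, mul_smul] using (m _).1 (o v)⟩
  simpa using J.add_mem (a this) (J.mul_mem_left (MulOpposite.op (⟨y, n⟩ : RR)) c)

end RGT

open RGT in
theorem stRIGHT [Sys] (hN : St_NICE) (hD : St_DS) : St_RIGHT := by
  obtain ⟨hC, hB⟩ := hN
  obtain ⟨B, hB, -⟩ := hB (fun _ _ _ => ⊤) fun _ _ _ => (L univ).top
  obtain ⟨Y₁, Y₂, u₁, u₂, k₁, k₂, t₁, t₂⟩ := chains hB.cmp hB.itp (Sys.cnt _ hB.cnt)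
  have t₁ := tr u₁.mono u₂.mono (hD hB.cl (up_prod u₁ u₂)) t₁
  have t₂ := tr u₂.mono u₁.mono (hD hB.cl (up_prod u₂ u₁)) t₂
  have d₁ : ∀ j, (L univ).df (Y₁ j) := fun j => Sys.mono (subset_univ B) (u₁.df j)
  have d₂ : ∀ j, (L univ).df (Y₂ j) := fun j => Sys.mono (subset_univ B) (u₂.df j)
  refine ⟨idl Y₁ u₁.mono, idl Y₂ u₂.mono, idl_max hC _ d₁ k₁ t₂, idl_max hC _ d₂ k₂ t₁,
    fun u a => ?_⟩
  obtain ⟨θ, e, f⟩ : (L univ).D fun z : M × M => u.unop.1 • z.1 = z.2 := u.unop.2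
  obtain ⟨j, g⟩ := t₁ θ e
  obtain g | g := g fun v => ⟨_, (f _).2 rfl⟩
  · exact ⟨j, fun v => g (v, _) ((f _).2 rfl)⟩
  obtain ⟨C, hC', c⟩ := hC _ (d₁ j)
  obtain ⟨η, l, m⟩ : (L univ).D fun z : M × M => z.2 ∈ Y₁ j ∧ z.1 - z.2 ∈ C :=
    (PP.D.mem (d₁ j) (by fun_prop)).and (PP.D.mem hC' (by fun_prop))
  obtain ⟨y, n, o⟩ := sel hC l fun v => by
    obtain ⟨r, s, w, x, rfl⟩ := AddSubgroup.mem_sup.1
      (show v ∈ Y₁ j ⊔ C from c.sup_eq_top ▸ AddSubgroup.mem_top v)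
    exact ⟨r, (m _).2 ⟨s, by simpa⟩⟩
  obtain ⟨i, b⟩ := a (MulOpposite.op (⟨y, n⟩ : RR)) ⟨j, fun v => ((m _).1 (o v)).1⟩
  refine absurd (eq_top_iff.2 fun w _ => ?_) (k₂ (max i j))
  obtain ⟨z, r, s, x⟩ := g w
  have h1 : z.1 = y • z.1 := sub_eq_zero.1 (AddSubgroup.disjoint_def.1 c.disjoint
    ((Y₁ j).sub_mem s ((m _).1 (o z.1)).1) ((m _).1 (o z.1)).2)
  have h2 : z.2 ∈ Y₂ i := by
    rw [← (f z).1 r, h1]
    simpa [mul_smul] using b z.1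
  simpa using (Y₂ _).add_mem (u₂.mono (le_max_right i j) x) (u₂.mono (le_max_left i j) h2)

end Z47
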