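import Pool.Agent.Lib.MP_1e63be_al.Z47.Blue

/-!
Persistence of traces, of killing families and of the absence of finite quotients.
-/

namespace Z47

open Set Filter Topology

variable [Amb]

section
variable {X Y W : Type} [AddCommGroup X] [Module E X] [Std X] [AddCommGroup Y] [Module E Y]
  [Std Y] [AddCommGroup W] [Module E W] [Std W] {L L' : Cl} {p : Pkg}

omit [Std X] [Std Y] in
theorem s0_nm_td {S : AddSubgroup X} {S' : AddSubgroup Y} (h : NM L S S')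
    {θ : AddSubgroup (X × Y)} (hθ : L.td.df θ) (k : ∀ v ∈ S, ∃ w ∈ S', (v, w) ∈ θ) :
    ∀ v ∈ S, (v, 0) ∈ θ := by
  obtain ⟨Z, a, -, c⟩ := hθ
  exact fun v l => (c _).2 fun n => h _ (a n)
    (fun v l => let ⟨w, m, e⟩ := k v l; ⟨w, m, (c _).1 e n⟩) v l

theorem s0_nm_pw {S : AddSubgroup X} {S' : AddSubgroup Y} (h : NM L S S') (hS' : L.td.df S')
    (μ : Type) [Finite μ] : NM L S (pw S' : AddSubgroup (μ → Y)) := by
  induction μ using fin_ind with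
  | of_equiv e ih =>
    rename_i α β _ _
    intro θ hθ k v l
    obtain ⟨T, a, b⟩ : L.D fun z : X × (α → Y) => (z.1, fun i => z.2 (e.symm i)) ∈ θ :=
      PP.D.mem hθ (by fun_prop)
    refine (b _).1 (ih T a (fun v l => ?_) v l)
    obtain ⟨w, m, n⟩ := k v l
    exact ⟨fun i => w (e i), mem_pw.2 fun i => mem_pw.1 m _, (b _).2 (by simpa using n)⟩
  | h_empty =>
    intro θ _ k v l
    obtain ⟨w, -, n⟩ := k v l
    rwa [Subsingleton.elim w 0] at n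
  | h_option ih =>
    rename_i α _
    intro θ hθ k v l
    have lin : Lin fun z : Y × (α → Y) => fun i : Option α => i.elim z.1 z.2 :=
      Lin.pi fun i => by cases i <;> simp only [Option.elim] <;> fun_prop
    have fn : L.Fn fun z : Y × (α → Y) => fun i : Option α => i.elim z.1 z.2 := PP.Fn.of lin
    have fn' : L.td.Fn fun z : Y × (α → Y) => fun i : Option α => i.elim z.1 z.2 := PP.Fn.of lin
    obtain ⟨T, a, b⟩ : L.td.D fun z : X × Y => ∃ u : α → Y, u ∈ (pw S' : AddSubgroup (α → Y)) ∧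
        (z.1, fun i : Option α => i.elim z.2 u) ∈ θ :=
      PP.D.ex ((PP.D.mem (PP.pw hS') (by fun_prop)).and (PP.D.mem (Cl.td_of hθ)
        (PP.Fn.prodMk (by fun_prop) (PP.Fn.comp fn'
          (g := fun z : (X × Y) × (α → Y) => (z.1.2, z.2)) (by fun_prop)))))
    obtain ⟨T', a', b'⟩ : L.D fun z : X × (α → Y) =>
        (z.1, fun i : Option α => i.elim (0 : Y) z.2) ∈ θ :=
      PP.D.mem hθ (PP.Fn.prodMk (by fun_prop) (PP.Fn.comp fn
        (g := fun z : X × (α → Y) => ((0 : Y), z.2)) (by fun_prop)))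
    have h1 := s0_nm_td h a fun v l => by
      obtain ⟨w, m, n⟩ := k v l
      refine ⟨w none, mem_pw.1 m _, (b _).2 ⟨fun i => w (some i), mem_pw.2 fun i => mem_pw.1 m _, ?_⟩⟩
      convert n using 2
      funext i; cases i <;> rfl
    have h2 := (b' _).1 (ih T' a' (fun v l => by
      obtain ⟨u, m, n⟩ := (b _).1 (h1 v l)
      exact ⟨u, m, (b' _).2 n⟩) v l)
    convert h2 using 2
    funext i; cases i <;> rfl

/-- A total relation embeds intervals. -/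
theorem s0_int_fin {N S : AddSubgroup X} {N' S' : AddSubgroup Y} {R : AddSubgroup (X × Y)}
    (hR : L.td.df R) (hS' : L.td.df S') (tot : ∀ x ∈ S, ∃ y ∈ S', (x, y) ∈ R)
    (ker : ∀ x ∈ S, (x, (0 : Y)) ∈ R → x ∈ N) (low : ∀ y ∈ N', y ∈ S' ∧ ((0 : X), y) ∈ R)
    (h : FinI L N' S') : FinI L N S := by
  have key : ∀ T : AddSubgroup X, ∃ U : AddSubgroup Y, ∀ y, y ∈ U ↔ y ∈ S' ∧ ∃ x ∈ T, (x, y) ∈ R :=
    fun T => ⟨S' ⊓ (R ⊓ T.comap (AddMonoidHom.fst X Y)).map (AddMonoidHom.snd X Y), fun y =>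
      and_congr_right fun _ => ⟨by rintro ⟨z, ⟨m, n⟩, rfl⟩; exact ⟨z.1, n, m⟩,
        fun ⟨x, m, n⟩ => ⟨(x, y), ⟨n, m⟩, rfl⟩⟩⟩
  choose Θ hΘ using key
  have le : ∀ T T' : AddSubgroup X, T ≤ S → N ≤ T' → T' ≤ S → Θ T = Θ T' → T ≤ T' := by
    intro T T' a b c e x m
    obtain ⟨y, n, r⟩ := tot x (a m)
    obtain ⟨-, x', m', r'⟩ := (hΘ T' y).1 (e ▸ (hΘ T y).2 ⟨n, x, m, r⟩)
    have := T'.add_mem (b (ker (x - x') (S.sub_mem (a m) (c m'))
      (by simpa using R.sub_mem r r'))) m'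
    simpa using this
  refine Set.Finite.of_finite_image (f := Θ) (Set.Finite.subset h ?_) fun T a T' b e =>
    le_antisymm (le T T' a.2.2 b.2.1 b.2.2 e) (le T' T b.2.2 a.2.1 a.2.2 e.symm)
  rintro _ ⟨T, ⟨a, -, -⟩, rfl⟩
  refine ⟨PP.D.df ((PP.D.of hS').and (PP.D.ex (r := fun (y : Y) (x : X) => x ∈ T ∧ (x, y) ∈ R)
    ((PP.D.mem a (by fun_prop)).and (PP.D.mem hR (by fun_prop))))) (hΘ T), fun y m => ?_,
    fun y m => ((hΘ T y).1 m).1⟩
  exact (hΘ T y).2 ⟨(low y m).1, 0, T.zero_mem, (low y m).2⟩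

omit [Std X] in
theorem s0_small {S : AddSubgroup X} (h : Small L S) {v : X} (m : v ∈ S) :
    ∀ ε > 0, ∃ K, L.df K ∧ v ∈ K ∧ ρ K < ε := fun ε k =>
  let ⟨K, a, b, c⟩ := h ε k
  ⟨K, a, b m, c⟩

/-- Without rational directions over `S` the trace on `S` is the trace of the interior. -/
theorem s0_core {μ : Type} [Finite μ] {A S : AddSubgroup X} {Z : AddSubgroup (X × (μ → M × M))}
    (h : Pres L p A Z) (h0 : L0 L p) (hS : L.td.df S) (hs : Small L S)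
    (k : ∀ c : μ → F, (∀ w ∈ p.ai, ∃ v ∈ S, (v, tens c ((0 : M), w)) ∈ Z) → c = 0) :
    ∀ v ∈ S, v ∈ A ↔ (v, 0) ∈ Z := by
  refine fun v m => ⟨fun l => ?_, h.sub v 0 (AddSubgroup.zero_mem _)⟩
  obtain ⟨γ, a, b, c⟩ := h.lim v l (s0_small hs m)
  obtain ⟨T, d, e⟩ : L.td.D fun γ : μ → M × M => ∃ v : X, v ∈ S ∧ (v, γ) ∈ Z :=
    PP.D.ex ((PP.D.mem hS (by fun_prop)).and (PP.D.mem (Cl.td_of h.old) (by fun_prop)))
  rwa [h0 μ T d (fun c l => k c fun w n => (e _).1 (l w n)) γ ((e _).2 ⟨v, m, c⟩) a b] at c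

end

theorem stS0 (hNF : St_NF) : St_S0 := by
  intro L L' p hs h0 X _ _ _ S hS hsm hN A hA
  obtain ⟨μ, _, Z, h⟩ := hNF hs hA
  obtain ⟨A₀, a, b⟩ : L.D fun v : X => (v, (0 : μ → M × M)) ∈ Z := PP.D.mem h.old (by fun_prop)
  refine ⟨A₀, a, fun v m => (s0_core h h0 hS hsm (fun c k => h.red c fun w n => ?_) v m).trans
    (b v).symm⟩
  obtain ⟨θ, d, e⟩ : L.D fun z : M × X => (z.2, tens c ((0 : M), z.1)) ∈ Z :=
    PP.D.mem h.old (by fun_prop)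
  exact (e _).1 (hN θ d (fun w n => let ⟨v, s, t⟩ := k w n; ⟨v, s, (e _).2 t⟩) w n)

theorem stP2S (hNF : St_NF) : St_P2S := by
  intro L₀ L L' p hs h0 hle κ hκ hsm hz hP A hA hn
  obtain ⟨μ, _, Z, h⟩ := hNF hs hA
  obtain ⟨A₀, a, b⟩ : L.D fun v : M => (v, (0 : μ → M × M)) ∈ Z := PP.D.mem h.old (by fun_prop)
  obtain ⟨k, y, hy, hy0⟩ := hP A₀ a fun l =>
    hn fun v m => h.sub v 0 (AddSubgroup.zero_mem _) ((b v).1 (l m))
  obtain ⟨n, hn'⟩ : ∃ n, n = Nat.card (Fin k → μ → F) + 1 := ⟨_, rfl⟩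
  obtain ⟨z, hz1, hz2⟩ := hz n
  have key : ∀ (c : Fin n → Fin k → μ → F) (w : M × M), ∀ v ∈ κ,
      (∀ i j, (y i • z j • v, tens (c j i) w) ∈ Z) → v = 0 := by
    intro c w v m l
    have := Fintype.ofFinite (Fin k → μ → F)
    obtain ⟨j, j', ne, e⟩ := Fintype.exists_ne_map_eq_of_card_lt c (by
      rw [Fintype.card_fin, hn', Nat.card_eq_fintype_card]; omega)
    refine hz2 j j' ne v m (sub_eq_zero.1 (hy0 _
      (κ.sub_mem ((hz1 j).2 v m) ((hz1 j').2 v m)) fun i => (b _).2 ?_))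
    have := Z.sub_mem (l i j) (l i j')
    rwa [Prod.mk_sub_mk, e, sub_self, ← smul_sub] at this
  have dy : ∀ i, L.td.Dy (y i) := fun i => Cl.tdDy (hle.Dy (hy i).1)
  have dz : ∀ j, L.td.Dy (z j) := fun j => Cl.tdDy (hle.Dy (hz1 j).1)
  obtain ⟨T, d, e⟩ : L.td.D fun γ : μ × Fin k × Fin n → M × M =>
      ∃ v : M, v ∈ κ ∧ ∀ i j, (y i • z j • v, fun m => γ (m, i, j)) ∈ Z :=
    PP.D.ex ((PP.D.mem hκ (by fun_prop)).and (PP.D.all fun i => PP.D.all fun j =>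
      PP.D.mem (Cl.td_of h.old) (PP.Fn.prodMk
        (PP.Fn.smul (dy i) (PP.Fn.smul (dz j) (by fun_prop))) (by fun_prop))))
  refine ⟨k * n, fun t => y (finProdFinEquiv.symm t).1 * z (finProdFinEquiv.symm t).2,
    fun t => ⟨(hy _).1.mul (hz1 _).1, fun v m => ?_⟩, fun v m l => ?_⟩
  · rw [mul_smul]; exact (hy _).2 _ ((hz1 _).2 v m)
  have l' : ∀ i j, y i • z j • v ∈ A := fun i j => by
    simpa [mul_smul] using l (finProdFinEquiv (i, j))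
  choose γ g1 g2 g3 using fun i j =>
    h.lim _ (l' i j) (s0_small hsm ((hy i).2 _ ((hz1 j).2 v m)))
  have z0 := h0 _ T d (fun c l => by
      have : ∀ i j, (fun m => c (m, i, j)) = 0 := fun i j => h.red _ fun w s => by
        obtain ⟨u, t, r⟩ := (e _).1 (l w s)
        have u0 := key (fun j i m => c (m, i, j)) (0, w) u t r
        have := r i j
        rwa [u0, smul_zero, smul_zero] at this
      exact funext fun t => congrFun (this t.2.1 t.2.2) t.1)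
    (fun t => γ t.2.1 t.2.2 t.1) ((e _).2 ⟨v, m, g3⟩) (mem_pw.2 fun t => mem_pw.1 (g1 _ _) _)
    (mem_pw.2 fun t => mem_pw.1 (g2 _ _) _)
  refine key 0 0 v m fun i j => ?_
  have := g3 i j
  rwa [show γ i j = tens ((0 : Fin n → Fin k → μ → F) j i) 0 from
    (funext fun m => congrFun z0 (m, i, j)).trans (tens_zero _).symm] at this

theorem stNFP (hNF : St_NF) : St_NFP := by
  intro L L' p hs h0 S hS hsm hN hc A hA hn hf
  have hle := hs.ext.le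
  obtain ⟨μ, _, Z, h⟩ := hNF hs hA
  have old : ∀ K, L.df K → A ⊓ S ≤ K → S ≤ K := fun K a b => by_contra fun c =>
    hN K a c (Set.Finite.subset hf fun T t => ⟨hle.td t.1, le_trans (AddSubgroup.prod_mono
      (le_inf b inf_le_right) (le_inf b inf_le_right)) t.2.1, t.2.2⟩)
  have s0 : ∀ v, (v, (0 : μ → M × M)) ∈ Z → v ∈ A := fun v => h.sub v 0 (AddSubgroup.zero_mem _)
  rcases hc with hc | hc
  · obtain ⟨T, a, b⟩ : L.td.D fun v : M =>
        ∃ γ : μ → M × M, γ ∈ (pw p.Hi : AddSubgroup (μ → M × M)) ∧ (v, γ) ∈ Z :=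
      PP.D.ex ((PP.D.mem (PP.pw hs.ok.td) (by fun_prop)).and
        (PP.D.mem (Cl.td_of h.old) (by fun_prop)))
    refine hn fun v m => s0 v (s0_nm_pw hc hs.ok.td μ Z h.old (fun v m => (b v).1 ?_) v m)
    by_contra l
    obtain ⟨K, c, d, e⟩ := td_not a l
    refine e (old K c (fun u n => d ((b u).2 ?_)) m)
    obtain ⟨γ, -, g⟩ := h.lim u n.1 (s0_small hsm n.2)
    exact ⟨γ, g⟩
  by_cases k : ∀ c : μ → F, (∀ w ∈ p.ai, ∃ v ∈ S, (v, tens c ((0 : M), w)) ∈ Z) → c = 0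
  · obtain ⟨A₀, a, b⟩ : L.D fun v : M => (v, (0 : μ → M × M)) ∈ Z := PP.D.mem h.old (by fun_prop)
    exact hn fun v m => s0 v ((b v).1 (old A₀ a
      (fun u n => (b u).2 ((s0_core h h0 hS hsm k u n.2).1 n.1)) m))
  obtain ⟨c, k⟩ := not_forall.1 k
  obtain ⟨tot, c0⟩ := Classical.not_imp.1 k
  obtain ⟨R, a, b⟩ : L'.D fun z : M × M =>
      ∃ u : M, u ∈ A ∧ (z.2 - u, tens c ((0 : M), z.1)) ∈ Z :=
    PP.D.ex ((PP.D.mem hA (by fun_prop)).and (PP.D.mem (hle h.old) (by fun_prop)))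
  obtain ⟨A₁, a1, b1⟩ : L'.D fun w : M => (w, (0 : M)) ∈ R := PP.D.mem a (by fun_prop)
  refine hc A₁ a1 (fun l => c0 (h.red c fun w n => ?_)) ?_
  · obtain ⟨T, d, e⟩ : L.td.D fun v : M => ∃ w : M, w ∈ p.ai ∧ (v, tens c ((0 : M), w)) ∈ Z :=
      PP.D.ex ((PP.D.mem hs.ok.ca.td (by fun_prop)).and
        (PP.D.mem (Cl.td_of h.old) (by fun_prop)))
    obtain ⟨K, f1, f2, f3⟩ := td_le d hA fun v m => by
      obtain ⟨w, n, r⟩ := (e v).1 m
      obtain ⟨u, s, t⟩ := (b _).1 ((b1 w).1 (l n))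
      have := Z.sub_mem r t
      rw [Prod.mk_sub_mk, sub_self] at this
      simpa using A.sub_mem (s0 _ this) s
    obtain ⟨v, -, r⟩ := tot w n
    simpa using Z.sub_mem r (h.int K f1 f3 v (f2 ((e v).2 ⟨w, n, r⟩)))
  obtain ⟨R₂, a2, b2⟩ : L'.td.D fun z : (M × M) × M × M =>
      (z.1.1, z.2.1) ∈ R ∧ (z.1.2, z.2.2) ∈ R :=
    (PP.D.mem (Cl.td_of a) (by fun_prop)).and (PP.D.mem (Cl.td_of a) (by fun_prop))
  have t1 : ∀ w ∈ p.ai, ∃ v ∈ S, (w, v) ∈ R := fun w n =>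
    let ⟨v, s, t⟩ := tot w n
    ⟨v, s, (b _).2 ⟨0, A.zero_mem, by simpa using t⟩⟩
  have t2 : ∀ v ∈ A, ((0 : M), v) ∈ R := fun v n =>
    (b _).2 ⟨v, n, by simp [Prod.mk_zero_zero]⟩
  refine s0_int_fin (N := (A₁ ⊓ p.ai).prod (A₁ ⊓ p.ai)) (S := p.ai.prod p.ai)
    (N' := (A ⊓ S).prod (A ⊓ S)) a2 (PP.prod (hle.td hS) (hle.td hS)) (fun x m => ?_)
    (fun x m r => ⟨⟨(b1 _).2 ((b2 _).1 r).1, m.1⟩, (b1 _).2 ((b2 _).1 r).2, m.2⟩)
    (fun x m => ⟨⟨m.1.2, m.2.2⟩, (b2 _).2 ⟨t2 _ m.1.1, t2 _ m.2.1⟩⟩) hf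
  obtain ⟨v, s, t⟩ := t1 _ m.1
  obtain ⟨v', s', t'⟩ := t1 _ m.2
  exact ⟨(v, v'), ⟨s, s'⟩, (b2 _).2 ⟨t, t'⟩⟩

end Z47
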