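import Pool.Agent.Lib.MP_1e63be_al.Z47.SysB

/-!
Sealing, the invariant of killing tasks, and splitting.
-/

namespace Z47

open Set Filter Topology

variable [Amb] [Sys]

theorem seal47 (h1 : St_INT) (h2 : St_ATOM) (h3 : St_P2) : St_SEAL := by
  intro Φ Λ B hc hB hs S hS A hA hn
  obtain ⟨A₀, a⟩ := h1 hB.cl hc.cl (hs.trans inter_subset_left) hA
  obtain ⟨C, c1, c2⟩ := hB.cmp A₀ a.df
  have t := (L B).td.inf (PP.sup hS (Cl.td_of a.df)) (Cl.td_of c1)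
  obtain ⟨κ, k1, k2, k3⟩ := (h2 hB t).2 fun e => hn fun v l => by
    obtain ⟨x, m, y, o, rfl⟩ := AddSubgroup.mem_sup.1 (c2.sup_eq_top.ge (AddSubgroup.mem_top v))
    obtain rfl : y = 0 := e.le ⟨by
      simpa using (S ⊔ A₀).sub_mem (AddSubgroup.mem_sup_left l) (AddSubgroup.mem_sup_right m), o⟩
    simpa using a.le m
  obtain ⟨n, y, b1, b2⟩ := (h3 hc hB hs k2 ((h2 hB k2).1 k3) k3).1 A hA fun e => k3.1 (by
    obtain ⟨K, d1, d2, d3⟩ := td_le k2 hA e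
    exact le_bot_iff.1 ((le_inf (d2.trans (a.max K d1 d3)) (k1.trans inf_le_right)).trans
      c2.inf_eq_bot.le))
  have hl := Sys.mono (hs.trans inter_subset_left)
  have hy := fun i => (b1 i).1
  obtain ⟨Z, z1, z2, z3⟩ := k2
  obtain ⟨T, t1, t2⟩ : (L Φ).D fun v : M => ∀ i, y i • v ∈ A :=
    .all fun i => .mem hA (hl.Dy (hy i))
  obtain ⟨j, e⟩ := sat_le (K := fun j => Z j ⊓ T) (fun j => (L Φ).inf (hl (z1 j)) t1)
    (fun _ _ l => inf_le_inf_right _ (z2 l)) (L Φ).bot fun v l => b2 v ((z3 v).2 fun j =>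
      (AddSubgroup.mem_iInf.1 l j).1) ((t2 v).1 (AddSubgroup.mem_iInf.1 l 0).2)
  obtain ⟨A₄, d1, d2⟩ : (L B).D fun v : Fin n → M => ∃ w, w ∈ Z j ∧ ∀ i, v i - y i • w ∈ A₀ :=
    .ex (.and (.mem (z1 j) (by fun_prop)) (.all fun i => .mem a.df
      (by fun_prop (disch := exact hy _))))
  refine ⟨n, pw A₀, A₄, PP.pw a.df, d1, fun v l => mem_pw.2 fun i => ?_, fun l => k3.1 ?_⟩
  · obtain ⟨w, m, o⟩ := (d2 v).1 l.2
    obtain rfl : w = 0 := e j le_rfl ⟨m, (t2 w).2 fun i => by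
      simpa using A.sub_mem (mem_pw.1 l.1 i) (a.le (o i))⟩
    simpa using o i
  · refine (AddSubgroup.eq_bot_iff_forall _).2 fun w m => b2 w m fun i => a.le ?_
    choose v f1 u f2 f3 using fun i => AddSubgroup.mem_sup.1 (k1 ((b1 i).2 w m)).1
    exact f3 i ▸ A₀.add_mem (mem_pw.1 (l ⟨mem_pw.2 f1, (d2 v).2 ⟨w, (z3 w).1 m j, fun i => by
      simpa [← f3] using f2 i⟩⟩) i) (f2 i)

theorem gk47 (h1 : St_SEAL) (h2 : St_STEP) (h3 : St_TH) (h4 : St_L0G) (h5 : St_KE) (h6 : St_NFP)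
    (h7 : St_RAT) (h8 : St_SIG) : St_GK := by
  intro Φ Λ ξ hc hs hK
  obtain ⟨hB, -, tb, nf⟩ := Sys.hK ξ hK
  have ca := (Sys.ok ξ).ca
  have hl := Sys.mono (hs.trans inter_subset_left)
  refine ⟨fun A hA hn m => ?_, ?_⟩
  · obtain ⟨n, A₃, A₄, a3, a4, b1, b2⟩ := h1 hc hB hs _ ca.td A hA hn
    refine (tb n A₃ A₄ a3 a4 b2 (n * m)).mono fun j l => ?_
    have pj := (L _).sub (ca.df j)
    have pA := (L _).sub hA
    have p4 := (L _).sub a4
    have := (dd_mono (P.inf (PP.pw pj) p4) ((L _).sub a3) (P.inf (PP.pw pj) p4)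
      (P.inf (PP.pw pA) p4) le_rfl b1).trans (dd_inf (PP.pw pj) (PP.pw pA) p4)
    rw [dd_pw pj pA] at this
    have l := l.trans_le this
    simp only [Nat.cast_mul, Nat.card_eq_fintype_card, Fintype.card_fin, mul_assoc] at l
    exact lt_of_mul_lt_mul_left l (by positivity)
  refine chain_ind (Q := fun Ψ => NFs (L Ψ) (p ξ).ai) (hs.trans inter_subset_left) nf
    (fun Ψ _ _ l A a b c => ?_) fun α a b c => ?_
  · obtain ⟨s, d1, d2, d3⟩ := Sys.fin a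
    obtain ⟨Θ, e1, -, e2, e3⟩ := l s d1 d2
    exact e3 A (Sys.mono e1 d3) b (c.anti (Sys.mono e2))
  have g := hc.step hB.cl hs a b
  have d := hB.cl.step hc.cl α
  have e : (L (dep ξ)).Le (L (dep ξ ∪ Φ ∩ Iio α)) := Sys.mono subset_union_left
  have st := h2 d (not_mem_step b) (hc.cl.dep_sub a)
  have l0 := l0_of_good h2 h3 h4 d g (hc.cl.dep_sub a) (not_mem_step b)
  refine h6 st l0 (e.td ca.td) (ca.small.mono e) c ?_
  obtain m | m | m := Sys.tri α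
  · exact Or.inl (m.Hi ▸ NM.bot)
  · exact Or.inr (h5 st (Sys.hK α m).2.1 (g.k m).1 (h3 st (Sys.hK α m).2.1 (g.k m).1).1 l0 (g.k m).2)
  · obtain ⟨_, _, o⟩ := gok_of_good g (hc.cl.dep_sub a) m
    have _ := h8
    have f : Fin2 (L (dep ξ ∪ Φ ∩ Iio α)) (p α).bi := by
      rw [(Sys.hG α m).2.2.2.1]
      exact (h7 (hc.anti ((step_sub hc hs a).trans inter_subset_left) d) (by
        rintro _ ⟨i, rfl⟩; exact ⟨Or.inl (hB.q i), (hs (hB.q i)).2⟩)).fin2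
    exact Or.inl ((c.nm st.ok.cb.td f).prod (c.nm st.ok.ca.td o.fin) st.ok.cb.td)

end Z47
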