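import Pool.Agent.Lib.MP_1e63be_al.Z47.Blue

/-!
Chains for gluing tasks.
-/

namespace Z47

open Set Filter Topology

namespace TG

section
variable [Amb] {L : Cl}

/-- Functional relations extend to definable endomorphisms. -/
theorem rep (hL : Cmp L) {θ : AddSubgroup (M × M)} (hθ : L.td.df θ)
    (fn : ∀ w, (0, w) ∈ θ → w = 0) : ∃ y : E, L.Dy y ∧ ∀ v w, (v, w) ∈ θ → y • v = w := by
  obtain ⟨Z, a, b, c⟩ := hθ
  have hK : ∀ n, L.df ((Z n).comap (AddMonoidHom.inr M M)) := fun n =>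
    (PP.D.mem (a n) (f := fun w : M => ((0 : M), w)) (by fun_prop)).df fun _ => Iff.rfl
  obtain ⟨N, hN⟩ := sat_le hK (fun _ _ k => AddSubgroup.comap_mono (b k)) (L' := L) L.bot
    fun w l => fn w ((c _).2 fun n => AddSubgroup.mem_iInf.1 l n)
  have fn' : ∀ w, ((0 : M), w) ∈ Z N → w = 0 := fun w l => hN N le_rfl l
  obtain ⟨D, hD, mD⟩ : L.D fun v : M => ∃ w : M, (v, w) ∈ Z N :=
    PP.D.ex (PP.D.mem (a N) (by fun_prop))
  obtain ⟨C, hC, ic⟩ := hL D hD
  obtain ⟨T, hT, mT⟩ : L.D fun z : M × M => ∃ u : M, u ∈ C ∧ (z.1 - u, z.2) ∈ Z N :=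
    PP.D.ex ((PP.D.mem hC (by fun_prop)).and (PP.D.mem (a N) (by fun_prop)))
  have tot : ∀ v, ∃ w, (v, w) ∈ T := fun v => by
    obtain ⟨x, hx, u, hu, rfl⟩ := AddSubgroup.mem_sup.1
      (show v ∈ D ⊔ C by rw [ic.sup_eq_top]; trivial)
    obtain ⟨w, hw⟩ := (mD x).1 hx
    exact ⟨w, (mT _).2 ⟨u, hu, by simpa using hw⟩⟩
  have uq0 : ∀ w, ((0 : M), w) ∈ T → w = 0 := fun w l => by
    obtain ⟨u, hu, l⟩ := (mT _).1 l
    have h1 : (0 : M) - u ∈ D := (mD _).2 ⟨w, l⟩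
    have h2 : u ∈ D := by simpa using h1
    obtain rfl : u = 0 := by
      have : u ∈ D ⊓ C := ⟨h2, hu⟩
      rwa [ic.inf_eq_bot, AddSubgroup.mem_bot] at this
    exact fn' w (by simpa using l)
  have uq : ∀ v w w', (v, w) ∈ T → (v, w') ∈ T → w = w' := fun v w w' l l' =>
    sub_eq_zero.1 (uq0 _ (by simpa using T.sub_mem l l'))
  choose f hf using tot
  let g : M →+ M := AddMonoidHom.mk' f fun x y => uq _ _ _ (hf _) (T.add_mem (hf x) (hf y))
  refine ⟨g.toZModLinearMap 2, ⟨T, hT, fun z => ⟨fun l => uq _ _ _ (hf _) l, fun l => ?_⟩⟩,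
    fun v w l => uq _ _ _ (hf _) ((mT _).2 ⟨0, C.zero_mem, by simpa using (c _).1 l N⟩)⟩
  have : f z.1 = z.2 := l
  have k := hf z.1
  rwa [this] at k

/-- The restrictions of the definable endomorphisms. -/
def RV (L : Cl) (κ : AddSubgroup M) : Submodule F (κ → M) where
  carrier := {f | ∃ y, En L κ y ∧ ∀ v : κ, f v = y • (v : M)}
  add_mem' := fun ⟨y, a, b⟩ ⟨z, a', b'⟩ => ⟨y + z, ⟨a.1.add a'.1, fun v l => by
    rw [add_smul]; exact κ.add_mem (a.2 v l) (a'.2 v l)⟩, fun v => by simp [b, b']⟩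
  zero_mem' := ⟨0, ⟨PP.Dy.zero, fun v _ => by simp⟩, fun v => by simp⟩
  smul_mem' := fun c f ⟨y, a, b⟩ => by
    obtain rfl | rfl := F01 c
    · exact ⟨0, ⟨PP.Dy.zero, fun v _ => by simp⟩, fun v => by simp⟩
    · exact ⟨y, a, by simpa using b⟩

theorem RV_fin {κ : AddSubgroup M} (hκ : L.td.df κ) (h : Fin2 L κ) : Finite (RV L κ) := by
  have key : ∀ f : RV L κ, ∃ T : AddSubgroup (M × M), L.td.df T ∧ T ≤ κ.prod κ ∧
      ∀ (v : κ) w, ((v : M), w) ∈ T ↔ f.1 v = w := fun ⟨f, y, a, b⟩ => by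
    obtain ⟨T, hT, mT⟩ : L.td.D fun z : M × M => z.1 ∈ κ ∧ y • z.1 = z.2 :=
      (PP.D.mem hκ (by fun_prop)).and (Cl.tdD a.1)
    exact ⟨T, hT, fun z l => ⟨((mT z).1 l).1, ((mT z).1 l).2 ▸ a.2 _ ((mT z).1 l).1⟩,
      fun v w => by simp [mT, b]⟩
  choose T a b c using key
  have := h.to_subtype
  exact Finite.of_injective (fun f => (⟨T f, a f, bot_le, b f⟩ :
      {S' | L.td.df S' ∧ ⊥ ≤ S' ∧ S' ≤ κ.prod κ})) fun f g e => Subtype.ext (funext fun v => by
    have e' : T f = T g := congrArg Subtype.val e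
    exact ((c g v _).1 (e' ▸ (c f v _).2 rfl)).symm)

theorem sc_app (a : F) (v : M) : sc a v = a • v := by
  obtain rfl | rfl := F01 a <;> simp

/-- A basis of the endomorphisms of a finite type-definable subspace. -/
theorem basis {κ : AddSubgroup M} (hκ : L.td.df κ) (h : Fin2 L κ) :
    ∃ (d : ℕ) (y : Fin d → E), (∀ k, En L κ (y k)) ∧ (∀ c, c ≠ 0 → ∃ w ∈ κ, yc y c • w ≠ 0) ∧
      ∀ z, En L κ z → ∃ c, ∀ v ∈ κ, z • v = yc y c • v := by
  have := RV_fin hκ h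
  have : Module.Finite F (RV L κ) := Module.Finite.of_finite
  let b := Module.finBasis F (RV L κ)
  choose y a e using fun k => (b k).2
  have key : ∀ (c : Fin (Module.finrank F (RV L κ)) → F) (v : κ),
      (b.equivFun.symm c).1 v = yc y c • (v : M) := fun c v => by
    simp [yc, sc_app, e, Finset.sum_apply]
  refine ⟨_, y, a, fun c k => ?_, fun z hz => ?_⟩
  · by_contra l
    push Not at l
    exact k (b.equivFun.symm.injective (by
      rw [map_zero]
      exact Subtype.ext (funext fun v => (key c v).trans (l v v.2))))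
  · refine ⟨b.equivFun ⟨fun v => z • (v : M), z, hz, fun _ => rfl⟩, fun v l => ?_⟩
    rw [← key _ ⟨v, l⟩, LinearEquiv.symm_apply_apply]

theorem En.yc {κ : AddSubgroup M} {d : ℕ} {y : Fin d → E} (h : ∀ k, En L κ (y k))
    (c : Fin d → F) : En L κ (yc y c) :=
  ⟨PP.Dy.yc (fun k => (h k).1) c, fun v l => by
    rw [yc_smul]; exact κ.sum_mem fun k _ => (h k).2 _ (sc_mem _ l)⟩

/-- An invariant chain. -/
theorem chain {κ : AddSubgroup M} (hκ : L.td.df κ) (sm : Small L κ) {d : ℕ} {y : Fin d → E}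
    (h : ∀ k, En L κ (y k)) (sp : ∀ z, En L κ z → ∃ c, ∀ v ∈ κ, z • v = yc y c • v) :
    ∃ β, Chn L β ∧ ⨅ j, β j = κ ∧ ∀ k j, En L (β j) (y k) := by
  classical
  obtain ⟨Z, a, b, c⟩ := hκ
  have e : ⨅ j, Z j = κ := AddSubgroup.ext fun x => by rw [c, AddSubgroup.mem_iInf]
  choose m hm using fun (c : Fin d → F) (k : Fin d) => sp (yc y c * y k)
    ⟨(En.yc h c).1.mul (h k).1, fun v l => by rw [mul_smul]; exact (En.yc h c).2 _ ((h k).2 _ l)⟩
  have hy : ∀ c, L.Dy (yc y c) := fun c => (En.yc h c).1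
  obtain ⟨D, hD, mD⟩ : L.D fun v : M => ∀ c k, (yc y c * y k) • v = yc y (m c k) • v :=
    PP.D.all fun c => PP.D.all fun k => PP.D.eq ((hy c).mul (h k).1) (hy _)
  obtain ⟨N, hN⟩ := sat_le a b (L' := L) hD (e ▸ fun v l => (mD v).2 fun c k => hm c k v l)
  have hβ : ∀ j, L.D fun v : M => v ∈ Z (j + N) ∧ ∀ c, yc y c • v ∈ Z (j + N) := fun j =>
    (PP.D.of (a _)).and (PP.D.all fun c => PP.D.mem (a _) (hy c))
  choose β hb mb using hβ
  have le : ∀ j, β j ≤ Z (j + N) := fun j v l => ((mb j v).1 l).1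
  refine ⟨β, ⟨hb, fun i j k v l => (mb i v).2 ⟨b (by omega) ((mb j v).1 l).1,
    fun c => b (by omega) (((mb j v).1 l).2 c)⟩, ?_⟩, le_antisymm ?_ ?_, fun k j => ⟨(h k).1, ?_⟩⟩
  · refine tendsto_order.2 ⟨fun r k => Eventually.of_forall fun j =>
      k.trans_le (ρ_nonneg (L.sub (hb j))), fun r k => ?_⟩
    obtain ⟨K', a', b', c'⟩ := sm r k
    obtain ⟨N', hN'⟩ := sat_le a b (L' := L) a' (e ▸ b')
    exact (eventually_ge_atTop N').mono fun j l => (Amb.ρ_mono (L.sub (hb j)) (L.sub a')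
      ((le j).trans (hN' _ (by omega)))).trans_lt c'
  · exact e ▸ le_iInf fun j => (iInf_le _ j).trans ((le j).trans (b (by omega)))
  · exact le_iInf fun j v l => (mb j v).2 ⟨(c v).1 l _, fun c' => (c _).1 ((En.yc h c').2 v l) _⟩
  · intro v l
    obtain ⟨l1, l2⟩ := (mb j v).1 l
    refine (mb j _).2 ⟨?_, fun c => ?_⟩
    · have := l2 (Pi.single k 1)
      rwa [yc_smul, Finset.sum_eq_single k (by simp +contextual [eq_comm]) (by simp),
        Pi.single_eq_same, sc_one, one_smul] at this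
    · rw [← mul_smul, (mD v).1 (hN _ (by omega) l1) c k]
      exact l2 _

end

theorem subseq {r : ℕ → ℝ} (h : Tendsto r atTop (𝓝 0)) (k : ∀ j, 0 < r j) :
    ∃ φ : ℕ → ℕ, StrictMono φ ∧ ∀ j, r (φ (j + 1)) ≤ r (φ j) / 2 := by
  have : ∀ i, ∃ j, i < j ∧ r j ≤ r i / 2 := fun i =>
    ((eventually_gt_atTop i).and
      ((h.eventually (gt_mem_nhds (half_pos (k i)))).mono fun _ => le_of_lt)).exists
  choose f a b using this
  exact ⟨fun n => f^[n] 0, strictMono_nat_of_lt_succ fun n => by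
    rw [Function.iterate_succ_apply']; exact a _, fun n => by
    simp only [Function.iterate_succ_apply']; exact b _⟩

end TG

theorem stTASKG [Amb] [Sys] (hS : St_SIG) : St_TASKG := by
  intro B hB κ hκ sm att fin
  obtain ⟨cs, rs, es, -, -, -⟩ := hS
  have cs := cs.mono (Sys.mono (Ψ := B) (range_subset_iff.2 hB.q))
  obtain ⟨d, y, en, ind, sp⟩ := TG.basis hκ fin
  obtain ⟨β, cb, eb, nb⟩ := TG.chain hκ sm en sp
  have pos : ∀ j, 0 < ρ (β j) := fun j => ρ_pos ((L B).sub (cb.df j)) fun e =>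
    att.1 (le_bot_iff.1 (e ▸ eb ▸ iInf_le β j))
  have d0 : (0 : ℝ) < d := by
    rcases d with _ | d
    · obtain ⟨c, hc⟩ := sp 1 ⟨PP.Dy.one, fun v l => by simpa using l⟩
      exact absurd (le_bot_iff.1 fun v l => by simpa [yc] using hc v l) att.1
    · positivity
  have d1 : (1 : ℝ) ≤ d := by exact_mod_cast Nat.one_le_iff_ne_zero.2 (by rintro rfl; simp at d0)
  obtain ⟨φ, hφ, hr⟩ := TG.subseq cb.lim pos
  have ca : Chn (L B) fun j => β (φ j) :=
    ⟨fun j => cb.df _, fun _ _ k => cb.anti (hφ.monotone k), cb.lim.comp hφ.tendsto_atTop⟩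
  have ea : ⨅ j, β (φ j) = κ := eb ▸ le_antisymm
    (le_iInf fun j => (iInf_le _ j).trans (cb.anti (hφ.id_le j))) (le_iInf fun j => iInf_le _ _)
  choose n n1 n2 using fun j => exists_nat_pow_near_of_lt_one (x := ρ (β (φ j)) / d) (y := 2⁻¹)
    (div_pos (pos _) d0) ((div_le_one d0).2 ((ρ_le_one ((L B).sub (cb.df _))).trans d1))
    (by norm_num) (by norm_num)
  have hn : StrictMono n := strictMono_nat_of_lt_succ fun j => by
    have : (2⁻¹ : ℝ) ^ (n (j + 1) + 1) < 2⁻¹ ^ (n j + 1) := by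
      have a := div_le_div_of_nonneg_right (hr j) d0.le
      have b := n1 (j + 1)
      have c := n2 j
      rw [div_right_comm] at a
      rw [pow_succ _ (n j)]
      linarith
    have := (pow_lt_pow_iff_right_of_lt_one₀ (by norm_num) (by norm_num)).1 this
    omega
  have hb : ∀ j, ∃ b, (L B).df b ∧ sig (n j + 1) ≤ b ∧ b ≤ sig (n j) ∧ ρ b = ρ (β (φ j)) / d :=
    fun j => by
      have e : ((0 : ℚ) : ℝ) + ((d : ℚ)⁻¹ : ℚ) * ρ (β (φ j)) = ρ (β (φ j)) / d := by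
        push_cast; ring
      rw [← e]
      exact hB.itp _ _ _ (cs.df _) (cs.df _) (cb.df _) (cs.anti (Nat.le_succ _)) _ _
        (by rw [e, rs]; exact (n1 j).le) (by rw [e, rs]; exact n2 j)
  choose b b1 b2 b3 b4 using hb
  refine ⟨fun j => β (φ j), b, d, y, ca, ⟨b1, antitone_nat_of_succ_le fun j =>
    (b3 _).trans ((cs.anti (hn (Nat.lt_succ_self j))).trans (b2 j)), ?_⟩, fun j k => ?_,
    ⟨fun k j => nb k _, ea ▸ ind, ?_, fun j => ?_, ea ▸ att, ea ▸ fin⟩, ?_, ea⟩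
  · simpa only [b4, zero_div] using ca.lim.div_const (d : ℝ)
  · have := Amb.ρ_mono ((L B).sub (cb.df _)) ((L B).sub (cb.df _)) k
    linarith [hr j, pos (φ j)]
  · rw [ea]
    intro θ hθ le tot fn
    obtain ⟨z, hz, e⟩ := TG.rep hB.cmp hθ fn
    obtain ⟨c, hc⟩ := sp z ⟨hz, fun v l => let ⟨w, k⟩ := tot v l; e v w k ▸ (le k).2⟩
    exact ⟨c, fun v l => let ⟨w, k⟩ := tot v l; by rw [← hc v l, e v w k]; exact k⟩
  · rw [b4]; field_simp
  · rw [← es]
    exact le_antisymm (le_iInf fun j => (iInf_le _ j).trans ((b3 j).trans (cs.anti (hn.id_le j))))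
      (le_iInf fun j => (iInf_le _ _).trans (b2 j))

end Z47
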