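import Pool.Agent.Lib.MP_1e63be_al.Z47.Blue

/-!
Chains for killing tasks.
-/

namespace Z47

open Set Filter Topology

/-- A fast subsequence. -/
theorem fast33 {T : Type} [Countable T] (r : ℕ → ℝ) (hr : Tendsto r atTop (𝓝 0))
    (δ : T → ℕ → ℝ) (hδ : ∀ t k, 0 < δ t k) (η : ℕ → ℝ) (hη : ∀ k, 0 < η k) :
    ∃ φ : ℕ → ℕ, StrictMono φ ∧ (∀ j, r (φ (j + 1)) < η (φ j)) ∧
      ∀ t, ∀ᶠ j : ℕ in atTop, (j : ℝ) * r (φ (j + 1)) < δ t (φ j) := by
  obtain ⟨f, hf⟩ := exists_injective_nat T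
  have key : ∀ j k : ℕ, ∃ k', k < k' ∧ r k' < η k ∧ ∀ t ∈ f ⁻¹' Iic j, (j : ℝ) * r k' < δ t k :=
    fun j k => by
      have h1 : Tendsto (fun i => (j : ℝ) * r i) atTop (𝓝 0) := by simpa using hr.const_mul (j : ℝ)
      exact ((eventually_gt_atTop k).and ((hr.eventually (gt_mem_nhds (hη k))).and
        ((eventually_all_finite ((finite_Iic j).preimage hf.injOn)).2
          fun t _ => h1.eventually (gt_mem_nhds (hδ t k))))).exists
  choose g g1 g2 g3 using key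
  refine ⟨fun j => Nat.rec 0 g j, strictMono_nat_of_lt_succ fun j => g1 j _, fun j => g2 j _,
    fun t => (eventually_ge_atTop (f t)).mono fun j k => g3 j _ t k⟩

variable [Amb] [Sys]

theorem stTASKK : St_TASKK := by
  intro B hB S hS hs hne
  obtain ⟨Z, z1, z2, z3⟩ := hS
  choose K k1 k2 k3 using fun n : ℕ => hs (1 / ((n : ℝ) + 1)) (by positivity)
  let W : ℕ → AddSubgroup M := fun n => Z n ⊓ ⨅ i : Fin (n + 1), K i
  have w1 : ∀ n, (L B).df (W n) := fun n => (L B).inf (z1 n) (PP.iInf fun i => k1 _)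
  have w2 : Antitone W := fun m n h =>
    inf_le_inf (z2 h) (le_iInf fun i => iInf_le (fun i : Fin (n + 1) => K i) (i.castLE (by omega)))
  have w3 : ∀ n, S ≤ W n := fun n => le_inf (fun x h => (z3 x).1 h n) (le_iInf fun i => k2 _)
  have w4 : Tendsto (fun n => ρ (W n)) atTop (𝓝 0) :=
    squeeze_zero (fun n => ρ_nonneg ((L B).sub (w1 n))) (fun n =>
      (Amb.ρ_mono ((L B).sub (w1 n)) ((L B).sub (k1 n))
        (inf_le_right.trans (iInf_le (fun i : Fin (n + 1) => K i) (Fin.last n)))).trans (k3 n).le)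
      tendsto_one_div_add_atTop_nhds_zero_nat
  let T : Type := Σ n : ℕ, {q : {A : AddSubgroup (Fin n → M) | (L B).df A} ×
    {A : AddSubgroup (Fin n → M) | (L B).df A} // ¬ pw S ⊓ q.2.1 ≤ q.1.1}
  have : ∀ n, Countable {A : AddSubgroup (Fin n → M) | (L B).df A} := fun n =>
    (Sys.cnt (Fin n → M) hB).to_subtype
  obtain ⟨φ, f1, f2, f3⟩ := fast33 (T := T) _ w4
    (fun t k => dd (pw (W k) ⊓ t.2.1.2.1) t.2.1.1.1)
    (fun t k => dd_pos ((L B).sub ((L B).inf (PP.pw (w1 k)) t.2.1.2.2)) ((L B).sub t.2.1.1.2)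
      fun h => t.2.2 ((inf_le_inf_right _ (pw_mono (w3 k))).trans h))
    (fun k => ρ (W k)) fun k => ρ_pos ((L B).sub (w1 k)) fun h => hne (le_bot_iff.1 (h ▸ w3 k))
  have e : ⨅ j, W (φ j) = S := le_antisymm (fun x h => (z3 x).2 fun n =>
    z2 (f1.id_le n) (AddSubgroup.mem_inf.1 (AddSubgroup.mem_iInf.1 h n)).1) (le_iInf fun j => w3 _)
  refine ⟨fun j => W (φ j), ⟨fun j => w1 _, w2.comp_monotone f1.monotone,
    w4.comp f1.tendsto_atTop⟩, fun j h => (f2 j).not_ge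
      (Amb.ρ_mono ((L B).sub (w1 _)) ((L B).sub (w1 _)) h), fun n A₃ A₄ h3 h4 h m => ?_, e⟩
  rw [e] at h
  filter_upwards [f3 ⟨n, (⟨A₃, h3⟩, ⟨A₄, h4⟩), h⟩, eventually_ge_atTop m] with j a b
  exact lt_of_le_of_lt (mul_le_mul_of_nonneg_right (Nat.cast_le.2 b)
    (ρ_nonneg ((L B).sub (w1 _)))) a

end Z47
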