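import Pool.Agent.Lib.MP_1e63be_al.Z47.Blue

/-!
Killing packages: the quantitative statement and the vanishing statement.
-/

namespace Z47

open Set Filter Topology

variable [Amb]

namespace THb

/-- Levels of a full type are at least the level of the test subspace. -/
theorem lv {L : Cl} {p : Pkg} (ok : p.Ok L) (gr : p.Gr) {μ : Type} {l : (μ → F) → ℕ∞} {N : ℕ}
    (h : Ty p.H l ≤ pw (p.H N) ⊔ pw p.G) {c : μ → F} (hc : c ≠ 0) {n : ℕ} (e : l c = n) :
    N ≤ n := by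
  by_contra k
  obtain ⟨i, hi⟩ := Function.ne_iff.1 hc
  have hi1 : c i = 1 := (F01 (c i)).resolve_left hi
  refine gr.str n fun w hw => ok.ca.anti (show n + 1 ≤ N by omega) ?_
  have m : ((0 : M), w) ∈ p.H n := ⟨(p.b n).zero_mem, hw⟩
  obtain ⟨x, hx, g, hg, s⟩ := AddSubgroup.mem_sup.1 (h (mem_Ty e m))
  have s' : x i + g i = ((0 : M), w) := by simpa [hi1] using congrFun s i
  have hxi := mem_pw.1 hx i
  obtain ⟨w', a, b⟩ := ok.tot N _ hxi.1
  have s1 : (x i).1 + (g i).1 = 0 := congrArg Prod.fst s'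
  have s2 : (x i).2 + (g i).2 = w := congrArg Prod.snd s'
  have t : ((0 : M), w' + (g i).2) ∈ p.G := by
    have := p.G.add_mem b (mem_pw.1 hg i)
    rwa [show ((x i).1, w') + g i = ((0 : M), w' + (g i).2) from Prod.ext s1 rfl] at this
  have u : (g i).2 = -w' := eq_neg_of_add_eq_zero_right (gr.fn _ t)
  rw [← s2, u]
  exact (p.a N).add_mem hxi.2 ((p.a N).neg_mem a)

theorem Ty_le_pw {L : Cl} {p : Pkg} (ok : p.Ok L) {μ : Type} {l : (μ → F) → ℕ∞} {k : ℕ}
    (h : ∀ c, c ≠ 0 → ∀ n : ℕ, l c = n → k ≤ n) : Ty p.H l ≤ pw (p.H k) :=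
  Ty_le.2 fun c n e x m => by
    by_cases hc : c = 0
    · rw [hc, zero_tens]
      exact AddSubgroup.zero_mem _
    · exact tens_mem_pw c (ok.anti (h c hc n e) m)

theorem th {L L' : Cl} {p : Pkg} (st : Step L L' p) (hk : p.IsK) (ht : Thin L p.a) : TH L p := by
  intro μ _ Z hZ red
  have ok := st.ok
  have hQ : ∀ c : μ → F, ∃ Q : AddSubgroup M, L.df Q ∧ ∀ w, w ∈ Q ↔ tens c ((0 : M), w) ∈ Z :=
    fun c => PP.D.mem hZ (by fun_prop)
  choose Q Qd Qm using hQ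
  have ev : ∀ᶠ k in atTop, ∀ c : μ → F, c ≠ 0 →
      ((Nat.card μ + 1 : ℕ) : ℝ) * ρ (p.a (k + 1)) < dd (p.a k) (Q c) := by
    refine eventually_all.2 fun c => ?_
    by_cases hc : c = 0
    · exact Eventually.of_forall fun _ h => (h hc).elim
    · exact (ht (Q c) (Qd c) (fun h => hc (red c fun w m => (Qm c w).1 (h m))) _).mono
        fun _ h _ => h
  obtain ⟨N, hN⟩ := eventually_atTop.1 ev
  refine ⟨N, fun j Z' hZ' hd => ?_⟩
  obtain ⟨l, cov, full⟩ := st.gen μ (Z' ⊓ pw (p.H N)) (L.inf hZ' (PP.pw (ok.df N)))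
  have hlv : Ty p.H l ≤ pw (p.H N) ⊔ pw p.G :=
    full.trans (sup_le_sup_right (inf_le_left.trans inf_le_right) _)
  have key : ∀ k, k ≤ j → ∀ c, c ≠ 0 → ∀ n : ℕ, l c = n → k ≤ n := by
    intro k
    induction k with
    | zero => exact fun _ _ _ _ _ => Nat.zero_le _
    | succ k ih =>
      intro hj c hc n e
      have ih' := ih (by omega)
      by_contra hn
      obtain rfl : n = k := by have := ih' c hc n e; omega
      have hTy := Ty_le_pw ok ih'
      have dG : P.df (p.G ⊓ p.H n) := P.inf ok.PG (L.sub (ok.df n))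
      have dW : P.df (pw (p.G ⊓ p.H n) : AddSubgroup (μ → M × M)) := PP.pw dG
      have h1 : dd (p.a n) (Q c) ≤ dd (Z' ⊔ pw (p.G ⊓ p.H n)) Z := by
        refine dd_comap (f := fun w : M => tens c ((0 : M), w)) (by fun_prop)
          (PP.sup (L.sub hZ') dW) (L.sub hZ) (L.sub (ok.ca.df n)) (L.sub (Qd c))
          (fun w hw => ?_) fun w _ m => (Qm c w).2 m
        have m : tens c ((0 : M), w) ∈ Ty p.H l := mem_Ty e ⟨(p.b n).zero_mem, hw⟩
        obtain ⟨y, hy, g, hg, s⟩ := AddSubgroup.mem_sup.1 (full m)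
        have hg' : g ∈ Ty p.H l := by
          rw [eq_sub_of_add_eq' s]
          exact AddSubgroup.sub_mem _ m hy.2
        exact AddSubgroup.mem_sup.2 ⟨y, hy.1.1, g,
          mem_pw.2 fun i => ⟨mem_pw.1 hg i, mem_pw.1 (hTy hg') i⟩, s⟩
      have h2 := dd_sup (L.sub hZ') dW (L.sub hZ)
      have h3 := dd_le dW (L.sub hZ)
      rw [ρ_pw dG, hk.rk, hk.b] at h3
      have h4 : ρ (p.a j) ≤ ρ (p.a (n + 1)) :=
        Amb.ρ_mono (L.sub (ok.ca.df j)) (L.sub (ok.ca.df _)) (ok.ca.anti hj)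
      have h5 := hN n (lv ok hk.toGr hlv hc e) c hc
      push_cast at h5
      linarith
  exact fun x m => Ty_le_pw ok (key j le_rfl) (cov ⟨⟨m.1.1, m.2⟩, m.1.2⟩)

/-- The quantitative statement implies the vanishing statement. -/
theorem l0_of_th {L : Cl} {p : Pkg} (ok : p.Ok L) (h : TH L p) : L0 L p := by
  rintro μ _ Z ⟨Zn, a, b, e⟩ red γ m1 m2 m3
  have ev : ∀ᶠ n in atTop, ∀ c : μ → F,
      (∀ w ∈ p.ai, tens c ((0 : M), w) ∈ Zn n) → c = 0 := by
    refine eventually_all.2 fun c => ?_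
    by_cases hc : c = 0
    · exact Eventually.of_forall fun _ _ => hc
    · obtain ⟨w, hw, k⟩ : ∃ w ∈ p.ai, tens c ((0 : M), w) ∉ Z := by
        by_contra k
        push Not at k
        exact hc (red c k)
      obtain ⟨n, hn⟩ := not_forall.1 (mt (e _).2 k)
      exact (eventually_ge_atTop n).mono fun n' l s => (hn (b l (s w hw))).elim
  obtain ⟨n, hn⟩ := ev.exists
  obtain ⟨N, hN⟩ := h μ (Zn n) (a n) hn
  have dW : P.df (Zn n ⊓ pw p.G ⊓ pw (p.H N)) :=
    P.inf (P.inf (L.sub (a n)) (PP.pw ok.PG)) (PP.pw (L.sub (ok.df N)))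
  have lim : Tendsto (fun j => (Nat.card μ : ℝ) * ρ (p.H j)) atTop (𝓝 0) := by
    simpa using ok.lim.const_mul (Nat.card μ : ℝ)
  have z : Zn n ⊓ pw p.G ⊓ pw (p.H N) = ⊥ := by
    refine ρ_eq_zero dW (ge_of_tendsto' lim fun j => ?_)
    rw [← ρ_pw (L.sub (ok.df j))]
    exact Amb.ρ_mono dW (PP.pw (L.sub (ok.df j))) (hN j _ (a n) (by
      rw [dd_zero le_rfl]
      exact ρ_nonneg (L.sub (ok.ca.df j))))
  have : γ ∈ Zn n ⊓ pw p.G ⊓ pw (p.H N) :=
    ⟨⟨(e γ).1 m1 n, m2⟩, mem_pw.2 fun i => Pkg.mem_Hi'.1 (mem_pw.1 m3 i) N⟩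
  rwa [z] at this

end THb

theorem stTH : St_TH := fun st hk ht =>
  ⟨THb.th st hk ht, THb.l0_of_th st.ok (THb.th st hk ht)⟩

end Z47
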