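import Pool.Agent.Lib.MP_1e63be_al.Defs

/-!
The Cantor-Bendixson rank is unique.
-/

namespace Z47

open Pool.Agent.Lib.MP_1e63be_al CantorBendixson

universe v

theorem cb_unique {T : Type v} [TopologicalSpace T] {a b : WithTop Ordinal.{v}}
    (h : HasCBRank T a) (k : HasCBRank T b) : a = b := by
  have l : ∀ a b : Ordinal.{v}, iteratedDerivedSet (Set.univ : Set T) (a + 1) = ∅ →
      (iteratedDerivedSet (Set.univ : Set T) b).Nonempty → b ≤ a := fun a b h k =>
    not_lt.1 fun m => (k.mono (iteratedDerivedSet_antitone _ (Order.add_one_le_of_lt m))).ne_empty h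
  obtain ⟨rfl, x, h⟩ | ⟨a, rfl, h, h'⟩ := h <;> obtain ⟨rfl, y, k⟩ | ⟨b, rfl, k, k'⟩ := k
  · rfl
  · exact absurd (k ▸ Set.mem_iInter.1 h (b + 1)) (Set.notMem_empty x)
  · exact absurd (h ▸ Set.mem_iInter.1 k (a + 1)) (Set.notMem_empty y)
  · rw [le_antisymm (l _ _ k h') (l _ _ h k')]

end Z47
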