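import Pool.Agent.Lib.MP_1e63be_al.Z47.Blue
import Pool.Agent.Lib.MP_1e63be_al.Z41V.Bridge

/-!
From ring theory to the spectra.
-/

namespace Z47

open Pool.Agent.Lib.MP_1e63be_al

namespace WRAP

variable {R : Type} [Ring R] {I J : Ideal R}

theorem mem_iff (hI : I.IsMaximal) {v : R} (h1 : v ∉ J) (h2 : ∀ i ∈ I, i * v ∈ J) (r : R) :
    r * v ∈ J ↔ r ∈ I := by
  refine ⟨fun k => by_contra fun l => h1 ?_, h2 r⟩
  obtain ⟨t, c, a1, a2⟩ := hI.exists_inv l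
  rw [← one_mul v, ← a2, add_mul, mul_assoc]
  exact J.add_mem (J.mul_mem_left t k) (h2 c a1)

theorem simple (hR : Reg R) (h : LeftOne R) : IsSimpleRing R := by
  obtain ⟨I, hI, h⟩ := h
  have : Nontrivial R := ⟨1, 0, fun e => hI.ne_top ((Ideal.eq_top_iff_one _).2 (e ▸ I.zero_mem))⟩
  refine IsSimpleRing.of_eq_bot_or_eq_top fun T => or_iff_not_imp_right.2 fun a1 =>
    eq_bot_iff.2 fun x hx => by_contra fun a2 => ?_
  obtain ⟨y, hy⟩ := hR x
  obtain ⟨m, b1, b2⟩ := Ideal.exists_le_maximal (TwoSidedIdeal.asIdeal T) fun e =>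
    a1 (T.eq_top (TwoSidedIdeal.mem_asIdeal.1 (e ▸ trivial)))
  obtain ⟨n, c1, c2⟩ := Ideal.exists_le_maximal (Ideal.span {1 - y * x}) fun e => by
    obtain ⟨r, hr⟩ := Ideal.mem_span_singleton'.1 ((Ideal.eq_top_iff_one _).1 e)
    refine a2 (show x = 0 from ?_)
    have : (1 - y * x) * (y * x) = 0 := by
      rw [sub_mul, one_mul, mul_assoc y, ← mul_assoc x, hy, sub_self]
    rw [← hy, mul_assoc, ← one_mul (y * x), ← hr, mul_assoc, this, mul_zero, mul_zero]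
  obtain ⟨v, d1, d2⟩ := h m b1.ne_top (Z41V.unif_of_max b1)
  obtain ⟨w, e1, e2⟩ := h n c1.ne_top (Z41V.unif_of_max c1)
  obtain ⟨s, c, f1, f2⟩ := c1.exists_inv e1
  have g1 : y * x * s * w ∈ n := e2 _ ((mem_iff hI d1 d2 _).1 (b2 (TwoSidedIdeal.mem_asIdeal.2
    (T.mul_mem_right _ _ (T.mul_mem_right _ _ (T.mul_mem_left _ _ hx))))))
  have g2 : y * x ∈ n := by
    rw [← mul_one (y * x), ← f2, mul_add, ← mul_assoc]
    exact n.add_mem g1 (n.mul_mem_left _ f1)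
  refine c1.ne_top ((Ideal.eq_top_iff_one _).2 ?_)
  simpa using n.add_mem (c2 (Ideal.mem_span_singleton_self _)) g2

end WRAP

open WRAP in
theorem stWRAP : St_WRAP := by
  intro R _ hR h1 h2
  have := simple hR h1
  obtain ⟨I, hI, h⟩ := h1
  obtain ⟨J, K, hJ, hK, k⟩ := h2
  have a := Z41V.zg_zero hR fun J K j1 k1 j2 k2 => by
    obtain ⟨v, d1, d2⟩ := h J j1 j2
    obtain ⟨w, e1, e2⟩ := h K k1 k2
    exact ⟨v, d1, w, fun r => (mem_iff hI d1 d2 r).trans (mem_iff hI e1 e2 r).symm⟩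
  have b := Z41V.zg_top (S := Rᵐᵒᵖ) (fun x => (hR x.unop).elim fun y hy =>
      ⟨MulOpposite.op y, MulOpposite.unop_injective (by simpa [mul_assoc] using hy)⟩)
    hJ.ne_top hK.ne_top (Z41V.unif_of_max hJ) (Z41V.unif_of_max hK) fun ⟨a, a1, b, a2⟩ => by
      obtain ⟨t, c, b1, b2⟩ := hJ.exists_inv a1
      have : t * a ∈ J := (a2 t).2 (k _ fun i hi => by
        rw [← mul_assoc, ← a2, mul_assoc, eq_sub_of_add_eq b2, mul_sub, mul_one]
        exact J.sub_mem hi (J.mul_mem_left _ b1))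
      exact hJ.ne_top ((Ideal.eq_top_iff_one _).2 (b2 ▸ J.add_mem this b1))
  exact ⟨a.1, b.1, a.2, b.2⟩

end Z47
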