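import Pool.Agent.Lib.MP_1e63be_al.Z47.M47c
import Pool.Agent.Lib.MP_1e63be_al.Z47.CLS
import Pool.Agent.Lib.MP_1e63be_al.Z47.PKG
import Pool.Agent.Lib.MP_1e63be_al.Z47.REC
import Pool.Agent.Lib.MP_1e63be_al.Z47.NF
import Pool.Agent.Lib.MP_1e63be_al.Z47.EXCH
import Pool.Agent.Lib.MP_1e63be_al.Z47.TH
import Pool.Agent.Lib.MP_1e63be_al.Z47.L0G
import Pool.Agent.Lib.MP_1e63be_al.Z47.GLUE
import Pool.Agent.Lib.MP_1e63be_al.Z47.KE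
import Pool.Agent.Lib.MP_1e63be_al.Z47.S0
import Pool.Agent.Lib.MP_1e63be_al.Z47.PURE
import Pool.Agent.Lib.MP_1e63be_al.Z47.P2G
import Pool.Agent.Lib.MP_1e63be_al.Z47.P2
import Pool.Agent.Lib.MP_1e63be_al.Z47.GG
import Pool.Agent.Lib.MP_1e63be_al.Z47.NICE
import Pool.Agent.Lib.MP_1e63be_al.Z47.TASKK
import Pool.Agent.Lib.MP_1e63be_al.Z47.TASKG
import Pool.Agent.Lib.MP_1e63be_al.Z47.FILT
import Pool.Agent.Lib.MP_1e63be_al.Z47.MAP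
import Pool.Agent.Lib.MP_1e63be_al.Z47.RIGHT
import Pool.Agent.Lib.MP_1e63be_al.Z47.WRAP
import Pool.Agent.Lib.MP_1e63be_al.Z47.SG47
import Pool.Agent.Lib.MP_1e63be_al.Z47.NU47
import Pool.Agent.Lib.MP_1e63be_al.Z47.Uniq

/-!
Assembly of all blocks.
-/

namespace Z47

open Pool.Agent.Lib.MP_1e63be_al

section
variable [Amb] [Sys]

theorem aSTEP : St_STEP := stSTEP stEXCH
theorem aSIG : St_SIG := stSIG aSTEP stPURE
omit [Sys] in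
theorem aS0 : St_S0 := stS0 stNF
theorem aRAT : St_RAT := stRAT aSTEP stTH stL0G aS0 aSIG
theorem aP2 : St_P2 := stP2 aSTEP stTH stL0G aS0 aSIG aRAT (stP2S stNF) stP2G stTRG stGLUE
theorem aSEAL : St_SEAL := seal47 (stINT stNF aSTEP) stATOM aP2
theorem aGOOD : St_GOOD :=
  stGOOD (gk47 aSEAL aSTEP stTH stL0G (stKE stNF) (stNFP stNF) aRAT aSIG)
    (stGG aSTEP aS0 stTH stL0G aRAT aSIG)
theorem aNICE : St_NICE := stNICE stPURE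
theorem aFILT : St_FILT := stFILT aNICE aSEAL aGOOD
theorem aMAP : St_MAP := stMAP stATOM aP2 aGOOD (stTASKG aSIG) aRAT aSIG aNICE aSTEP
theorem aRIGHT : St_RIGHT := stRIGHT aNICE (stDS stHL aSTEP)
theorem aLEFT : St_LEFT :=
  stLEFT aFILT (nu47 aSTEP stPURE stTASKK stTH aGOOD) aMAP aRAT aSIG aGOOD aNICE

end

theorem main_zfc : ∃ (R : Type) (_ : Ring R), HasCBRank (Zg R) 0 ∧
    HasCBRank (Zg Rᵐᵒᵖ) ⊤ ∧ Subsingleton (Zg R) ∧ Nontrivial (Zg Rᵐᵒᵖ) ∧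
    ∀ U : Set (Zg Rᵐᵒᵖ), IsOpen U → U = ∅ ∨ U = Set.univ :=
  main_of Mdl.amb (stREC stCLS stPKG) aFILT aLEFT aRIGHT stWRAP

end Z47
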