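import Pool.Agent.Lib.MP_1e63be_al.Z47.GLUE

/-!
Glued atoms.
-/

namespace Z47

open Set Filter Topology

variable [Amb]

theorem g54_weak {μ : Type} [Finite μ] {L : Cl} {σ : AddSubgroup M} (h : Ratl L σ)
    {T : AddSubgroup (μ → M)} (hT : L.td.df T) (k : T ≤ pw σ) (l : T ≠ ⊥) :
    ∃ c : μ → F, c ≠ 0 ∧ ∀ u ∈ σ, tens c u ∈ T := by
  obtain ⟨Z, a, b, c⟩ := hT
  by_contra! H
  have : ∀ e : μ → F, ∃ n, e ≠ 0 → ∃ u ∈ σ, tens e u ∉ Z n := fun e => by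
    by_cases e0 : e = 0
    · exact ⟨0, fun x => (x e0).elim⟩
    · obtain ⟨u, hu, hn⟩ := H e e0
      obtain ⟨n, hn⟩ := not_forall.1 (mt (c _).2 hn)
      exact ⟨n, fun _ => ⟨u, hu, hn⟩⟩
  choose n hn using this
  obtain ⟨N, hN⟩ := (Set.finite_range n).bddAbove
  obtain ⟨C, hC⟩ := h μ (Z N) (a N)
  refine l (le_bot_iff.1 fun v hv => ?_)
  refine (show WC C ≤ ⊥ from WC_le.2 fun e he w => ?_) ((hC v (k hv)).1 ((c v).1 hv N))
  by_cases e0 : e = 0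
  · simp [e0]
  · obtain ⟨u, hu, hz⟩ := hn e e0
    exact (hz (b (hN ⟨e, rfl⟩) ((hC _ (tens_mem_pw e hu)).2 (WC_le.1 le_rfl e he u)))).elim

theorem stP2G' : St_P2G := by
  intro L₀ L σ κ h0 hc hκ hσ aκ hf hr ⟨d, y, z, hy, hz, zle, ztot, zfn, zsur, zinj⟩ A hA hn
  have hκL := h0.td hκ
  -- finitely many representatives
  have gr : ∀ x, En L₀ κ x → L₀.td.D fun s : M × M => s.1 ∈ κ ∧ x • s.1 = s.2 := fun x hx =>
    (PP.D.mem hκ (by fun_prop)).and (Cl.tdDy hx.1)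
  choose Γ hΓ mΓ using gr
  let f : {x // En L₀ κ x} → AddSubgroup (M × M) := fun x => Γ x.1 x.2
  have fin : (range f).Finite := hf.subset (by
    rintro _ ⟨x, rfl⟩
    exact ⟨hΓ _ _, bot_le, fun s hs => ⟨((mΓ _ _ s).1 hs).1,
      ((mΓ _ _ s).1 hs).2 ▸ x.2.2 _ ((mΓ _ _ s).1 hs).1⟩⟩)
  have := fin.to_subtype
  obtain ⟨n, ⟨e⟩⟩ := Finite.exists_equiv_fin (range f)
  choose x hx using fun i => (e.symm i).2
  have rep : ∀ t, En L₀ κ t → ∃ i, ∀ v ∈ κ, (x i).1 • v = t • v := fun t ht => by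
    refine ⟨e ⟨f ⟨t, ht⟩, _, rfl⟩, fun v hv => ?_⟩
    have e1 := hx (e ⟨f ⟨t, ht⟩, _, rfl⟩)
    rw [e.symm_apply_apply] at e1
    have e2 : (v, t • v) ∈ f ⟨t, ht⟩ := (mΓ t ht _).2 ⟨hv, rfl⟩
    rw [← show f _ = f ⟨t, ht⟩ from e1] at e2
    exact ((mΓ _ _ _).1 e2).2
  refine ⟨n, fun i => (x i).1, fun i => (x i).2, fun v hv hvA => ?_⟩
  obtain ⟨A', hA', mA⟩ : L.td.D fun v : M => v ∈ κ ∧ ∀ i, (x i).1 • v ∈ A :=
    (PP.D.of hκL).and (PP.D.all fun i => PP.D.mem (Cl.td_of hA)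
      (PP.Fn.smul (Cl.tdDy (h0.Dy (x i).2.1)) PP.Fn.id))
  have inv : ∀ t, En L₀ κ t → ∀ v ∈ A', t • v ∈ A' := fun t ht v hv => by
    obtain ⟨e1, e2⟩ := (mA v).1 hv
    refine (mA _).2 ⟨ht.2 v e1, fun i => ?_⟩
    obtain ⟨j, hj⟩ := rep ((x i).1 * t) ⟨(x i).2.1.mul ht.1, fun v hv => by
      rw [mul_smul]; exact (x i).2.2 _ (ht.2 v hv)⟩
    rw [← mul_smul, ← hj v e1]
    exact e2 j
  have sub : ∀ v ∈ A', v ∈ A := fun v hv => by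
    obtain ⟨e1, e2⟩ := (mA v).1 hv
    obtain ⟨j, hj⟩ := rep 1 ⟨PP.Dy.one, fun v hv => by rwa [one_smul]⟩
    have := e2 j
    rwa [hj v e1, one_smul] at this
  obtain ⟨T, hT, mT⟩ : L.td.D fun u : Fin d → M => ∃ w : Fin d → M,
      (∀ k, (u k, w k) ∈ z) ∧ ∑ k, y k • w k ∈ A' :=
    PP.D.ex ((PP.D.all fun k => PP.D.mem hz (by fun_prop)).and (PP.D.mem hA'
      (PP.Fn.sum _ fun k => PP.Fn.smul (Cl.tdDy (h0.Dy (hy k).1)) (by fun_prop))))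
  have zu : ∀ u w w', (u, w) ∈ z → (u, w') ∈ z → w = w' := fun u w w' a b =>
    sub_eq_zero.1 (zfn _ (by simpa using z.sub_mem a b))
  by_contra v0
  obtain ⟨c, c0, hcT⟩ := g54_weak hr hT (fun u hu => by
    obtain ⟨w, e1, -⟩ := (mT u).1 hu
    exact mem_pw.2 fun k => (zle (e1 k)).1) (fun hb => by
      obtain ⟨h, e1, e2⟩ := zsur v hv
      have e3 : (fun k => (h k).1) ∈ T :=
        (mT _).2 ⟨fun k => (h k).2, e1, e2 ▸ (mA v).2 ⟨hv, hvA⟩⟩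
      rw [hb] at e3
      refine v0 (e2 ▸ Finset.sum_eq_zero fun k _ => ?_)
      have e4 : (h k).1 = 0 := congrFun e3 k
      rw [zfn (h k).2 (e4 ▸ e1 k), smul_zero])
  have ht : En L₀ κ (yc y c) := ⟨PP.Dy.yc (fun k => (hy k).1) c, fun v hv => by
    rw [yc_smul]
    exact κ.sum_mem fun k _ => (hy k).2 _ (sc_mem _ hv)⟩
  have key : ∀ u w, (u, w) ∈ z → yc y c • w ∈ A' := fun u w e => by
    obtain ⟨w', e1, e2⟩ := (mT _).1 (hcT u (zle e).1)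
    rw [yc_smul]
    have : ∀ k, w' k = sc (c k) • w := fun k => zu _ _ _ (e1 k) (sc_mem (c k) e)
    simpa only [this] using e2
  obtain ⟨u₀, hu₀, u0⟩ : ∃ u ∈ σ, u ≠ 0 := by
    by_contra! k
    exact hσ (le_bot_iff.1 k)
  obtain ⟨w₀, hw₀⟩ := ztot u₀ hu₀
  have t0 : yc y c • w₀ ≠ 0 := fun e => by
    rw [yc_smul] at e
    rcases tens_eq_zero (zinj (tens c (u₀, w₀)) (fun k => sc_mem _ hw₀) e) with k | k
    · exact c0 k
    · exact u0 (congrArg Prod.fst k)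
  have tinj : ∀ v ∈ κ, yc y c • v = 0 → v = 0 := by
    obtain ⟨N, hN, mN⟩ : L₀.D fun v : M => yc y c • v = 0 :=
      PP.D.eq (PP.Fn.smul ht.1 PP.Fn.id) PP.Fn.zero
    rcases aκ.2 N hN with k | k
    · exact (t0 ((mN _).1 (k (zle hw₀).2))).elim
    · exact fun v hv e => k v hv ((mN v).2 e)
  have tsur : ∀ w ∈ κ, ∃ v ∈ κ, yc y c • v = w := by
    obtain ⟨N, hN, mN⟩ : L₀.td.D fun w : M => ∃ v, v ∈ κ ∧ yc y c • v = w :=
      PP.D.ex ((PP.D.mem hκ (by fun_prop)).and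
        (PP.D.eq (PP.Fn.smul (Cl.tdDy ht.1) (by fun_prop)) (by fun_prop)))
    rcases g54_atom aκ hN with k | k
    · exact fun w hw => (mN w).1 (k hw)
    · exact (t0 (k _ (ht.2 _ (zle hw₀).2) ((mN _).2 ⟨w₀, (zle hw₀).2, rfl⟩))).elim
  obtain ⟨R, hR, mR⟩ : L₀.D fun s : M × M => yc y c • s.2 = s.1 :=
    PP.D.eq (PP.Fn.smul ht.1 (by fun_prop)) (by fun_prop)
  obtain ⟨s, hs, ms⟩ := g54_rep hc hκ hR
    (fun w hw => let ⟨v, a, b⟩ := tsur w hw; ⟨v, a, (mR _).2 b⟩) fun w hw e => tinj w hw ((mR _).1 e)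
  have zA : ∀ u w, (u, w) ∈ z → w ∈ A' := fun u w e => by
    have hw : w ∈ κ := (zle e).2
    have e1 : yc y c • s • yc y c • w = yc y c • w := (mR _).1 (ms _ (ht.2 w hw))
    have e2 := tinj _ (κ.sub_mem (hs.2 _ (ht.2 w hw)) hw) (by rw [smul_sub, e1, sub_self])
    rw [← sub_eq_zero.1 e2]
    exact inv s hs _ (key u w e)
  refine hn fun v hv => sub v ?_
  obtain ⟨h, e1, rfl⟩ := zsur v hv
  exact A'.sum_mem fun k _ => inv _ (hy k) _ (zA (h k).1 _ (e1 k))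

end Z47
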