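import Pool.Agent.Lib.MP_1e63be_al.Z47.SysB

/-!
Rationality of the base point and atoms over a nice base.
-/

namespace Z47
open Set Filter Topology
variable [Amb] [Sys]

omit [Sys] in
theorem Glued.mono19 {L₀ L L' : Cl} {σ κ : AddSubgroup M} (h : Glued L₀ L σ κ) (k : L.Le L') :
    Glued L₀ L' σ κ :=
  let ⟨d, y, z, a, b, c⟩ := h
  ⟨d, y, z, a, k.td b, c⟩

theorem not_mem_step19 {B Φ : Set I} {α : I} (h : α ∉ B) : α ∉ B ∪ Φ ∩ Iio α := by
  rintro (k | k)
  exacts [h k, lt_irrefl _ k.2]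

theorem stRAT19 (h1 : St_STEP) (h2 : St_TH) (h3 : St_L0G) (h4 : St_S0) (h5 : St_SIG) :
    St_RAT := by
  intro Φ Λ h k μ _ A hA
  obtain ⟨c, -, e, -, cl, r⟩ := h5
  have td : (L (range q)).td.df si := e ▸ c.td
  have sm : Small (L (range q)) si := e ▸ c.small
  have td' : ∀ α, (L (range q ∪ Φ ∩ Iio α)).td.df si := fun α => (Sys.mono subset_union_left).td td
  have nm : ∀ α, NM (L (range q ∪ Φ ∩ Iio α)) (p α).ai si → NM (L (range q ∪ Φ ∩ Iio α)) (p α).ai
      ((pw si : AddSubgroup (μ → M)).prod (si.prod si)) := fun α n =>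
    (n.pw (td' α)).prod (n.prod n (td' α)) (PP.pw (td' α))
  have s : Same ((pw si : AddSubgroup (μ → M)).prod (si.prod si)) (L (range q)) (L Φ) :=
    same_core h1 h2 h3 h4 h cl k (PP.prod (PP.pw td) (PP.prod td td)) (sm.pw.prod (sm.prod sm))
      (fun α _ _ n s => nm α (n.nm (td' α) (s.snd.finI (PP.prod td td) r.fin2)))
      fun α _ _ g G _ => nm α (G.g g).2.symm.nm
  obtain ⟨A', a, b⟩ := s.fst A hA
  obtain ⟨C, d⟩ := r μ A' a
  exact ⟨C, fun v l => (b v l).trans (d v l)⟩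

omit [Sys] in
theorem p2_of_same19 {L₀ L : Cl} {κ : AddSubgroup M} (h : Atom L₀ κ) (s : Same κ L₀ L) :
    P2 L₀ L κ := fun A a n =>
  ⟨1, fun _ => 1, fun _ => ⟨PP.Dy.one, fun v l => by simpa using l⟩, fun v l m =>
    ((s.atom h).2 A a).resolve_left n v l (by simpa using m 0)⟩

theorem stP219 (h1 : St_STEP) (h2 : St_TH) (h3 : St_L0G) (h4 : St_S0) (h5 : St_SIG)
    (h6 : St_RAT) (h7 : St_P2S) (h8 : St_P2G) (h9 : St_TRG) (h10 : St_GLUE) : St_P2 := by
  intro Φ Λ B h hB k κ td sm at'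
  have hBΦ : B ⊆ Φ := fun x l => (k l).1
  have le : ∀ α, (L B).Le (L (B ∪ Φ ∩ Iio α)) := fun α => Sys.mono subset_union_left
  have cl : ∀ α, Closed (B ∪ Φ ∩ Iio α) := fun α => hB.cl.step h.cl α
  have Q : Fin2 (L B) κ → Glued (L B) (L Φ) si κ ∨ Same (κ.prod κ) (L B) (L Φ) := fun f => by
    refine or_iff_not_imp_left.2 fun ng => ?_
    refine same_core h1 h2 h3 h4 h hB.cl k (PP.prod td td) (sm.prod sm) (fun α _ _ n s => ?_)
      fun α a b g G s => ?_
    · have := n.nm ((le α).td td) (s.finI (PP.prod td td) f)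
      exact this.prod this ((le α).td td)
    · have dp : dep α ⊆ B ∪ Φ ∩ Iio α := h.cl.dep_sub a
      have st := h1 (cl α) (not_mem_step19 b) dp
      obtain ⟨d, y, gk⟩ := gok_of_good G dp g
      obtain ⟨-, gr, -, e, -⟩ := Sys.hG α g
      have o : Orth (L (B ∪ Φ ∩ Iio α)) (p α).ai κ := by
        by_contra o
        refine ng ((h9 (le α) st.ext.le hB.cmp td st.ok.ca.td (s.fst.atom at') gk.atom s o
          (e ▸ h10 st gr gk (l0_of_good h1 h2 h3 (cl α) G dp (not_mem_step19 b)))).mono19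
          (Sys.mono ?_))
        exact insert_subset a (union_subset hBΦ inter_subset_left)
      exact o.nm.prod o.nm ((le α).td td)
  refine ⟨?_, Q⟩
  by_cases f : Fin2 (L B) κ
  · rcases Q f with g | s
    · exact h8 (Sys.mono hBΦ) hB.cmp td h5.2.2.2.1 at' f
        (h6 h (range_subset_iff.2 fun i => k (hB.q i))) g
    · exact p2_of_same19 at' s.fst
  · refine chain_ind (Q := fun Ψ => P2 (L B) (L Ψ) κ) hBΦ (p2_of_same19 at' Same.refl)
      (fun Ψ _ _ l A a n => ?_) fun α a b i => ?_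
    · obtain ⟨s, c, d, e⟩ := Sys.fin a
      obtain ⟨Ψ', c', -, -, r⟩ := l s c d
      exact r A (Sys.mono c' e) n
    · have dp : dep α ⊆ B ∪ Φ ∩ Iio α := h.cl.dep_sub a
      exact h7 (h1 (cl α) (not_mem_step19 b) dp) (l0_of_good h1 h2 h3 (cl α)
        (h.step hB.cl k a b) dp (not_mem_step19 b)) (le α) ((le α).td td) (sm.mono (le α))
        (end_inf' hB.cmp td at' f) i

end Z47
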