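import Pool.Agent.Lib.MP_1e63be_al.Z47.SysB

/-!
The base point stays rational; atoms over a nice base.
-/

namespace Z47

open Set Filter Topology

variable [Amb]

namespace RAT12

theorem p2_of_atom {L L' : Cl} {κ : AddSubgroup M} (h : Atom L' κ) : P2 L L' κ :=
  fun A hA k => ⟨1, fun _ => 1, fun _ => ⟨PP.Dy.one, fun v m => by simpa using m⟩,
    fun v m l => (h.2 A hA).resolve_left k v m (by simpa using l 0)⟩

theorem glued_mono {L L' L'' : Cl} {σ κ : AddSubgroup M} (h : Glued L L' σ κ) (k : L'.Le L'') :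
    Glued L L'' σ κ :=
  let ⟨d, y, z, a, b, c⟩ := h
  ⟨d, y, z, a, k.td b, c⟩

end RAT12

variable [Sys]

theorem stRAT12 (h1 : St_STEP) (h4 : St_S0) (h2 : St_TH) (h3 : St_L0G) (h5 : St_SIG) :
    St_RAT := by
  intro Φ Λ h k μ _ A hA
  obtain ⟨s1, -, s3, -, s5, s6⟩ := h5
  have t : (L (range q)).td.df si := s3 ▸ s1.td
  have sm : Small (L (range q)) si := s3 ▸ s1.small
  have nm : ∀ {α : I}, NM (L (range q ∪ Φ ∩ Iio α)) (p α).ai si →
      NM (L (range q ∪ Φ ∩ Iio α)) (p α).ai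
        ((pw si : AddSubgroup (μ → M)).prod (si.prod si)) := fun {α} m =>
    have t' := (Sys.mono (subset_union_left (t := Φ ∩ Iio α))).td t
    (m.pw t').prod (m.prod m t') (PP.pw t')
  have key : Same ((pw si : AddSubgroup (μ → M)).prod (si.prod si)) (L (range q)) (L Φ) :=
    same_core h1 h2 h3 h4 h s5 k (PP.prod (PP.pw t) (PP.prod t t)) (sm.pw.prod (sm.prod sm))
      (fun α _ _ m l => nm (m.nm ((Sys.mono subset_union_left).td t)
        (l.snd.finI (PP.prod t t) s6.fin2)))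
      fun α _ _ m l _ => nm (l.g m).2.symm.nm
  obtain ⟨A', a, b⟩ := key.fst A hA
  obtain ⟨C, c⟩ := s6 μ A' a
  exact ⟨C, fun v m => (b v m).trans (c v m)⟩

theorem stP212 (h1 : St_STEP) (h4 : St_S0) (h2 : St_TH) (h3 : St_L0G) (h5 : St_SIG)
    (h6 : St_P2S) (h7 : St_P2G) (h8 : St_TRG) (h9 : St_GLUE) (h10 : St_RAT) : St_P2 := by
  intro Φ Λ B h hB k κ t sm at'
  have Q : Fin2 (L B) κ → Glued (L B) (L Φ) si κ ∨ Same (κ.prod κ) (L B) (L Φ) := by
    intro f2
    refine or_iff_not_imp_left.2 fun ng => ?_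
    refine same_core h1 h2 h3 h4 h hB.cl k (PP.prod t t) (sm.prod sm) (fun α _ _ m l => ?_)
      fun α a b m g l => ?_
    · have t' := (Sys.mono (subset_union_left (t := Φ ∩ Iio α))).td t
      have := m.nm t' (l.finI (PP.prod t t) f2)
      exact this.prod this t'
    · have e : (L B).Le (L (B ∪ Φ ∩ Iio α)) := Sys.mono subset_union_left
      have t' := e.td t
      have ds : dep α ⊆ B ∪ Φ ∩ Iio α := h.cl.dep_sub a
      have d := hB.cl.step h.cl α
      by_cases o : Orth (L (B ∪ Φ ∩ Iio α)) (p α).ai κ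
      · exact o.nm.prod o.nm t'
      · obtain ⟨d', y, gk⟩ := gok_of_good g ds m
        have st := h1 d (not_mem_step b) ds
        have gl := h9 st (Sys.hG α m).2.1 gk (l0_of_good h1 h2 h3 d g ds (not_mem_step b))
        rw [(Sys.hG α m).2.2.2.1] at gl
        exact (ng (RAT12.glued_mono (h8 e st.ext.le hB.cmp t st.ok.ca.td (l.fst.atom at') gk.atom
          l o gl) (Sys.mono (insert_subset a ((step_sub h k a).trans inter_subset_left))))).elim
  refine ⟨?_, Q⟩
  by_cases f2 : Fin2 (L B) κ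
  · rcases Q f2 with g | g
    · exact h7 (Sys.mono (k.trans inter_subset_left)) hB.cmp t h5.2.2.2.1 at' f2
        (h10 h ((range_subset_iff.2 hB.q).trans k)) g
    · exact RAT12.p2_of_atom (g.fst.atom at')
  · refine chain_ind (Q := fun Ψ => P2 (L B) (L Ψ) κ) (k.trans inter_subset_left)
      (RAT12.p2_of_atom at') (fun Ψ _ _ l A hA => ?_) fun α a b c => ?_
    · obtain ⟨s, u, v, w⟩ := Sys.fin hA
      obtain ⟨Θ, x, -, -, z⟩ := l s u v
      exact z A (Sys.mono x w)
    · have e : (L B).Le (L (B ∪ Φ ∩ Iio α)) := Sys.mono subset_union_left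
      have ds : dep α ⊆ B ∪ Φ ∩ Iio α := h.cl.dep_sub a
      have d := hB.cl.step h.cl α
      exact h6 (h1 d (not_mem_step b) ds)
        (l0_of_good h1 h2 h3 d (h.step hB.cl k a b) ds (not_mem_step b)) e (e.td t) (sm.mono e)
        (end_inf' hB.cmp t at' f2) c

end Z47
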