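import Pool.Agent.Lib.MP_1e63be_al.Z47.Basic

/-!
The calculus of ranks.
-/

namespace Z47

open Set Filter Topology

variable [Amb]
variable {X Y : Type} [AddCommGroup X] [Module E X] [Std X] [AddCommGroup Y] [Module E Y] [Std Y]
  {μ : Type} {A B C A' B' : AddSubgroup X}

@[simp] theorem ρ_bot : ρ (⊥ : AddSubgroup X) = 0 := Amb.ρ_bot
theorem ρ_nonneg (h : P.df A) : 0 ≤ ρ A := ρ_bot (X := X) ▸ Amb.ρ_mono P.bot h bot_le
theorem ρ_eq_zero (h : P.df A) (k : ρ A ≤ 0) : A = ⊥ :=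
  le_bot_iff.1 (Amb.ρ_faith P.bot h bot_le (by simpa))
theorem ρ_pos (h : P.df A) (k : A ≠ ⊥) : 0 < ρ A := not_le.1 (mt (ρ_eq_zero h) k)
theorem ρ_le_one {A : AddSubgroup M} (h : P.df A) : ρ A ≤ 1 :=
  Amb.ρ_top ▸ Amb.ρ_mono h P.top le_top
theorem ρ_lt (hA : P.df A) (hB : P.df B) (h : A ≤ B) (k : ¬ B ≤ A) : ρ A < ρ B :=
  not_le.1 (mt (Amb.ρ_faith hA hB h) k)
theorem ρ_sup_le (hA : P.df A) (hB : P.df B) : ρ (A ⊔ B) ≤ ρ A + ρ B := by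
  linarith [Amb.ρ_mod hA hB, ρ_nonneg (P.inf hA hB)]

/-- Injective matrix maps preserve the rank. -/
theorem ρ_inj {f : X → Y} {B : AddSubgroup Y} (hf : Lin f) (hA : P.df A)
    (e : ∀ y, y ∈ B ↔ ∃ x ∈ A, f x = y) (k : ∀ x ∈ A, f x = 0 → x = 0) : ρ B = ρ A := by
  have := Amb.ρ_map (K := ⊥) hf hA e fun x => ⟨fun l => by
    obtain rfl : x = 0 := l
    exact ⟨A.zero_mem, hf.map_zero⟩, fun l => k x l.1 l.2⟩
  simpa using this

/-- The rank of a relation: domain plus vertical part. -/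
theorem ρ_rel {Z : AddSubgroup (X × Y)} {K : AddSubgroup Y} (hZ : P.df Z)
    (e : ∀ x, x ∈ A ↔ ∃ y, (x, y) ∈ Z) (k : ∀ y, y ∈ K ↔ ((0 : X), y) ∈ Z) : ρ Z = ρ A + ρ K := by
  have hK : P.df K := (PP.D.mem hZ (by fun_prop)).df k
  obtain ⟨K', a, b⟩ : P.D fun z : X × Y => z ∈ Z ∧ z.1 = 0 :=
    (PP.D.of hZ).and (PP.D.eq (by fun_prop) (by fun_prop))
  rw [← Amb.ρ_map (f := fun z : X × Y => z.1) (B := A) (by fun_prop) hZ (by simp [e]) b,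
    ρ_inj (f := fun y : Y => ((0 : X), y)) (B := K') (by fun_prop) hK (fun z => by
      rw [b]
      exact ⟨fun l => ⟨z.2, (k _).2 (l.2 ▸ l.1), l.2 ▸ rfl⟩, by
        rintro ⟨y, l, rfl⟩; exact ⟨(k y).1 l, rfl⟩⟩) (by simp)]

/-- The rank of a relation: image plus horizontal part. -/
theorem ρ_rel' {Z : AddSubgroup (X × Y)} {K : AddSubgroup Y} (hZ : P.df Z)
    (e : ∀ y, y ∈ K ↔ ∃ x, (x, y) ∈ Z) (k : ∀ x, x ∈ A ↔ (x, (0 : Y)) ∈ Z) : ρ Z = ρ K + ρ A := by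
  obtain ⟨Z', a, b⟩ : P.D fun z : Y × X => (z.2, z.1) ∈ Z := PP.D.mem hZ (by fun_prop)
  rw [← ρ_rel a (by simp [e, b]) (by simp [k, b])]
  exact ρ_inj (f := fun z : Y × X => (z.2, z.1)) (by fun_prop) a (by simp [b])
    (by simp +contextual [Prod.ext_iff])

theorem ρ_prod {C : AddSubgroup Y} (hA : P.df A) (hC : P.df C) : ρ (A.prod C) = ρ A + ρ C :=
  ρ_rel (PP.prod hA hC) (fun _ => ⟨fun l => ⟨0, l, C.zero_mem⟩, fun ⟨_, l⟩ => l.1⟩)
    fun _ => ⟨fun l => ⟨A.zero_mem, l⟩, fun l => l.2⟩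

theorem ρ_pw [Finite μ] (hA : P.df A) : ρ (pw A : AddSubgroup (μ → X)) = Nat.card μ * ρ A := by
  induction μ using fin_ind with
  | of_equiv e h =>
    rw [← Nat.card_congr e, ← h]
    exact ρ_inj (f := fun x i => x (e.symm i)) (by fun_prop) (PP.pw hA)
      (fun y => ⟨fun l => ⟨fun i => y (e i), by simp_all, by simp⟩, by
        rintro ⟨x, l, rfl⟩; simp_all⟩) fun x _ l => funext fun i => by
          simpa using congrFun l (e i)
  | h_empty => simp [Subsingleton.elim (pw A : AddSubgroup (PEmpty → X)) ⊥]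
  | h_option h =>
    rename_i α _
    have := Fintype.ofFinite α
    rw [← ρ_inj (f := fun x : Option α → X => (x none, fun i => x (some i)))
      (B := A.prod (pw A)) (by fun_prop) (PP.pw hA) (fun y => ⟨fun l => ⟨fun i => i.elim y.1 y.2,
        mem_pw.2 fun i => by cases i; exacts [l.1, mem_pw.1 l.2 _], rfl⟩, by
          rintro ⟨x, l, rfl⟩; exact ⟨mem_pw.1 l _, mem_pw.2 fun _ => mem_pw.1 l _⟩⟩)
      (fun x _ l => funext fun i => by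
        cases i; exacts [congrArg Prod.fst l, congrFun (congrArg Prod.snd l) _]),
      ρ_prod hA (PP.pw hA), h]
    simp [add_mul, add_comm]

theorem dd_eq (hA : P.df A) (hB : P.df B) : dd A B = ρ A - ρ (A ⊓ B) := by
  unfold dd; linarith [Amb.ρ_mod hA hB]
omit [Std X] in
theorem dd_of_le (h : B ≤ A) : dd A B = ρ A - ρ B := by rw [dd, sup_eq_left.2 h]
theorem dd_nonneg (hA : P.df A) (hB : P.df B) : 0 ≤ dd A B :=
  sub_nonneg.2 (Amb.ρ_mono hB (PP.sup hA hB) le_sup_right)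
theorem le_of_dd (hA : P.df A) (hB : P.df B) (h : dd A B ≤ 0) : A ≤ B :=
  le_sup_left.trans (Amb.ρ_faith hB (PP.sup hA hB) le_sup_right (sub_nonpos.1 h))
theorem dd_pos (hA : P.df A) (hB : P.df B) (h : ¬ A ≤ B) : 0 < dd A B :=
  not_le.1 (mt (le_of_dd hA hB) h)
omit [Std X] in
theorem dd_zero (h : A ≤ B) : dd A B = 0 := by rw [dd, sup_eq_right.2 h, sub_self]
theorem dd_le (hA : P.df A) (hB : P.df B) : dd A B ≤ ρ A := by
  rw [dd_eq hA hB]; linarith [ρ_nonneg (P.inf hA hB)]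
theorem dd_mono (hA : P.df A) (hB : P.df B) (hA' : P.df A') (hB' : P.df B') (h : A ≤ A')
    (k : B' ≤ B) : dd A B ≤ dd A' B' := by
  calc dd A B = ρ A - ρ (A ⊓ B) := dd_eq hA hB
    _ ≤ ρ A - ρ (A ⊓ B') :=
      sub_le_sub_left (Amb.ρ_mono (P.inf hA hB') (P.inf hA hB) (inf_le_inf_left _ k)) _
    _ = dd A B' := (dd_eq hA hB').symm
    _ ≤ dd A' B' :=
      sub_le_sub_right (Amb.ρ_mono (PP.sup hA hB') (PP.sup hA' hB') (sup_le_sup_right h _)) _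
theorem dd_tri (hA : P.df A) (hB : P.df B) (hC : P.df C) : dd A C ≤ dd A B + dd B C := by
  have a := dd_mono hA (PP.sup hB hC) hA hB le_rfl le_sup_left
  have b := Amb.ρ_mono (PP.sup hA hC) (PP.sup hA (PP.sup hB hC))
    (sup_le_sup_left le_sup_right _)
  unfold dd at *; linarith
theorem dd_sup (hA : P.df A) (hB : P.df B) (hC : P.df C) : dd (A ⊔ B) C ≤ dd A C + dd B C := by
  have a := dd_mono hA (PP.sup hB hC) hA hC le_rfl le_sup_right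
  unfold dd at *; rw [sup_assoc]; linarith
theorem dd_inf (hA : P.df A) (hB : P.df B) (hC : P.df C) : dd (A ⊓ C) (B ⊓ C) ≤ dd A B := by
  refine le_trans (le_of_eq ?_) (dd_mono (P.inf hA hC) hB hA hB inf_le_left le_rfl)
  rw [dd_eq (P.inf hA hC) (P.inf hB hC), dd_eq (P.inf hA hC) hB]
  congr 2
  exact le_antisymm (fun _ l => ⟨l.1, l.2.1⟩) fun _ l => ⟨l.1, l.2, l.1.2⟩
theorem dd_iSup {ι : Type} [Fintype ι] {A : ι → AddSubgroup X} (hA : ∀ i, P.df (A i))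
    (hB : P.df B) : dd (⨆ i, A i) B ≤ ∑ i, dd (A i) B := by
  classical
  have : ∀ s : Finset ι, P.df (s.sup A) ∧ dd (s.sup A) B ≤ ∑ i ∈ s, dd (A i) B := fun s => by
    induction s using Finset.induction_on with
    | empty => exact ⟨P.bot, (dd_zero bot_le).le⟩
    | insert a s l k =>
      rw [Finset.sup_insert, Finset.sum_insert l]
      exact ⟨PP.sup (hA a) k.1, (dd_sup (hA a) k.1 hB).trans (by linarith [k.2])⟩
  simpa [Finset.sup_univ_eq_iSup] using (this Finset.univ).2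

/-- Relative ranks do not grow along relations. -/
theorem dd_rel {Z : AddSubgroup (X × Y)} {Γ Γ' : AddSubgroup Y} (hZ : P.df Z) (hΓ : P.df Γ)
    (hΓ' : P.df Γ') (hA : P.df A) (hA' : P.df A') (h : ∀ a ∈ A, ∃ g ∈ Γ, (a, g) ∈ Z)
    (k : ∀ a, ∀ g ∈ Γ', (a, g) ∈ Z → a ∈ A') : dd A A' ≤ dd Γ Γ' := by
  have key : ∀ Γ : AddSubgroup Y, P.df Γ → ∃ (R : AddSubgroup X) (S : AddSubgroup Y), P.df R ∧
      (∀ a, a ∈ R ↔ ∃ g ∈ Γ, (a, g) ∈ Z) ∧ ∀ (D K : AddSubgroup Y) (N : AddSubgroup X),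
      (∀ g, g ∈ D ↔ ∃ a, (a, g) ∈ Z) → (∀ g, g ∈ K ↔ ((0 : X), g) ∈ Z) →
      (∀ a, a ∈ N ↔ (a, (0 : Y)) ∈ Z) → ρ R + ρ (Γ ⊓ K) = ρ (Γ ⊓ D : AddSubgroup Y) + ρ N := by
    intro Γ hΓ
    obtain ⟨T, a, b⟩ : P.D fun z : X × Y => z.2 ∈ Γ ∧ z ∈ Z :=
      (PP.D.mem hΓ (by fun_prop)).and (PP.D.of hZ)
    obtain ⟨R, c, d⟩ : P.D fun x : X => ∃ g, (x, g) ∈ T := PP.D.ex (PP.D.of a)
    refine ⟨R, ⊥, c, by simp [d, b], fun D K N e1 e2 e3 => ?_⟩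
    rw [← ρ_rel a d (by simp [b, e2]), ρ_rel' a (K := Γ ⊓ D) (A := N) (by simp [b, e1])
      (by simp [b, e3])]
  obtain ⟨D, a1, b1⟩ : P.D fun g : Y => ∃ a : X, (a, g) ∈ Z := PP.D.ex (PP.D.mem hZ (by fun_prop))
  obtain ⟨K, a2, b2⟩ : P.D fun g : Y => ((0 : X), g) ∈ Z := PP.D.mem hZ (by fun_prop)
  obtain ⟨N, -, b3⟩ : P.D fun a : X => (a, (0 : Y)) ∈ Z := PP.D.mem hZ (by fun_prop)
  obtain ⟨R, -, c1, d1, e1⟩ := key Γ hΓ
  obtain ⟨R', -, c2, d2, e2⟩ := key _ (P.inf hΓ hΓ')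
  have e1 := e1 D K N b1 b2 b3
  have e2 := e2 D K N b1 b2 b3
  have f1 := dd_mono hA hA' c1 c2 (fun a l => (d1 a).2 (h a l)) fun a l =>
    let ⟨g, m, n⟩ := (d2 a).1 l
    k a g m.2 n
  rw [dd_of_le (A := R) fun a l => let ⟨g, m, n⟩ := (d2 a).1 l; (d1 a).2 ⟨g, m.1, n⟩] at f1
  have f2 := Amb.ρ_mono (P.inf (P.inf hΓ hΓ') a2) (P.inf hΓ a2) (inf_le_inf_right _ inf_le_left)
  have f3 := dd_inf hΓ (P.inf hΓ hΓ') a1
  rw [dd_of_le (inf_le_inf_right _ inf_le_left), dd_of_le inf_le_left, ← dd_eq hΓ hΓ'] at f3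
  linarith

/-- Preimages under definable maps. -/
theorem dd_comap {f : X → Y} {Γ Γ' : AddSubgroup Y} (hf : P.Fn f) (hΓ : P.df Γ)
    (hΓ' : P.df Γ') (hA : P.df A) (hA' : P.df A') (h : ∀ a ∈ A, f a ∈ Γ)
    (k : ∀ a ∈ A, f a ∈ Γ' → a ∈ A') : dd A A' ≤ dd Γ Γ' := by
  obtain ⟨Z, a, b⟩ : P.D fun z : X × Y => z.1 ∈ A ∧ f z.1 = z.2 :=
    (PP.D.mem hA (by fun_prop)).and hf
  exact dd_rel a hΓ hΓ' hA hA' (fun x l => ⟨_, h x l, (b _).2 ⟨l, rfl⟩⟩) fun x g l m =>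
    k x ((b _).1 m).1 (((b _).1 m).2.symm ▸ l)

/-- Images under definable maps. -/
theorem dd_map {f : Y → X} {Γ Γ' : AddSubgroup Y} (hf : P.Fn f) (hΓ : P.df Γ)
    (hΓ' : P.df Γ') (hA : P.df A) (hA' : P.df A') (h : ∀ a ∈ A, ∃ g ∈ Γ, f g = a)
    (k : ∀ g ∈ Γ', f g ∈ A') : dd A A' ≤ dd Γ Γ' := by
  obtain ⟨Z, a, b⟩ : P.D fun z : X × Y => f z.2 = z.1 := PP.D.eq (by fun_prop) (by fun_prop)
  exact dd_rel a hΓ hΓ' hA hA' (fun x l => let ⟨g, m, n⟩ := h x l; ⟨g, m, (b _).2 n⟩)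
    fun x g l m => (show f g = x from (b _).1 m) ▸ k g l

theorem dd_bot : dd A ⊥ = ρ A := by simp [dd]

theorem dd_pw [Finite μ] (hA : P.df A) (hB : P.df B) :
    dd (pw A : AddSubgroup (μ → X)) (pw B) = Nat.card μ * dd A B := by
  rw [dd_eq (PP.pw hA) (PP.pw hB), dd_eq hA hB, show (pw A : AddSubgroup (μ → X)) ⊓ pw B =
    pw (A ⊓ B) from AddSubgroup.ext (by simp [forall_and]), ρ_pw hA, ρ_pw (P.inf hA hB), mul_sub]

/-- A subspace at arbitrarily small distance is contained. -/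
theorem le_of_dd_lim {ι : Type} {l : Filter ι} [l.NeBot] {r : ι → ℝ} (hA : P.df A) (hB : P.df B)
    (h : Tendsto r l (𝓝 0)) (k : ∀ᶠ i in l, dd A B ≤ r i) : A ≤ B :=
  le_of_dd hA hB (ge_of_tendsto h k)

theorem Pkg.Ok.lim {L : Cl} {p : Pkg} (h : p.Ok L) : Tendsto (fun j => ρ (p.H j)) atTop (𝓝 0) := by
  simpa [Pkg.H, fun j => ρ_prod (L.sub (h.cb.df j)) (L.sub (h.ca.df j))] using
    h.cb.lim.add h.ca.lim

omit [Std X] in
theorem Chn.small {L : Cl} {K : ℕ → AddSubgroup X} (h : Chn L K) : Small L (⨅ j, K j) :=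
  fun _ k => let ⟨j, l⟩ := (h.lim.eventually (gt_mem_nhds k)).exists
    ⟨K j, h.df j, iInf_le _ j, l⟩

omit [Std X] in
theorem Small.anti {L : Cl} (h : Small L A) (k : B ≤ A) : Small L B := fun ε l =>
  let ⟨K, a, b, c⟩ := h ε l
  ⟨K, a, k.trans b, c⟩

theorem Small.mono {L L' : Cl} (h : Small L A) (k : L.Le L') : Small L' A := fun ε l =>
  let ⟨K, a, b, c⟩ := h ε l
  ⟨K, k a, b, c⟩

theorem Small.prod {L : Cl} {C : AddSubgroup Y} (h : Small L A) (k : Small L C) :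
    Small L (A.prod C) := fun ε l =>
  let ⟨K, a, b, c⟩ := h (ε / 2) (by positivity)
  let ⟨K', a', b', c'⟩ := k (ε / 2) (by positivity)
  ⟨K.prod K', PP.prod a a', AddSubgroup.prod_mono b b', by
    rw [ρ_prod (L.sub a) (L.sub a')]; linarith⟩

theorem Small.pw [Finite μ] {L : Cl} (h : Small L A) : Small L (pw A : AddSubgroup (μ → X)) :=
  fun ε l =>
  let ⟨K, a, b, c⟩ := h (ε / (Nat.card μ + 1)) (by positivity)
  ⟨_, PP.pw a, pw_mono b, by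
    rw [ρ_pw (L.sub a)]
    rw [lt_div_iff₀ (by positivity)] at c
    nlinarith [ρ_nonneg (L.sub a)]⟩

end Z47
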